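import Mathlib

set_option autoImplicit false
open Finset Equiv

/-! # Networks (ZFLEAN, note 1604)

A network is a finite set `E` of strands (a strand is identified with its tail) together with two
permutations `b`, `w`: the strand `x` is continued by `b x` if the plate at its head is black, by `w x` if
it is white. `pi = b * w⁻¹`; the plates are the cycles of `pi` (sets of tails), the white faces are the
cycles of `b`, the black faces are the cycles of `w`. `lab x` is the label of the plate at the tail of
`x`. `i` and `o` are the two marks (strand ends): plates with one tail and one head. `cb`, `cw` are the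
indices picked up at the head of a strand. -/

namespace Pool.Agent.ZF

variable {α V : Type*}

/-! ### Paths of a map -/

/-- `n` is the first positive time at which the path of `o` is at `i`, without a return to `o`. -/
def Hits (f : α → α) (o i : α) (n : ℕ) : Prop :=
  0 < n ∧ f^[n] o = i ∧ ∀ k, 0 < k → k < n → f^[k] o ≠ o ∧ f^[k] o ≠ i

/-- the path of `o` reaches `i` (before it returns to `o`) with index `k` -/
def IsIdx (f : α → α) (c : α → ℤ) (o i : α) (k : ℤ) : Prop :=
  ∃ n, Hits f o i n ∧ ∑ j ∈ range n, c (f^[j] o) = k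

lemma Hits.unique {f : α → α} {o i : α} {n m : ℕ} (h : Hits f o i n) (h' : Hits f o i m) : n = m := by
  rcases lt_trichotomy n m with hlt | heq | hgt
  · exact absurd h.2.1 (h'.2.2 n h.1 hlt).2
  · exact heq
  · exact absurd h'.2.1 (h.2.2 m h'.1 hgt).2

lemma IsIdx.unique {f : α → α} {c : α → ℤ} {o i : α} {k l : ℤ} (h : IsIdx f c o i k)
    (h' : IsIdx f c o i l) : k = l := by
  obtain ⟨n, hn, rfl⟩ := h
  obtain ⟨m, hm, rfl⟩ := h'
  rw [hn.unique hm]

open Classical in
/-- the index of the path from `o` to `i`, `none` if `i` is not reached -/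
noncomputable def idx (f : α → α) (c : α → ℤ) (o i : α) : Option ℤ :=
  if h : ∃ k, IsIdx f c o i k then some h.choose else none

lemma idx_eq_some {f : α → α} {c : α → ℤ} {o i : α} {k : ℤ} :
    idx f c o i = some k ↔ IsIdx f c o i k := by
  unfold idx
  split_ifs with h
  · constructor
    · intro h1
      rw [← Option.some.inj h1]; exact h.choose_spec
    · intro h1
      rw [h.choose_spec.unique h1]
  · constructor
    · intro h1; exact absurd h1 (by simp)
    · intro h1; exact absurd ⟨k, h1⟩ h

lemma idx_congr {f f' : α → α} {c c' : α → ℤ} {o i : α}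
    (h : ∀ k, IsIdx f c o i k ↔ IsIdx f' c' o i k) : idx f c o i = idx f' c' o i := by
  rcases h1 : idx f c o i with _ | k
  · rcases h2 : idx f' c' o i with _ | l
    · rfl
    · rw [idx_eq_some, ← h, ← idx_eq_some, h1] at h2
      exact absurd h2 (by simp)
  · rw [idx_eq_some, h, ← idx_eq_some] at h1
    rw [h1]

/-! ### Networks -/

/-- A network (well formed, no planarity). -/
structure Net (α V : Type*) where
  E : Finset α
  b : Perm α
  w : Perm α
  cb : α → ℤ
  cw : α → ℤ
  lab : α → V
  i : α
  o : α
  hb : ∀ x, x ∉ E → b x = x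
  hw : ∀ x, x ∉ E → w x = x
  hlab : ∀ x, lab (b x) = lab (w x)
  hi : i ∈ E
  ho : o ∈ E
  hio : i ≠ o
  /-- `i` is a plate with one tail -/
  mi : b⁻¹ i = w⁻¹ i
  /-- `o` is a plate with one tail -/
  mo : b⁻¹ o = w⁻¹ o
  ci : cb (w⁻¹ i) = cw (w⁻¹ i)
  co : cb (w⁻¹ o) = cw (w⁻¹ o)

namespace Net

variable (N : Net α V)

/-- the rotation of the tails around the plates -/
def pi : Perm α := N.b * N.w⁻¹

variable [DecidableEq α] [DecidableEq V]

/-- the tails at free plates -/
def T : Finset α := (N.E.erase N.i).erase N.o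

/-- the labels of the free plates -/
def L : Finset V := N.T.image N.lab

/-- next strand in the state `S` (= set of labels of the black plates) -/
def step (S : Finset V) (x : α) : α := if N.lab (N.w x) ∈ S then N.b x else N.w x

/-- index picked up at the head of `x` in the state `S` -/
def cost (S : Finset V) (x : α) : ℤ := if N.lab (N.w x) ∈ S then N.cb x else N.cw x

/-- index of the state `S` -/
noncomputable def K (S : Finset V) : Option ℤ := idx (N.step S) (N.cost S) N.o N.i

/-- partition function at weights `t` and the point `y` -/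
noncomputable def Z (t : V → ℝ) (y : ℂ) : ℂ :=
  ∑ S ∈ N.L.powerset, ((∏ v ∈ S, (t v : ℂ)) * (match N.K S with | none => 0 | some k => y ^ k))

/-- Every free plate is one cycle of `pi`. -/
def Sep : Prop := ∀ x ∈ N.T, ∀ y ∈ N.T, N.lab x = N.lab y → N.pi.SameCycle x y

/-! ### Cycles -/

/-- the cycle of `x` in `E` -/
noncomputable def cyc (E : Finset α) (σ : Perm α) (x : α) : Finset α := by
  classical exact E.filter (fun y => σ.SameCycle x y)

/-- the cycles in `E` (fixed points of `σ` in `E` are cycles) -/
noncomputable def cycs (E : Finset α) (σ : Perm α) : Finset (Finset α) := E.image (cyc E σ)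

/-- the network is connected -/
def Conn : Prop := ∀ X ⊆ N.E, X.Nonempty → (∀ x ∈ X, N.b x ∈ X ∧ N.w x ∈ X) → X = N.E

/-- **Planar networks.** -/
structure Pl : Prop where
  sep : N.Sep
  conn : N.Conn
  euler : (cycs N.E N.b).card + (cycs N.E N.w).card + (cycs N.E N.pi).card = N.E.card + 2
  plate : ∀ x ∈ N.E, ∑ y ∈ cyc N.E N.pi x, (N.cw (N.w⁻¹ y) - N.cb (N.w⁻¹ y)) =
    4 * (((cyc N.E N.pi x).card : ℤ) - 1)
  black : ∀ x ∈ N.E, ∑ y ∈ cyc N.E N.w x, N.cw y = 4
  white : ∀ x ∈ N.E, ∑ y ∈ cyc N.E N.b x, N.cb y = if N.o ∈ cyc N.E N.b x then 4 else -4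

/-- all states are dead -/
def Dead : Prop := ∀ S ⊆ N.L, N.K S = none

/-- zero-free -/
def Good : Prop := N.Dead ∨ ∀ t : V → ℝ, (∀ v, 0 < t v) → ∀ y : ℂ, y ≠ 0 → |y.arg| < Real.pi / 4 →
  N.Z t y ≠ 0

end Net

/-- delete the point `x` from the permutation `σ` -/
def del [DecidableEq α] (x : α) (σ : Perm α) : Perm α := swap x (σ x) * σ

lemma del_self [DecidableEq α] (x : α) (σ : Perm α) : del x σ x = x := by
  unfold del; simp

lemma del_of_eq [DecidableEq α] {x y : α} {σ : Perm α} (h : σ y = x) : del x σ y = σ x := by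
  unfold del; simp [h]

lemma del_of_ne [DecidableEq α] {x y : α} {σ : Perm α} (h : σ y ≠ x) (hy : y ≠ x) :
    del x σ y = σ y := by
  unfold del
  rw [Perm.mul_apply, swap_apply_of_ne_of_ne h (fun h1 => hy (σ.injective h1))]

end Pool.Agent.ZF
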