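import Mathlib
import Pool.Agent.ZF.Net

set_option autoImplicit false
open Finset Equiv

/-! # Gauss-Bonnet for networks

If the plates satisfy the plate condition, every white loop has total at most `4`, every black loop has
total at least `-4`, the black loop of the root has total at least `4` and the genus is nonnegative
(Ree's inequality), then the Euler equality holds and all totals are exact (`gauss`). -/

namespace Pool.Agent.ZF
namespace Net

variable {α V : Type*}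

section cyc

variable {E : Finset α} {σ : Perm α}

lemma mem_cyc {x y : α} : y ∈ cyc E σ x ↔ y ∈ E ∧ σ.SameCycle x y := by
  unfold cyc; simp only [mem_filter]

lemma self_mem_cyc {x : α} (hx : x ∈ E) : x ∈ cyc E σ x := mem_cyc.2 ⟨hx, Perm.SameCycle.refl _ _⟩

lemma cyc_congr {x y : α} (h : σ.SameCycle x y) : cyc E σ x = cyc E σ y := by
  ext z
  rw [mem_cyc, mem_cyc]
  exact ⟨fun h1 => ⟨h1.1, h.symm.trans h1.2⟩, fun h1 => ⟨h1.1, h.trans h1.2⟩⟩

lemma cyc_eq_iff {x y : α} (hy : y ∈ E) : cyc E σ x = cyc E σ y ↔ σ.SameCycle x y := by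
  refine ⟨fun h => ?_, cyc_congr⟩
  have h1 : y ∈ cyc E σ x := by rw [h]; exact self_mem_cyc hy
  exact (mem_cyc.1 h1).2

variable [DecidableEq α]

lemma mem_cycs {c : Finset α} : c ∈ cycs E σ ↔ ∃ x ∈ E, cyc E σ x = c := by
  unfold cycs; rw [mem_image]

lemma cyc_mem_cycs {x : α} (hx : x ∈ E) : cyc E σ x ∈ cycs E σ := mem_cycs.2 ⟨x, hx, rfl⟩

/-- the element of a cycle determines it -/
lemma eq_cyc_of_mem {c : Finset α} (hc : c ∈ cycs E σ) {x : α} (hx : x ∈ c) : c = cyc E σ x := by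
  obtain ⟨z, -, rfl⟩ := mem_cycs.1 hc
  exact cyc_congr (mem_cyc.1 hx).2

/-- a sum over `E` is the sum over the cycles of the sums over the cycles -/
lemma sum_cycs {M : Type*} [AddCommMonoid M] (g : α → M) :
    ∑ c ∈ cycs E σ, ∑ y ∈ c, g y = ∑ y ∈ E, g y := by
  rw [← Finset.sum_fiberwise_of_maps_to (s := E) (t := cycs E σ) (g := cyc E σ)
    (fun x hx => cyc_mem_cycs hx) g]
  refine Finset.sum_congr rfl fun c hc => Finset.sum_congr ?_ fun _ _ => rfl
  ext y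
  rw [mem_filter]
  constructor
  · intro hy
    have h1 := eq_cyc_of_mem hc hy
    refine ⟨?_, h1.symm⟩
    rw [h1] at hy; exact (mem_cyc.1 hy).1
  · rintro ⟨h1, h2⟩
    rw [← h2]; exact self_mem_cyc h1

/-- the sum over a cycle as a sum over the time -/
lemma sum_cyc_eq {M : Type*} [AddCommMonoid M] (g : α → M) {f : α → α} (hf : ∀ x ∈ E, σ x = f x)
    (hE : ∀ x ∈ E, σ x ∈ E) {x : α} (hx : x ∈ E) {L : ℕ} (h0 : 0 < L) (hper : f^[L] x = x)
    (hinj : ∀ i j, i < j → j < L → f^[i] x ≠ f^[j] x) :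
    ∑ y ∈ cyc E σ x, g y = ∑ j ∈ range L, g (f^[j] x) := by
  have h1 : ∀ j : ℕ, f^[j] x ∈ E ∧ (σ ^ j) x = f^[j] x := by
    intro j
    induction j with
    | zero => exact ⟨hx, rfl⟩
    | succ j ih =>
      rw [Function.iterate_succ_apply', pow_succ', Perm.mul_apply, ih.2]
      exact ⟨by rw [← hf _ ih.1]; exact hE _ ih.1, hf _ ih.1⟩
  have h2 : cyc E σ x = (range L).image (fun j => f^[j] x) := by
    ext y
    rw [mem_cyc, mem_image]
    constructor
    · rintro ⟨-, k, hk⟩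
      have hL : (σ ^ (L : ℤ)) x = x := by
        rw [zpow_natCast, (h1 L).2, hper]
      have hr0 := Int.emod_nonneg k (show (L : ℤ) ≠ 0 by omega)
      have hr1 := Int.emod_lt_of_pos k (show (0 : ℤ) < L by omega)
      refine ⟨(k % L).toNat, mem_range.2 (by omega), ?_⟩
      show f^[(k % L).toNat] x = y
      rw [← (h1 _).2, ← zpow_natCast, Int.toNat_of_nonneg hr0, ← hk]
      conv_rhs => rw [← Int.emod_add_mul_ediv k L, zpow_add, zpow_mul, Perm.mul_apply,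
        Perm.zpow_apply_eq_self_of_apply_eq_self hL]
    · rintro ⟨j, -, rfl⟩
      exact ⟨(h1 j).1, (j : ℤ), by rw [zpow_natCast]; exact (h1 j).2⟩
  rw [h2, Finset.sum_image]
  intro i hi j hj hij
  simp only [coe_range, Set.mem_Iio] at hi hj
  rcases lt_trichotomy i j with h | h | h
  · exact absurd hij (hinj i j h hj)
  · exact h
  · exact absurd hij.symm (hinj j i h hi)

end cyc

variable [DecidableEq α] (N : Net α V)

lemma w_mem_iff {x : α} : N.w x ∈ N.E ↔ x ∈ N.E := by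
  constructor
  · intro h
    by_contra hx
    rw [N.hw x hx] at h; exact hx h
  · intro hx
    by_contra h
    have h1 := N.w.injective (N.hw _ h)
    rw [h1] at h; exact h hx

lemma b_mem_iff {x : α} : N.b x ∈ N.E ↔ x ∈ N.E := by
  constructor
  · intro h
    by_contra hx
    rw [N.hb x hx] at h; exact hx h
  · intro hx
    by_contra h
    have h1 := N.b.injective (N.hb _ h)
    rw [h1] at h; exact h hx

lemma winv_mem_iff {x : α} : N.w⁻¹ x ∈ N.E ↔ x ∈ N.E := by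
  rw [← N.w_mem_iff]; exact iff_of_eq (congrArg (· ∈ N.E) (N.w.apply_symm_apply x))

lemma binv_mem_iff {x : α} : N.b⁻¹ x ∈ N.E ↔ x ∈ N.E := by
  rw [← N.b_mem_iff]; exact iff_of_eq (congrArg (· ∈ N.E) (N.b.apply_symm_apply x))

/-- reindexing by `w⁻¹` -/
lemma sum_winv (g : α → ℤ) : ∑ x ∈ N.E, g (N.w⁻¹ x) = ∑ x ∈ N.E, g x := by
  refine Finset.sum_bij (fun x _ => N.w⁻¹ x) ?_ ?_ ?_ ?_
  · intro x hx; exact N.winv_mem_iff.2 hx
  · intro x _ y _ h; exact (N.w⁻¹).injective h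
  · intro y hy
    exact ⟨N.w y, N.w_mem_iff.2 hy, N.w.symm_apply_apply y⟩
  · intro x _; rfl

/-- **Gauss-Bonnet.** -/
theorem gauss
    (hp : ∀ x ∈ N.E, ∑ y ∈ cyc N.E N.pi x, (N.cw (N.w⁻¹ y) - N.cb (N.w⁻¹ y)) =
      4 * (((cyc N.E N.pi x).card : ℤ) - 1))
    (hw : ∀ x ∈ N.E, ∑ y ∈ cyc N.E N.w x, N.cw y ≤ 4)
    (hb : ∀ x ∈ N.E, -4 ≤ ∑ y ∈ cyc N.E N.b x, N.cb y)
    (ho : 4 ≤ ∑ y ∈ cyc N.E N.b N.o, N.cb y)
    (ree : (cycs N.E N.b).card + (cycs N.E N.w).card + (cycs N.E N.pi).card ≤ N.E.card + 2) :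
    (cycs N.E N.b).card + (cycs N.E N.w).card + (cycs N.E N.pi).card = N.E.card + 2 ∧
    (∀ x ∈ N.E, ∑ y ∈ cyc N.E N.w x, N.cw y = 4) ∧
    (∀ x ∈ N.E, ∑ y ∈ cyc N.E N.b x, N.cb y = if N.o ∈ cyc N.E N.b x then 4 else -4) := by
  classical
  -- the plates
  have h1 : ∑ x ∈ N.E, (N.cw (N.w⁻¹ x) - N.cb (N.w⁻¹ x)) =
      4 * (N.E.card : ℤ) - 4 * ((cycs N.E N.pi).card : ℤ) := by
    rw [← sum_cycs (σ := N.pi)]
    have e1 : ∀ c ∈ cycs N.E N.pi, ∑ y ∈ c, (N.cw (N.w⁻¹ y) - N.cb (N.w⁻¹ y)) =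
        4 * ((c.card : ℤ) - 1) := by
      intro c hc
      obtain ⟨x, hx, rfl⟩ := mem_cycs.1 hc
      exact hp x hx
    rw [Finset.sum_congr rfl e1, ← Finset.mul_sum, Finset.sum_sub_distrib, Finset.sum_const,
      nsmul_eq_mul, mul_one]
    have e2 : ∑ c ∈ cycs N.E N.pi, (c.card : ℤ) = (N.E.card : ℤ) := by
      have e3 := sum_cycs (E := N.E) (σ := N.pi) (fun _ => (1 : ℤ))
      simp only [Finset.sum_const, nsmul_eq_mul, mul_one] at e3
      exact e3
    rw [e2]; ring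
  have h2 : ∑ x ∈ N.E, (N.cw (N.w⁻¹ x) - N.cb (N.w⁻¹ x)) =
      ∑ x ∈ N.E, N.cw x - ∑ x ∈ N.E, N.cb x := by
    rw [N.sum_winv (fun x => N.cw x - N.cb x), Finset.sum_sub_distrib]
  -- the white loops
  have h3 : ∑ c ∈ cycs N.E N.w, (4 - ∑ y ∈ c, N.cw y) =
      4 * ((cycs N.E N.w).card : ℤ) - ∑ x ∈ N.E, N.cw x := by
    rw [Finset.sum_sub_distrib, sum_cycs, Finset.sum_const, nsmul_eq_mul]; ring
  -- the black loops
  have h4 : ∑ c ∈ cycs N.E N.b, (if N.o ∈ c then (8 : ℤ) else 0) = 8 := by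
    rw [Finset.sum_eq_single (cyc N.E N.b N.o)]
    · rw [if_pos (self_mem_cyc N.ho)]
    · intro c hc hne
      rw [if_neg]
      intro h
      exact hne (eq_cyc_of_mem hc h)
    · intro h
      exact absurd (cyc_mem_cycs N.ho) h
  have h5 : ∑ c ∈ cycs N.E N.b, (4 + ∑ y ∈ c, N.cb y - (if N.o ∈ c then (8 : ℤ) else 0)) =
      4 * ((cycs N.E N.b).card : ℤ) + ∑ x ∈ N.E, N.cb x - 8 := by
    rw [Finset.sum_sub_distrib, Finset.sum_add_distrib, sum_cycs, h4, Finset.sum_const,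
      nsmul_eq_mul]; ring
  have p3 : ∀ c ∈ cycs N.E N.w, 0 ≤ 4 - ∑ y ∈ c, N.cw y := by
    intro c hc
    obtain ⟨x, hx, rfl⟩ := mem_cycs.1 hc
    have := hw x hx
    omega
  have p5 : ∀ c ∈ cycs N.E N.b, 0 ≤ 4 + ∑ y ∈ c, N.cb y - (if N.o ∈ c then (8 : ℤ) else 0) := by
    intro c hc
    by_cases h : N.o ∈ c
    · rw [eq_cyc_of_mem hc h, if_pos (self_mem_cyc N.ho)]
      omega
    · rw [if_neg h]
      obtain ⟨x, hx, rfl⟩ := mem_cycs.1 hc
      have := hb x hx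
      omega
  have s3 := Finset.sum_nonneg p3
  have s5 := Finset.sum_nonneg p5
  have hree : ((cycs N.E N.b).card : ℤ) + (cycs N.E N.w).card + (cycs N.E N.pi).card ≤
      N.E.card + 2 := by exact_mod_cast ree
  have z3 : ∑ c ∈ cycs N.E N.w, (4 - ∑ y ∈ c, N.cw y) = 0 := by
    rw [h3] at s3 ⊢; rw [h5] at s5; rw [h2] at h1; linarith
  have z5 : ∑ c ∈ cycs N.E N.b, (4 + ∑ y ∈ c, N.cb y - (if N.o ∈ c then (8 : ℤ) else 0)) = 0 := by
    rw [h3] at s3; rw [h5] at s5 ⊢; rw [h2] at h1; linarith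
  refine ⟨?_, ?_, ?_⟩
  · rw [h3] at z3; rw [h5] at z5; rw [h2] at h1
    have : ((cycs N.E N.b).card : ℤ) + (cycs N.E N.w).card + (cycs N.E N.pi).card =
        N.E.card + 2 := by linarith
    exact_mod_cast this
  · intro x hx
    have h6 := (Finset.sum_eq_zero_iff_of_nonneg p3).1 z3 _ (cyc_mem_cycs hx)
    omega
  · intro x hx
    have h6 := (Finset.sum_eq_zero_iff_of_nonneg p5).1 z5 _ (cyc_mem_cycs hx)
    by_cases h : N.o ∈ cyc N.E N.b x
    · rw [if_pos h] at h6 ⊢; omega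
    · rw [if_neg h] at h6 ⊢; omega

end Net
end Pool.Agent.ZF
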