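import Mathlib
import Pool.Agent.ZF.GB
import Pool.Agent.Q1.Plane
import Pool.Agent.H75.Perc.Dom

set_option autoImplicit false
open Finset Equiv

/-! # The network of a plane environment

`A ⊆ C` finite sets of labels of `ℤ²`: `A` is open, the labels outside `C` are closed, `C \ A` is random.
The strands are the corners which are reached from the root corner `c0`; `b = nx C`, `w = nx A`. -/

namespace Pool.Agent.ZF

open Pool.Agent.H75.Perc Pool.Agent.H75.TwoArm Pool.Agent.H75.Four Pool.Agent.H69.Q1 Pool.Agent.Q1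
open Pool.Agent.H75.TwoArm.StrandAux hiding vx_nxC
open Pool.Agent.H75.Four.FOtherAux

/-! ### Corners reached from the root -/

section reach

variable {A C : Finset (ℤ × ℤ)} {c0 : ℤ × ℤ}

/-- reached from `c0` -/
def Rch (A C : Finset (ℤ × ℤ)) (c0 x : ℤ × ℤ) : Prop :=
  Relation.ReflTransGen (fun x y => y = nx A x ∨ y = nx C x) c0 x

/-- the corners reached from `c0` -/
noncomputable def GC (A C : Finset (ℤ × ℤ)) (c0 : ℤ × ℤ) : Finset (ℤ × ℤ) := by
  classical exact (PS C (vx c0)).filter (Rch A C c0)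

lemma mem_GC (hAC : A ⊆ C) {x : ℤ × ℤ} : x ∈ GC A C c0 ↔ Rch A C c0 x := by
  unfold GC
  simp only [mem_filter, and_iff_right_iff_imp]
  intro h
  induction h with
  | refl => exact mem_PS.2 (mem_insert_self _ _)
  | tail _ h ih =>
    rcases h with h | h
    · rw [h]; exact PS_nx hAC ih
    · rw [h]; exact PS_nx (Finset.Subset.refl C) ih

lemma c0_mem_GC (hAC : A ⊆ C) : c0 ∈ GC A C c0 := (mem_GC hAC).2 Relation.ReflTransGen.refl

lemma nxA_mem (hAC : A ⊆ C) {x : ℤ × ℤ} (h : x ∈ GC A C c0) : nx A x ∈ GC A C c0 := by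
  rw [mem_GC hAC] at h ⊢
  exact Relation.ReflTransGen.tail h (Or.inl rfl)

lemma nxC_mem (hAC : A ⊆ C) {x : ℤ × ℤ} (h : x ∈ GC A C c0) : nx C x ∈ GC A C c0 := by
  rw [mem_GC hAC] at h ⊢
  exact Relation.ReflTransGen.tail h (Or.inr rfl)

/-- a finite set closed under `nx w` is closed under `pv w` -/
lemma pv_closed {w : Finset (ℤ × ℤ)} {G : Finset (ℤ × ℤ)} (h : ∀ x ∈ G, nx w x ∈ G) {x : ℤ × ℤ}
    (hx : x ∈ G) : pv w x ∈ G := by
  have h1 : G.image (nx w) = G := by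
    apply Finset.eq_of_subset_of_card_le
    · intro y hy
      rw [mem_image] at hy
      obtain ⟨z, hz, rfl⟩ := hy
      exact h z hz
    · rw [Finset.card_image_of_injective _ (nx_injective w)]
  rw [← h1, mem_image] at hx
  obtain ⟨z, hz, rfl⟩ := hx
  rw [pv_nx]; exact hz

/-- the restriction of `nx w` to a finite closed set -/
def nxR (w : Finset (ℤ × ℤ)) (G : Finset (ℤ × ℤ)) (h : ∀ x ∈ G, nx w x ∈ G) : Perm (ℤ × ℤ) where
  toFun x := if x ∈ G then nx w x else x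
  invFun x := if x ∈ G then pv w x else x
  left_inv x := by
    by_cases hx : x ∈ G
    · simp only [if_pos hx, if_pos (h x hx), pv_nx]
    · simp only [if_neg hx]
  right_inv x := by
    by_cases hx : x ∈ G
    · simp only [if_pos hx, if_pos (pv_closed h hx), nx_pv]
    · simp only [if_neg hx]

variable {w G : Finset (ℤ × ℤ)} {h : ∀ x ∈ G, nx w x ∈ G}

lemma nxR_in {x : ℤ × ℤ} (hx : x ∈ G) : nxR w G h x = nx w x := if_pos hx
lemma nxR_out {x : ℤ × ℤ} (hx : x ∉ G) : nxR w G h x = x := if_neg hx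
lemma nxR_inv_in {x : ℤ × ℤ} (hx : x ∈ G) : (nxR w G h)⁻¹ x = pv w x := if_pos hx

lemma nx_of_in {w : Finset (ℤ × ℤ)} {x : ℤ × ℤ} (h : lab x ∈ w) : nx w x = nxO x := if_pos h
lemma nx_of_out {w : Finset (ℤ × ℤ)} {x : ℤ × ℤ} (h : lab x ∉ w) : nx w x = nxC x := if_neg h

lemma nx_eq_of_iff {w w' : Finset (ℤ × ℤ)} {x : ℤ × ℤ} (h : lab x ∈ w ↔ lab x ∈ w') :
    nx w x = nx w' x := by
  unfold nx; simp only [h]

lemma del_eq_of_iff {w w' : Finset (ℤ × ℤ)} {x : ℤ × ℤ} (h : lab x ∈ w ↔ lab x ∈ w') :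
    H75.Perc.del w x = H75.Perc.del w' x := by
  unfold H75.Perc.del; simp only [h]

lemma pv_eq_of_iff {w w' : Finset (ℤ × ℤ)} {x : ℤ × ℤ} (h : plab x ∈ w ↔ plab x ∈ w') :
    pv w x = pv w' x := by
  apply nx_injective w
  rw [nx_pv, nx_eq_of_iff (w := w) (w' := w') (by rw [lab_pv]; exact h), nx_pv]

end reach

/-- Data of the network: `A ⊆ C`, the root `c0` and the mark `i`. -/
structure Dat where
  A : Finset (ℤ × ℤ)
  C : Finset (ℤ × ℤ)
  hAC : A ⊆ C
  c0 : ℤ × ℤ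
  i : ℤ × ℤ
  h0 : plab c0 ∈ A ↔ plab c0 ∈ C
  h1 : plab i ∈ A ↔ plab i ∈ C
  hi : i ∈ GC A C c0
  hne : i ≠ c0

namespace Dat

variable (D : Dat)

/-- the strands -/
noncomputable def G : Finset (ℤ × ℤ) := GC D.A D.C D.c0

/-- label of the plate at the tail of `x` -/
noncomputable def lb (x : ℤ × ℤ) : (ℤ × ℤ) ⊕ (ℤ × ℤ) :=
  if x ∈ D.G ∧ plab x ∈ D.C \ D.A then Sum.inl (plab x) else Sum.inr x

variable {D}

lemma nxA {x : ℤ × ℤ} (h : x ∈ D.G) : nx D.A x ∈ D.G := nxA_mem D.hAC h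
lemma nxB {x : ℤ × ℤ} (h : x ∈ D.G) : nx D.C x ∈ D.G := nxC_mem D.hAC h

lemma iff_of {e : ℤ × ℤ} (h : e ∉ D.C \ D.A) : e ∈ D.A ↔ e ∈ D.C := by
  rw [mem_sdiff, not_and_not_right] at h
  exact ⟨fun h1 => D.hAC h1, h⟩

lemma nx_same {x : ℤ × ℤ} (h : lab x ∉ D.C \ D.A) : nx D.C x = nx D.A x :=
  (nx_eq_of_iff (iff_of h)).symm

variable (D)

/-- the network -/
noncomputable def net : Net (ℤ × ℤ) ((ℤ × ℤ) ⊕ (ℤ × ℤ)) where
  E := D.G
  b := nxR D.C D.G (fun _ h => nxB h)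
  w := nxR D.A D.G (fun _ h => nxA h)
  cb := H75.Perc.del D.C
  cw := H75.Perc.del D.A
  lab := D.lb
  i := D.i
  o := D.c0
  hb := fun _ h => nxR_out h
  hw := fun _ h => nxR_out h
  hlab := by
    intro x
    by_cases hx : x ∈ D.G
    · rw [nxR_in hx, nxR_in hx]
      by_cases hl : lab x ∈ D.C \ D.A
      · unfold lb
        rw [plab_nx, plab_nx, if_pos ⟨nxB hx, hl⟩, if_pos ⟨nxA hx, hl⟩]
      · rw [nx_same hl]
    · rw [nxR_out hx, nxR_out hx]
  hi := D.hi
  ho := c0_mem_GC D.hAC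
  hio := D.hne
  mi := by
    have h : D.i ∈ D.G := D.hi
    rw [nxR_inv_in h, nxR_inv_in h]; exact (pv_eq_of_iff D.h1).symm
  mo := by
    have h : D.c0 ∈ D.G := c0_mem_GC D.hAC
    rw [nxR_inv_in h, nxR_inv_in h]; exact (pv_eq_of_iff D.h0).symm
  ci := by
    have h : D.i ∈ D.G := D.hi
    rw [nxR_inv_in h]; exact (del_eq_of_iff (by rw [lab_pv]; exact D.h1)).symm
  co := by
    have h : D.c0 ∈ D.G := c0_mem_GC D.hAC
    rw [nxR_inv_in h]; exact (del_eq_of_iff (by rw [lab_pv]; exact D.h0)).symm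

variable {D}

lemma b_in {x : ℤ × ℤ} (hx : x ∈ D.G) : D.net.b x = nx D.C x :=
  nxR_in (h := fun _ h => nxB h) hx
lemma w_in {x : ℤ × ℤ} (hx : x ∈ D.G) : D.net.w x = nx D.A x :=
  nxR_in (h := fun _ h => nxA h) hx
lemma winv_in {x : ℤ × ℤ} (hx : x ∈ D.G) : D.net.w⁻¹ x = pv D.A x :=
  nxR_inv_in (h := fun _ h => nxA h) hx

lemma pvA {x : ℤ × ℤ} (h : x ∈ D.G) : pv D.A x ∈ D.G := pv_closed (fun _ h => nxA h) h

lemma pi_in {x : ℤ × ℤ} (hx : x ∈ D.G) : D.net.pi x = nx D.C (pv D.A x) := by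
  unfold Net.pi
  rw [Perm.mul_apply, winv_in hx, b_in (pvA hx)]

/-- trivial plates -/
lemma pi_triv {x : ℤ × ℤ} (hx : x ∈ D.G) (h : plab x ∉ D.C \ D.A) : D.net.pi x = x := by
  rw [pi_in hx, nx_same (by rw [lab_pv]; exact h), nx_pv]

/-- tiles: the data of a plate with two tails -/
lemma pi_tile {x : ℤ × ℤ} (hx : x ∈ D.G) (h : plab x ∈ D.C \ D.A) :
    D.net.pi x ∈ D.G ∧ D.net.pi x ≠ x ∧ D.net.pi (D.net.pi x) = x ∧ plab (D.net.pi x) = plab x ∧
      (∀ y, plab y = plab x → y = x ∨ y = D.net.pi x) := by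
  rw [mem_sdiff] at h
  set k := pv D.A x with hk
  have hkG : k ∈ D.G := pvA hx
  have hl : lab k = plab x := lab_pv _ _
  have e1 : nxC k = x := by
    have := nx_pv D.A x
    rw [← hk, nx_of_out (by rw [hl]; exact h.2)] at this
    exact this
  have e2 : D.net.pi x = nxC (opc k) := by
    rw [pi_in hx, ← hk, nx_of_in (by rw [hl]; exact h.1), nxC_eq_nxO, opc_opc]
  have hG : D.net.pi x ∈ D.G := by rw [pi_in hx]; exact nxB hkG
  have e3 : nx D.A (opc k) = D.net.pi x := by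
    rw [nx_of_out (by rw [lab_opc, hl]; exact h.2), e2]
  have e4 : nx D.A k = x := nx_pv D.A x
  have e5 : pv D.A (D.net.pi x) = opc k := by rw [← e3, pv_nx]
  refine ⟨hG, ?_, ?_, ?_, ?_⟩
  · intro h1
    rw [← e3, ← e4] at h1
    exact opc_ne k (nx_injective D.A h1)
  · rw [pi_in hG, e5, nx_of_in (by rw [lab_opc, hl]; exact h.1), ← nxC_eq_nxO, e1]
  · rw [← e3, plab_nx, lab_opc, hl]
  · intro y hy
    have h3 : lab (pv D.A y) = lab k := by rw [lab_pv, hy, hl]
    rcases lab_eq_iff.1 h3 with h4 | h4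
    · left; rw [← nx_pv D.A y, h4]; exact e4
    · right; rw [← nx_pv D.A y, h4]; exact e3

/-! ### The plane class -/

lemma same_triv {x y : ℤ × ℤ} (hx : x ∈ D.G) (h : plab x ∉ D.C \ D.A) :
    D.net.pi.SameCycle x y ↔ y = x := by
  constructor
  · rintro ⟨k, hk⟩
    rw [← hk, Perm.zpow_apply_eq_self_of_apply_eq_self (pi_triv hx h)]
  · intro h1; rw [h1]

lemma same_tile {x y : ℤ × ℤ} (hx : x ∈ D.G) (h : plab x ∈ D.C \ D.A) :
    D.net.pi.SameCycle x y ↔ y = x ∨ y = D.net.pi x := by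
  obtain ⟨-, -, h3, -, -⟩ := pi_tile hx h
  have h2 : (D.net.pi ^ 2) x = x := by rw [pow_two, Perm.mul_apply, h3]
  constructor
  · rintro ⟨k, hk⟩
    obtain ⟨m, rfl | rfl⟩ := Int.even_or_odd' k
    · left
      rw [← hk, zpow_mul]
      exact Perm.zpow_apply_eq_self_of_apply_eq_self (by exact_mod_cast h2) m
    · right
      rw [← hk, add_comm, zpow_add, zpow_mul, Perm.mul_apply,
        Perm.zpow_apply_eq_self_of_apply_eq_self (by exact_mod_cast h2) m, zpow_one]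
  · rintro (h1 | h1)
    · rw [h1]
    · exact ⟨1, by rw [h1, zpow_one]⟩

lemma sep : D.net.Sep := by
  intro x hx y hy hxy
  have hx' : x ∈ D.G := mem_of_mem_erase (mem_of_mem_erase hx)
  have hy' : y ∈ D.G := mem_of_mem_erase (mem_of_mem_erase hy)
  change D.lb x = D.lb y at hxy
  unfold lb at hxy
  by_cases h : plab x ∈ D.C \ D.A
  · rw [if_pos ⟨hx', h⟩] at hxy
    by_cases h' : plab y ∈ D.C \ D.A
    · rw [if_pos ⟨hy', h'⟩] at hxy
      obtain ⟨-, -, -, -, h5⟩ := pi_tile hx' h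
      exact (same_tile hx' h).2 (h5 y (Sum.inl.inj hxy).symm)
    · rw [if_neg (fun h1 => h' h1.2)] at hxy
      exact absurd hxy (by simp)
  · rw [if_neg (fun h1 => h h1.2)] at hxy
    by_cases h' : plab y ∈ D.C \ D.A
    · rw [if_pos ⟨hy', h'⟩] at hxy
      exact absurd hxy (by simp)
    · rw [if_neg (fun h1 => h' h1.2)] at hxy
      rw [Sum.inr.inj hxy]

lemma conn : D.net.Conn := by
  intro X hX hne hcl
  have hA : ∀ x ∈ X, nx D.A x ∈ X := fun x hx => by rw [← w_in (hX hx)]; exact (hcl x hx).2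
  have hC : ∀ x ∈ X, nx D.C x ∈ X := fun x hx => by rw [← b_in (hX hx)]; exact (hcl x hx).1
  have h1 : ∀ x, Rch D.A D.C D.c0 x → x ∈ X → D.c0 ∈ X := by
    intro x hx
    induction hx with
    | refl => exact id
    | @tail y z _ hyz ih =>
      intro hz
      apply ih
      rcases hyz with h | h
      · have := pv_closed hA hz
        rwa [h, pv_nx] at this
      · have := pv_closed hC hz
        rwa [h, pv_nx] at this
  obtain ⟨x, hx⟩ := hne
  have h0 : D.c0 ∈ X := h1 x ((mem_GC D.hAC).1 (hX hx)) hx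
  have h2 : ∀ x, Rch D.A D.C D.c0 x → x ∈ X := by
    intro x hx
    induction hx with
    | refl => exact h0
    | tail _ hyz ih =>
      rcases hyz with h | h
      · rw [h]; exact hA _ ih
      · rw [h]; exact hC _ ih
  exact Finset.Subset.antisymm hX (fun x hx => h2 x ((mem_GC D.hAC).1 hx))

lemma cost_diff {x : ℤ × ℤ} (hx : x ∈ D.G) : D.net.cw (D.net.w⁻¹ x) - D.net.cb (D.net.w⁻¹ x) =
    if plab x ∈ D.C \ D.A then 2 else 0 := by
  rw [winv_in hx]
  change H75.Perc.del D.A (pv D.A x) - H75.Perc.del D.C (pv D.A x) = _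
  unfold H75.Perc.del
  rw [lab_pv]
  by_cases h : plab x ∈ D.C \ D.A
  · rw [if_pos h]
    rw [mem_sdiff] at h
    rw [if_neg h.2, if_pos h.1]; norm_num
  · rw [if_neg h]
    simp only [iff_of h]; ring

lemma plates : ∀ x ∈ D.net.E, ∑ y ∈ Net.cyc D.net.E D.net.pi x,
    (D.net.cw (D.net.w⁻¹ y) - D.net.cb (D.net.w⁻¹ y)) =
      4 * (((Net.cyc D.net.E D.net.pi x).card : ℤ) - 1) := by
  intro x hx
  have hx' : x ∈ D.G := hx
  by_cases h : plab x ∈ D.C \ D.A
  · obtain ⟨h1, h2, h3, h4, -⟩ := pi_tile hx' h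
    have e : Net.cyc D.net.E D.net.pi x = {x, D.net.pi x} := by
      ext y
      rw [Net.mem_cyc, same_tile hx' h, mem_insert, mem_singleton]
      constructor
      · exact fun h => h.2
      · rintro (h5 | h5)
        · exact ⟨by rw [h5]; exact hx, Or.inl h5⟩
        · exact ⟨by rw [h5]; exact h1, Or.inr h5⟩
    rw [e, Finset.sum_pair h2.symm, Finset.card_pair h2.symm, cost_diff hx', cost_diff h1, h4,
      if_pos h]
    norm_num
  · have e : Net.cyc D.net.E D.net.pi x = {x} := by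
      ext y
      rw [Net.mem_cyc, same_triv hx' h, mem_singleton]
      constructor
      · exact fun h => h.2
      · intro h5
        exact ⟨by rw [h5]; exact hx, h5⟩
    rw [e, Finset.sum_singleton, Finset.card_singleton, cost_diff hx', if_neg h]
    norm_num

/-- total of a loop -/
lemma tot {w : Finset (ℤ × ℤ)} {σ : Perm (ℤ × ℤ)} (h1 : ∀ x ∈ D.G, σ x = nx w x)
    (h2 : ∀ x ∈ D.G, nx w x ∈ D.G) {x : ℤ × ℤ} (hx : x ∈ D.G) :
    ∃ L, Orb (nx w) x L ∧ ∑ y ∈ Net.cyc D.G σ x, H75.Perc.del w y = KK (nx w) (H75.Perc.del w) x 0 L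
      := by
  obtain ⟨L, hL⟩ := exists_orb (nx w) (nx_injective w) D.G h2 x hx
  refine ⟨L, hL, ?_⟩
  rw [Net.sum_cyc_eq _ h1 (fun x hx => by rw [h1 x hx]; exact h2 x hx) hx hL.pos hL.per hL.inj]
  unfold KK
  rw [zero_add]

/-- **The network of a plane environment is planar**: only Ree's inequality and the total `4` of the
black loop of the root are used. -/
theorem pl (htot : ∀ L, Orb (nx D.C) D.c0 L → KK (nx D.C) (H75.Perc.del D.C) D.c0 0 L = 4)
    (ree : (Net.cycs D.net.E D.net.b).card + (Net.cycs D.net.E D.net.w).card +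
      (Net.cycs D.net.E D.net.pi).card ≤ D.net.E.card + 2) : D.net.Pl := by
  obtain ⟨h1, h2, h3⟩ := D.net.gauss plates
    (fun x hx => by
      obtain ⟨L, hL, hs⟩ := tot (D := D) (σ := D.net.w) (fun _ h => w_in h) (fun _ h => nxA h) hx
      change ∑ y ∈ Net.cyc D.G D.net.w x, H75.Perc.del D.A y ≤ 4
      rw [hs]
      have := orb_pm hL 0
      omega)
    (fun x hx => by
      obtain ⟨L, hL, hs⟩ := tot (D := D) (σ := D.net.b) (fun _ h => b_in h) (fun _ h => nxB h) hx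
      change -4 ≤ ∑ y ∈ Net.cyc D.G D.net.b x, H75.Perc.del D.C y
      rw [hs]
      have := orb_pm hL 0
      omega)
    (by
      obtain ⟨L, hL, hs⟩ := tot (D := D) (σ := D.net.b) (fun _ h => b_in h) (fun _ h => nxB h)
        (show D.c0 ∈ D.G from c0_mem_GC D.hAC)
      change 4 ≤ ∑ y ∈ Net.cyc D.G D.net.b D.c0, H75.Perc.del D.C y
      rw [hs, htot L hL]) ree
  exact ⟨sep, conn, h1, plates, h2, h3⟩

end Dat

end Pool.Agent.ZF
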