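import Mathlib
import Pool.Agent.ZF.Box

set_option autoImplicit false
open Finset Equiv

/-! # The partition function of the network of a plane environment -/

namespace Pool.Agent.ZF

open Pool.Agent.H75.Perc Pool.Agent.H75.TwoArm Pool.Agent.H75.Four Pool.Agent.H69.Q1 Pool.Agent.Q1
open Pool.Agent.H75.TwoArm.StrandAux hiding vx_nxC
open Pool.Agent.H75.Four.FOtherAux

lemma isIdx_congr {α : Type*} {f f' : α → α} {c c' : α → ℤ} {o : α} (hf : ∀ n : ℕ, f'^[n] o = f^[n] o)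
    (hc : ∀ n : ℕ, c' (f^[n] o) = c (f^[n] o)) {i : α} {k : ℤ} :
    IsIdx f c o i k ↔ IsIdx f' c' o i k := by
  unfold IsIdx Hits
  simp only [hf, hc]

/-! ### Products over subsets -/

/-- a function of the trace on `U1` -/
lemma sum_split {β : Type*} [DecidableEq β] (t : β → ℂ) (F : Finset β → ℂ) (U1 U2 : Finset β)
    (hd : Disjoint U1 U2) (hF : ∀ S ⊆ U1 ∪ U2, F S = F (S ∩ U1)) :
    ∑ S ∈ (U1 ∪ U2).powerset, (∏ v ∈ S, t v) * F S =
      (∑ S ∈ U1.powerset, (∏ v ∈ S, t v) * F S) * ∏ v ∈ U2, (1 + t v) := by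
  induction U2 using Finset.induction_on with
  | empty => simp
  | insert a U ha ih =>
    have hd' : Disjoint U1 U := disjoint_of_subset_right (subset_insert a U) hd
    have haU1 : a ∉ U1 := fun h => disjoint_left.1 hd h (mem_insert_self a U)
    have ha' : a ∉ U1 ∪ U := by rw [mem_union, not_or]; exact ⟨haU1, ha⟩
    rw [union_insert, sum_powerset_insert ha', prod_insert ha]
    have h1 : ∀ S ∈ (U1 ∪ U).powerset, (∏ v ∈ insert a S, t v) * F (insert a S) =
        t a * ((∏ v ∈ S, t v) * F S) := by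
      intro S hS
      rw [mem_powerset] at hS
      have haS : a ∉ S := fun h => ha' (hS h)
      rw [prod_insert haS, hF (insert a S), hF S, insert_inter_of_notMem haU1, mul_assoc]
      · rw [union_insert]; exact hS.trans (subset_insert _ _)
      · rw [union_insert]; exact insert_subset_insert a hS
    rw [sum_congr rfl h1, ← mul_sum, ih hd' ?_]
    · ring
    · intro S hS
      apply hF
      rw [union_insert]; exact hS.trans (subset_insert _ _)

namespace Dat

variable {D : Dat}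

variable (D) in
/-- the random open labels of a state of the network -/
def om (S : Finset ((ℤ × ℤ) ⊕ (ℤ × ℤ))) : Finset (ℤ × ℤ) :=
  (D.C \ D.A).filter (fun e => Sum.inl e ∈ S)

lemma mem_om {S : Finset ((ℤ × ℤ) ⊕ (ℤ × ℤ))} {e : ℤ × ℤ} :
    e ∈ D.om S ↔ e ∈ D.C \ D.A ∧ Sum.inl e ∈ S := by unfold om; rw [mem_filter]

lemma lab_w {x : ℤ × ℤ} (hx : x ∈ D.G) (h : lab x ∈ D.C \ D.A) :
    D.net.lab (D.net.w x) = Sum.inl (lab x) := by
  rw [w_in hx]
  change D.lb (nx D.A x) = _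
  unfold lb
  rw [if_pos ⟨nxA hx, by rw [plab_nx]; exact h⟩, plab_nx]

lemma union_iff {S : Finset ((ℤ × ℤ) ⊕ (ℤ × ℤ))} {e : ℤ × ℤ} (h : e ∉ D.C \ D.A) :
    e ∈ D.A ∪ D.om S ↔ e ∈ D.A := by
  rw [mem_union, mem_om]
  exact ⟨fun h1 => h1.elim id (fun h2 => absurd h2.1 h), Or.inl⟩

lemma step_in {S : Finset ((ℤ × ℤ) ⊕ (ℤ × ℤ))} {x : ℤ × ℤ} (hx : x ∈ D.G) :
    D.net.step S x = nx (D.A ∪ D.om S) x := by
  unfold Net.step
  by_cases h : lab x ∈ D.C \ D.A
  · rw [lab_w hx h, b_in hx, w_in hx]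
    have h' := h
    rw [mem_sdiff] at h'
    by_cases h1 : Sum.inl (lab x) ∈ S
    · rw [if_pos h1, nx_of_in h'.1, nx_of_in (mem_union_right _ (mem_om.2 ⟨h, h1⟩))]
    · rw [if_neg h1, nx_of_out h'.2, nx_of_out]
      rw [mem_union, not_or]
      exact ⟨h'.2, fun h2 => h1 (mem_om.1 h2).2⟩
  · rw [b_in hx, w_in hx, nx_same h, ite_self]
    exact (nx_eq_of_iff (union_iff h)).symm

lemma cost_in {S : Finset ((ℤ × ℤ) ⊕ (ℤ × ℤ))} {x : ℤ × ℤ} (hx : x ∈ D.G) :
    D.net.cost S x = H75.Perc.del (D.A ∪ D.om S) x := by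
  unfold Net.cost
  change (if D.net.lab (D.net.w x) ∈ S then H75.Perc.del D.C x else H75.Perc.del D.A x) = _
  by_cases h : lab x ∈ D.C \ D.A
  · rw [lab_w hx h]
    have h' := h
    rw [mem_sdiff] at h'
    unfold H75.Perc.del
    rw [if_pos h'.1, if_neg h'.2]
    by_cases h1 : Sum.inl (lab x) ∈ S
    · rw [if_pos h1, if_pos (mem_union_right _ (mem_om.2 ⟨h, h1⟩))]
    · rw [if_neg h1, if_neg]
      rw [mem_union, not_or]
      exact ⟨h'.2, fun h2 => h1 (mem_om.1 h2).2⟩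
  · rw [del_eq_of_iff (w := D.C) (w' := D.A) (iff_of h).symm, ite_self]
    exact (del_eq_of_iff (union_iff h)).symm

lemma om_sub {S : Finset ((ℤ × ℤ) ⊕ (ℤ × ℤ))} : D.om S ⊆ D.C \ D.A := filter_subset _ _

lemma step_mem {S : Finset ((ℤ × ℤ) ⊕ (ℤ × ℤ))} {x : ℤ × ℤ} (hx : x ∈ D.G) :
    D.net.step S x ∈ D.G := by
  unfold Net.step
  split_ifs
  · rw [b_in hx]; exact nxB hx
  · rw [w_in hx]; exact nxA hx

lemma iter_in (S : Finset ((ℤ × ℤ) ⊕ (ℤ × ℤ))) (n : ℕ) :
    (D.net.step S)^[n] D.c0 = (nx (D.A ∪ D.om S))^[n] D.c0 ∧ (D.net.step S)^[n] D.c0 ∈ D.G := by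
  induction n with
  | zero => exact ⟨rfl, c0_mem_GC D.hAC⟩
  | succ n ih =>
    rw [Function.iterate_succ_apply', Function.iterate_succ_apply', ← ih.1]
    exact ⟨step_in ih.2, step_mem ih.2⟩

/-- index of a state of the environment -/
noncomputable def KE (A ω : Finset (ℤ × ℤ)) (c i : ℤ × ℤ) : Option ℤ :=
  idx (nx (A ∪ ω)) (H75.Perc.del (A ∪ ω)) c i

/-- the index of the network is the index of the environment -/
lemma K_net (S : Finset ((ℤ × ℤ) ⊕ (ℤ × ℤ))) : D.net.K S = KE D.A (D.om S) D.c0 D.i := by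
  unfold Net.K KE
  apply idx_congr
  intro k
  refine (isIdx_congr (o := D.c0) (fun n => ((iter_in S n).1).symm) (fun n => ?_))
  exact (cost_in (iter_in S n).2).symm

variable (D) in
/-- the random labels of the network -/
noncomputable def LG : Finset (ℤ × ℤ) := by
  classical exact (D.C \ D.A).filter (fun e => ∃ x ∈ D.G, plab x = e)

lemma mem_LG {e : ℤ × ℤ} : e ∈ D.LG ↔ e ∈ D.C \ D.A ∧ ∃ x ∈ D.G, plab x = e := by
  unfold LG; simp only [mem_filter]

variable (D) in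
/-- the random labels as labels of plates -/
noncomputable def U1 : Finset ((ℤ × ℤ) ⊕ (ℤ × ℤ)) := D.LG.image Sum.inl

variable (D) in
/-- the trivial plates -/
noncomputable def U2 : Finset ((ℤ × ℤ) ⊕ (ℤ × ℤ)) :=
  (D.net.T.filter (fun x => plab x ∉ D.C \ D.A)).image Sum.inr

lemma disj_U : Disjoint D.U1 D.U2 := by
  rw [disjoint_left]
  intro v h1 h2
  unfold U1 at h1
  unfold U2 at h2
  rw [mem_image] at h1 h2
  obtain ⟨e, -, rfl⟩ := h1
  obtain ⟨x, -, h⟩ := h2
  exact absurd h (by simp)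

lemma L_eq : D.net.L = D.U1 ∪ D.U2 := by
  ext v
  unfold Net.L U1 U2
  rw [mem_image, mem_union, mem_image, mem_image]
  constructor
  · rintro ⟨x, hx, rfl⟩
    have hx' : x ∈ D.G := mem_of_mem_erase (mem_of_mem_erase hx)
    have e : D.net.lab x = D.lb x := rfl
    rw [e]
    unfold lb
    by_cases h : plab x ∈ D.C \ D.A
    · left
      exact ⟨plab x, mem_LG.2 ⟨h, x, hx', rfl⟩, by rw [if_pos ⟨hx', h⟩]⟩
    · right
      exact ⟨x, mem_filter.2 ⟨hx, h⟩, by rw [if_neg (fun h1 => h h1.2)]⟩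
  · rintro (⟨e, he, rfl⟩ | ⟨x, hx, rfl⟩)
    · obtain ⟨h1, x, hx, rfl⟩ := mem_LG.1 he
      have h2 : x ∈ D.net.T := by
        unfold Net.T
        rw [mem_erase, mem_erase]
        refine ⟨?_, ?_, hx⟩
        · rintro rfl
          rw [mem_sdiff] at h1
          exact h1.2 (D.h0.2 h1.1)
        · rintro rfl
          rw [mem_sdiff] at h1
          exact h1.2 (D.h1.2 h1.1)
      refine ⟨x, h2, ?_⟩
      change D.lb x = _
      unfold lb
      rw [if_pos ⟨hx, h1⟩]
    · rw [mem_filter] at hx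
      refine ⟨x, hx.1, ?_⟩
      change D.lb x = _
      unfold lb
      rw [if_neg (fun h1 => hx.2 h1.2)]

lemma mem_LG_of {x : ℤ × ℤ} (hx : x ∈ D.G) (h : lab x ∈ D.C \ D.A) : lab x ∈ D.LG :=
  mem_LG.2 ⟨h, nx D.A x, nxA hx, plab_nx _ _⟩

lemma step_congr {S S' : Finset ((ℤ × ℤ) ⊕ (ℤ × ℤ))}
    (h : ∀ e ∈ D.LG, Sum.inl e ∈ S ↔ Sum.inl e ∈ S') {x : ℤ × ℤ} (hx : x ∈ D.G) :
    D.net.step S x = D.net.step S' x ∧ D.net.cost S x = D.net.cost S' x := by
  rw [step_in hx, step_in hx, cost_in hx, cost_in hx]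
  have h1 : lab x ∈ D.A ∪ D.om S ↔ lab x ∈ D.A ∪ D.om S' := by
    by_cases hl : lab x ∈ D.C \ D.A
    · rw [mem_union, mem_union, mem_om, mem_om, h _ (mem_LG_of hx hl)]
    · rw [union_iff hl, union_iff hl]
  exact ⟨nx_eq_of_iff h1, del_eq_of_iff h1⟩

/-- the index only depends on the random labels of the network -/
lemma K_congr {S S' : Finset ((ℤ × ℤ) ⊕ (ℤ × ℤ))}
    (h : ∀ e ∈ D.LG, Sum.inl e ∈ S ↔ Sum.inl e ∈ S') : D.net.K S = D.net.K S' := by
  have h1 : ∀ n, (D.net.step S')^[n] D.c0 = (D.net.step S)^[n] D.c0 := by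
    intro n
    induction n with
    | zero => rfl
    | succ n ih =>
      rw [Function.iterate_succ_apply', Function.iterate_succ_apply', ih]
      exact ((step_congr h (iter_in S n).2).1).symm
  unfold Net.K
  apply idx_congr
  intro k
  exact isIdx_congr (o := D.c0) h1 (fun n => ((step_congr h (iter_in S n).2).2).symm)

lemma mem_image_inl {ω : Finset (ℤ × ℤ)} {e : ℤ × ℤ} :
    (Sum.inl e : (ℤ × ℤ) ⊕ (ℤ × ℤ)) ∈ ω.image Sum.inl ↔ e ∈ ω := by
  rw [mem_image]
  exact ⟨fun ⟨a, ha, h⟩ => by rw [← Sum.inl.inj h]; exact ha, fun h => ⟨e, h, rfl⟩⟩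

lemma mem_U1 {e : ℤ × ℤ} : Sum.inl e ∈ D.U1 ↔ e ∈ D.LG := mem_image_inl

lemma om_image {ω : Finset (ℤ × ℤ)} (hω : ω ⊆ D.C \ D.A) : D.om (ω.image Sum.inl) = ω := by
  ext e
  rw [mem_om, mem_image_inl]
  exact ⟨fun h => h.2, fun h => ⟨hω h, h⟩⟩

/-- value of an index -/
noncomputable def vl (y : ℂ) (k : Option ℤ) : ℂ := match k with | none => 0 | some k => y ^ k

/-- **Zero-freeness for the environment**: if the network of `D` is good, the partition function of the
strand from `c0` to `i` has no zeros. -/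
theorem ne_zero (hg : D.net.Good) (t : ℤ × ℤ → ℝ) (ht : ∀ e, 0 < t e) {y : ℂ} (hy : y ≠ 0)
    (ha : |y.arg| < Real.pi / 4) (hex : ∃ ω ⊆ D.C \ D.A, KE D.A ω D.c0 D.i ≠ none) :
    ∑ ω ∈ (D.C \ D.A).powerset, (∏ e ∈ ω, (t e : ℂ)) * vl y (KE D.A ω D.c0 D.i) ≠ 0 := by
  -- the common factor
  set z : ℂ := ∑ ω ∈ D.LG.powerset, (∏ e ∈ ω, (t e : ℂ)) * vl y (KE D.A ω D.c0 D.i) with hz
  have hKE : ∀ ω ⊆ D.C \ D.A, KE D.A ω D.c0 D.i = D.net.K (ω.image Sum.inl) := by
    intro ω hω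
    rw [K_net, om_image hω]
  have hLG : D.LG ⊆ D.C \ D.A := fun e he => (mem_LG.1 he).1
  -- the environment
  have h1 : ∑ ω ∈ (D.C \ D.A).powerset, (∏ e ∈ ω, (t e : ℂ)) * vl y (KE D.A ω D.c0 D.i) =
      z * ∏ e ∈ (D.C \ D.A) \ D.LG, (1 + (t e : ℂ)) := by
    have := sum_split (fun e => (t e : ℂ)) (fun ω => vl y (KE D.A ω D.c0 D.i)) D.LG
      ((D.C \ D.A) \ D.LG) disjoint_sdiff (by
        intro ω hω
        rw [union_sdiff_of_subset hLG] at hω
        rw [hKE ω hω, hKE (ω ∩ D.LG) (inter_subset_left.trans hω)]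
        congr 1
        apply K_congr
        intro e he
        rw [mem_image_inl, mem_image_inl, mem_inter]
        exact ⟨fun h => ⟨h, he⟩, fun h => h.1⟩)
    rw [union_sdiff_of_subset hLG] at this
    exact this
  -- the network
  have hdead : ¬ D.net.Dead := by
    intro hd
    obtain ⟨ω, hω, hK⟩ := hex
    apply hK
    rw [hKE ω hω, ← hd ((ω ∩ D.LG).image Sum.inl) (by
      rw [L_eq]
      refine Finset.Subset.trans ?_ subset_union_left
      exact image_subset_image inter_subset_right)]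
    apply K_congr
    intro e he
    rw [mem_image_inl, mem_image_inl, mem_inter]
    exact ⟨fun h => ⟨h, he⟩, fun h => h.1⟩
  have h2 := (hg.resolve_left hdead) (fun v => Sum.elim t (fun _ => 1) v) (by
    rintro (e | x)
    · exact ht e
    · exact one_pos) y hy ha
  have h3 : D.net.Z (fun v => Sum.elim t (fun _ => 1) v) y = z * ∏ v ∈ D.U2,
      (1 + ((Sum.elim t (fun _ => 1) v : ℝ) : ℂ)) := by
    have := sum_split (fun v : (ℤ × ℤ) ⊕ (ℤ × ℤ) => ((Sum.elim t (fun _ => 1) v : ℝ) : ℂ))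
      (fun S => vl y (D.net.K S)) D.U1 D.U2 disj_U (by
        intro S _
        congr 1
        apply K_congr
        intro e he
        rw [mem_inter]
        exact ⟨fun h => ⟨h, mem_U1.2 he⟩, fun h => h.1⟩)
    rw [← L_eq] at this
    unfold Net.Z
    refine Eq.trans ?_ (this.trans ?_)
    · rfl
    · congr 1
      rw [hz]
      symm
      refine Finset.sum_bij (fun ω _ => ω.image Sum.inl) ?_ ?_ ?_ ?_
      · intro ω hω
        rw [mem_powerset] at hω ⊢
        exact image_subset_image hω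
      · intro ω _ ω' _ h
        exact Finset.image_injective Sum.inl_injective h
      · intro S hS
        rw [mem_powerset] at hS
        unfold U1 at hS
        obtain ⟨ω, hω, rfl⟩ := Finset.subset_image_iff.1 hS
        exact ⟨ω, mem_powerset.2 (by exact_mod_cast hω), rfl⟩
      · intro ω hω
        rw [mem_powerset] at hω
        rw [hKE ω (hω.trans hLG), Finset.prod_image (fun a _ b _ h => Sum.inl.inj h)]
        rfl
  rw [h1]
  refine mul_ne_zero ?_ ?_
  · intro h0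
    rw [h3, h0, zero_mul] at h2
    exact h2 rfl
  · refine Finset.prod_ne_zero_iff.2 fun e _ => ?_
    have := ht e
    intro h
    have h4 := congrArg Complex.re h
    simp only [Complex.add_re, Complex.one_re, Complex.ofReal_re, Complex.zero_re] at h4
    linarith

end Dat

end Pool.Agent.ZF
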