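import Mathlib
import Pool.Agent.ZF.BoxZ
import Pool.Agent.Q1.M6c.Dob

set_option autoImplicit false
open Finset Equiv

/-! # Zero-freeness for plane environments

`zf_env`: if all planar networks are good (and Ree's inequality holds) then, for every plane environment
`X`, every random tile `e` of `X`, every corner `h` with `lab h = e` and every colour of `e`, the partition
function of the configurations of the other tiles in which the path of the root passes through `h` has no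
zero `y` with `|arg y| < π / 4`. -/

namespace Pool.Agent.ZF

open Pool.Agent.H75.Perc Pool.Agent.H75.TwoArm Pool.Agent.H75.Four Pool.Agent.H69.Q1 Pool.Agent.Q1
open Pool.Agent.H75.TwoArm.StrandAux hiding vx_nxC
open Pool.Agent.H75.Four.FOtherAux
open Pool.Agent.Q1.M6c (PlaneEnv)

/-- the strand which leaves `h` -/
lemma isIdx_succ {α : Type*} {f : α → α} (hf : Function.Injective f) {d : α → ℤ} {c h : α} {L : ℕ}
    (hO : Orb f c L) (hne : f h ≠ c) {k : ℤ} :
    IsIdx f d c (f h) k ↔ ∃ n, n < L ∧ f^[n] c = h ∧ ∑ j ∈ range (n + 1), d (f^[j] c) = k := by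
  constructor
  · rintro ⟨m, ⟨hm0, hm, hm'⟩, hk⟩
    obtain ⟨n, rfl⟩ : ∃ n, m = n + 1 := ⟨m - 1, by omega⟩
    refine ⟨n, ?_, ?_, hk⟩
    · by_contra hn
      have hL : L < n + 1 ∨ L = n + 1 := by omega
      rcases hL with hL | hL
      · exact (hm' L hO.pos hL).1 hO.per
      · omega
    · rw [Function.iterate_succ_apply'] at hm
      exact hf hm
  · rintro ⟨n, hn, hh, hk⟩
    have h1 : f^[n + 1] c = f h := by rw [Function.iterate_succ_apply', hh]
    have hn1 : n + 1 < L := by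
      rcases Nat.lt_or_ge (n + 1) L with h2 | h2
      · exact h2
      · exfalso
        have : n + 1 = L := by omega
        rw [this, hO.per] at h1
        exact hne h1.symm
    refine ⟨n + 1, ⟨Nat.succ_pos n, h1, ?_⟩, hk⟩
    intro j hj hjn
    refine ⟨fun h2 => hO.inj 0 j hj (by omega) h2.symm, fun h2 => ?_⟩
    rw [← h1] at h2
    exact hO.inj j (n + 1) hjn hn1 h2

/-- Ree's inequality for transitive pairs of permutations (genus `≥ 0`) -/
def Ree : Prop := ∀ N : Net (ℤ × ℤ) ((ℤ × ℤ) ⊕ (ℤ × ℤ)), N.Conn →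
  (Net.cycs N.E N.b).card + (Net.cycs N.E N.w).card + (Net.cycs N.E N.pi).card ≤ N.E.card + 2

/-- zero-freeness of planar networks -/
def PlGood : Prop := ∀ N : Net (ℤ × ℤ) ((ℤ × ℤ) ⊕ (ℤ × ℤ)), N.Pl → N.Good

/-- the mark is reached -/
lemma reach_of_iter {A C : Finset (ℤ × ℤ)} {c0 : ℤ × ℤ} (hAC : A ⊆ C) {ω : Finset (ℤ × ℤ)}
    (hω : ω ⊆ C \ A) (n : ℕ) : (nx (A ∪ ω))^[n] c0 ∈ GC A C c0 := by
  induction n with
  | zero => exact c0_mem_GC hAC
  | succ n ih =>
    rw [Function.iterate_succ_apply']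
    generalize (nx (A ∪ ω))^[n] c0 = x at ih
    by_cases h : lab x ∈ A ∪ ω
    · have h1 : lab x ∈ C := by
        rcases mem_union.1 h with h1 | h1
        · exact hAC h1
        · exact (mem_sdiff.1 (hω h1)).1
      rw [nx_of_in h, ← nx_of_in h1]; exact nxC_mem hAC ih
    · rw [nx_of_out h, ← nx_of_out (fun h1 => h (mem_union_left _ h1))]; exact nxA_mem hAC ih

/-- **Zero-freeness for labels**: `A` open, labels outside `C` closed, root `c0`, mark `i`. -/
theorem zf_labels (hZ : PlGood) (hR : Ree) {A C : Finset (ℤ × ℤ)} (hAC : A ⊆ C) {c0 i : ℤ × ℤ}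
    (h0 : plab c0 ∈ A ↔ plab c0 ∈ C) (h1 : plab i ∈ A ↔ plab i ∈ C) (hne : i ≠ c0)
    (htot : ∀ L, Orb (nx C) c0 L → KK (nx C) (H75.Perc.del C) c0 0 L = 4)
    (t : ℤ × ℤ → ℝ) (ht : ∀ e, 0 < t e) {y : ℂ} (hy : y ≠ 0) (ha : |y.arg| < Real.pi / 4)
    (hex : ∃ ω ⊆ C \ A, Dat.KE A ω c0 i ≠ none) :
    ∑ ω ∈ (C \ A).powerset, (∏ e ∈ ω, (t e : ℂ)) * Dat.vl y (Dat.KE A ω c0 i) ≠ 0 := by
  have hi : i ∈ GC A C c0 := by
    obtain ⟨ω, hω, hK⟩ := hex
    obtain ⟨k, hk⟩ := Option.ne_none_iff_exists'.1 hK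
    unfold Dat.KE at hk
    rw [idx_eq_some] at hk
    obtain ⟨n, hn, -⟩ := hk
    rw [← hn.2.1]
    exact reach_of_iter hAC hω n
  let D : Dat := ⟨A, C, hAC, c0, i, h0, h1, hi, hne⟩
  exact Dat.ne_zero (D := D) (hZ D.net (Dat.pl htot (hR D.net Dat.conn))) t ht hy ha hex

/-- configuration with the tile `e` of the given colour -/
def cf (e : ℤ × ℤ) (col : Bool) (ω : Finset (ℤ × ℤ)) : Finset (ℤ × ℤ) :=
  if col then insert e ω else ω

/-- value of the path at the corner `h` -/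
noncomputable def at' (X : Env) (y : ℂ) (ω : Finset (ℤ × ℤ)) (h : ℤ × ℤ) : ℂ :=
  ∑ i ∈ range (X.len ω), if X.z ω i = h then y ^ X.K ω i else 0

lemma plab_root (X : Env) : plab X.c0 ∉ X.E := by
  intro h
  have h1 : nx ∅ (pv ∅ X.c0) = X.c0 := nx_pv _ _
  rw [nx_of_out (notMem_empty _)] at h1
  exact X.root _ (by rw [lab_pv]; exact h) h1

/-- value of the path at a corner and index of the next strand -/
lemma at_eq {X : Env} {W : Finset (ℤ × ℤ)} (hX : PlaneEnv X W) {ω : Finset (ℤ × ℤ)} (hω : ω ⊆ X.E)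
    {A ω' : Finset (ℤ × ℤ)} (hA : ω ∪ W = A ∪ ω') {h : ℤ × ℤ} (hn : nx (A ∪ ω') h ≠ X.c0)
    {y : ℂ} (hy : y ≠ 0) :
    at' X y ω h = Dat.vl y (Dat.KE A ω' X.c0 (nx (A ∪ ω') h)) *
      y ^ (X.k0 - H75.Perc.del (A ∪ ω') h) := by
  have hO : Orb (nx (A ∪ ω')) X.c0 (X.len ω) := by rw [← hA]; exact hX.orb hω
  by_cases hex : ∃ n, n < X.len ω ∧ X.z ω n = h
  · obtain ⟨n, hn1, hn2⟩ := hex
    have hz : (nx (A ∪ ω'))^[n] X.c0 = h := by rw [← hA, ← hX.zz ω hω]; exact hn2
    have hK : Dat.KE A ω' X.c0 (nx (A ∪ ω') h) =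
        some (X.K ω n - X.k0 + H75.Perc.del (A ∪ ω') h) := by
      unfold Dat.KE
      rw [idx_eq_some, isIdx_succ (nx_injective _) hO hn]
      refine ⟨n, hn1, hz, ?_⟩
      rw [sum_range_succ, hz, hX.KK' ω hω n, hA]
      unfold KK
      ring
    unfold at'
    rw [hK, Finset.sum_eq_single n]
    · rw [if_pos hn2]
      change _ = y ^ (X.K ω n - X.k0 + H75.Perc.del (A ∪ ω') h) * _
      rw [← zpow_add₀ hy]
      congr 1; ring
    · intro j hj hjn
      rw [if_neg]
      intro h2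
      exact hjn (Env.z_inj hω (mem_range.1 hj) hn1 (h2.trans hn2.symm))
    · intro h2
      exact absurd (mem_range.2 hn1) h2
  · have hK : Dat.KE A ω' X.c0 (nx (A ∪ ω') h) = none := by
      rw [Option.eq_none_iff_forall_ne_some]
      intro k hk
      unfold Dat.KE at hk
      rw [idx_eq_some, isIdx_succ (nx_injective _) hO hn] at hk
      obtain ⟨n, hn1, hn2, -⟩ := hk
      exact hex ⟨n, hn1, by rw [hX.zz ω hω, hA]; exact hn2⟩
    rw [hK]
    unfold at'
    rw [Finset.sum_eq_zero]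
    · change (0 : ℂ) = 0 * _
      rw [zero_mul]
    · intro j hj
      rw [if_neg]
      intro h2
      exact hex ⟨j, mem_range.1 hj, h2⟩

/-- **Zero-freeness for plane environments.** -/
theorem zf_env (hZ : PlGood) (hR : Ree) {X : Env} {W : Finset (ℤ × ℤ)} (hX : PlaneEnv X W)
    {e h : ℤ × ℤ} (he : e ∈ X.E) (hh : lab h = e) (col : Bool)
    (t : ℤ × ℤ → ℝ) (ht : ∀ e, 0 < t e) {y : ℂ} (hy : y ≠ 0) (ha : |y.arg| < Real.pi / 4)
    (hex : ∃ ω ⊆ X.E.erase e, ∃ i < X.len (cf e col ω), X.z (cf e col ω) i = h) :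
    ∑ ω ∈ (X.E.erase e).powerset, (∏ a ∈ ω, (t a : ℂ)) * at' X y (cf e col ω) h ≠ 0 := by
  have heW : e ∉ W := disjoint_left.1 hX.disj he
  set A : Finset (ℤ × ℤ) := cf e col W with hA
  set C : Finset (ℤ × ℤ) := A ∪ X.E.erase e with hC
  have hAC : A ⊆ C := subset_union_left
  have heA : e ∈ A ↔ col = true := by
    rw [hA]; unfold cf
    cases col
    · simp [heW]
    · simp
  have heC : e ∈ C ↔ col = true := by
    rw [hC, mem_union, heA]
    simp
  have hdisj : Disjoint A (X.E.erase e) := by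
    rw [disjoint_left]
    intro a ha1 ha2
    rw [mem_erase] at ha2
    rw [hA] at ha1; unfold cf at ha1
    split_ifs at ha1
    · rcases mem_insert.1 ha1 with h1 | h1
      · exact ha2.1 h1
      · exact disjoint_left.1 hX.disj ha2.2 h1
    · exact disjoint_left.1 hX.disj ha2.2 ha1
  have hCA : C \ A = X.E.erase e := by
    rw [hC, union_sdiff_left]; exact sdiff_eq_self_of_disjoint hdisj.symm
  have hcf : ∀ ω, cf e col ω ∪ W = A ∪ ω := by
    intro ω
    rw [hA]; unfold cf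
    split_ifs
    · rw [insert_union, insert_union, union_comm]
    · rw [union_comm]
  have hcfE : ∀ ω ⊆ X.E.erase e, cf e col ω ⊆ X.E := by
    intro ω hω
    unfold cf
    split_ifs
    · exact insert_subset he (hω.trans (erase_subset _ _))
    · exact hω.trans (erase_subset _ _)
  -- the mark
  set i : ℤ × ℤ := nx A h with hi
  have hpi : plab i = e := by rw [hi, plab_nx, hh]
  have hne : i ≠ X.c0 := by
    intro h1
    apply plab_root X
    rw [← h1, hpi]; exact he
  have hnx : ∀ ω ⊆ X.E.erase e, nx (A ∪ ω) h = i := by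
    intro ω hω
    rw [hi]
    apply nx_eq_of_iff
    rw [hh, mem_union]
    exact ⟨fun h1 => h1.elim id (fun h2 => absurd (mem_erase.1 (hω h2)).1 (by simp)), Or.inl⟩
  have hdl : ∀ ω ⊆ X.E.erase e, H75.Perc.del (A ∪ ω) h = H75.Perc.del A h := by
    intro ω hω
    apply del_eq_of_iff
    rw [hh, mem_union]
    exact ⟨fun h1 => h1.elim id (fun h2 => absurd (mem_erase.1 (hω h2)).1 (by simp)), Or.inl⟩
  have hCE : C ⊆ X.E ∪ W := by
    rw [hC]
    apply union_subset
    · rw [hA]; unfold cf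
      split_ifs
      · exact insert_subset (mem_union_left _ he) subset_union_right
      · exact subset_union_right
    · exact (erase_subset _ _).trans subset_union_left
  have hat : ∀ ω ⊆ X.E.erase e, at' X y (cf e col ω) h =
      Dat.vl y (Dat.KE A ω X.c0 i) * y ^ (X.k0 - H75.Perc.del A h) := by
    intro ω hω
    rw [at_eq hX (hcfE ω hω) (hcf ω) (by rw [hnx ω hω]; exact hne) hy, hnx ω hω, hdl ω hω]
  have h0 : plab X.c0 ∈ A ↔ plab X.c0 ∈ C := by
    rw [hC, mem_union]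
    exact ⟨Or.inl, fun h1 => h1.elim id (fun h2 => absurd (mem_erase.1 h2).2 (plab_root X))⟩
  have h1 : plab i ∈ A ↔ plab i ∈ C := by rw [hpi, heA, heC]
  have key := zf_labels hZ hR hAC h0 h1 hne (fun L hL => by
    obtain ⟨g, hg1, hg2⟩ := hX.out
    have := total_outer (hg1.anti hCE) (fun v hv => hg2 v (hv.mono hCE)) hL 0
    simpa using this) t ht hy ha (by
    obtain ⟨ω, hω, n, hn, hz⟩ := hex
    refine ⟨ω, by rw [hCA]; exact hω, ?_⟩
    intro hK
    have h2 := hat ω hω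
    rw [hK] at h2
    change _ = (0 : ℂ) * _ at h2
    rw [zero_mul] at h2
    unfold at' at h2
    rw [Finset.sum_eq_single n, if_pos hz] at h2
    · exact zpow_ne_zero _ hy h2
    · intro j hj hjn
      rw [if_neg]
      intro h3
      exact hjn (Env.z_inj (hcfE ω hω) (mem_range.1 hj) hn (h3.trans hz.symm))
    · intro h3
      exact absurd (mem_range.2 hn) h3)
  rw [hCA] at key
  have h2 : ∑ ω ∈ (X.E.erase e).powerset, (∏ a ∈ ω, (t a : ℂ)) * at' X y (cf e col ω) h =
      (∑ ω ∈ (X.E.erase e).powerset, (∏ a ∈ ω, (t a : ℂ)) * Dat.vl y (Dat.KE A ω X.c0 i)) *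
        y ^ (X.k0 - H75.Perc.del A h) := by
    rw [sum_mul]
    refine sum_congr rfl fun ω hω => ?_
    rw [hat ω (mem_powerset.1 hω), mul_assoc]
  rw [h2]
  exact mul_ne_zero key (zpow_ne_zero _ hy)

end Pool.Agent.ZF
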