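import Mathlib
import Pool.Agent.ZF.BoxE

set_option autoImplicit false
open Finset Equiv

/-! # The network of a plane environment, mark in the middle of a strand

`A ⊆ C` finite sets of labels of `ℤ²`: `A` is open, the labels outside `C` are closed, `C \ A` is random.
The strands are the corners which are reached from the root corner `c0`, and one more strand `s`: the
strand of the corner `c` is divided by the trivial plate (mark) `s`. -/

namespace Pool.Agent.ZF

open Pool.Agent.H75.Perc Pool.Agent.H75.TwoArm Pool.Agent.H75.Four Pool.Agent.H69.Q1 Pool.Agent.Q1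
open Pool.Agent.H75.TwoArm.StrandAux hiding vx_nxC
open Pool.Agent.H75.Four.FOtherAux

/-! ### Insertion of a point into a cycle -/

section ins

variable {α : Type*}

lemma sc_map {σ τ : Perm α} {r : α → α} (h : ∀ z, τ.SameCycle (r z) (r (σ z))) {x y : α}
    (hxy : σ.SameCycle x y) : τ.SameCycle (r x) (r y) := by
  obtain ⟨k, rfl⟩ := hxy
  induction k using Int.induction_on with
  | zero => simp only [zpow_zero, Perm.coe_one, id_eq]; exact Perm.SameCycle.refl _ _
  | succ n ih =>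
    rw [add_comm, zpow_add, zpow_one, Perm.mul_apply]
    exact ih.trans (h _)
  | pred n ih =>
    have h1 := h ((σ ^ (-(n : ℤ) - 1)) x)
    have h2 : σ ((σ ^ (-(n : ℤ) - 1)) x) = (σ ^ (-(n : ℤ))) x := by
      rw [← Perm.mul_apply, ← zpow_one_add]; congr 2; ring
    rw [h2] at h1
    exact ih.trans h1.symm

variable [DecidableEq α] {σ : Perm α} {c s : α}

lemma ins_c (hs : σ s = s) : (σ * swap c s) c = s := by
  rw [Perm.mul_apply, swap_apply_left, hs]

lemma ins_s : (σ * swap c s) s = σ c := by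
  rw [Perm.mul_apply, swap_apply_right]

lemma ins_ne {x : α} (h1 : x ≠ c) (h2 : x ≠ s) : (σ * swap c s) x = σ x := by
  rw [Perm.mul_apply, swap_apply_of_ne_of_ne h1 h2]

lemma sc_ins (hs : σ s = s) {x y : α} (hx : x ≠ s) (hy : y ≠ s) :
    (σ * swap c s).SameCycle x y ↔ σ.SameCycle x y := by
  constructor
  · intro h
    have := sc_map (σ := σ * swap c s) (τ := σ) (r := fun z => if z = s then c else z) (by
      intro z
      by_cases hz : z = s
      · rw [hz, ins_s, if_pos rfl]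
        split_ifs with h1
        · exact Perm.SameCycle.refl _ _
        · exact ⟨1, by rw [zpow_one]⟩
      · by_cases hzc : z = c
        · rw [hzc, ins_c hs, if_pos rfl]
          split_ifs <;> exact Perm.SameCycle.refl _ _
        · rw [ins_ne hzc hz, if_neg hz, if_neg]
          · exact ⟨1, by rw [zpow_one]⟩
          · intro h1
            rw [← hs] at h1
            exact hz (σ.injective h1)) h
    rwa [if_neg hx, if_neg hy] at this
  · intro h
    refine sc_map (σ := σ) (τ := σ * swap c s) (r := id) ?_ h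
    intro z
    by_cases hz : z = s
    · rw [hz, hs]
    · by_cases hzc : z = c
      · refine ⟨2, ?_⟩
        change _ = σ z
        rw [zpow_ofNat, pow_two, Perm.mul_apply]
        change (σ * swap c s) ((σ * swap c s) z) = _
        rw [hzc, ins_c hs, ins_s]
      · exact ⟨1, by rw [zpow_one]; exact ins_ne hzc hz⟩

variable {E : Finset α}

lemma sc_ins_s (hs : σ s = s) (hcs : c ≠ s) {x : α} (hx : x ≠ s) :
    (σ * swap c s).SameCycle x s ↔ σ.SameCycle x c := by
  rw [← sc_ins (c := c) hs hx hcs]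
  have h1 : (σ * swap c s).SameCycle c s := ⟨1, by rw [zpow_one, ins_c hs]⟩
  exact ⟨fun h => h.trans h1.symm, fun h => h.trans h1⟩

/-- the sum over a cycle after the insertion of `s` behind `c` -/
lemma sum_ins (hsE : s ∉ E) (hc : c ∈ E) (hs : σ s = s) {g g' : α → ℤ} (h1 : g' c + g' s = g c)
    (h2 : ∀ x ∈ E, x ≠ c → g' x = g x) {x : α} (hx : x ∈ E) :
    ∑ y ∈ Net.cyc (insert s E) (σ * swap c s) x, g' y = ∑ y ∈ Net.cyc E σ x, g y := by
  have hxs : x ≠ s := fun h => hsE (h ▸ hx)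
  have hcs : c ≠ s := fun h => hsE (h ▸ hc)
  by_cases h : σ.SameCycle x c
  · have e : Net.cyc (insert s E) (σ * swap c s) x = insert s (Net.cyc E σ x) := by
      ext y
      rw [Net.mem_cyc, mem_insert, mem_insert, Net.mem_cyc]
      by_cases hy : y = s
      · rw [hy]
        exact ⟨fun _ => Or.inl rfl, fun _ => ⟨Or.inl rfl, (sc_ins_s hs hcs hxs).2 h⟩⟩
      · rw [sc_ins hs hxs hy]
        exact ⟨fun h1 => Or.inr ⟨h1.1.resolve_left hy, h1.2⟩,
          fun h1 => ⟨Or.inr (h1.resolve_left hy).1, (h1.resolve_left hy).2⟩⟩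
    rw [e, sum_insert (fun h1 => hsE (Net.mem_cyc.1 h1).1)]
    have hcm : c ∈ Net.cyc E σ x := Net.mem_cyc.2 ⟨hc, h⟩
    rw [← Finset.add_sum_erase _ _ hcm, ← Finset.add_sum_erase _ g hcm, ← add_assoc, add_comm (g' s),
      h1]
    congr 1
    refine sum_congr rfl fun y hy => ?_
    rw [mem_erase] at hy
    exact h2 y (Net.mem_cyc.1 hy.2).1 hy.1
  · have e : Net.cyc (insert s E) (σ * swap c s) x = Net.cyc E σ x := by
      ext y
      rw [Net.mem_cyc, mem_insert, Net.mem_cyc]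
      by_cases hy : y = s
      · rw [hy]
        exact ⟨fun h1 => absurd ((sc_ins_s hs hcs hxs).1 h1.2) h, fun h1 => absurd h1.1 hsE⟩
      · rw [sc_ins hs hxs hy]
        exact ⟨fun h1 => ⟨h1.1.resolve_left hy, h1.2⟩, fun h1 => ⟨Or.inr h1.1, h1.2⟩⟩
    rw [e]
    refine sum_congr rfl fun y hy => ?_
    refine h2 y (Net.mem_cyc.1 hy).1 ?_
    rintro rfl
    exact h (Net.mem_cyc.1 hy).2

lemma sum_ins_s (hsE : s ∉ E) (hc : c ∈ E) (hs : σ s = s) {g g' : α → ℤ} (h1 : g' c + g' s = g c)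
    (h2 : ∀ x ∈ E, x ≠ c → g' x = g x) :
    ∑ y ∈ Net.cyc (insert s E) (σ * swap c s) s, g' y = ∑ y ∈ Net.cyc E σ c, g y := by
  rw [← sum_ins hsE hc hs h1 h2 hc]
  rw [Net.cyc_congr (x := s) (y := c)]
  exact ⟨-1, by rw [zpow_neg_one, Perm.inv_eq_iff_eq, ins_c hs]⟩

/-- the path to a mark behind `c` -/
lemma isIdx_cut {f f' : α → α} {d d' : α → ℤ} {G : α → Prop} {o : α} (ho : G o)
    (hf : ∀ x, G x → G (f x)) (h1 : ∀ x, G x → x ≠ c → f' x = f x ∧ d' x = d x) (h2 : f' c = s)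
    (h3 : d' c = 0) (hs : ¬ G s) (hoc : o ≠ c) (k : ℤ) :
    IsIdx f d o c k ↔ IsIdx f' d' o s k := by
  have hG : ∀ n : ℕ, G (f^[n] o) := by
    intro n
    induction n with
    | zero => exact ho
    | succ n ih => rw [Function.iterate_succ_apply']; exact hf _ ih
  have hA : ∀ n : ℕ, (∀ j, j < n → f^[j] o ≠ c) → f'^[n] o = f^[n] o := by
    intro n
    induction n with
    | zero => intro _; rfl
    | succ n ih =>
      intro h
      rw [Function.iterate_succ_apply', Function.iterate_succ_apply', ih (fun j hj => h j (by omega))]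
      exact (h1 _ (hG n) (h n (by omega))).1
  have hS : ∀ n : ℕ, (∀ j, j < n → f^[j] o ≠ c) → f^[n] o = c →
      ∑ j ∈ range (n + 1), d' (f'^[j] o) = ∑ j ∈ range n, d (f^[j] o) := by
    intro n hn hc
    rw [sum_range_succ, hA n hn, hc, h3, add_zero]
    refine sum_congr rfl fun j hj => ?_
    rw [mem_range] at hj
    rw [hA j (fun i hi => hn i (by omega))]
    exact (h1 _ (hG j) (hn j hj)).2
  constructor
  · rintro ⟨n, ⟨hn0, hn, hn'⟩, hk⟩
    have hav : ∀ j, j < n → f^[j] o ≠ c := by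
      intro j hj
      rcases Nat.eq_zero_or_pos j with h | h
      · rw [h]; exact hoc
      · exact (hn' j h hj).2
    refine ⟨n + 1, ⟨by omega, ?_, ?_⟩, ?_⟩
    · rw [Function.iterate_succ_apply', hA n hav, hn, h2]
    · intro j hj0 hj
      rw [hA j (fun i hi => hav i (by omega))]
      refine ⟨?_, fun h => hs (h ▸ hG j)⟩
      rcases Nat.lt_or_ge j n with h | h
      · exact (hn' j hj0 h).1
      · have : j = n := by omega
        rw [this, hn]; exact hoc.symm
    · rw [hS n hav hn, hk]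
  · rintro ⟨m, ⟨hm0, hm, hm'⟩, hk⟩
    have hex : ∃ j, j < m ∧ f^[j] o = c := by
      by_contra h
      push Not at h
      rw [hA m h] at hm
      exact hs (hm ▸ hG m)
    classical
    obtain ⟨hn1, hn2⟩ := Nat.find_spec hex
    have hn3 := fun j (hj : j < Nat.find hex) => Nat.find_min hex hj
    set n := Nat.find hex with hn
    have hav : ∀ j, j < n → f^[j] o ≠ c := fun j hj h => hn3 j hj ⟨by omega, h⟩
    have h5 : f'^[n + 1] o = s := by rw [Function.iterate_succ_apply', hA n hav, hn2, h2]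
    have h6 : m = n + 1 := by
      rcases Nat.lt_or_ge (n + 1) m with h | h
      · exact absurd h5 (hm' (n + 1) (by omega) h).2
      · omega
    have hn0 : 0 < n := by
      rcases Nat.eq_zero_or_pos n with h | h
      · rw [h] at hn2; exact absurd hn2 hoc
      · exact h
    refine ⟨n, ⟨hn0, hn2, ?_⟩, ?_⟩
    · intro j hj0 hj
      refine ⟨?_, hav j hj⟩
      have := (hm' j hj0 (by omega)).1
      rwa [hA j (fun i hi => hav i (by omega))] at this
    · rw [← hS n hav hn2, ← h6, hk]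

end ins

/-- Data of the network: `A ⊆ C`, the root `c0`, the strand `c` with the mark and the name `s` of the mark -/
structure Dat2 where
  A : Finset (ℤ × ℤ)
  C : Finset (ℤ × ℤ)
  hAC : A ⊆ C
  c0 : ℤ × ℤ
  c : ℤ × ℤ
  s : ℤ × ℤ
  h0 : plab c0 ∈ A ↔ plab c0 ∈ C
  hc : c ∈ GC A C c0
  hne : c ≠ c0
  hs : s ∉ GC A C c0

namespace Dat2

variable (D : Dat2)

/-- the strands -/
noncomputable def G : Finset (ℤ × ℤ) := GC D.A D.C D.c0

/-- label of the plate at the tail of `x` -/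
noncomputable def lb (x : ℤ × ℤ) : (ℤ × ℤ) ⊕ (ℤ × ℤ) :=
  if x ∈ D.G ∧ plab x ∈ D.C \ D.A then Sum.inl (plab x) else Sum.inr x

variable {D}

lemma nxA {x : ℤ × ℤ} (h : x ∈ D.G) : nx D.A x ∈ D.G := nxA_mem D.hAC h
lemma nxB {x : ℤ × ℤ} (h : x ∈ D.G) : nx D.C x ∈ D.G := nxC_mem D.hAC h
lemma pvA {x : ℤ × ℤ} (h : x ∈ D.G) : pv D.A x ∈ D.G := pv_closed (fun _ h => nxA h) h
lemma ne_s {x : ℤ × ℤ} (h : x ∈ D.G) : x ≠ D.s := fun h1 => D.hs (h1 ▸ h)
lemma c0_mem : D.c0 ∈ D.G := c0_mem_GC D.hAC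
lemma c_mem : D.c ∈ D.G := D.hc
lemma s_not : D.s ∉ D.G := D.hs

lemma iff_of {e : ℤ × ℤ} (h : e ∉ D.C \ D.A) : e ∈ D.A ↔ e ∈ D.C := by
  rw [mem_sdiff, not_and_not_right] at h
  exact ⟨fun h1 => D.hAC h1, h⟩

lemma nx_same {x : ℤ × ℤ} (h : lab x ∉ D.C \ D.A) : nx D.C x = nx D.A x :=
  (nx_eq_of_iff (iff_of h)).symm

variable (D)

/-- `nx C` on the strands -/
noncomputable def B : Perm (ℤ × ℤ) := nxR D.C D.G (fun _ h => nxB h)
/-- `nx A` on the strands -/
noncomputable def W : Perm (ℤ × ℤ) := nxR D.A D.G (fun _ h => nxA h)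
/-- costs after the insertion -/
def dl (w : Finset (ℤ × ℤ)) (x : ℤ × ℤ) : ℤ :=
  if x = D.c then 0 else if x = D.s then H75.Perc.del w D.c else H75.Perc.del w x

variable {D}

lemma B_in {x : ℤ × ℤ} (hx : x ∈ D.G) : D.B x = nx D.C x := nxR_in (h := fun _ h => nxB h) hx
lemma B_out {x : ℤ × ℤ} (hx : x ∉ D.G) : D.B x = x := nxR_out (h := fun _ h => nxB h) hx
lemma W_in {x : ℤ × ℤ} (hx : x ∈ D.G) : D.W x = nx D.A x := nxR_in (h := fun _ h => nxA h) hx
lemma W_out {x : ℤ × ℤ} (hx : x ∉ D.G) : D.W x = x := nxR_out (h := fun _ h => nxA h) hx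
lemma W_inv {x : ℤ × ℤ} (hx : x ∈ D.G) : D.W⁻¹ x = pv D.A x := nxR_inv_in (h := fun _ h => nxA h) hx
lemma B_inv {x : ℤ × ℤ} (hx : x ∈ D.G) : D.B⁻¹ x = pv D.C x := nxR_inv_in (h := fun _ h => nxB h) hx
lemma B_s : D.B D.s = D.s := B_out D.hs
lemma W_s : D.W D.s = D.s := W_out D.hs
lemma B_inv_s : D.B⁻¹ D.s = D.s := by rw [Perm.inv_eq_iff_eq, B_s]
lemma W_inv_s : D.W⁻¹ D.s = D.s := by rw [Perm.inv_eq_iff_eq, W_s]

lemma dl_c (w : Finset (ℤ × ℤ)) : D.dl w D.c = 0 := if_pos rfl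
lemma dl_s (w : Finset (ℤ × ℤ)) : D.dl w D.s = H75.Perc.del w D.c := by
  unfold dl; rw [if_neg (ne_s D.hc).symm, if_pos rfl]
lemma dl_ne (w : Finset (ℤ × ℤ)) {x : ℤ × ℤ} (h1 : x ≠ D.c) (h2 : x ≠ D.s) :
    D.dl w x = H75.Perc.del w x := by
  unfold dl; rw [if_neg h1, if_neg h2]
lemma dl_swap (w : Finset (ℤ × ℤ)) {x : ℤ × ℤ} (h2 : x ≠ D.s) :
    D.dl w (swap D.c D.s x) = H75.Perc.del w x := by
  by_cases h1 : x = D.c
  · rw [h1, swap_apply_left, dl_s]
  · rw [swap_apply_of_ne_of_ne h1 h2, dl_ne w h1 h2]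

lemma inv_swap (σ : Perm (ℤ × ℤ)) (x : ℤ × ℤ) : (σ * swap D.c D.s)⁻¹ x = swap D.c D.s (σ⁻¹ x) := by
  rw [mul_inv_rev, swap_inv, Perm.mul_apply]

lemma lb_s : D.lb D.s = Sum.inr D.s := by
  unfold lb; rw [if_neg (fun h => D.hs h.1)]

lemma lb_BW (x : ℤ × ℤ) : D.lb (D.B x) = D.lb (D.W x) := by
  by_cases hx : x ∈ D.G
  · rw [B_in hx, W_in hx]
    by_cases hl : lab x ∈ D.C \ D.A
    · unfold lb
      rw [plab_nx, plab_nx, if_pos ⟨nxB hx, hl⟩, if_pos ⟨nxA hx, hl⟩]
    · rw [nx_same hl]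
  · rw [B_out hx, W_out hx]

variable (D)

/-- the network -/
noncomputable def net : Net (ℤ × ℤ) ((ℤ × ℤ) ⊕ (ℤ × ℤ)) where
  E := insert D.s D.G
  b := D.B * swap D.c D.s
  w := D.W * swap D.c D.s
  cb := D.dl D.C
  cw := D.dl D.A
  lab := D.lb
  i := D.s
  o := D.c0
  hb := by
    intro x h
    rw [mem_insert, not_or] at h
    rw [ins_ne (fun h1 => h.2 (by rw [h1]; exact c_mem)) h.1]; exact B_out h.2
  hw := by
    intro x h
    rw [mem_insert, not_or] at h
    rw [ins_ne (fun h1 => h.2 (by rw [h1]; exact c_mem)) h.1]; exact W_out h.2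
  hlab := by
    intro x
    rw [Perm.mul_apply, Perm.mul_apply]; exact lb_BW _
  hi := mem_insert_self _ _
  ho := mem_insert_of_mem c0_mem
  hio := (ne_s c0_mem).symm
  mi := by rw [inv_swap, inv_swap, B_inv_s, W_inv_s]
  mo := by
    rw [inv_swap, inv_swap, B_inv c0_mem, W_inv c0_mem, pv_eq_of_iff D.h0]
  ci := by rw [inv_swap, W_inv_s, swap_apply_right, dl_c, dl_c]
  co := by
    rw [inv_swap, W_inv c0_mem, dl_swap _ (ne_s (pvA c0_mem)), dl_swap _ (ne_s (pvA c0_mem))]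
    exact (del_eq_of_iff (by rw [lab_pv]; exact D.h0)).symm

variable {D}

lemma pi_eq : D.net.pi = D.B * D.W⁻¹ := by
  unfold Net.pi
  change D.B * swap D.c D.s * (D.W * swap D.c D.s)⁻¹ = _
  rw [mul_inv_rev, swap_inv, mul_assoc, ← mul_assoc (swap D.c D.s), swap_mul_self, one_mul]

lemma pi_s : D.net.pi D.s = D.s := by
  rw [pi_eq, Perm.mul_apply, W_inv_s, B_s]

lemma pi_in {x : ℤ × ℤ} (hx : x ∈ D.G) : D.net.pi x = nx D.C (pv D.A x) := by
  rw [pi_eq, Perm.mul_apply, W_inv hx, B_in (pvA hx)]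

/-- trivial plates -/
lemma pi_triv {x : ℤ × ℤ} (hx : x ∈ D.G) (h : plab x ∉ D.C \ D.A) : D.net.pi x = x := by
  rw [pi_in hx, nx_same (by rw [lab_pv]; exact h), nx_pv]

/-- tiles: the data of a plate with two tails -/
lemma pi_tile {x : ℤ × ℤ} (hx : x ∈ D.G) (h : plab x ∈ D.C \ D.A) :
    D.net.pi x ∈ D.G ∧ D.net.pi x ≠ x ∧ D.net.pi (D.net.pi x) = x ∧ plab (D.net.pi x) = plab x ∧
      (∀ y, plab y = plab x → y = x ∨ y = D.net.pi x) := by
  rw [mem_sdiff] at h
  set k := pv D.A x with hk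
  have hkG : k ∈ D.G := pvA hx
  have hl : lab k = plab x := lab_pv _ _
  have e1 : nxC k = x := by
    have := nx_pv D.A x
    rw [← hk, nx_of_out (by rw [hl]; exact h.2)] at this
    exact this
  have e2 : D.net.pi x = nxC (opc k) := by
    rw [pi_in hx, ← hk, nx_of_in (by rw [hl]; exact h.1), nxC_eq_nxO, opc_opc]
  have hG : D.net.pi x ∈ D.G := by rw [pi_in hx]; exact nxB hkG
  have e3 : nx D.A (opc k) = D.net.pi x := by
    rw [nx_of_out (by rw [lab_opc, hl]; exact h.2), e2]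
  have e4 : nx D.A k = x := nx_pv D.A x
  have e5 : pv D.A (D.net.pi x) = opc k := by rw [← e3, pv_nx]
  refine ⟨hG, ?_, ?_, ?_, ?_⟩
  · intro h1
    rw [← e3, ← e4] at h1
    exact opc_ne k (nx_injective D.A h1)
  · rw [pi_in hG, e5, nx_of_in (by rw [lab_opc, hl]; exact h.1), ← nxC_eq_nxO, e1]
  · rw [← e3, plab_nx, lab_opc, hl]
  · intro y hy
    have h3 : lab (pv D.A y) = lab k := by rw [lab_pv, hy, hl]
    rcases lab_eq_iff.1 h3 with h4 | h4
    · left; rw [← nx_pv D.A y, h4]; exact e4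
    · right; rw [← nx_pv D.A y, h4]; exact e3

/-! ### The plane class -/

lemma same_fix {x y : ℤ × ℤ} (h : D.net.pi x = x) : D.net.pi.SameCycle x y ↔ y = x := by
  constructor
  · rintro ⟨k, hk⟩
    rw [← hk, Perm.zpow_apply_eq_self_of_apply_eq_self h]
  · intro h1; rw [h1]

lemma same_tile {x y : ℤ × ℤ} (hx : x ∈ D.G) (h : plab x ∈ D.C \ D.A) :
    D.net.pi.SameCycle x y ↔ y = x ∨ y = D.net.pi x := by
  obtain ⟨-, -, h3, -, -⟩ := pi_tile hx h
  have h2 : (D.net.pi ^ 2) x = x := by rw [pow_two, Perm.mul_apply, h3]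
  constructor
  · rintro ⟨k, hk⟩
    obtain ⟨m, rfl | rfl⟩ := Int.even_or_odd' k
    · left
      rw [← hk, zpow_mul]
      exact Perm.zpow_apply_eq_self_of_apply_eq_self (by exact_mod_cast h2) m
    · right
      rw [← hk, add_comm, zpow_add, zpow_mul, Perm.mul_apply,
        Perm.zpow_apply_eq_self_of_apply_eq_self (by exact_mod_cast h2) m, zpow_one]
  · rintro (h1 | h1)
    · rw [h1]
    · exact ⟨1, by rw [h1, zpow_one]⟩

lemma mem_T {x : ℤ × ℤ} : x ∈ D.net.T ↔ x ∈ D.G ∧ x ≠ D.c0 := by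
  unfold Net.T
  rw [mem_erase, mem_erase]
  change x ≠ D.c0 ∧ x ≠ D.s ∧ x ∈ insert D.s D.G ↔ _
  rw [mem_insert]
  exact ⟨fun h => ⟨h.2.2.resolve_left h.2.1, h.1⟩, fun h => ⟨h.2, ne_s h.1, Or.inr h.1⟩⟩

lemma sep : D.net.Sep := by
  intro x hx y hy hxy
  have hx' := (mem_T.1 hx).1
  have hy' := (mem_T.1 hy).1
  change D.lb x = D.lb y at hxy
  unfold lb at hxy
  by_cases h : plab x ∈ D.C \ D.A
  · rw [if_pos ⟨hx', h⟩] at hxy
    by_cases h' : plab y ∈ D.C \ D.A
    · rw [if_pos ⟨hy', h'⟩] at hxy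
      obtain ⟨-, -, -, -, h5⟩ := pi_tile hx' h
      exact (same_tile hx' h).2 (h5 y (Sum.inl.inj hxy).symm)
    · rw [if_neg (fun h1 => h' h1.2)] at hxy
      exact absurd hxy (by simp)
  · rw [if_neg (fun h1 => h h1.2)] at hxy
    by_cases h' : plab y ∈ D.C \ D.A
    · rw [if_pos ⟨hy', h'⟩] at hxy
      exact absurd hxy (by simp)
    · rw [if_neg (fun h1 => h' h1.2)] at hxy
      rw [Sum.inr.inj hxy]

lemma conn0 {X : Finset (ℤ × ℤ)} (hX : X ⊆ D.G) (hne : X.Nonempty)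
    (hA : ∀ x ∈ X, nx D.A x ∈ X) (hC : ∀ x ∈ X, nx D.C x ∈ X) : X = D.G := by
  have h1 : ∀ x, Rch D.A D.C D.c0 x → x ∈ X → D.c0 ∈ X := by
    intro x hx
    induction hx with
    | refl => exact id
    | @tail y z _ hyz ih =>
      intro hz
      apply ih
      rcases hyz with h | h
      · have := pv_closed hA hz
        rwa [h, pv_nx] at this
      · have := pv_closed hC hz
        rwa [h, pv_nx] at this
  obtain ⟨x, hx⟩ := hne
  have h0 : D.c0 ∈ X := h1 x ((mem_GC D.hAC).1 (hX hx)) hx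
  have h2 : ∀ x, Rch D.A D.C D.c0 x → x ∈ X := by
    intro x hx
    induction hx with
    | refl => exact h0
    | tail _ hyz ih =>
      rcases hyz with h | h
      · rw [h]; exact hA _ ih
      · rw [h]; exact hC _ ih
  exact Finset.Subset.antisymm hX (fun x hx => h2 x ((mem_GC D.hAC).1 hx))

lemma conn : D.net.Conn := by
  intro X hX hne hcl
  change X ⊆ insert D.s D.G at hX
  change X = insert D.s D.G
  have hb : ∀ x ∈ X, (D.B * swap D.c D.s) x ∈ X := fun x hx => (hcl x hx).1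
  have hw : ∀ x ∈ X, (D.W * swap D.c D.s) x ∈ X := fun x hx => (hcl x hx).2
  have hcs : D.c ∈ X → D.s ∈ X := fun h => by
    have := hb _ h
    rwa [ins_c B_s] at this
  have hG : ∀ x ∈ X.erase D.s, x ∈ D.G := fun x hx => by
    rw [mem_erase] at hx
    exact (mem_insert.1 (hX hx.2)).resolve_left hx.1
  have hA : ∀ x ∈ X.erase D.s, nx D.A x ∈ X.erase D.s := by
    intro x hx
    have hxG := hG x hx
    rw [mem_erase] at hx ⊢
    refine ⟨ne_s (nxA hxG), ?_⟩
    by_cases h : x = D.c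
    · rw [h] at hx
      have := hw _ (hcs hx.2)
      rw [ins_s, W_in D.hc] at this
      rw [h]; exact this
    · have := hw _ hx.2
      rwa [ins_ne h hx.1, W_in hxG] at this
  have hC : ∀ x ∈ X.erase D.s, nx D.C x ∈ X.erase D.s := by
    intro x hx
    have hxG := hG x hx
    rw [mem_erase] at hx ⊢
    refine ⟨ne_s (nxB hxG), ?_⟩
    by_cases h : x = D.c
    · rw [h] at hx
      have := hb _ (hcs hx.2)
      rw [ins_s, B_in D.hc] at this
      rw [h]; exact this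
    · have := hb _ hx.2
      rwa [ins_ne h hx.1, B_in hxG] at this
  have hne' : (X.erase D.s).Nonempty := by
    obtain ⟨x, hx⟩ := hne
    by_cases h : x = D.s
    · refine ⟨D.B D.c, ?_⟩
      rw [mem_erase]
      refine ⟨by rw [B_in D.hc]; exact ne_s (nxB D.hc), ?_⟩
      have := hb _ hx
      rwa [h, ins_s] at this
    · exact ⟨x, mem_erase.2 ⟨h, hx⟩⟩
  have h0 := conn0 (D := D) (fun x hx => hG x hx) hne' hA hC
  apply Finset.Subset.antisymm hX
  intro x hx
  rcases mem_insert.1 hx with h | h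
  · rw [h]; apply hcs
    exact mem_of_mem_erase (by rw [h0]; exact c_mem)
  · exact mem_of_mem_erase (by rw [h0]; exact h)

lemma cost_diff {x : ℤ × ℤ} (hx : x ∈ D.G) : D.net.cw (D.net.w⁻¹ x) - D.net.cb (D.net.w⁻¹ x) =
    if plab x ∈ D.C \ D.A then 2 else 0 := by
  change D.dl D.A ((D.W * swap D.c D.s)⁻¹ x) - D.dl D.C ((D.W * swap D.c D.s)⁻¹ x) = _
  rw [inv_swap, W_inv hx, dl_swap _ (ne_s (pvA hx)), dl_swap _ (ne_s (pvA hx))]
  unfold H75.Perc.del
  rw [lab_pv]
  by_cases h : plab x ∈ D.C \ D.A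
  · rw [if_pos h]
    rw [mem_sdiff] at h
    rw [if_neg h.2, if_pos h.1]; norm_num
  · rw [if_neg h]
    simp only [iff_of h]; ring

lemma cost_diff_s : D.net.cw (D.net.w⁻¹ D.s) - D.net.cb (D.net.w⁻¹ D.s) = 0 := by
  change D.dl D.A ((D.W * swap D.c D.s)⁻¹ D.s) - D.dl D.C ((D.W * swap D.c D.s)⁻¹ D.s) = _
  rw [inv_swap, W_inv_s, swap_apply_right, dl_c, dl_c, sub_zero]

lemma plates_fix {x : ℤ × ℤ} (hx : x ∈ D.net.E) (h : D.net.pi x = x)
    (hd : D.net.cw (D.net.w⁻¹ x) - D.net.cb (D.net.w⁻¹ x) = 0) :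
    ∑ y ∈ Net.cyc D.net.E D.net.pi x, (D.net.cw (D.net.w⁻¹ y) - D.net.cb (D.net.w⁻¹ y)) =
      4 * (((Net.cyc D.net.E D.net.pi x).card : ℤ) - 1) := by
  have e : Net.cyc D.net.E D.net.pi x = {x} := by
    ext y
    rw [Net.mem_cyc, same_fix h, mem_singleton]
    exact ⟨fun h => h.2, fun h5 => ⟨by rw [h5]; exact hx, h5⟩⟩
  rw [e, Finset.sum_singleton, Finset.card_singleton, hd]
  norm_num

lemma plates : ∀ x ∈ D.net.E, ∑ y ∈ Net.cyc D.net.E D.net.pi x,
    (D.net.cw (D.net.w⁻¹ y) - D.net.cb (D.net.w⁻¹ y)) =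
      4 * (((Net.cyc D.net.E D.net.pi x).card : ℤ) - 1) := by
  intro x hx
  rcases mem_insert.1 (show x ∈ insert D.s D.G from hx) with hx' | hx'
  · exact plates_fix hx (by rw [hx']; exact pi_s) (by rw [hx']; exact cost_diff_s)
  · by_cases h : plab x ∈ D.C \ D.A
    · obtain ⟨h1, h2, h3, h4, -⟩ := pi_tile hx' h
      have e : Net.cyc D.net.E D.net.pi x = {x, D.net.pi x} := by
        ext y
        rw [Net.mem_cyc, same_tile hx' h, mem_insert, mem_singleton]
        constructor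
        · exact fun h => h.2
        · rintro (h5 | h5)
          · exact ⟨by rw [h5]; exact hx, Or.inl h5⟩
          · exact ⟨by rw [h5]; exact mem_insert_of_mem h1, Or.inr h5⟩
      rw [e, Finset.sum_pair h2.symm, Finset.card_pair h2.symm, cost_diff hx', cost_diff h1, h4,
        if_pos h]
      norm_num
    · exact plates_fix hx (pi_triv hx' h) (by rw [cost_diff hx', if_neg h])

/-- total of a loop -/
lemma tot {w : Finset (ℤ × ℤ)} {σ : Perm (ℤ × ℤ)} (h1 : ∀ x ∈ D.G, σ x = nx w x)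
    (h2 : ∀ x ∈ D.G, nx w x ∈ D.G) (h3 : σ D.s = D.s) {x : ℤ × ℤ} (hx : x ∈ insert D.s D.G) :
    ∃ L, ∃ z ∈ D.G, (x ∈ D.G → z = x) ∧ Orb (nx w) z L ∧
      ∑ y ∈ Net.cyc (insert D.s D.G) (σ * swap D.c D.s) x, D.dl w y =
        KK (nx w) (H75.Perc.del w) z 0 L := by
  have key : ∀ z ∈ D.G, ∃ L, Orb (nx w) z L ∧
      ∑ y ∈ Net.cyc D.G σ z, H75.Perc.del w y = KK (nx w) (H75.Perc.del w) z 0 L := by
    intro z hz
    obtain ⟨L, hL⟩ := exists_orb (nx w) (nx_injective w) D.G h2 z hz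
    refine ⟨L, hL, ?_⟩
    rw [Net.sum_cyc_eq _ h1 (fun x hx => by rw [h1 x hx]; exact h2 x hx) hz hL.pos hL.per hL.inj]
    unfold KK
    rw [zero_add]
  have e1 : D.dl w D.c + D.dl w D.s = H75.Perc.del w D.c := by rw [dl_c, dl_s, zero_add]
  have e2 : ∀ x ∈ D.G, x ≠ D.c → D.dl w x = H75.Perc.del w x := fun x hx h => dl_ne w h (ne_s hx)
  by_cases hxs : x = D.s
  · obtain ⟨L, hL, hs⟩ := key D.c D.hc
    refine ⟨L, D.c, D.hc, fun h => absurd (hxs ▸ h) D.hs, hL, ?_⟩
    rw [hxs, sum_ins_s s_not c_mem h3 e1 e2, hs]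
  · have hx' := (mem_insert.1 hx).resolve_left hxs
    obtain ⟨L, hL, hs⟩ := key x hx'
    refine ⟨L, x, hx', fun _ => rfl, hL, ?_⟩
    rw [sum_ins s_not c_mem h3 e1 e2 hx', hs]

/-- **The network of a plane environment is planar**: only Ree's inequality and the total `4` of the
black loop of the root are used. -/
theorem pl (htot : ∀ L, Orb (nx D.C) D.c0 L → KK (nx D.C) (H75.Perc.del D.C) D.c0 0 L = 4)
    (ree : (Net.cycs D.net.E D.net.b).card + (Net.cycs D.net.E D.net.w).card +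
      (Net.cycs D.net.E D.net.pi).card ≤ D.net.E.card + 2) : D.net.Pl := by
  obtain ⟨h1, h2, h3⟩ := D.net.gauss plates
    (fun x hx => by
      obtain ⟨L, z, -, -, hL, hs⟩ := tot (D := D) (σ := D.W) (fun _ h => W_in h) (fun _ h => nxA h) W_s
        hx
      change ∑ y ∈ Net.cyc (insert D.s D.G) (D.W * swap D.c D.s) x, D.dl D.A y ≤ 4
      rw [hs]
      have := orb_pm hL 0
      omega)
    (fun x hx => by
      obtain ⟨L, z, -, -, hL, hs⟩ := tot (D := D) (σ := D.B) (fun _ h => B_in h) (fun _ h => nxB h) B_s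
        hx
      change -4 ≤ ∑ y ∈ Net.cyc (insert D.s D.G) (D.B * swap D.c D.s) x, D.dl D.C y
      rw [hs]
      have := orb_pm hL 0
      omega)
    (by
      obtain ⟨L, z, -, hz, hL, hs⟩ := tot (D := D) (σ := D.B) (fun _ h => B_in h) (fun _ h => nxB h)
        B_s (mem_insert_of_mem (c0_mem (D := D)))
      change 4 ≤ ∑ y ∈ Net.cyc (insert D.s D.G) (D.B * swap D.c D.s) D.c0, D.dl D.C y
      rw [hz c0_mem] at hL hs
      rw [hs, htot L hL]) ree
  exact ⟨sep, conn, h1, plates, h2, h3⟩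

end Dat2

end Pool.Agent.ZF
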