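import Mathlib
import Pool.Agent.ZF.Box2
import Pool.Agent.H53.ZF.Def

set_option autoImplicit false
open Finset Equiv

/-! # The partition function of the network with the mark in the middle of a strand

`zfe_of`: zero-freeness for all corners of all plane environments. -/

namespace Pool.Agent.ZF

open Pool.Agent.H75.Perc Pool.Agent.H75.TwoArm Pool.Agent.H75.Four Pool.Agent.H69.Q1 Pool.Agent.Q1
open Pool.Agent.H75.TwoArm.StrandAux hiding vx_nxC
open Pool.Agent.H75.Four.FOtherAux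
open Pool.Agent.Q1.M6c (PlaneEnv)

namespace Dat2

variable {D : Dat2}

variable (D) in
/-- the random open labels of a state of the network -/
def om (S : Finset ((ℤ × ℤ) ⊕ (ℤ × ℤ))) : Finset (ℤ × ℤ) :=
  (D.C \ D.A).filter (fun e => Sum.inl e ∈ S)

lemma mem_om {S : Finset ((ℤ × ℤ) ⊕ (ℤ × ℤ))} {e : ℤ × ℤ} :
    e ∈ D.om S ↔ e ∈ D.C \ D.A ∧ Sum.inl e ∈ S := by unfold om; rw [mem_filter]

lemma om_sub {S : Finset ((ℤ × ℤ) ⊕ (ℤ × ℤ))} : D.om S ⊆ D.C \ D.A := filter_subset _ _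

lemma union_iff {S : Finset ((ℤ × ℤ) ⊕ (ℤ × ℤ))} {e : ℤ × ℤ} (h : e ∉ D.C \ D.A) :
    e ∈ D.A ∪ D.om S ↔ e ∈ D.A := by
  rw [mem_union, mem_om]
  exact ⟨fun h1 => h1.elim id (fun h2 => absurd h2.1 h), Or.inl⟩

lemma w_ne {x : ℤ × ℤ} (hx : x ∈ D.G) (hc : x ≠ D.c) : D.net.w x = nx D.A x := by
  change (D.W * swap D.c D.s) x = _
  rw [ins_ne hc (ne_s hx), W_in hx]
lemma b_ne {x : ℤ × ℤ} (hx : x ∈ D.G) (hc : x ≠ D.c) : D.net.b x = nx D.C x := by
  change (D.B * swap D.c D.s) x = _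
  rw [ins_ne hc (ne_s hx), B_in hx]

lemma lab_w {x : ℤ × ℤ} (hx : x ∈ D.G) (hc : x ≠ D.c) (h : lab x ∈ D.C \ D.A) :
    D.net.lab (D.net.w x) = Sum.inl (lab x) := by
  rw [w_ne hx hc]
  change D.lb (nx D.A x) = _
  unfold lb
  rw [if_pos ⟨nxA hx, by rw [plab_nx]; exact h⟩, plab_nx]

lemma step_in {S : Finset ((ℤ × ℤ) ⊕ (ℤ × ℤ))} {x : ℤ × ℤ} (hx : x ∈ D.G) (hc : x ≠ D.c) :
    D.net.step S x = nx (D.A ∪ D.om S) x := by
  unfold Net.step
  by_cases h : lab x ∈ D.C \ D.A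
  · rw [lab_w hx hc h, b_ne hx hc, w_ne hx hc]
    have h' := h
    rw [mem_sdiff] at h'
    by_cases h1 : Sum.inl (lab x) ∈ S
    · rw [if_pos h1, nx_of_in h'.1, nx_of_in (mem_union_right _ (mem_om.2 ⟨h, h1⟩))]
    · rw [if_neg h1, nx_of_out h'.2, nx_of_out]
      rw [mem_union, not_or]
      exact ⟨h'.2, fun h2 => h1 (mem_om.1 h2).2⟩
  · rw [b_ne hx hc, w_ne hx hc, nx_same h, ite_self]
    exact (nx_eq_of_iff (union_iff h)).symm

lemma cost_in {S : Finset ((ℤ × ℤ) ⊕ (ℤ × ℤ))} {x : ℤ × ℤ} (hx : x ∈ D.G) (hc : x ≠ D.c) :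
    D.net.cost S x = H75.Perc.del (D.A ∪ D.om S) x := by
  unfold Net.cost
  change (if D.net.lab (D.net.w x) ∈ S then D.dl D.C x else D.dl D.A x) = _
  rw [dl_ne _ hc (ne_s hx), dl_ne _ hc (ne_s hx)]
  by_cases h : lab x ∈ D.C \ D.A
  · rw [lab_w hx hc h]
    have h' := h
    rw [mem_sdiff] at h'
    unfold H75.Perc.del
    rw [if_pos h'.1, if_neg h'.2]
    by_cases h1 : Sum.inl (lab x) ∈ S
    · rw [if_pos h1, if_pos (mem_union_right _ (mem_om.2 ⟨h, h1⟩))]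
    · rw [if_neg h1, if_neg]
      rw [mem_union, not_or]
      exact ⟨h'.2, fun h2 => h1 (mem_om.1 h2).2⟩
  · rw [del_eq_of_iff (w := D.C) (w' := D.A) (iff_of h).symm, ite_self]
    exact (del_eq_of_iff (union_iff h)).symm

lemma step_c {S : Finset ((ℤ × ℤ) ⊕ (ℤ × ℤ))} : D.net.step S D.c = D.s := by
  unfold Net.step
  change (if _ then (D.B * swap D.c D.s) D.c else (D.W * swap D.c D.s) D.c) = _
  rw [ins_c B_s, ins_c W_s, ite_self]

lemma cost_c {S : Finset ((ℤ × ℤ) ⊕ (ℤ × ℤ))} : D.net.cost S D.c = 0 := by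
  unfold Net.cost
  change (if _ then D.dl D.C D.c else D.dl D.A D.c) = _
  rw [dl_c, dl_c, ite_self]

lemma nx_om {S : Finset ((ℤ × ℤ) ⊕ (ℤ × ℤ))} {x : ℤ × ℤ} (hx : x ∈ D.G) :
    nx (D.A ∪ D.om S) x ∈ D.G := by
  by_cases h : lab x ∈ D.A ∪ D.om S
  · have h1 : lab x ∈ D.C := by
      rcases mem_union.1 h with h1 | h1
      · exact D.hAC h1
      · exact (mem_sdiff.1 (om_sub h1)).1
    rw [nx_of_in h, ← nx_of_in h1]; exact nxB hx
  · rw [nx_of_out h, ← nx_of_out (fun h1 => h (mem_union_left _ h1))]; exact nxA hx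

lemma idx_congr' {α β : Type*} {f : α → α} {g : β → β} {c : α → ℤ} {d : β → ℤ} {o i : α} {o' i' : β}
    (h : ∀ k, IsIdx f c o i k ↔ IsIdx g d o' i' k) : idx f c o i = idx g d o' i' := by
  rcases h1 : idx f c o i with _ | k
  · rcases h2 : idx g d o' i' with _ | l
    · rfl
    · rw [idx_eq_some, ← h, ← idx_eq_some, h1] at h2
      exact absurd h2 (by simp)
  · rw [idx_eq_some, h, ← idx_eq_some] at h1
    rw [h1]

/-- the index of the network is the index of the environment -/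
lemma K_net (S : Finset ((ℤ × ℤ) ⊕ (ℤ × ℤ))) : D.net.K S = Dat.KE D.A (D.om S) D.c0 D.c := by
  unfold Net.K Dat.KE
  symm
  apply idx_congr'
  intro k
  exact isIdx_cut (G := fun x => x ∈ D.G) c0_mem (fun x hx => nx_om hx)
    (fun x hx hc => ⟨step_in hx hc, cost_in hx hc⟩) step_c cost_c s_not D.hne.symm k

variable (D) in
/-- the random labels of the network -/
noncomputable def LG : Finset (ℤ × ℤ) := by
  classical exact (D.C \ D.A).filter (fun e => ∃ x ∈ D.G, plab x = e)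

lemma mem_LG {e : ℤ × ℤ} : e ∈ D.LG ↔ e ∈ D.C \ D.A ∧ ∃ x ∈ D.G, plab x = e := by
  unfold LG; simp only [mem_filter]

variable (D) in
/-- the random labels as labels of plates -/
noncomputable def U1 : Finset ((ℤ × ℤ) ⊕ (ℤ × ℤ)) := D.LG.image Sum.inl

variable (D) in
/-- the trivial plates -/
noncomputable def U2 : Finset ((ℤ × ℤ) ⊕ (ℤ × ℤ)) :=
  (D.net.T.filter (fun x => plab x ∉ D.C \ D.A)).image Sum.inr

lemma disj_U : Disjoint D.U1 D.U2 := by
  rw [disjoint_left]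
  intro v h1 h2
  unfold U1 at h1
  unfold U2 at h2
  rw [mem_image] at h1 h2
  obtain ⟨e, -, rfl⟩ := h1
  obtain ⟨x, -, h⟩ := h2
  exact absurd h (by simp)

lemma L_eq : D.net.L = D.U1 ∪ D.U2 := by
  ext v
  unfold Net.L U1 U2
  rw [mem_image, mem_union, mem_image, mem_image]
  constructor
  · rintro ⟨x, hx, rfl⟩
    have hx' : x ∈ D.G := (mem_T.1 hx).1
    have e : D.net.lab x = D.lb x := rfl
    rw [e]
    unfold lb
    by_cases h : plab x ∈ D.C \ D.A
    · left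
      exact ⟨plab x, mem_LG.2 ⟨h, x, hx', rfl⟩, by rw [if_pos ⟨hx', h⟩]⟩
    · right
      exact ⟨x, mem_filter.2 ⟨hx, h⟩, by rw [if_neg (fun h1 => h h1.2)]⟩
  · rintro (⟨e, he, rfl⟩ | ⟨x, hx, rfl⟩)
    · obtain ⟨h1, x, hx, rfl⟩ := mem_LG.1 he
      have h2 : x ∈ D.net.T := by
        rw [mem_T]
        refine ⟨hx, ?_⟩
        rintro rfl
        rw [mem_sdiff] at h1
        exact h1.2 (D.h0.2 h1.1)
      refine ⟨x, h2, ?_⟩
      change D.lb x = _
      unfold lb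
      rw [if_pos ⟨hx, h1⟩]
    · rw [mem_filter] at hx
      refine ⟨x, hx.1, ?_⟩
      change D.lb x = _
      unfold lb
      rw [if_neg (fun h1 => hx.2 h1.2)]

lemma mem_LG_of {x : ℤ × ℤ} (hx : x ∈ D.G) (h : lab x ∈ D.C \ D.A) : lab x ∈ D.LG :=
  mem_LG.2 ⟨h, nx D.A x, nxA hx, plab_nx _ _⟩

lemma nx_om_congr {S S' : Finset ((ℤ × ℤ) ⊕ (ℤ × ℤ))}
    (h : ∀ e ∈ D.LG, Sum.inl e ∈ S ↔ Sum.inl e ∈ S') {x : ℤ × ℤ} (hx : x ∈ D.G) :
    nx (D.A ∪ D.om S) x = nx (D.A ∪ D.om S') x ∧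
      H75.Perc.del (D.A ∪ D.om S) x = H75.Perc.del (D.A ∪ D.om S') x := by
  have h1 : lab x ∈ D.A ∪ D.om S ↔ lab x ∈ D.A ∪ D.om S' := by
    by_cases hl : lab x ∈ D.C \ D.A
    · rw [mem_union, mem_union, mem_om, mem_om, h _ (mem_LG_of hx hl)]
    · rw [union_iff hl, union_iff hl]
  exact ⟨nx_eq_of_iff h1, del_eq_of_iff h1⟩

/-- the index only depends on the random labels of the network -/
lemma K_congr {S S' : Finset ((ℤ × ℤ) ⊕ (ℤ × ℤ))}
    (h : ∀ e ∈ D.LG, Sum.inl e ∈ S ↔ Sum.inl e ∈ S') : D.net.K S = D.net.K S' := by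
  have h1 : ∀ n, (nx (D.A ∪ D.om S'))^[n] D.c0 = (nx (D.A ∪ D.om S))^[n] D.c0 ∧
      (nx (D.A ∪ D.om S))^[n] D.c0 ∈ D.G := by
    intro n
    induction n with
    | zero => exact ⟨rfl, c0_mem⟩
    | succ n ih =>
      rw [Function.iterate_succ_apply', Function.iterate_succ_apply', ih.1]
      exact ⟨((nx_om_congr h ih.2).1).symm, nx_om ih.2⟩
  rw [K_net, K_net]
  unfold Dat.KE
  apply idx_congr
  intro k
  exact isIdx_congr (o := D.c0) (fun n => (h1 n).1) (fun n => ((nx_om_congr h (h1 n).2).2).symm)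

lemma mem_image_inl {ω : Finset (ℤ × ℤ)} {e : ℤ × ℤ} :
    (Sum.inl e : (ℤ × ℤ) ⊕ (ℤ × ℤ)) ∈ ω.image Sum.inl ↔ e ∈ ω := by
  rw [mem_image]
  exact ⟨fun ⟨a, ha, h⟩ => by rw [← Sum.inl.inj h]; exact ha, fun h => ⟨e, h, rfl⟩⟩

lemma mem_U1 {e : ℤ × ℤ} : Sum.inl e ∈ D.U1 ↔ e ∈ D.LG := mem_image_inl

lemma om_image {ω : Finset (ℤ × ℤ)} (hω : ω ⊆ D.C \ D.A) : D.om (ω.image Sum.inl) = ω := by
  ext e
  rw [mem_om, mem_image_inl]
  exact ⟨fun h => h.2, fun h => ⟨hω h, h⟩⟩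

/-- **Zero-freeness for the environment**: if the network of `D` is good, the partition function of the
strand from `c0` to `c` has no zeros. -/
theorem ne_zero (hg : D.net.Good) (t : ℤ × ℤ → ℝ) (ht : ∀ e, 0 < t e) {y : ℂ} (hy : y ≠ 0)
    (ha : |y.arg| < Real.pi / 4) (hex : ∃ ω ⊆ D.C \ D.A, Dat.KE D.A ω D.c0 D.c ≠ none) :
    ∑ ω ∈ (D.C \ D.A).powerset, (∏ e ∈ ω, (t e : ℂ)) * Dat.vl y (Dat.KE D.A ω D.c0 D.c) ≠ 0 := by
  -- the common factor
  set z : ℂ := ∑ ω ∈ D.LG.powerset, (∏ e ∈ ω, (t e : ℂ)) * Dat.vl y (Dat.KE D.A ω D.c0 D.c) with hz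
  have hKE : ∀ ω ⊆ D.C \ D.A, Dat.KE D.A ω D.c0 D.c = D.net.K (ω.image Sum.inl) := by
    intro ω hω
    rw [K_net, om_image hω]
  have hLG : D.LG ⊆ D.C \ D.A := fun e he => (mem_LG.1 he).1
  -- the environment
  have h1 : ∑ ω ∈ (D.C \ D.A).powerset, (∏ e ∈ ω, (t e : ℂ)) * Dat.vl y (Dat.KE D.A ω D.c0 D.c) =
      z * ∏ e ∈ (D.C \ D.A) \ D.LG, (1 + (t e : ℂ)) := by
    have := sum_split (fun e => (t e : ℂ)) (fun ω => Dat.vl y (Dat.KE D.A ω D.c0 D.c)) D.LG
      ((D.C \ D.A) \ D.LG) disjoint_sdiff (by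
        intro ω hω
        rw [union_sdiff_of_subset hLG] at hω
        rw [hKE ω hω, hKE (ω ∩ D.LG) (inter_subset_left.trans hω)]
        congr 1
        apply K_congr
        intro e he
        rw [mem_image_inl, mem_image_inl, mem_inter]
        exact ⟨fun h => ⟨h, he⟩, fun h => h.1⟩)
    rw [union_sdiff_of_subset hLG] at this
    exact this
  -- the network
  have hdead : ¬ D.net.Dead := by
    intro hd
    obtain ⟨ω, hω, hK⟩ := hex
    apply hK
    rw [hKE ω hω, ← hd ((ω ∩ D.LG).image Sum.inl) (by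
      rw [L_eq]
      refine Finset.Subset.trans ?_ subset_union_left
      exact image_subset_image inter_subset_right)]
    apply K_congr
    intro e he
    rw [mem_image_inl, mem_image_inl, mem_inter]
    exact ⟨fun h => ⟨h, he⟩, fun h => h.1⟩
  have h2 := (hg.resolve_left hdead) (fun v => Sum.elim t (fun _ => 1) v) (by
    rintro (e | x)
    · exact ht e
    · exact one_pos) y hy ha
  have h3 : D.net.Z (fun v => Sum.elim t (fun _ => 1) v) y = z * ∏ v ∈ D.U2,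
      (1 + ((Sum.elim t (fun _ => 1) v : ℝ) : ℂ)) := by
    have := sum_split (fun v : (ℤ × ℤ) ⊕ (ℤ × ℤ) => ((Sum.elim t (fun _ => 1) v : ℝ) : ℂ))
      (fun S => Dat.vl y (D.net.K S)) D.U1 D.U2 disj_U (by
        intro S _
        congr 1
        apply K_congr
        intro e he
        rw [mem_inter]
        exact ⟨fun h => ⟨h, mem_U1.2 he⟩, fun h => h.1⟩)
    rw [← L_eq] at this
    unfold Net.Z
    refine Eq.trans ?_ (this.trans ?_)
    · rfl
    · congr 1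
      rw [hz]
      symm
      refine Finset.sum_bij (fun ω _ => ω.image Sum.inl) ?_ ?_ ?_ ?_
      · intro ω hω
        rw [mem_powerset] at hω ⊢
        exact image_subset_image hω
      · intro ω _ ω' _ h
        exact Finset.image_injective Sum.inl_injective h
      · intro S hS
        rw [mem_powerset] at hS
        unfold U1 at hS
        obtain ⟨ω, hω, rfl⟩ := Finset.subset_image_iff.1 hS
        exact ⟨ω, mem_powerset.2 (by exact_mod_cast hω), rfl⟩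
      · intro ω hω
        rw [mem_powerset] at hω
        rw [hKE ω (hω.trans hLG), Finset.prod_image (fun a _ b _ h => Sum.inl.inj h)]
        rfl
  rw [h1]
  refine mul_ne_zero ?_ ?_
  · intro h0
    rw [h3, h0, zero_mul] at h2
    exact h2 rfl
  · refine Finset.prod_ne_zero_iff.2 fun e _ => ?_
    have := ht e
    intro h
    have h4 := congrArg Complex.re h
    simp only [Complex.add_re, Complex.one_re, Complex.ofReal_re, Complex.zero_re] at h4
    linarith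

end Dat2

/-- **Zero-freeness for labels, mark on any strand**: `A` open, labels outside `C` closed, root `c0`. -/
theorem zf_strand (hZ : PlGood) (hR : Ree) {A C : Finset (ℤ × ℤ)} (hAC : A ⊆ C) {c0 c : ℤ × ℤ}
    (h0 : plab c0 ∈ A ↔ plab c0 ∈ C) (hne : c ≠ c0)
    (htot : ∀ L, Orb (nx C) c0 L → KK (nx C) (H75.Perc.del C) c0 0 L = 4)
    (t : ℤ × ℤ → ℝ) (ht : ∀ e, 0 < t e) {y : ℂ} (hy : y ≠ 0) (ha : |y.arg| < Real.pi / 4)
    (hex : ∃ ω ⊆ C \ A, Dat.KE A ω c0 c ≠ none) :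
    ∑ ω ∈ (C \ A).powerset, (∏ e ∈ ω, (t e : ℂ)) * Dat.vl y (Dat.KE A ω c0 c) ≠ 0 := by
  have hi : c ∈ GC A C c0 := by
    obtain ⟨ω, hω, hK⟩ := hex
    obtain ⟨k, hk⟩ := Option.ne_none_iff_exists'.1 hK
    unfold Dat.KE at hk
    rw [idx_eq_some] at hk
    obtain ⟨n, hn, -⟩ := hk
    rw [← hn.2.1]
    exact reach_of_iter hAC hω n
  obtain ⟨s, hs⟩ := Infinite.exists_notMem_finset (GC A C c0)
  let D : Dat2 := ⟨A, C, hAC, c0, c, s, h0, hi, hne, hs⟩
  exact Dat2.ne_zero (D := D) (hZ D.net (Dat2.pl htot (hR D.net Dat2.conn))) t ht hy ha hex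

/-- the strand at `c` -/
lemma isIdx_at {α : Type*} {f : α → α} {d : α → ℤ} {c h : α} {L : ℕ} (hO : Orb f c L) (hne : h ≠ c)
    {k : ℤ} : IsIdx f d c h k ↔ ∃ n, n < L ∧ f^[n] c = h ∧ ∑ j ∈ range n, d (f^[j] c) = k := by
  constructor
  · rintro ⟨m, ⟨hm0, hm, hm'⟩, hk⟩
    refine ⟨m, ?_, hm, hk⟩
    by_contra hn
    have hL : L < m ∨ L = m := by omega
    rcases hL with hL | hL
    · exact (hm' L hO.pos hL).1 hO.per
    · rw [← hL, hO.per] at hm; exact hne hm.symm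
  · rintro ⟨n, hn, hh, hk⟩
    have h0 : 0 < n := by
      rcases Nat.eq_zero_or_pos n with h1 | h1
      · rw [h1] at hh; exact absurd hh.symm hne
      · exact h1
    refine ⟨n, ⟨h0, hh, ?_⟩, hk⟩
    intro j hj hjn
    refine ⟨fun h2 => hO.inj 0 j hj (by omega) h2.symm, fun h2 => ?_⟩
    rw [← hh] at h2
    exact hO.inj j n hjn hn h2

/-- value of the path at a corner and index of the strand -/
lemma at_eq' {X : Env} {W : Finset (ℤ × ℤ)} (hX : PlaneEnv X W) {ω : Finset (ℤ × ℤ)} (hω : ω ⊆ X.E)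
    {c : ℤ × ℤ} (hc : c ≠ X.c0) {y : ℂ} (hy : y ≠ 0) :
    at' X y ω c = Dat.vl y (Dat.KE W ω X.c0 c) * y ^ X.k0 := by
  have hO : Orb (nx (W ∪ ω)) X.c0 (X.len ω) := by rw [union_comm]; exact hX.orb hω
  have hz : ∀ n, X.z ω n = (nx (W ∪ ω))^[n] X.c0 := fun n => by rw [hX.zz ω hω, union_comm]
  by_cases hex : ∃ n, n < X.len ω ∧ X.z ω n = c
  · obtain ⟨n, hn1, hn2⟩ := hex
    have hK : Dat.KE W ω X.c0 c = some (X.K ω n - X.k0) := by
      unfold Dat.KE
      rw [idx_eq_some, isIdx_at hO hc]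
      refine ⟨n, hn1, by rw [← hz]; exact hn2, ?_⟩
      rw [hX.KK' ω hω n, union_comm ω W]
      unfold KK
      ring
    unfold at'
    rw [hK, Finset.sum_eq_single n]
    · rw [if_pos hn2]
      change _ = y ^ (X.K ω n - X.k0) * _
      rw [← zpow_add₀ hy]
      congr 1; ring
    · intro j hj hjn
      rw [if_neg]
      intro h2
      exact hjn (Env.z_inj hω (mem_range.1 hj) hn1 (h2.trans hn2.symm))
    · intro h2
      exact absurd (mem_range.2 hn1) h2
  · have hK : Dat.KE W ω X.c0 c = none := by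
      rw [Option.eq_none_iff_forall_ne_some]
      intro k hk
      unfold Dat.KE at hk
      rw [idx_eq_some, isIdx_at hO hc] at hk
      obtain ⟨n, hn1, hn2, -⟩ := hk
      exact hex ⟨n, hn1, by rw [hz]; exact hn2⟩
    rw [hK]
    unfold at'
    rw [Finset.sum_eq_zero]
    · change (0 : ℂ) = 0 * _
      rw [zero_mul]
    · intro j hj
      rw [if_neg]
      intro h2
      exact hex ⟨j, mem_range.1 hj, h2⟩

/-- `∑_{ω ⊆ E} ∏_{a ∈ ω} t a = ∏_{a ∈ E} (1 + t a)` is not zero -/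
lemma prod_ne (E : Finset (ℤ × ℤ)) (t : ℤ × ℤ → ℝ) (ht : ∀ e, 0 < t e) :
    ∑ ω ∈ E.powerset, ∏ a ∈ ω, (t a : ℂ) ≠ 0 := by
  rw [← Finset.prod_one_add]
  refine Finset.prod_ne_zero_iff.2 fun e _ => ?_
  have := ht e
  intro h
  have h4 := congrArg Complex.re h
  simp only [Complex.add_re, Complex.one_re, Complex.ofReal_re, Complex.zero_re] at h4
  linarith

/-- **(ZF) for plane environments**, all corners. -/
theorem zfe_of (hZ : PlGood) (hR : Ree) : Pool.Agent.H53.ZF.ZFE := by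
  intro X W hX c hex t ht y hy ha
  unfold Pool.Agent.H53.ZF.genT
  by_cases hc : c = X.c0
  · have h1 : ∀ ω ∈ X.E.powerset, (∏ a ∈ ω, (t a : ℂ)) * at' X y ω c =
        (∏ a ∈ ω, (t a : ℂ)) * y ^ X.k0 := by
      intro ω hω
      rw [mem_powerset] at hω
      congr 1
      have hz0 : X.z ω 0 = c := by rw [hc, hX.zz ω hω 0]; rfl
      have hK0 : X.K ω 0 = X.k0 := by
        rw [hX.KK' ω hω 0]; unfold KK; rw [range_zero, sum_empty, add_zero]
      have hp : 0 < X.len ω := (hX.orb hω).pos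
      unfold at'
      rw [Finset.sum_eq_single 0]
      · rw [if_pos hz0, hK0]
      · intro j hj hjn
        rw [if_neg]
        intro h2
        exact hjn (Env.z_inj hω (mem_range.1 hj) hp (h2.trans hz0.symm))
      · intro h2
        exact absurd (mem_range.2 hp) h2
    rw [sum_congr rfl h1, ← sum_mul]
    exact mul_ne_zero (prod_ne X.E t ht) (zpow_ne_zero _ hy)
  · have hd : Disjoint W X.E := hX.disj.symm
    have hCA : (W ∪ X.E) \ W = X.E := by
      rw [union_sdiff_left]; exact sdiff_eq_self_of_disjoint hd.symm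
    have h0 : plab X.c0 ∈ W ↔ plab X.c0 ∈ W ∪ X.E := by
      rw [mem_union]
      exact ⟨Or.inl, fun h => h.elim id (fun h => absurd h (plab_root X))⟩
    have key := zf_strand hZ hR (A := W) (C := W ∪ X.E) subset_union_left h0 hc (fun L hL => by
      obtain ⟨g, hg1, hg2⟩ := hX.out
      have := total_outer (hg1.anti (by rw [union_comm])) (fun v hv => hg2 v (hv.mono (by
        rw [union_comm]))) hL 0
      simpa using this) t ht hy ha (by
      obtain ⟨ω, hω, n, hn, hz⟩ := hex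
      refine ⟨ω, by rw [hCA]; exact hω, ?_⟩
      unfold Dat.KE
      rw [Option.ne_none_iff_exists']
      have hO : Orb (nx (W ∪ ω)) X.c0 (X.len ω) := by rw [union_comm]; exact hX.orb hω
      refine ⟨∑ j ∈ range n, H75.Perc.del (W ∪ ω) ((nx (W ∪ ω))^[j] X.c0), ?_⟩
      rw [idx_eq_some, isIdx_at hO hc]
      exact ⟨n, hn, by rw [← hz, hX.zz ω hω, union_comm], rfl⟩)
    rw [hCA] at key
    have h2 : ∑ ω ∈ X.E.powerset, (∏ a ∈ ω, (t a : ℂ)) * at' X y ω c =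
        (∑ ω ∈ X.E.powerset, (∏ a ∈ ω, (t a : ℂ)) * Dat.vl y (Dat.KE W ω X.c0 c)) * y ^ X.k0 := by
      rw [sum_mul]
      refine sum_congr rfl fun ω hω => ?_
      rw [at_eq' hX (mem_powerset.1 hω) hc hy, mul_assoc]
    rw [h2]
    exact mul_ne_zero key (zpow_ne_zero _ hy)

end Pool.Agent.ZF
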