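import Pool.Agent.ZF.Lift

set_option autoImplicit false
open Complex Set Filter Topology

/-! # The angle lemma (ZFLEAN, layer 1)

`f, g` entire, `f + x g` has no zero with `0 < Im ζ < φ` for `x > 0`, and `f + g` vanishes at `φ * I`.
Then the zero is simple and `f (φ I)` is a real nonzero multiple of the derivative of `f + g`. -/

namespace Pool.Agent.ZF

lemma im_exp_mul (a : ℝ) (z : ℂ) : (exp (a * I) * z).im = Real.cos a * z.im + Real.sin a * z.re := by
  rw [exp_mul_I, ← ofReal_cos, ← ofReal_sin]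
  simp only [mul_im, add_re, add_im, ofReal_re, ofReal_im, mul_re, I_re, I_im]
  ring

/-- elementary: the sign pattern forces `n = 1` and `q` real -/
lemma sign_pattern {n : ℕ} (hn : 1 ≤ n) {q : ℂ} (hq : q ≠ 0)
    (h : ∀ a b : ℝ, a ∈ Ioo (-Real.pi) 0 → b ∈ Ioo (-Real.pi) 0 → 0 < (exp ((n * a : ℝ) * I) * q).im →
      ¬ (exp ((n * b : ℝ) * I) * q).im < 0) : n = 1 ∧ q.im = 0 := by
  have hpi := Real.pi_pos
  have hn0 : (0 : ℝ) < n := by exact_mod_cast hn
  -- symmetric version of the hypothesis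
  have key : ∀ a b : ℝ, a ∈ Ioo (-Real.pi) 0 → b ∈ Ioo (-Real.pi) 0 →
      (exp ((n * a : ℝ) * I) * q).im * (exp ((n * b : ℝ) * I) * q).im < 0 → False := by
    intro a b ha hb hab
    rcases mul_neg_iff.1 hab with h1 | h1
    · exact h a b ha hb h1.1 h1.2
    · exact h b a hb ha h1.2 h1.1
  rcases Nat.lt_or_ge n 2 with h2 | h2
  · have h1 : n = 1 := by omega
    subst h1
    refine ⟨rfl, ?_⟩
    by_contra him
    -- near 0 and near -π the signs are opposite
    have hc : Continuous fun a : ℝ => (exp (((1 : ℕ) * a : ℝ) * I) * q).im *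
        (exp (((1 : ℕ) * (-Real.pi - a) : ℝ) * I) * q).im := by fun_prop
    have h0 : (exp (((1 : ℕ) * 0 : ℝ) * I) * q).im *
        (exp (((1 : ℕ) * (-Real.pi - 0) : ℝ) * I) * q).im < 0 := by
      rw [im_exp_mul, im_exp_mul]
      simp
      exact him
    have h3 : ∀ᶠ a in 𝓝[<] (0 : ℝ), (exp (((1 : ℕ) * a : ℝ) * I) * q).im *
        (exp (((1 : ℕ) * (-Real.pi - a) : ℝ) * I) * q).im < 0 :=
      (hc.tendsto 0).mono_left nhdsWithin_le_nhds |>.eventually (gt_mem_nhds h0)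
    have h4 : ∀ᶠ a in 𝓝[<] (0 : ℝ), a ∈ Ioo (-Real.pi) 0 := Ioo_mem_nhdsLT (by linarith)
    obtain ⟨a, ha1, ha2⟩ := (h3.and h4).exists
    exact key a (-Real.pi - a) ha2 ⟨by linarith [ha2.2], by linarith [ha2.1]⟩ ha1
  · exfalso
    have hn2 : (2 : ℝ) ≤ n := by exact_mod_cast h2
    by_cases hre : q.re = 0
    · have him : q.im ≠ 0 := by
        intro him; exact hq (Complex.ext hre him)
      refine key (-(Real.pi / 4) / n) (-Real.pi / n) ?_ ?_ ?_
      · constructor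
        · rw [lt_div_iff₀ hn0]; nlinarith
        · apply div_neg_of_neg_of_pos <;> linarith
      · constructor
        · rw [lt_div_iff₀ hn0]; nlinarith
        · apply div_neg_of_neg_of_pos <;> linarith
      · rw [mul_div_cancel₀ _ hn0.ne', mul_div_cancel₀ _ hn0.ne', im_exp_mul, im_exp_mul, hre,
          Real.cos_neg, Real.cos_neg, Real.cos_pi_div_four, Real.cos_pi]
        have h5 : 0 < q.im * q.im := mul_self_pos.2 him
        have h6 : 0 < Real.sqrt 2 := by positivity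
        nlinarith [mul_pos h5 h6]
    · refine key (-(Real.pi / 2) / n) (-(3 * Real.pi / 2) / n) ?_ ?_ ?_
      · constructor
        · rw [lt_div_iff₀ hn0]; nlinarith
        · apply div_neg_of_neg_of_pos <;> linarith
      · constructor
        · rw [lt_div_iff₀ hn0]; nlinarith
        · apply div_neg_of_neg_of_pos <;> linarith
      · rw [mul_div_cancel₀ _ hn0.ne', mul_div_cancel₀ _ hn0.ne', im_exp_mul, im_exp_mul,
          Real.cos_neg, Real.cos_neg, Real.sin_neg, Real.sin_neg, Real.cos_pi_div_two,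
          Real.sin_pi_div_two]
        have e1 : Real.cos (3 * Real.pi / 2) = 0 := by
          rw [show 3 * Real.pi / 2 = Real.pi / 2 + Real.pi by ring, Real.cos_add_pi,
            Real.cos_pi_div_two, neg_zero]
        have e2 : Real.sin (3 * Real.pi / 2) = -1 := by
          rw [show 3 * Real.pi / 2 = Real.pi / 2 + Real.pi by ring, Real.sin_add_pi,
            Real.sin_pi_div_two]
        rw [e1, e2]
        have h5 : 0 < q.re * q.re := mul_self_pos.2 hre
        nlinarith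

theorem angle {f g : ℂ → ℂ} (hf : Differentiable ℂ f) (hg : Differentiable ℂ g) {φ : ℝ} (hφ : 0 < φ)
    (hf0 : f (φ * I) ≠ 0) (hz : f (φ * I) + g (φ * I) = 0)
    (hne : ¬ ∀ᶠ ζ in 𝓝 ((φ : ℂ) * I), f ζ + g ζ = 0)
    (hx : ∀ ζ : ℂ, 0 < ζ.im → ζ.im < φ → ∀ x : ℝ, 0 < x → f ζ + x * g ζ ≠ 0) :
    deriv (fun ζ => f ζ + g ζ) (φ * I) ≠ 0 ∧ ∃ m : ℝ, m ≠ 0 ∧
      f (φ * I) = m * deriv (fun ζ => f ζ + g ζ) (φ * I) ∧
      ∀ᶠ e in 𝓝[>] (0 : ℝ), 0 < m * (-(g ((φ - e : ℝ) * I) / f ((φ - e : ℝ) * I))).im := by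
  set z₀ : ℂ := φ * I with hz₀
  have hz₀im : z₀.im = φ := by simp [hz₀]
  have hFa : AnalyticAt ℂ (fun ζ => f ζ + g ζ) z₀ := (hf.add hg).analyticAt z₀
  obtain ⟨n, G, hGa, hG0, hG⟩ := hFa.exists_eventuallyEq_pow_smul_nonzero_iff.2 hne
  have hn : 1 ≤ n := by
    by_contra hn
    have hn0 : n = 0 := by omega
    have := hG.self_of_nhds
    simp only [hn0, pow_zero, one_smul] at this
    rw [hz] at this
    exact hG0 this.symm
  set q : ℂ → ℂ := fun ζ => -(G ζ / f ζ) with hq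
  have hqa : AnalyticAt ℂ q z₀ := (hGa.div (hf.analyticAt z₀) hf0).neg
  have hq0 : q z₀ ≠ 0 := neg_ne_zero.2 (div_ne_zero hG0 hf0)
  -- a good ball
  have hev : ∀ᶠ ζ in 𝓝 z₀, (f ζ + g ζ = (ζ - z₀) ^ n • G ζ) ∧ ContinuousAt q ζ ∧ f ζ ≠ 0 ∧
      ‖(ζ - z₀) ^ n * q ζ‖ < 1 ∧ 0 < ζ.im := by
    refine hG.and (Eventually.and ?_ (Eventually.and ?_ (Eventually.and ?_ ?_)))
    · exact hqa.eventually_analyticAt.mono fun ζ h => h.continuousAt
    · exact hf.continuous.continuousAt.eventually_ne hf0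
    · have h1 : Tendsto (fun ζ => ‖(ζ - z₀) ^ n * q ζ‖) (𝓝 z₀) (𝓝 ‖(z₀ - z₀) ^ n * q z₀‖) := by
        refine Tendsto.norm (Tendsto.mul ?_ hqa.continuousAt)
        exact ((continuous_id.sub continuous_const).pow n).tendsto z₀
      rw [sub_self, zero_pow (by omega), zero_mul, norm_zero] at h1
      exact h1.eventually (gt_mem_nhds one_pos)
    · have h1 : Tendsto (fun ζ : ℂ => ζ.im) (𝓝 z₀) (𝓝 φ) := by
        rw [← hz₀im]; exact continuous_im.tendsto z₀
      exact h1.eventually (lt_mem_nhds hφ)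
  obtain ⟨r, hr, hball⟩ := Metric.eventually_nhds_iff_ball.1 hev
  -- the value of `-g/f`
  have hval : ∀ ζ ∈ Metric.ball z₀ r, -(g ζ / f ζ) = 1 + (ζ - z₀) ^ n * q ζ := by
    intro ζ hζ
    obtain ⟨h1, -, h2, -, -⟩ := hball ζ hζ
    have h3 : g ζ = (ζ - z₀) ^ n • G ζ - f ζ := by rw [← h1]; ring
    rw [h3, hq, smul_eq_mul]
    field_simp
    ring
  -- no real value in the lower half ball
  have hnr : ∀ ζ ∈ Metric.ball z₀ r, ζ.im < φ → ((ζ - z₀) ^ n * q ζ).im ≠ 0 := by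
    intro ζ hζ him h0
    obtain ⟨h1, -, h2, h3, h4⟩ := hball ζ hζ
    have h5 := hval ζ hζ
    set y := (ζ - z₀) ^ n * q ζ with hy
    have h6 : y = (y.re : ℂ) := Complex.ext (by simp) (by simp [h0])
    have h7 : |y.re| < 1 := (abs_re_le_norm y).trans_lt h3
    have h8 : 0 < 1 + y.re := by have := (abs_lt.1 h7).1; linarith
    refine hx ζ h4 him (1 + y.re)⁻¹ (inv_pos.2 h8) ?_
    have h9 : g ζ = -((1 + y.re : ℝ) : ℂ) * f ζ := by
      rw [h6] at h5
      field_simp at h5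
      push_cast
      linear_combination -h5
    have h10 : ((1 + y.re : ℝ) : ℂ) ≠ 0 := by exact_mod_cast h8.ne'
    rw [h9]
    push_cast at h10 ⊢
    field_simp
    ring
  -- the sign pattern
  have hpat : n = 1 ∧ (q z₀).im = 0 := by
    refine sign_pattern hn hq0 ?_
    intro a b ha hb h1 h2
    have hcirc : ∀ c : ℝ, Tendsto (fun e : ℝ => (exp ((n * c : ℝ) * I) * q (z₀ + e * exp (c * I))).im)
        (𝓝[>] 0) (𝓝 (exp ((n * c : ℝ) * I) * q z₀).im) := by
      intro c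
      refine (continuous_im.tendsto _).comp (Tendsto.const_mul _ ?_)
      have h3 : Tendsto (fun e : ℝ => z₀ + e * exp (c * I)) (𝓝[>] 0) (𝓝 z₀) := by
        have : Tendsto (fun e : ℝ => z₀ + e * exp (c * I)) (𝓝 0) (𝓝 (z₀ + (0 : ℝ) * exp (c * I))) := by
          apply Continuous.tendsto; fun_prop
        rw [ofReal_zero, zero_mul, add_zero] at this
        exact this.mono_left nhdsWithin_le_nhds
      exact hqa.continuousAt.tendsto.comp h3
    have h3 : ∀ᶠ e in 𝓝[>] (0 : ℝ), e ∈ Ioo 0 r := Ioo_mem_nhdsGT hr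
    obtain ⟨e, ⟨h4, h5⟩, he⟩ := ((((hcirc a).eventually (lt_mem_nhds h1)).and
      ((hcirc b).eventually (gt_mem_nhds h2))).and h3).exists
    have hin : ∀ c : ℝ, z₀ + e * exp (c * I) ∈ Metric.ball z₀ r := by
      intro c
      rw [Metric.mem_ball, dist_eq_norm, add_sub_cancel_left, norm_mul, norm_exp_ofReal_mul_I,
        mul_one, norm_real, Real.norm_of_nonneg he.1.le]
      exact he.2
    have hcont : ContinuousOn (fun c : ℝ => (exp ((n * c : ℝ) * I) * q (z₀ + e * exp (c * I))).im)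
        (uIcc a b) := by
      intro c _
      apply ContinuousAt.continuousWithinAt
      apply continuous_im.continuousAt.comp
      apply ContinuousAt.mul
      · fun_prop
      · have h6 : ContinuousAt q (z₀ + e * exp (c * I)) := (hball _ (hin c)).2.1
        exact ContinuousAt.comp (f := fun c : ℝ => z₀ + e * exp (c * I)) h6 (by fun_prop)
    have h6 : (0 : ℝ) ∈ uIcc ((exp ((n * a : ℝ) * I) * q (z₀ + e * exp (a * I))).im)
        ((exp ((n * b : ℝ) * I) * q (z₀ + e * exp (b * I))).im) := by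
      rw [uIcc_comm, uIcc_of_le (h5.trans h4).le]
      exact ⟨h5.le, h4.le⟩
    obtain ⟨c, hc, h7⟩ := intermediate_value_uIcc hcont h6
    simp only at h7
    have hc' : c ∈ Ioo (-Real.pi) 0 := by
      rcases le_total a b with hab | hab
      · rw [uIcc_of_le hab] at hc; exact ⟨ha.1.trans_le hc.1, hc.2.trans_lt hb.2⟩
      · rw [uIcc_of_ge hab] at hc; exact ⟨hb.1.trans_le hc.1, hc.2.trans_lt ha.2⟩
    refine hnr _ (hin c) ?_ ?_
    · have h8 : Real.sin c < 0 := Real.sin_neg_of_neg_of_neg_pi_lt hc'.2 hc'.1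
      rw [add_im, hz₀im, im_mul_exp]
      have := mul_neg_of_pos_of_neg he.1 h8
      linarith
    · have h8 : (z₀ + e * exp (c * I) - z₀) ^ n * q (z₀ + e * exp (c * I)) =
          ((e ^ n : ℝ) : ℂ) * (exp ((n * c : ℝ) * I) * q (z₀ + e * exp (c * I))) := by
        rw [add_sub_cancel_left, mul_pow, ← exp_nat_mul]
        push_cast
        ring_nf
      rw [h8, im_ofReal_mul, h7, mul_zero]
  obtain ⟨hn1, him⟩ := hpat
  subst hn1
  -- the derivative
  have hder : deriv (fun ζ => f ζ + g ζ) z₀ = G z₀ := by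
    have h1 : (fun ζ => f ζ + g ζ) =ᶠ[𝓝 z₀] fun ζ => (ζ - z₀) * G ζ := hG.mono fun ζ h => by
      simp only [h, pow_one, smul_eq_mul]
    rw [h1.deriv_eq]
    have h2 : HasDerivAt (fun ζ => (ζ - z₀) * G ζ) (1 * G z₀ + (z₀ - z₀) * deriv G z₀) z₀ :=
      ((hasDerivAt_id z₀).sub_const z₀).mul hGa.differentiableAt.hasDerivAt
    rw [h2.deriv]
    ring
  refine ⟨by rw [hder]; exact hG0, -((q z₀).re)⁻¹, ?_, ?_, ?_⟩
  · have : (q z₀).re ≠ 0 := fun h => hq0 (Complex.ext h him)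
    exact neg_ne_zero.2 (inv_ne_zero this)
  · rw [hder]
    have h1 : q z₀ = ((q z₀).re : ℂ) := Complex.ext (by simp) (by simp [him])
    have h2 : (q z₀).re ≠ 0 := fun h => hq0 (Complex.ext h him)
    have h3 : ((q z₀).re : ℂ) ≠ 0 := by exact_mod_cast h2
    have h4 : -(G z₀ / f z₀) = ((q z₀).re : ℂ) := by rw [← h1]
    push_cast
    field_simp at h4 ⊢
    linear_combination -h4
  · have h1 : ∀ᶠ e in 𝓝[>] (0 : ℝ), e ∈ Ioo 0 r := Ioo_mem_nhdsGT hr
    have h2 : Tendsto (fun e : ℝ => (q ((φ - e : ℝ) * I)).re) (𝓝[>] 0) (𝓝 (q z₀).re) := by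
      refine (continuous_re.tendsto _).comp (hqa.continuousAt.tendsto.comp ?_)
      have : Tendsto (fun e : ℝ => (((φ - e : ℝ) : ℂ) * I)) (𝓝 0) (𝓝 (((φ - 0 : ℝ) : ℂ) * I)) := by
        apply Continuous.tendsto; fun_prop
      rw [sub_zero] at this
      exact this.mono_left nhdsWithin_le_nhds
    have h3 : (q z₀).re ≠ 0 := fun h => hq0 (Complex.ext h him)
    have h4 : ∀ᶠ e in 𝓝[>] (0 : ℝ), 0 < (q z₀).re * (q ((φ - e : ℝ) * I)).re := by
      have h5 : Tendsto (fun e : ℝ => (q z₀).re * (q ((φ - e : ℝ) * I)).re) (𝓝[>] 0)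
          (𝓝 ((q z₀).re * (q z₀).re)) := h2.const_mul _
      exact h5.eventually (lt_mem_nhds (mul_self_pos.2 h3))
    filter_upwards [h1, h4] with e he h5
    have hin : (((φ - e : ℝ) : ℂ) * I) ∈ Metric.ball z₀ r := by
      rw [Metric.mem_ball, dist_eq_norm, hz₀]
      have : ((φ - e : ℝ) : ℂ) * I - φ * I = ((-e : ℝ) : ℂ) * I := by push_cast; ring
      rw [this, norm_mul, norm_I, mul_one, norm_real, norm_neg, Real.norm_of_nonneg he.1.le]
      exact he.2
    rw [hval _ hin, pow_one]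
    have h6 : (((φ - e : ℝ) : ℂ) * I) - z₀ = ((-e : ℝ) : ℂ) * I := by rw [hz₀]; push_cast; ring
    rw [h6, add_im, one_im, zero_add, mul_assoc, im_ofReal_mul, I_mul_im]
    have h7 : 0 < e * ((q z₀).re)⁻¹ ^ 2 * ((q z₀).re * (q ((φ - e : ℝ) * I)).re) := by
      have := sq_pos_of_ne_zero (inv_ne_zero h3)
      have := he.1
      positivity
    calc (0 : ℝ) < e * ((q z₀).re)⁻¹ ^ 2 * ((q z₀).re * (q ((φ - e : ℝ) * I)).re) := h7
      _ = -((q z₀).re)⁻¹ * (-e * (q ((φ - e : ℝ) * I)).re) := by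
        field_simp

end Pool.Agent.ZF
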