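import Mathlib
import Pool.Agent.ZF.GB

set_option autoImplicit false
open Finset Equiv

/-! # Cycle counts

Numbers of classes of equivalence relations (`ncl`), numbers of cycles of permutations (`nc`) and their
change under transpositions (`nc_split`, `nc_join`, `dich`). -/

namespace Pool.Agent.ZF
namespace Net

variable {α : Type*}

/-! ### Classes of a relation in a finite set -/

/-- the class of `x` in `E` -/
noncomputable def cls (E : Finset α) (r : α → α → Prop) (x : α) : Finset α := by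
  classical exact E.filter (fun y => r x y)

lemma mem_cls {E : Finset α} {r : α → α → Prop} {x y : α} : y ∈ cls E r x ↔ y ∈ E ∧ r x y := by
  unfold cls; simp only [mem_filter]

/-- the join of the classes of `x` and `y` -/
def Jn (r : α → α → Prop) (x y : α) (u v : α) : Prop := r u v ∨ (r u x ∧ r y v) ∨ (r u y ∧ r x v)

lemma Jn.equiv {r : α → α → Prop} (hr : Equivalence r) (x y : α) : Equivalence (Jn r x y) := by
  refine ⟨fun u => Or.inl (hr.refl u), ?_, ?_⟩
  · rintro u v (h | ⟨h, h'⟩ | ⟨h, h'⟩)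
    · exact Or.inl (hr.symm h)
    · exact Or.inr (Or.inr ⟨hr.symm h', hr.symm h⟩)
    · exact Or.inr (Or.inl ⟨hr.symm h', hr.symm h⟩)
  · rintro u v z (h | ⟨h, h'⟩ | ⟨h, h'⟩) (k | ⟨k, k'⟩ | ⟨k, k'⟩)
    · exact Or.inl (hr.trans h k)
    · exact Or.inr (Or.inl ⟨hr.trans h k, k'⟩)
    · exact Or.inr (Or.inr ⟨hr.trans h k, k'⟩)
    · exact Or.inr (Or.inl ⟨h, hr.trans h' k⟩)
    · exact Or.inr (Or.inl ⟨h, k'⟩)
    · exact Or.inl (hr.trans h k')
    · exact Or.inr (Or.inr ⟨h, hr.trans h' k⟩)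
    · exact Or.inl (hr.trans h k')
    · exact Or.inr (Or.inr ⟨h, k'⟩)

lemma Jn.xy {r : α → α → Prop} (hr : Equivalence r) (x y : α) : Jn r x y x y :=
  Or.inr (Or.inl ⟨hr.refl x, hr.refl y⟩)

/-- the join is the smallest equivalence relation -/
lemma Jn.le {r s : α → α → Prop} {x y : α} (hs : Equivalence s) (h : ∀ u v, r u v → s u v)
    (hxy : s x y) {u v : α} (k : Jn r x y u v) : s u v := by
  rcases k with k | ⟨k, k'⟩ | ⟨k, k'⟩
  · exact h _ _ k
  · exact hs.trans (h _ _ k) (hs.trans hxy (h _ _ k'))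
  · exact hs.trans (h _ _ k) (hs.trans (hs.symm hxy) (h _ _ k'))

lemma Jn.of_rel {r : α → α → Prop} {x y : α} (hr : Equivalence r) (h : r x y) : Jn r x y = r := by
  funext u v
  exact propext ⟨fun k => Jn.le hr (fun _ _ h => h) h k, Or.inl⟩

lemma Jn.eq {r s : α → α → Prop} {x y : α} (hr : Equivalence r) (hs : Equivalence s)
    (h1 : ∀ u v, r u v → Jn s x y u v) (h2 : ∀ u v, s u v → Jn r x y u v) : Jn r x y = Jn s x y := by
  funext u v
  exact propext ⟨fun k => Jn.le (Jn.equiv hs x y) h1 (Jn.xy hs x y) k,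
    fun k => Jn.le (Jn.equiv hr x y) h2 (Jn.xy hr x y) k⟩

variable [DecidableEq α]

/-- the number of classes in `E` -/
noncomputable def ncl (E : Finset α) (r : α → α → Prop) : ℕ := (E.image (cls E r)).card

omit [DecidableEq α] in
lemma cls_eq {E : Finset α} {r : α → α → Prop} (hr : Equivalence r) {x y : α} (hy : y ∈ E) :
    cls E r x = cls E r y ↔ r x y := by
  constructor
  · intro h
    have h1 : y ∈ cls E r y := mem_cls.2 ⟨hy, hr.refl y⟩
    rw [← h] at h1
    exact (mem_cls.1 h1).2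
  · intro h
    ext z
    rw [mem_cls, mem_cls]
    exact ⟨fun k => ⟨k.1, hr.trans (hr.symm h) k.2⟩, fun k => ⟨k.1, hr.trans h k.2⟩⟩

/-- two classes are joined -/
lemma ncl_join {E : Finset α} {r : α → α → Prop} (hr : Equivalence r) {x y : α} (hx : x ∈ E)
    (hy : y ∈ E) (hxy : ¬ r x y) : ncl E r = ncl E (Jn r x y) + 1 := by
  classical
  have hJ := Jn.equiv hr x y
  have hJxy := Jn.xy hr x y
  set I : Finset (Finset α) := (E.filter (fun z => ¬ r z x ∧ ¬ r z y)).image (cls E r) with hI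
  have e1 : E.image (cls E r) = insert (cls E r x) (insert (cls E r y) I) := by
    ext c
    simp only [mem_insert, mem_image, hI, mem_filter]
    constructor
    · rintro ⟨z, hz, rfl⟩
      by_cases h1 : r z x
      · exact Or.inl ((cls_eq hr hx).2 h1)
      by_cases h2 : r z y
      · exact Or.inr (Or.inl ((cls_eq hr hy).2 h2))
      exact Or.inr (Or.inr ⟨z, ⟨hz, h1, h2⟩, rfl⟩)
    · rintro (rfl | rfl | ⟨z, hz, rfl⟩)
      · exact ⟨x, hx, rfl⟩
      · exact ⟨y, hy, rfl⟩
      · exact ⟨z, hz.1, rfl⟩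
  have e0 : ∀ z, ¬ r z x → ¬ r z y → cls E (Jn r x y) z = cls E r z := by
    intro z h1 h2
    ext v
    rw [mem_cls, mem_cls]
    refine ⟨fun k => ⟨k.1, ?_⟩, fun k => ⟨k.1, Or.inl k.2⟩⟩
    rcases k.2 with k | ⟨k, -⟩ | ⟨k, -⟩
    · exact k
    · exact absurd k h1
    · exact absurd k h2
  have e2 : E.image (cls E (Jn r x y)) = insert (cls E (Jn r x y) x) I := by
    ext c
    simp only [mem_insert, mem_image, hI, mem_filter]
    constructor
    · rintro ⟨z, hz, rfl⟩
      by_cases h1 : r z x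
      · exact Or.inl ((cls_eq hJ hx).2 (Or.inl h1))
      by_cases h2 : r z y
      · exact Or.inl ((cls_eq hJ hx).2 (hJ.trans (Or.inl h2) (hJ.symm hJxy)))
      exact Or.inr ⟨z, ⟨hz, h1, h2⟩, (e0 z h1 h2).symm⟩
    · rintro (rfl | ⟨z, hz, rfl⟩)
      · exact ⟨x, hx, rfl⟩
      · exact ⟨z, hz.1, e0 z hz.2.1 hz.2.2⟩
  have n1 : cls E r y ∉ I := by
    rw [hI, mem_image]
    rintro ⟨z, hz, h⟩
    exact (mem_filter.1 hz).2.2 ((cls_eq hr hy).1 h)
  have n2 : cls E r x ∉ insert (cls E r y) I := by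
    rw [mem_insert]
    rintro (h | h)
    · exact hxy ((cls_eq hr hy).1 h)
    · rw [hI, mem_image] at h
      obtain ⟨z, hz, h⟩ := h
      exact (mem_filter.1 hz).2.1 ((cls_eq hr hx).1 h)
  have n3 : cls E (Jn r x y) x ∉ I := by
    rw [hI, mem_image]
    rintro ⟨z, hz, h⟩
    have hz' := (mem_filter.1 hz).2
    rw [← e0 z hz'.1 hz'.2] at h
    rcases (cls_eq hJ hx).1 h with k | ⟨k, -⟩ | ⟨k, -⟩
    · exact hz'.1 k
    · exact hz'.1 k
    · exact hz'.2 k
  unfold ncl
  rw [e1, e2, card_insert_of_notMem n2, card_insert_of_notMem n1, card_insert_of_notMem n3]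

/-! ### Transpositions -/

section per

omit [DecidableEq α] in
lemma per {E : Finset α} {σ : Perm α} (hE : ∀ z ∈ E, σ z ∈ E) {x : α} (hx : x ∈ E) :
    ∃ n, 0 < n ∧ (σ ^ n) x = x := by
  have h1 : ∀ n : ℕ, (σ ^ n) x ∈ E := by
    intro n
    induction n with
    | zero => exact hx
    | succ n ih => rw [pow_succ', Perm.mul_apply]; exact hE _ ih
  have h2 : ¬ Function.Injective (fun n : ℕ => (⟨(σ ^ n) x, h1 n⟩ : E)) :=
    not_injective_infinite_finite _
  have h3 : ∃ a b : ℕ, a < b ∧ (σ ^ a) x = (σ ^ b) x := by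
    by_contra hc
    apply h2
    intro a b hab
    have hab' : (σ ^ a) x = (σ ^ b) x := congrArg Subtype.val hab
    rcases lt_trichotomy a b with h | h | h
    · exact absurd ⟨a, b, h, hab'⟩ hc
    · exact h
    · exact absurd ⟨b, a, h, hab'.symm⟩ hc
  obtain ⟨a, b, hab, h⟩ := h3
  refine ⟨b - a, by omega, ?_⟩
  apply (σ ^ a).injective
  rw [← Perm.mul_apply, ← pow_add, show a + (b - a) = b by omega, h]

omit [DecidableEq α] in
lemma lt_of_same {σ : Perm α} {x z : α} {n : ℕ} (hn : 0 < n) (h : (σ ^ n) x = x)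
    (hz : σ.SameCycle x z) : ∃ k < n, (σ ^ k) x = z := by
  obtain ⟨m, hm⟩ := hz
  have hL : (σ ^ (n : ℤ)) x = x := by rw [zpow_natCast, h]
  have hr0 := Int.emod_nonneg m (show (n : ℤ) ≠ 0 by omega)
  have hr1 := Int.emod_lt_of_pos m (show (0 : ℤ) < n by omega)
  refine ⟨(m % n).toNat, by omega, ?_⟩
  rw [← zpow_natCast, Int.toNat_of_nonneg hr0, ← hm]
  conv_rhs => rw [← Int.emod_add_mul_ediv m n, zpow_add, zpow_mul, Perm.mul_apply,
    Perm.zpow_apply_eq_self_of_apply_eq_self hL]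

omit [DecidableEq α] in
lemma same_equiv (σ : Perm α) : Equivalence σ.SameCycle :=
  ⟨fun x => Perm.SameCycle.refl σ x, fun h => h.symm, fun h k => h.trans k⟩

/-- exactly one of `σ` and `σ * swap x y` has `x` and `y` in one cycle -/
lemma dich {E : Finset α} {σ : Perm α} (hE : ∀ z ∈ E, σ z ∈ E) {x y : α} (hy : y ∈ E)
    (hxy : x ≠ y) : σ.SameCycle x y ↔ ¬ (σ * swap x y).SameCycle x y := by
  classical
  have hex : ∃ n, 0 < n ∧ ((σ ^ n) y = x ∨ (σ ^ n) y = y) := by
    obtain ⟨n, hn, h⟩ := per hE hy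
    exact ⟨n, hn, Or.inr h⟩
  set n := Nat.find hex with hn
  have hn0 : 0 < n := (Nat.find_spec hex).1
  have hmin : ∀ k, 0 < k → k < n → (σ ^ k) y ≠ x ∧ (σ ^ k) y ≠ y := by
    intro k hk hkn
    have := Nat.find_min hex hkn
    constructor
    · intro h; exact this ⟨hk, Or.inl h⟩
    · intro h; exact this ⟨hk, Or.inr h⟩
  have hτ : ∀ k, 0 < k → k ≤ n → ((σ * swap x y) ^ k) x = (σ ^ k) y := by
    intro k hk
    induction k with
    | zero => omega
    | succ k ih =>
      intro hkn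
      rcases Nat.eq_zero_or_pos k with h0 | h0
      · subst h0
        rw [zero_add, pow_one, pow_one, Perm.mul_apply, swap_apply_left]
      · have h1 := hmin k h0 (by omega)
        rw [pow_succ', Perm.mul_apply, ih h0 (by omega), Perm.mul_apply,
          swap_apply_of_ne_of_ne h1.1 h1.2, ← Perm.mul_apply, ← pow_succ']
  rcases (Nat.find_spec hex).2 with h | h
  · rw [← hn] at h
    have h1 : σ.SameCycle x y := Perm.SameCycle.symm ⟨(n : ℤ), by rw [zpow_natCast]; exact h⟩
    refine iff_of_true h1 ?_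
    intro h2
    have h3 : ((σ * swap x y) ^ n) x = x := by rw [hτ n hn0 le_rfl, h]
    obtain ⟨k, hk, hk'⟩ := lt_of_same hn0 h3 h2
    rcases Nat.eq_zero_or_pos k with h0 | h0
    · subst h0; exact hxy hk'
    · rw [hτ k h0 hk.le] at hk'
      exact (hmin k h0 hk).2 hk'
  · rw [← hn] at h
    refine iff_of_false ?_ (fun hc => hc ⟨(n : ℤ), by rw [zpow_natCast, hτ n hn0 le_rfl]; exact h⟩)
    intro h2
    obtain ⟨k, hk, hk'⟩ := lt_of_same hn0 h h2.symm
    rcases Nat.eq_zero_or_pos k with h0 | h0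
    · subst h0; exact hxy hk'.symm
    · exact (hmin k h0 hk).1 hk'

omit [DecidableEq α] in
/-- an equivalence relation which contains the steps contains the cycles -/
lemma same_le {σ : Perm α} {s : α → α → Prop} (hs : Equivalence s) (h : ∀ u, s u (σ u)) {u v : α}
    (k : σ.SameCycle u v) : s u v := by
  obtain ⟨m, rfl⟩ := k
  have h1 : ∀ (n : ℕ) (u : α), s u ((σ ^ n) u) := by
    intro n u
    induction n with
    | zero => exact hs.refl u
    | succ n ih => rw [pow_succ', Perm.mul_apply]; exact hs.trans ih (h _)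
  rcases Int.eq_nat_or_neg m with ⟨n, rfl | rfl⟩
  · rw [zpow_natCast]; exact h1 n u
  · have h2 := h1 n ((σ ^ (-(n : ℤ))) u)
    rw [← zpow_natCast, ← Perm.mul_apply, ← zpow_add, add_neg_cancel, zpow_zero, Perm.one_apply] at h2
    exact hs.symm h2

lemma same_jn (σ : Perm α) (x y : α) :
    Jn σ.SameCycle x y = Jn (σ * swap x y).SameCycle x y := by
  have key : ∀ (σ : Perm α) (u v : α), (σ * swap x y).SameCycle u v → Jn σ.SameCycle x y u v := by
    intro σ u v h
    refine same_le (Jn.equiv (same_equiv σ) x y) (fun u => ?_) h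
    rw [Perm.mul_apply]
    have h1 : ∀ u, σ.SameCycle u (σ u) := fun u => (Perm.SameCycle.refl σ u).apply_right
    by_cases hx : u = x
    · rw [hx, swap_apply_left]
      exact Or.inr (Or.inl ⟨Perm.SameCycle.refl _ _, h1 y⟩)
    by_cases hy : u = y
    · rw [hy, swap_apply_right]
      exact Or.inr (Or.inr ⟨Perm.SameCycle.refl _ _, h1 x⟩)
    rw [swap_apply_of_ne_of_ne hx hy]
    exact Or.inl (h1 u)
  refine Jn.eq (same_equiv _) (same_equiv _) (fun u v h => key (σ * swap x y) u v ?_) (key σ)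
  rw [mul_assoc, swap_mul_self, mul_one]
  exact h

end per

/-- the number of cycles in `E` -/
noncomputable def nc (E : Finset α) (σ : Perm α) : ℕ := ncl E σ.SameCycle

lemma nc_eq (E : Finset α) (σ : Perm α) : (cycs E σ).card = nc E σ := rfl

/-- a transposition inside a cycle splits it -/
lemma nc_split {E : Finset α} {σ : Perm α} (hE : ∀ z ∈ E, σ z ∈ E) {x y : α} (hx : x ∈ E)
    (hy : y ∈ E) (hxy : x ≠ y) (h : σ.SameCycle x y) : nc E (σ * swap x y) = nc E σ + 1 := by
  have h1 := (dich hE hy hxy).1 h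
  unfold nc
  rw [ncl_join (same_equiv _) hx hy h1, ← same_jn, Jn.of_rel (same_equiv _) h]

/-- a transposition between two cycles joins them -/
lemma nc_join {E : Finset α} {σ : Perm α} (hE : ∀ z ∈ E, σ z ∈ E) {x y : α} (hx : x ∈ E)
    (hy : y ∈ E) (hxy : x ≠ y) (h : ¬ σ.SameCycle x y) : nc E σ = nc E (σ * swap x y) + 1 := by
  have h1 : (σ * swap x y).SameCycle x y := by
    by_contra hc
    exact h ((dich hE hy hxy).2 hc)
  unfold nc
  rw [ncl_join (same_equiv _) hx hy h, same_jn, Jn.of_rel (same_equiv _) h1]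

end Net
end Pool.Agent.ZF
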