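import Pool.Agent.ZF.Limit
import Pool.Agent.ZF.Angle

set_option autoImplicit false
set_option linter.unusedSectionVars false
open Finset Complex Set Filter Topology

/-! # The first contact (ZFLEAN, layer 1)

Let `A` be bad (`¬ Good k Φ A`) while all `sl A v b` (one site fixed) are good. Then there is a contact:
weights (a limit, given by an ultrafilter), a smallest angle `φ < Φ`, a frame `α` and for every site a
colour `up v` such that the lifted arguments of `v = up v`, `v = !up v` are `α`, `α - π`. -/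

namespace Pool.Agent.ZF

variable {V : Type*} [Fintype V] [DecidableEq V]
variable {k : (V → Bool) → ℤ} {A : Set (V → Bool)} {Φ : ℝ}

/-- lifted argument of the restriction to `C` -/
noncomputable def Th (U : Ultrafilter (Par V)) (k : (V → Bool) → ℤ) (φ : ℝ) (C : Set (V → Bool)) : ℝ :=
  th k (lw U k C) φ

/-- value of the (normalised) restriction to `C` -/
noncomputable def Zv (U : Ultrafilter (Par V)) (k : (V → Bool) → ℤ) (φ : ℝ) (C : Set (V → Bool)) : ℂ :=
  Zf k (lw U k C) (φ * I)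

lemma im_mul_I' (t : ℝ) : ((t : ℂ) * I).im = t := by simp

lemma sl_eq_of_empty {C : Set (V → Bool)} {v : V} {b : Bool} (h : ¬ (sl C v (!b)).Nonempty) :
    sl C v b = C := by
  rw [Set.not_nonempty_iff_eq_empty] at h
  have := sl_union' C v b
  rw [h, Set.union_empty] at this
  exact this

section basic

variable {U : Ultrafilter (Par V)} (hU : UPos U) {φ : ℝ}
include hU

lemma NZ_of_good {C : Set (V → Bool)} (hC : Good k Φ C) (hφ : φ < Φ) (hne : C.Nonempty) :
    NZ k (lw U k C) φ := by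
  intro t ht
  refine hC _ (lw_mem hU hne) (lw_ne hU hne) _ ?_
  rw [im_mul_I', abs_of_nonneg ht.1]
  exact ht.2.trans_lt hφ

lemma NZ_comb {C : Set (V → Bool)} (hC : Good k Φ C) (hφ : φ < Φ) (v : V) (b : Bool)
    (h1 : (sl C v b).Nonempty) {x y : ℝ} (hx : 0 < x) (hy : 0 ≤ y) :
    NZ k (x • lw U k (sl C v b) + y • lw U k (sl C v (!b))) φ := by
  intro t ht
  refine hC _ (comb_lim' hU v b hx.le hy) ?_ _ ?_
  · intro h
    obtain ⟨s, hs⟩ := Function.ne_iff.1 (lw_ne (k := k) hU h1)
    have h2 := congrFun h s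
    simp only [Pi.add_apply, Pi.smul_apply, smul_eq_mul, Pi.zero_apply] at h2 hs
    have h3 : 0 ≤ lw U k (sl C v b) s := lw_nonneg hU s
    have h4 : 0 ≤ lw U k (sl C v (!b)) s := lw_nonneg hU s
    have h5 : 0 < lw U k (sl C v b) s := lt_of_le_of_ne h3 (Ne.symm hs)
    have := mul_pos hx h5
    have := mul_nonneg hy h4
    linarith
  · rw [im_mul_I', abs_of_nonneg ht.1]
    exact ht.2.trans_lt hφ

/-- the two halves of a good restriction are less than `π` apart, the whole is between them -/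
lemma Th_compat (hφ0 : 0 ≤ φ) {C : Set (V → Bool)} (hC : Good k Φ C) (hφ : φ < Φ) (v : V) (b : Bool)
    (h1 : (sl C v b).Nonempty) (h2 : (sl C v (!b)).Nonempty) :
    |Th U k φ (sl C v b) - Th U k φ (sl C v (!b))| < Real.pi ∧
      Th U k φ C ∈ uIcc (Th U k φ (sl C v b)) (Th U k φ (sl C v (!b))) := by
  have n1 : NZ k (lw U k (sl C v b)) φ := by
    have := NZ_comb hU hC hφ v b h1 one_pos le_rfl
    rwa [one_smul, zero_smul, add_zero] at this
  have n2 : NZ k (lw U k (sl C v (!b))) φ := by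
    have := NZ_comb hU hC hφ v (!b) h2 one_pos le_rfl
    rwa [one_smul, zero_smul, add_zero] at this
  refine ⟨compat hφ0 (lw_nonneg hU) (lw_nonneg hU) n1 n2 fun x hx => ?_, ?_⟩
  · have := NZ_comb hU hC hφ v b h1 one_pos hx.le
    rwa [one_smul] at this
  · obtain ⟨x, y, hx, hy, hxy, e⟩ := lw_split (k := k) hU (sl_disjoint C v b) h1 h2
    rw [sl_union'] at e
    unfold Th
    rw [e]
    rcases hx.eq_or_lt with rfl | hx
    · rw [zero_smul, zero_add, th_smul k (by linarith)]
      exact right_mem_uIcc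
    · rcases hy.eq_or_lt with rfl | hy
      · rw [zero_smul, add_zero, th_smul k hx.ne']
        exact left_mem_uIcc
      · have := between (c := x • lw U k (sl C v b)) (c' := y • lw U k (sl C v (!b))) hφ0
          (smul_nonneg hx.le (lw_nonneg hU)) (smul_nonneg hy.le (lw_nonneg hU))
          (n1.smul hx.ne') (n2.smul hy.ne') fun t ht => by
            rw [smul_smul]
            exact NZ_comb hU hC hφ v b h1 hx (mul_pos ht hy).le
        rwa [th_smul k hx.ne', th_smul k hy.ne'] at this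

/-- a nonempty half is less than `π` away from the whole -/
lemma Th_near (hφ0 : 0 ≤ φ) {C : Set (V → Bool)} (hC : Good k Φ C) (hφ : φ < Φ) (v : V) (b : Bool)
    (h1 : (sl C v b).Nonempty) : |Th U k φ (sl C v b) - Th U k φ C| < Real.pi := by
  by_cases h2 : (sl C v (!b)).Nonempty
  · obtain ⟨h3, h4⟩ := Th_compat hU hφ0 hC hφ v b h1 h2
    refine lt_of_le_of_lt ?_ h3
    have := Set.abs_sub_left_of_mem_uIcc h4
    rw [abs_sub_comm]
    rw [abs_sub_comm (Th U k φ (sl C v b)) (Th U k φ (sl C v (!b)))]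
    exact this
  · rw [sl_eq_of_empty h2, sub_self, abs_zero]
    exact Real.pi_pos

end basic

/-! ### One site -/

lemma sl_nonempty {U : Ultrafilter (Par V)} (hU : UPos U) {φ : ℝ} (hφ0 : 0 < φ) (hφ : φ < Φ)
    (hz : Zf k (lw U k A) (φ * I) = 0) (hA : A.Nonempty) (hmin : ∀ v b, Good k Φ (sl A v b)) (v : V)
    (b : Bool) : (sl A v b).Nonempty := by
  by_contra h
  have h1 : ¬ (sl A v (!(!b))).Nonempty := by rwa [Bool.not_not]
  have h2 := sl_eq_of_empty h1
  have h3 := hmin v (!b)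
  rw [h2] at h3
  refine h3 _ (lw_mem hU hA) (lw_ne hU hA) (φ * I) ?_ hz
  rw [im_mul_I', abs_of_pos hφ0]; exact hφ

lemma not_eventually_zero {S : Type*} [Fintype S] (k : S → ℤ) {c : S → ℝ} (h0 : 0 ≤ c) (h1 : c ≠ 0)
    (z : ℂ) : ¬ ∀ᶠ ζ in 𝓝 z, Zf k c ζ = 0 := by
  intro h
  have h2 : AnalyticOnNhd ℂ (Zf k c) Set.univ := fun ζ _ => (differentiable_Zf k c).analyticAt ζ
  have h3 := h2.eqOn_zero_of_preconnected_of_eventuallyEq_zero isPreconnected_univ (mem_univ z) h
  have h4 : Zf k c 0 = 0 := h3 (mem_univ 0)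
  rw [Zf_zero_eq] at h4
  have h5 := sum_pos_of h0 h1
  exact h5.ne' (by exact_mod_cast h4)

/-- the contact seen from one site -/
lemma one_site {U : Ultrafilter (Par V)} (hU : UPos U) {φ : ℝ} (hφ0 : 0 < φ) (hφ : φ < Φ)
    (hz : Zf k (lw U k A) (φ * I) = 0) (hA : A.Nonempty) (hg : Good k φ A)
    (hmin : ∀ v b, Good k Φ (sl A v b)) (v : V) :
    Df k (lw U k A) (φ * I) ≠ 0 ∧ ∃ (b : Bool) (r : ℝ), 0 < r ∧
      Zf k (lw U k (sl A v b)) (φ * I) = r * Df k (lw U k A) (φ * I) ∧
      Th U k φ (sl A v (!b)) = Th U k φ (sl A v b) - Real.pi := by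
  have hn := sl_nonempty hU hφ0 hφ hz hA hmin v
  have hnz : ∀ b, Zf k (lw U k (sl A v b)) (φ * I) ≠ 0 := by
    intro b
    refine hmin v b _ (lw_mem hU (hn b)) (lw_ne hU (hn b)) _ ?_
    rw [im_mul_I', abs_of_pos hφ0]; exact hφ
  obtain ⟨x, y, hx, hy, hxy, e⟩ := lw_split (k := k) hU (sl_disjoint A v true) (hn true) (hn _)
  rw [sl_union'] at e
  have hz' := hz
  rw [e, Zf_add, Zf_smul, Zf_smul] at hz'
  have hx0 : 0 < x := by
    rcases hx.eq_or_lt with rfl | h
    · exfalso
      rw [ofReal_zero, zero_mul, zero_add] at hz'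
      rcases mul_eq_zero.1 hz' with h1 | h1
      · have : y = 0 := by exact_mod_cast h1
        linarith
      · exact hnz _ h1
    · exact h
  have hy0 : 0 < y := by
    rcases hy.eq_or_lt with rfl | h
    · exfalso
      rw [ofReal_zero, zero_mul, add_zero] at hz'
      rcases mul_eq_zero.1 hz' with h1 | h1
      · have : x = 0 := by exact_mod_cast h1
        linarith
      · exact hnz _ h1
    · exact h
  set c₁ := lw U k (sl A v true) with hc₁
  set c₂ := lw U k (sl A v (!true)) with hc₂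
  have hsum : (fun ζ => Zf k (x • c₁) ζ + Zf k (y • c₂) ζ) = Zf k (lw U k A) := by
    ext ζ
    rw [e, Zf_add]
  have hang := angle (f := Zf k (x • c₁)) (g := Zf k (y • c₂)) (differentiable_Zf _ _)
    (differentiable_Zf _ _) hφ0 (by
      rw [Zf_smul]
      exact mul_ne_zero (by exact_mod_cast hx0.ne') (hnz true)) (by
      rw [Zf_smul, Zf_smul]; exact hz') (by
      have := not_eventually_zero k (lw_nonneg hU : 0 ≤ lw U k A) (lw_ne hU hA) (φ * I)
      intro h
      refine this (h.mono fun ζ hζ => ?_)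
      rw [← hsum]; exact hζ) (by
      intro ζ h1 h2 t ht
      rw [← Zf_smul, ← Zf_add, smul_smul]
      refine hg _ (comb_lim' hU v true hx0.le (mul_pos ht hy0).le) ?_ ζ ?_
      · intro h
        obtain ⟨s, hs⟩ := Function.ne_iff.1 (lw_ne (k := k) hU (hn true))
        have h2 := congrFun h s
        simp only [Pi.add_apply, Pi.smul_apply, smul_eq_mul, Pi.zero_apply] at h2 hs
        have h3 : 0 ≤ lw U k (sl A v true) s := lw_nonneg hU s
        have h4 : 0 ≤ lw U k (sl A v (!true)) s := lw_nonneg hU s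
        have h5 : 0 < lw U k (sl A v true) s := lt_of_le_of_ne h3 (Ne.symm hs)
        have h6 := mul_pos hx0 h5
        have h7 := mul_nonneg (mul_pos ht hy0).le h4
        linarith
      · rw [abs_of_pos h1]; exact h2)
  rw [hsum, (hasDerivAt_Zf k (lw U k A) (φ * I)).deriv] at hang
  obtain ⟨hD, m, hm, hfm, hsgn⟩ := hang
  refine ⟨hD, ?_⟩
  -- nonvanishing
  have N1 : NZ k c₁ φ := NZ_of_good hU (hmin v true) hφ (hn true)
  have N2 : NZ k c₂ φ := NZ_of_good hU (hmin v (!true)) hφ (hn _)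
  have p1 : 0 ≤ c₁ := lw_nonneg hU
  have p2 : 0 ≤ c₂ := lw_nonneg hU
  -- before the contact
  have hbef : ∀ t, 0 ≤ t → t < φ → |th k c₁ t - th k c₂ t| < Real.pi := by
    intro t ht0 ht
    exact (Th_compat hU ht0 hg ht v true (hn true) (hn _)).1
  have hcont : ContinuousOn (fun t => th k c₁ t - th k c₂ t) (Icc 0 φ) :=
    (th_continuousOn hφ0.le N1).sub (th_continuousOn hφ0.le N2)
  have hle : |th k c₁ φ - th k c₂ φ| ≤ Real.pi := by
    have h1 : φ ∈ closure (Ico 0 φ) := by
      rw [closure_Ico hφ0.ne]; exact ⟨hφ0.le, le_rfl⟩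
    have h2 : ContinuousWithinAt (fun t => |th k c₁ t - th k c₂ t|) (Ico 0 φ) φ :=
      (hcont.abs φ ⟨hφ0.le, le_rfl⟩).mono Ico_subset_Icc_self
    have : NeBot (𝓝[Ico 0 φ] φ) := mem_closure_iff_nhdsWithin_neBot.1 h1
    exact le_of_tendsto h2 (eventually_nhdsWithin_of_forall fun t ht => (hbef t ht.1 ht.2).le)
  obtain ⟨r, hr, hdir⟩ := dir_eq hφ0.le p1 p2 N1 N2
  have hcos : Real.cos (th k c₁ φ - th k c₂ φ) = -1 := by
    have h1 : (x : ℂ) * (r * exp ((th k c₁ φ - th k c₂ φ : ℝ) * I)) = -y := by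
      apply mul_right_cancel₀ (hnz (!true))
      rw [hdir] at hz'
      linear_combination hz'
    have h2 : exp ((th k c₁ φ - th k c₂ φ : ℝ) * I) = ((-(y / (x * r)) : ℝ) : ℂ) := by
      have hxr : (x : ℂ) * r ≠ 0 := by exact_mod_cast (mul_pos hx0 hr).ne'
      have : exp ((th k c₁ φ - th k c₂ φ : ℝ) * I) * (x * r) = -y := by linear_combination h1
      rw [eq_div_of_mul_eq hxr this]
      push_cast
      ring
    have h3 : Real.cos (th k c₁ φ - th k c₂ φ) = -(y / (x * r)) := by
      have := congrArg Complex.re h2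
      rwa [exp_ofReal_mul_I_re, ofReal_re] at this
    have h4 : Real.sin (th k c₁ φ - th k c₂ φ) = 0 := by
      have := congrArg Complex.im h2
      rwa [exp_ofReal_mul_I_im, ofReal_im] at this
    have h5 := Real.sin_sq_add_cos_sq (th k c₁ φ - th k c₂ φ)
    have h6 : 0 < y / (x * r) := by positivity
    rw [h4] at h5
    nlinarith
  have habs : th k c₁ φ - th k c₂ φ = Real.pi ∨ th k c₁ φ - th k c₂ φ = -Real.pi := by
    rw [← Real.cos_abs] at hcos
    have h1 : |th k c₁ φ - th k c₂ φ| = Real.pi := by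
      have h2 := Real.arccos_cos (abs_nonneg _) hle
      rw [hcos, Real.arccos_neg_one] at h2
      exact h2.symm
    exact (abs_eq Real.pi_pos.le).1 h1
  -- the sign
  have hlim : Tendsto (fun e : ℝ => th k c₁ (φ - e) - th k c₂ (φ - e)) (𝓝[>] 0)
      (𝓝 (th k c₁ φ - th k c₂ φ)) := by
    have h1 := hcont φ ⟨hφ0.le, le_rfl⟩
    refine Tendsto.comp h1 ?_
    rw [tendsto_nhdsWithin_iff]
    constructor
    · have : Tendsto (fun e : ℝ => φ - e) (𝓝 0) (𝓝 (φ - 0)) := by
        apply Continuous.tendsto; fun_prop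
      rw [sub_zero] at this
      exact this.mono_left nhdsWithin_le_nhds
    · filter_upwards [Ioo_mem_nhdsGT hφ0] with e he
      exact ⟨by linarith [he.2], by linarith [he.1]⟩
  have hsin : ∀ᶠ e in 𝓝[>] (0 : ℝ), 0 < m * Real.sin (th k c₁ (φ - e) - th k c₂ (φ - e)) := by
    filter_upwards [hsgn, Ioo_mem_nhdsGT hφ0] with e he1 he2
    have ht0 : 0 ≤ φ - e := by linarith [he2.2]
    have ht1 : φ - e ≤ φ := by linarith [he2.1]
    obtain ⟨t, ht, hd⟩ := dir_eq ht0 p2 p1 (N2.mono k ht1) (N1.mono k ht1)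
    have hne : Zf k c₁ ((φ - e : ℝ) * I) ≠ 0 := N1 _ ⟨ht0, ht1⟩
    have h1 : -(Zf k (y • c₂) ((φ - e : ℝ) * I) / Zf k (x • c₁) ((φ - e : ℝ) * I)) =
        ((-(y * t / x) : ℝ) : ℂ) * exp ((th k c₂ (φ - e) - th k c₁ (φ - e) : ℝ) * I) := by
      rw [Zf_smul, Zf_smul, hd]
      have : (x : ℂ) ≠ 0 := by exact_mod_cast hx0.ne'
      generalize exp ((th k c₂ (φ - e) - th k c₁ (φ - e) : ℝ) * I) = E
      generalize Zf k c₁ ((φ - e : ℝ) * I) = W at hne
      push_cast
      field_simp
    rw [h1, im_mul_exp] at he1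
    have h2 : Real.sin (th k c₂ (φ - e) - th k c₁ (φ - e)) =
        -Real.sin (th k c₁ (φ - e) - th k c₂ (φ - e)) := by
      rw [← Real.sin_neg]; congr 1; ring
    rw [h2] at he1
    have h3 : 0 < y * t / x := by positivity
    have h4 : m * (-(y * t / x) * -Real.sin (th k c₁ (φ - e) - th k c₂ (φ - e))) =
        (y * t / x) * (m * Real.sin (th k c₁ (φ - e) - th k c₂ (φ - e))) := by ring
    rw [h4] at he1
    exact (mul_pos_iff_of_pos_left h3).1 he1
  have hin : ∀ᶠ e in 𝓝[>] (0 : ℝ), |th k c₁ (φ - e) - th k c₂ (φ - e)| < Real.pi := by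
    filter_upwards [Ioo_mem_nhdsGT hφ0] with e he
    exact hbef _ (by linarith [he.2]) (by linarith [he.1])
  rcases lt_or_gt_of_ne hm with hneg | hpos
  · refine ⟨false, -m / y, div_pos (by linarith) hy0, ?_, ?_⟩
    · change Zf k c₂ (φ * I) = _
      have hy' : (y : ℂ) ≠ 0 := by exact_mod_cast hy0.ne'
      rw [Zf_smul] at hfm
      push_cast
      field_simp
      linear_combination hz' - hfm
    · change th k c₁ φ = th k c₂ φ - Real.pi
      rcases habs with h | h
      · exfalso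
        have h1 : ∀ᶠ e in 𝓝[>] (0 : ℝ), 0 < th k c₁ (φ - e) - th k c₂ (φ - e) :=
          hlim.eventually (lt_mem_nhds (by rw [h]; exact Real.pi_pos))
        obtain ⟨e, ⟨h2, h3⟩, h4⟩ := ((h1.and hin).and hsin).exists
        have h5 := Real.sin_pos_of_pos_of_lt_pi h2 (abs_lt.1 h3).2
        nlinarith
      · linarith
  · refine ⟨true, m / x, div_pos hpos hx0, ?_, ?_⟩
    · change Zf k c₁ (φ * I) = _
      have hx' : (x : ℂ) ≠ 0 := by exact_mod_cast hx0.ne'
      rw [Zf_smul] at hfm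
      push_cast
      field_simp
      linear_combination hfm
    · change th k c₂ φ = th k c₁ φ - Real.pi
      rcases habs with h | h
      · linarith
      · exfalso
        have h1 : ∀ᶠ e in 𝓝[>] (0 : ℝ), th k c₁ (φ - e) - th k c₂ (φ - e) < 0 :=
          hlim.eventually (gt_mem_nhds (by rw [h]; linarith [Real.pi_pos]))
        obtain ⟨e, ⟨h2, h3⟩, h4⟩ := ((h1.and hin).and hsin).exists
        have h5 := Real.sin_neg_of_neg_of_neg_pi_lt h2 (abs_lt.1 h3).1
        nlinarith

/-! ### The contact -/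

/-- **The first contact.** `Th C` is the lifted argument of the restriction to `C`. -/
structure Contact (k : (V → Bool) → ℤ) (Φ : ℝ) (A : Set (V → Bool)) where
  U : Ultrafilter (Par V)
  φ : ℝ
  α : ℝ
  up : V → Bool
  hU : UPos U
  φ_pos : 0 < φ
  φ_lt : φ < Φ
  nonempty : A.Nonempty
  zero : Zf k (lw U k A) (φ * I) = 0
  good : Good k φ A
  D_ne : Df k (lw U k A) (φ * I) ≠ 0
  sl_ne : ∀ v b, (sl A v b).Nonempty
  val_up : ∀ v, ∃ r : ℝ, 0 < r ∧ Zf k (lw U k (sl A v (up v))) (φ * I) = r * Df k (lw U k A) (φ * I)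
  Th_up : ∀ v, Th U k φ (sl A v (up v)) = α
  Th_dn : ∀ v, Th U k φ (sl A v (!(up v))) = α - Real.pi

lemma sl_comm (A : Set (V → Bool)) (u v : V) (a b : Bool) : sl (sl A u a) v b = sl (sl A v b) u a := by
  ext s
  exact ⟨fun h => ⟨⟨h.1.1, h.2⟩, h.1.2⟩, fun h => ⟨⟨h.1.1, h.2⟩, h.1.2⟩⟩

theorem exists_Contact [Nonempty V] (hbad : ¬ Good k Φ A) (hmin : ∀ v b, Good k Φ (sl A v b)) :
    Nonempty (Contact k Φ A) := by
  obtain ⟨U, φ, hU, hA, hφ0, hφ, hz, hg⟩ := exists_contact hbad
  have h1 := fun v => one_site hU hφ0 hφ hz hA hg hmin v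
  choose hD up r hr hval hth using h1
  have hn := sl_nonempty hU hφ0 hφ hz hA hmin
  obtain ⟨v₀⟩ := ‹Nonempty V›
  have hpi := Real.pi_pos
  -- the frames agree
  have hframe : ∀ u v, Th U k φ (sl A u (up u)) = Th U k φ (sl A v (up v)) := by
    intro u v
    set αu := Th U k φ (sl A u (up u)) with hαu
    set αv := Th U k φ (sl A v (up v)) with hαv
    -- congruence modulo `2π`
    have hcong : Real.cos (αu - αv) = 1 := by
      have N1 : NZ k (lw U k (sl A u (up u))) φ := NZ_of_good hU (hmin _ _) hφ (hn _ _)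
      have N2 : NZ k (lw U k (sl A v (up v))) φ := NZ_of_good hU (hmin _ _) hφ (hn _ _)
      obtain ⟨t, ht, hd⟩ := dir_eq hφ0.le (lw_nonneg hU) (lw_nonneg hU) N1 N2
      rw [hval u, hval v] at hd
      have h2 : (r u : ℂ) = t * exp ((αu - αv : ℝ) * I) * r v := by
        apply mul_right_cancel₀ (hD u)
        rw [hd]
        simp only [hαu, hαv, Th]
        ring
      have h3 : exp ((αu - αv : ℝ) * I) = ((r u / (t * r v) : ℝ) : ℂ) := by
        have h4 : (t : ℂ) * r v ≠ 0 := by exact_mod_cast (mul_pos ht (hr v)).ne'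
        have h5 : exp ((αu - αv : ℝ) * I) * (t * r v) = r u := by rw [h2]; ring
        rw [eq_div_of_mul_eq h4 h5]
        push_cast
        ring
      have h4 : Real.cos (αu - αv) = r u / (t * r v) := by
        have := congrArg Complex.re h3
        rwa [exp_ofReal_mul_I_re, ofReal_re] at this
      have h5 : Real.sin (αu - αv) = 0 := by
        have := congrArg Complex.im h3
        rwa [exp_ofReal_mul_I_im, ofReal_im] at this
      have h6 := Real.sin_sq_add_cos_sq (αu - αv)
      have h7 : 0 < r u / (t * r v) := div_pos (hr u) (mul_pos ht (hr v))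
      rw [h5, h4] at h6
      rw [h4]
      nlinarith
    by_cases huu : (sl (sl A u (up u)) v (up v)).Nonempty
    · have h2 := Th_near hU hφ0.le (hmin u (up u)) hφ v (up v) huu
      have h3 := huu
      rw [sl_comm] at h3
      have h4 := Th_near hU hφ0.le (hmin v (up v)) hφ u (up u) h3
      rw [sl_comm] at h4
      rw [abs_lt] at h2 h4
      obtain ⟨n, hn'⟩ := (Real.cos_eq_one_iff _).1 hcong
      have h5 : |(n : ℝ)| < 1 := by
        rw [abs_lt]
        constructor
        · have : -(2 * Real.pi) < n * (2 * Real.pi) := by rw [hn']; linarith [h2.1, h4.2]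
          nlinarith
        · have : n * (2 * Real.pi) < 2 * Real.pi := by rw [hn']; linarith [h2.2, h4.1]
          nlinarith
      have h6 : n = 0 := by
        have : |n| < 1 := by exact_mod_cast h5
        exact Int.abs_lt_one_iff.1 this
      rw [h6] at hn'
      simp at hn'
      linarith
    · exfalso
      -- the state (up, dn) and (dn, up)
      have e1 : sl (sl A u (up u)) v (!(up v)) = sl A u (up u) :=
        sl_eq_of_empty (by rwa [Bool.not_not])
      have e2 : sl (sl A v (up v)) u (!(up u)) = sl A v (up v) :=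
        sl_eq_of_empty (by rwa [Bool.not_not, sl_comm])
      have n1 : (sl (sl A v (!(up v))) u (up u)).Nonempty := by
        rw [sl_comm, e1]; exact hn _ _
      have n2 : (sl (sl A u (!(up u))) v (up v)).Nonempty := by
        rw [sl_comm, e2]; exact hn _ _
      have h2 := Th_near hU hφ0.le (hmin v (!(up v))) hφ u (up u) n1
      have h3 := Th_near hU hφ0.le (hmin u (!(up u))) hφ v (up v) n2
      rw [sl_comm, e1, hth v] at h2
      rw [sl_comm, e2, hth u] at h3
      rw [abs_lt] at h2 h3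
      linarith [h2.2, h3.2]
  exact ⟨{
    U := U
    φ := φ
    α := Th U k φ (sl A v₀ (up v₀))
    up := up
    hU := hU
    φ_pos := hφ0
    φ_lt := hφ
    nonempty := hA
    zero := hz
    good := hg
    D_ne := hD v₀
    sl_ne := hn
    val_up := fun v => ⟨r v, hr v, hval v⟩
    Th_up := fun v => hframe v v₀
    Th_dn := fun v => by rw [hth v, hframe v v₀] }⟩

namespace Contact

variable (c : Contact k Φ A) (hmin : ∀ v b, Good k Φ (sl A v b))
include hmin

/-- both up is alive -/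
lemma uu_ne (u v : V) : (sl (sl A u (c.up u)) v (c.up v)).Nonempty := by
  by_contra huu
  have e1 : sl (sl A u (c.up u)) v (!(c.up v)) = sl A u (c.up u) :=
    sl_eq_of_empty (by rwa [Bool.not_not])
  have n1 : (sl (sl A v (!(c.up v))) u (c.up u)).Nonempty := by
    rw [sl_comm, e1]; exact c.sl_ne _ _
  have h2 := Th_near c.hU c.φ_pos.le (hmin v (!(c.up v))) c.φ_lt u (c.up u) n1
  rw [sl_comm, e1, c.Th_dn, c.Th_up, abs_lt] at h2
  linarith [h2.2]

/-- both down is alive -/
lemma dd_ne (u v : V) : (sl (sl A u (!(c.up u))) v (!(c.up v))).Nonempty := by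
  by_contra hdd
  have e1 : sl (sl A u (!(c.up u))) v (c.up v) = sl A u (!(c.up u)) := sl_eq_of_empty hdd
  have n1 : (sl (sl A v (c.up v)) u (!(c.up u))).Nonempty := by
    rw [sl_comm, e1]; exact c.sl_ne _ _
  have h2 := Th_near c.hU c.φ_pos.le (hmin v (c.up v)) c.φ_lt u (!(c.up u)) n1
  rw [sl_comm, e1, c.Th_dn, c.Th_up, abs_lt] at h2
  linarith [h2.1]

/-- one up, one down -/
lemma ud (u v : V) (h : (sl (sl A u (c.up u)) v (!(c.up v))).Nonempty) :
    Th c.U k c.φ (sl (sl A u (c.up u)) v (!(c.up v))) ∈ Ioo (c.α - Real.pi) c.α := by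
  have h1 := Th_near c.hU c.φ_pos.le (hmin u (c.up u)) c.φ_lt v (!(c.up v)) h
  rw [sl_comm] at h
  have h2 := Th_near c.hU c.φ_pos.le (hmin v (!(c.up v))) c.φ_lt u (c.up u) h
  rw [sl_comm] at h2
  rw [c.Th_up, abs_lt] at h1
  rw [c.Th_dn, abs_lt] at h2
  exact ⟨by linarith [h1.1], by linarith [h2.2]⟩

/-- both up -/
lemma uu (u v : V) : Th c.U k c.φ (sl (sl A u (c.up u)) v (c.up v)) ∈ Ico c.α (c.α + Real.pi) := by
  have hn := c.uu_ne hmin u v
  have h1 := Th_near c.hU c.φ_pos.le (hmin u (c.up u)) c.φ_lt v (c.up v) hn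
  rw [c.Th_up, abs_lt] at h1
  refine ⟨?_, by linarith [h1.2]⟩
  by_cases h : (sl (sl A u (c.up u)) v (!(c.up v))).Nonempty
  · have h2 := (Th_compat c.hU c.φ_pos.le (hmin u (c.up u)) c.φ_lt v (c.up v) hn h).2
    have h3 := c.ud hmin u v h
    rw [c.Th_up] at h2
    rcases Set.mem_uIcc.1 h2 with h4 | h4
    · linarith [h4.2, h3.2]
    · exact h4.2
  · rw [sl_eq_of_empty h, c.Th_up]

/-- both down -/
lemma dd (u v : V) : Th c.U k c.φ (sl (sl A u (!(c.up u))) v (!(c.up v))) ∈
    Ioc (c.α - 2 * Real.pi) (c.α - Real.pi) := by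
  have hn := c.dd_ne hmin u v
  have h1 := Th_near c.hU c.φ_pos.le (hmin u (!(c.up u))) c.φ_lt v (!(c.up v)) hn
  rw [c.Th_dn, abs_lt] at h1
  refine ⟨by linarith [h1.1], ?_⟩
  by_cases h : (sl (sl A u (!(c.up u))) v (c.up v)).Nonempty
  · have h' := h
    rw [sl_comm] at h'
    have h2 := (Th_compat c.hU c.φ_pos.le (hmin u (!(c.up u))) c.φ_lt v (c.up v) h hn).2
    have h3 := c.ud hmin v u h'
    rw [sl_comm] at h3
    rw [c.Th_dn] at h2
    rcases Set.mem_uIcc.1 h2 with h4 | h4
    · linarith [h4.1, h3.1]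
    · exact h4.1
  · have e1 : sl (sl A u (!(c.up u))) v (!(c.up v)) = sl A u (!(c.up u)) :=
      sl_eq_of_empty (by rwa [Bool.not_not])
    rw [e1, c.Th_dn]

/-- **Sign rule.** Two sites with a good merged network have opposite types. -/
theorem sign_rule {u v : V} (h : Good k Φ {s | s ∈ A ∧ s u = s v}) : c.up u ≠ c.up v := by
  intro he
  set C : Set (V → Bool) := {s | s ∈ A ∧ s u = s v} with hC
  have e : ∀ b, sl C u b = sl (sl A u b) v b := by
    intro b
    ext s
    constructor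
    · rintro ⟨⟨h1, h2⟩, h3⟩
      exact ⟨⟨h1, h3⟩, h2 ▸ h3⟩
    · rintro ⟨⟨h1, h2⟩, h3⟩
      exact ⟨⟨h1, h2.trans h3.symm⟩, h2⟩
  have e1 : sl C u (c.up u) = sl (sl A u (c.up u)) v (c.up v) := by rw [e, he]
  have e2 : sl C u (!(c.up u)) = sl (sl A u (!(c.up u))) v (!(c.up v)) := by rw [e, he]
  have n1 := c.uu_ne hmin u v
  have n2 := c.dd_ne hmin u v
  rw [← e1] at n1
  rw [← e2] at n2
  have h1 := (Th_compat c.hU c.φ_pos.le h c.φ_lt u (c.up u) n1 n2).1
  rw [e1, e2, abs_lt] at h1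
  linarith [h1.2, (c.uu hmin u v).1, (c.dd hmin u v).2]

end Contact

end Pool.Agent.ZF
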