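import Mathlib
import Pool.Agent.ZF.Net

set_option autoImplicit false
open Finset Equiv

/-! # First return maps

`idx_ret` : if `g` is the first return map of `f` to the set `P` and `d` the accumulated cost, then the paths
of `f` and `g` from `o` to `i` have the same index. All path lemmas (contraction, deletion of a trivial plate,
restriction to a component, digons) are instances. -/

namespace Pool.Agent.ZF

variable {α : Type*} {f g : α → α} {c d : α → ℤ} {o i : α} {P : α → Prop}

/-- `g a` is the first return of `f` to `P`, with the accumulated cost `d a` -/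
def RetAt (f : α → α) (c : α → ℤ) (P : α → Prop) (a b : α) (k : ℤ) : Prop :=
  ∃ n, 0 < n ∧ f^[n] a = b ∧ P b ∧ (∀ k, 0 < k → k < n → ¬ P (f^[k] a)) ∧
    ∑ j ∈ range n, c (f^[j] a) = k

/-- one step -/
lemma retAt_one {a b : α} {k : ℤ} (h : f a = b) (hb : P b) (hk : c a = k) : RetAt f c P a b k :=
  ⟨1, one_pos, h, hb, fun j h1 h2 => by omega, by simpa using hk⟩

/-- two steps -/
lemma retAt_two {a x b : α} {k : ℤ} (h1 : f a = x) (h2 : f x = b) (hx : ¬ P x) (hb : P b)
    (hk : c a + c x = k) : RetAt f c P a b k := by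
  refine ⟨2, by omega, ?_, hb, fun j h3 h4 => ?_, ?_⟩
  · change f (f a) = b
    rw [h1, h2]
  · obtain rfl : j = 1 := by omega
    change ¬ P (f a)
    rw [h1]; exact hx
  · rw [sum_range_succ, sum_range_one]
    change c a + c (f a) = k
    rw [h1, hk]

/-- three steps -/
lemma retAt_three {a x y b : α} {k : ℤ} (h1 : f a = x) (h2 : f x = y) (h3 : f y = b) (hx : ¬ P x)
    (hy : ¬ P y) (hb : P b) (hk : c a + c x + c y = k) : RetAt f c P a b k := by
  refine ⟨3, by omega, ?_, hb, fun j h4 h5 => ?_, ?_⟩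
  · change f (f (f a)) = b
    rw [h1, h2, h3]
  · rcases (by omega : j = 1 ∨ j = 2) with rfl | rfl
    · change ¬ P (f a)
      rw [h1]; exact hx
    · change ¬ P (f (f a))
      rw [h1, h2]; exact hy
  · rw [sum_range_succ, sum_range_succ, sum_range_one]
    change c a + c (f a) + c (f (f a)) = k
    rw [h1, h2, hk]

/-- **The path lemma.** -/
theorem isIdx_ret (ho : P o) (hi : P i) (h : ∀ a, P a → RetAt f c P a (g a) (d a)) (k : ℤ) :
    IsIdx f c o i k ↔ IsIdx g d o i k := by
  have hτ : ∀ a, ∃ n, P a → (0 < n ∧ f^[n] a = g a ∧ P (g a) ∧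
      (∀ k, 0 < k → k < n → ¬ P (f^[k] a)) ∧ ∑ j ∈ range n, c (f^[j] a) = d a) := by
    intro a
    by_cases ha : P a
    · obtain ⟨n, hn⟩ := h a ha
      exact ⟨n, fun _ => hn⟩
    · exact ⟨0, fun h => absurd h ha⟩
  choose τ hτ using hτ
  have hP : ∀ m, P (g^[m] o) := by
    intro m
    induction m with
    | zero => exact ho
    | succ m ih => rw [Function.iterate_succ_apply']; exact (hτ _ ih).2.2.1
  obtain ⟨T, hT0, hTs⟩ : ∃ T : ℕ → ℕ, T 0 = 0 ∧ ∀ m, T (m + 1) = T m + τ (g^[m] o) :=
    ⟨fun m => ∑ j ∈ range m, τ (g^[j] o), by simp, fun m => sum_range_succ _ _⟩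
  have hpos : ∀ m, 0 < τ (g^[m] o) := fun m => (hτ _ (hP m)).1
  have hmono : StrictMono T := strictMono_nat_of_lt_succ fun m => by
    rw [hTs]; have := hpos m; omega
  have hf : ∀ m, f^[T m] o = g^[m] o := by
    intro m
    induction m with
    | zero => rw [hT0]; rfl
    | succ m ih =>
      rw [hTs, add_comm, Function.iterate_add_apply, ih, Function.iterate_succ_apply' g]
      exact (hτ _ (hP m)).2.1
  have hs : ∀ m, ∑ j ∈ range (T m), c (f^[j] o) = ∑ j ∈ range m, d (g^[j] o) := by
    intro m
    induction m with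
    | zero => rw [hT0]; simp
    | succ m ih =>
      rw [hTs, sum_range_add, ih, sum_range_succ]
      congr 1
      rw [← (hτ _ (hP m)).2.2.2.2]
      refine sum_congr rfl fun j _ => ?_
      rw [add_comm, Function.iterate_add_apply, hf]
  have hbt : ∀ m t, T m < t → t < T (m + 1) → ¬ P (f^[t] o) := by
    intro m t h1 h2
    have h3 := (hτ _ (hP m)).2.2.2.1 (t - T m) (by omega) (by rw [hTs] at h2; omega)
    rw [← hf, ← Function.iterate_add_apply, show t - T m + T m = t by omega] at h3
    exact h3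
  have hcov : ∀ t, ∃ m, T m ≤ t ∧ t < T (m + 1) := by
    intro t
    induction t with
    | zero =>
      refine ⟨0, by rw [hT0], ?_⟩
      have := hmono (Nat.lt_succ_self 0)
      rw [hT0] at this
      exact this
    | succ t ih =>
      obtain ⟨m, h1, h2⟩ := ih
      rcases (by omega : t + 1 < T (m + 1) ∨ t + 1 = T (m + 1)) with h3 | h3
      · exact ⟨m, by omega, h3⟩
      · exact ⟨m + 1, h3.ge, by rw [h3]; exact hmono (Nat.lt_succ_self _)⟩
  constructor
  · rintro ⟨n, ⟨h1, h2, h3⟩, rfl⟩
    obtain ⟨m, k1, k2⟩ := hcov n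
    have k3 : T m = n := by
      by_contra k3
      exact hbt m n (by omega) k2 (by rw [h2]; exact hi)
    refine ⟨m, ⟨?_, ?_, fun j j1 j2 => ?_⟩, ?_⟩
    · rcases Nat.eq_zero_or_pos m with rfl | h4
      · omega
      · exact h4
    · rw [← hf, k3, h2]
    · rw [← hf]
      exact h3 _ (by rw [← hT0]; exact hmono j1) (by rw [← k3]; exact hmono j2)
    · rw [← hs, k3]
  · rintro ⟨m, ⟨h1, h2, h3⟩, rfl⟩
    refine ⟨T m, ⟨by rw [← hT0]; exact hmono h1, by rw [hf, h2], fun t t1 t2 => ?_⟩, hs m⟩
    obtain ⟨j, k1, k2⟩ := hcov t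
    rcases k1.eq_or_lt with k3 | k3
    · rw [← k3, hf]
      have j1 : 0 < j := by
        rcases Nat.eq_zero_or_pos j with rfl | h4
        · omega
        · exact h4
      exact h3 j j1 (hmono.lt_iff_lt.1 (by rw [k3]; exact t2))
    · have k4 := hbt j t k3 k2
      exact ⟨fun e => k4 (by rw [e]; exact ho), fun e => k4 (by rw [e]; exact hi)⟩

/-- **The path lemma.** -/
theorem idx_ret (ho : P o) (hi : P i) (h : ∀ a, P a → RetAt f c P a (g a) (d a)) :
    idx f c o i = idx g d o i :=
  idx_congr (isIdx_ret ho hi h)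

/-- only the values on an invariant set matter -/
theorem idx_eq_on (ho : P o) (hi : P i) (hg : ∀ a, P a → P (g a)) (h : ∀ a, P a → f a = g a)
    (hc : ∀ a, P a → c a = d a) : idx f c o i = idx g d o i :=
  idx_ret ho hi fun a ha => retAt_one (h a ha) (hg a ha) (hc a ha)

/-- two maps with the same first return map -/
theorem idx_ret₂ {f' : α → α} {c' : α → ℤ} (ho : P o) (hi : P i)
    (h : ∀ a, P a → ∃ b k, RetAt f c P a b k ∧ RetAt f' c' P a b k) :
    idx f c o i = idx f' c' o i := by
  classical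
  have h' : ∀ a, ∃ b k, P a → RetAt f c P a b k ∧ RetAt f' c' P a b k := by
    intro a
    by_cases ha : P a
    · obtain ⟨b, k, hb⟩ := h a ha
      exact ⟨b, k, fun _ => hb⟩
    · exact ⟨a, 0, fun h => absurd h ha⟩
  choose g d hgd using h'
  rw [idx_ret (g := g) (d := d) ho hi fun a ha => (hgd a ha).1,
    idx_ret (f := f') (c := c') (g := g) (d := d) ho hi fun a ha => (hgd a ha).2]

/-- the path is trapped in a set without `i` -/
theorem idx_none {Q : α → Prop} (ho : Q (f o)) (hs : ∀ a, Q a → Q (f a)) (hi : ¬ Q i) :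
    idx f c o i = none := by
  rcases h : idx f c o i with _ | k
  · rfl
  · obtain ⟨n, ⟨h1, h2, -⟩, -⟩ := idx_eq_some.1 h
    have key : ∀ m, Q (f^[m + 1] o) := by
      intro m
      induction m with
      | zero => exact ho
      | succ m ih => rw [Function.iterate_succ_apply']; exact hs _ ih
    obtain ⟨m, rfl⟩ : ∃ m, n = m + 1 := ⟨n - 1, by omega⟩
    have := key m
    rw [h2] at this
    exact absurd this hi

/-- a path never enters a set which is the image of itself -/
theorem idx_none' {Q : α → Prop} (hinj : Function.Injective f) (hi : Q i) (ho : ¬ Q o)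
    (hs : ∀ a, Q a → ∃ b, Q b ∧ f b = a) : idx f c o i = none := by
  rcases h : idx f c o i with _ | k
  · rfl
  · obtain ⟨n, ⟨h1, h2, -⟩, -⟩ := idx_eq_some.1 h
    have key : ∀ m a, Q (f^[m] a) → Q a := by
      intro m
      induction m with
      | zero => intro a ha; exact ha
      | succ m ih =>
        intro a ha
        rw [Function.iterate_succ_apply] at ha
        obtain ⟨b, hb, e⟩ := hs _ (ih _ ha)
        rw [← hinj e]; exact hb
    exact absurd (key n o (by rw [h2]; exact hi)) ho

end Pool.Agent.ZF
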