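import Mathlib
import Pool.Agent.ZF.Ret

set_option autoImplicit false
open Finset Equiv

/-! # Local reductions R0, R1, R3

`Kill v c` : the colour `c` of the plate `v` kills everything. `Irr u v c` : the colour of `u` does not
matter if `v` has the colour `c`. `Free u` : the colour of `u` does not matter. -/

namespace Pool.Agent.ZF

variable {α V : Type*}

/-! ### Cycles of length one and two -/

lemma pinv_self (σ : Perm α) (x : α) : σ⁻¹ (σ x) = x := σ.symm_apply_apply x

lemma self_pinv (σ : Perm α) (x : α) : σ (σ⁻¹ x) = x := σ.apply_symm_apply x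

lemma sameCycle_two {σ : Perm α} {x z : α} (h : σ (σ x) = x) : σ.SameCycle x z ↔ z = x ∨ z = σ x := by
  have h' : σ⁻¹ x = σ x := by rw [Perm.inv_eq_iff_eq, h]
  constructor
  · rintro ⟨n, rfl⟩
    induction n using Int.induction_on with
    | zero => left; simp
    | succ n ih =>
      rw [add_comm, zpow_add, zpow_one, Perm.mul_apply]
      rcases ih with ih | ih <;> rw [ih]
      · exact Or.inr rfl
      · exact Or.inl h
    | pred n ih =>
      rw [sub_eq_neg_add, zpow_add, zpow_neg_one, Perm.mul_apply]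
      rcases ih with ih | ih <;> rw [ih]
      · exact Or.inr h'
      · left; simp
  · rintro (rfl | rfl)
    · exact Perm.SameCycle.refl _ _
    · exact ⟨1, by simp⟩

lemma sameCycle_one {σ : Perm α} {x z : α} (h : σ x = x) : σ.SameCycle x z ↔ z = x := by
  rw [sameCycle_two (by rw [h, h]), h, or_self]

namespace Net

variable [DecidableEq α] [DecidableEq V] (N : Net α V)

/-- the colour `c` of `v` kills everything -/
def Kill (v : V) (c : Bool) : Prop := ∀ S : Finset V, (v ∈ S ↔ c = true) → N.K S = none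

/-- the colour of `u` does not matter if `v` has the colour `c` -/
def Irr (u v : V) (c : Bool) : Prop :=
  ∀ S : Finset V, (v ∈ S ↔ c = true) → N.K (insert u S) = N.K (S.erase u)

/-- the colour of `u` does not matter -/
def Free (u : V) : Prop := ∀ S : Finset V, N.K (insert u S) = N.K (S.erase u)

variable {N} {x y a : α} {u v : V} {S S' : Finset V}

/-! ### Basic facts -/

lemma b_mem (h : x ∈ N.E) : N.b x ∈ N.E := by
  by_contra h1
  have h2 := N.hb _ h1
  exact h1 (by rw [N.b.injective h2]; exact h)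

lemma w_mem (h : x ∈ N.E) : N.w x ∈ N.E := by
  by_contra h1
  have h2 := N.hw _ h1
  exact h1 (by rw [N.w.injective h2]; exact h)

lemma b_inv_mem (h : x ∈ N.E) : N.b⁻¹ x ∈ N.E := by
  by_contra h1
  have h2 := N.hb _ h1
  rw [self_pinv] at h2
  exact h1 (by rw [← h2]; exact h)

lemma w_inv_mem (h : x ∈ N.E) : N.w⁻¹ x ∈ N.E := by
  by_contra h1
  have h2 := N.hw _ h1
  rw [self_pinv] at h2
  exact h1 (by rw [← h2]; exact h)

lemma step_mem (h : x ∈ N.E) : N.step S x ∈ N.E := by
  unfold step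
  split_ifs
  · exact b_mem h
  · exact w_mem h

lemma lab_step : N.lab (N.step S x) = N.lab (N.w x) := by
  unfold step
  split_ifs
  · exact N.hlab x
  · rfl

lemma step_inj : Function.Injective (N.step S) := by
  intro x y h
  have h1 : N.lab (N.w x) = N.lab (N.w y) := by rw [← lab_step (S := S), h, lab_step]
  unfold step at h
  rw [h1] at h
  split_ifs at h
  · exact N.b.injective h
  · exact N.w.injective h

lemma step_b (h : N.lab (N.b x) ∈ S) : N.step S x = N.b x ∧ N.cost S x = N.cb x := by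
  rw [N.hlab] at h
  unfold step cost
  rw [if_pos h, if_pos h]
  exact ⟨rfl, rfl⟩

lemma step_w (h : N.lab (N.w x) ∉ S) : N.step S x = N.w x ∧ N.cost S x = N.cw x := by
  unfold step cost
  rw [if_neg h, if_neg h]
  exact ⟨rfl, rfl⟩

lemma mem_T : x ∈ N.T ↔ x ≠ N.o ∧ x ≠ N.i ∧ x ∈ N.E := by
  unfold T
  rw [mem_erase, mem_erase]

/-- at a strand whose head is a mark both colours are the same -/
lemma mark_head (ha : a ∈ N.E) (h : N.w a ∉ N.T) : N.b a = N.w a ∧ N.cb a = N.cw a := by
  have h1 : N.w a = N.o ∨ N.w a = N.i := by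
    by_contra h2
    rw [not_or] at h2
    exact h (mem_T.2 ⟨h2.1, h2.2, w_mem ha⟩)
  rcases h1 with h1 | h1
  · have h2 : N.w⁻¹ N.o = a := by rw [← h1, pinv_self]
    have h3 := N.mo
    have h4 := N.co
    rw [h2] at h3 h4
    exact ⟨by rw [h1, ← h3, self_pinv], h4⟩
  · have h2 : N.w⁻¹ N.i = a := by rw [← h1, pinv_self]
    have h3 := N.mi
    have h4 := N.ci
    rw [h2] at h3 h4
    exact ⟨by rw [h1, ← h3, self_pinv], h4⟩

/-- states which differ only at `u` have the same step at a strand whose head is not at `u` -/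
lemma same_of (ha : a ∈ N.E) (hS : ∀ l, l ≠ u → (l ∈ S ↔ l ∈ S'))
    (h : N.w a ∈ N.T → N.lab (N.w a) ≠ u) : N.step S a = N.step S' a ∧ N.cost S a = N.cost S' a := by
  by_cases h1 : N.w a ∈ N.T
  · have h2 := hS _ (h h1)
    unfold step cost
    by_cases h3 : N.lab (N.w a) ∈ S
    · rw [if_pos h3, if_pos (h2.1 h3), if_pos h3, if_pos (h2.1 h3)]
      exact ⟨rfl, rfl⟩
    · rw [if_neg h3, if_neg (fun h4 => h3 (h2.2 h4)), if_neg h3, if_neg (fun h4 => h3 (h2.2 h4))]
      exact ⟨rfl, rfl⟩
  · obtain ⟨h2, h3⟩ := mark_head ha h1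
    unfold step cost
    rw [h2, h3]
    simp only [ite_self, and_self]

lemma ins_er (u : V) (S : Finset V) : ∀ l, l ≠ u → (l ∈ insert u S ↔ l ∈ S.erase u) := by
  intro l hl
  rw [mem_insert, mem_erase]
  simp [hl]

/-- equal steps on the strands give equal indices -/
lemma K_congr (h : ∀ a ∈ N.E, N.step S a = N.step S' a ∧ N.cost S a = N.cost S' a) :
    N.K S = N.K S' :=
  idx_eq_on (P := fun a => a ∈ N.E) N.ho N.hi (fun _ ha => step_mem ha) (fun a ha => (h a ha).1)
    fun a ha => (h a ha).2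

lemma cyc_two {σ : Perm α} (hx : x ∈ N.E) (hy : σ x ∈ N.E) (h : σ (σ x) = x) :
    cyc N.E σ x = {x, σ x} := by
  classical
  ext z
  unfold cyc
  rw [mem_filter, sameCycle_two h, mem_insert, mem_singleton]
  constructor
  · exact fun h => h.2
  · rintro (rfl | rfl)
    · exact ⟨hx, Or.inl rfl⟩
    · exact ⟨hy, Or.inr rfl⟩

lemma cyc_one {σ : Perm α} (hx : x ∈ N.E) (h : σ x = x) : cyc N.E σ x = {x} := by
  rw [cyc_two hx (by rw [h]; exact hx) (by rw [h, h]), h, pair_eq_singleton]

lemma pi_mem (hx : x ∈ N.E) : N.pi x ∈ N.E := b_mem (w_inv_mem hx)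

/-! ### R1: trivial plates -/

/-- **R1.** A plate with one tail is irrelevant. -/
theorem free_trivial (hsep : N.Sep) (hpl : ∀ x ∈ N.E, ∑ y ∈ cyc N.E N.pi x,
    (N.cw (N.w⁻¹ y) - N.cb (N.w⁻¹ y)) = 4 * (((cyc N.E N.pi x).card : ℤ) - 1))
    (hx : x ∈ N.T) (h : N.pi x = x) : N.Free (N.lab x) := by
  intro S
  have hxE := (mem_T.1 hx).2.2
  have h1 := hpl x hxE
  rw [cyc_one hxE h, sum_singleton, card_singleton] at h1
  refine K_congr fun a ha => ?_
  by_cases h2 : N.w a ∈ N.T ∧ N.lab (N.w a) = N.lab x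
  · have h3 := hsep x hx _ h2.1 h2.2.symm
    rw [sameCycle_one h] at h3
    have h4 : N.w⁻¹ x = a := by rw [← h3, pinv_self]
    have h5 : N.b a = N.w a := by
      rw [h3, ← h4]; exact h
    rw [h4] at h1
    have h6 : N.cb a = N.cw a := by push_cast at h1; linarith
    unfold step cost
    rw [h5, h6]
    simp only [ite_self, and_self]
  · exact same_of ha (ins_er _ S) fun h3 h4 => h2 ⟨h3, h4⟩

/-! ### R0: special faces of length two -/

/-- the head strand of the mark `i` -/
lemma head_i (h : N.w a = N.i) : N.b a = N.i := by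
  have h2 : N.w⁻¹ N.i = a := by rw [← h, pinv_self]
  rw [← h2, ← N.mi, self_pinv]

lemma head_o (h : N.w a = N.o) : N.b a = N.o := by
  have h2 : N.w⁻¹ N.o = a := by rw [← h, pinv_self]
  rw [← h2, ← N.mo, self_pinv]

lemma head_i' (h : N.b a = N.i) : N.w a = N.i := by
  have h2 : N.b⁻¹ N.i = a := by rw [← h, pinv_self]
  rw [← h2, N.mi, self_pinv]

lemma head_o' (h : N.b a = N.o) : N.w a = N.o := by
  have h2 : N.b⁻¹ N.o = a := by rw [← h, pinv_self]
  rw [← h2, N.mo, self_pinv]

lemma step_i (h : N.w a = N.i) : N.step S a = N.i := by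
  unfold step
  rw [h, head_i h, ite_self]

lemma step_o (h : N.w a = N.o) : N.step S a = N.o := by
  unfold step
  rw [h, head_o h, ite_self]

/-- two strands which form a loop with the mark `i` -/
lemma none_i (h1 : N.step S N.i = a) (h2 : N.w a = N.i) (ho : a ≠ N.o) : N.K S = none := by
  refine idx_none' (Q := fun z => z = N.i ∨ z = a) step_inj (Or.inl rfl) ?_ ?_
  · rintro (h | h)
    · exact N.hio h.symm
    · exact ho h.symm
  · rintro z (rfl | rfl)
    · exact ⟨a, Or.inr rfl, step_i h2⟩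
    · exact ⟨N.i, Or.inl rfl, h1⟩

/-- two strands which form a loop with the mark `o` -/
lemma none_o (h1 : N.step S N.o = a) (h2 : N.w a = N.o) (hi : a ≠ N.i) : N.K S = none := by
  refine idx_none (Q := fun z => z = N.o ∨ z = a) (Or.inr h1) ?_ ?_
  · rintro z (rfl | rfl)
    · exact Or.inr h1
    · exact Or.inl (step_o h2)
  · rintro (h | h)
    · exact N.hio h
    · exact hi h.symm

/-- **R0**, white face of length two at `i`. -/
theorem kill_i_white (h1 : N.b N.i = a) (h2 : N.b a = N.i) (ho : a ≠ N.o) :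
    N.Kill (N.lab a) true := by
  intro S hS
  refine none_i (a := a) ?_ (head_i' h2) ho
  rw [← h1] at hS ⊢
  exact (step_b (hS.2 rfl)).1

/-- **R0**, black face of length two at `i`. -/
theorem kill_i_black (h1 : N.w N.i = a) (h2 : N.w a = N.i) (ho : a ≠ N.o) :
    N.Kill (N.lab a) false := by
  intro S hS
  refine none_i (a := a) ?_ h2 ho
  rw [← h1] at hS ⊢
  exact (step_w (fun h => absurd (hS.1 h) (by simp))).1

/-- **R0**, white face of length two at `o`. -/
theorem kill_o_white (h1 : N.b N.o = a) (h2 : N.b a = N.o) (hi : a ≠ N.i) :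
    N.Kill (N.lab a) true := by
  intro S hS
  refine none_o (a := a) ?_ (head_o' h2) hi
  rw [← h1] at hS ⊢
  exact (step_b (hS.2 rfl)).1

/-- **R0**, black face of length two at `o`. -/
theorem kill_o_black (h1 : N.w N.o = a) (h2 : N.w a = N.o) (hi : a ≠ N.i) :
    N.Kill (N.lab a) false := by
  intro S hS
  refine none_o (a := a) ?_ h2 hi
  rw [← h1] at hS ⊢
  exact (step_w (fun h => absurd (hS.1 h) (by simp))).1

/-! ### R3: a digon between a tile and a plate -/

/-- **R3**, white digon: the tile is irrelevant if the other plate is black. -/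
theorem irr_white (hP : N.Pl) (hx : x ∈ N.T) (hy : y ∈ N.T) (h1 : N.b x = y) (h2 : N.b y = x)
    (h3 : N.pi x ≠ x) (h4 : N.pi (N.pi x) = x) (hne : N.lab x ≠ N.lab y) :
    N.Irr (N.lab x) (N.lab y) true := by
  intro S hS
  have hv : N.lab y ∈ S := hS.2 rfl
  obtain ⟨x1, x2, hxE⟩ := mem_T.1 hx
  obtain ⟨y1, y2, hyE⟩ := mem_T.1 hy
  obtain ⟨x', hx'⟩ : ∃ x', N.pi x = x' := ⟨_, rfl⟩
  obtain ⟨y', hy'⟩ : ∃ y', N.w⁻¹ x = y' := ⟨_, rfl⟩
  have e1 : N.w y' = x := by rw [← hy', self_pinv]
  have e2 : N.b y' = x' := by rw [← hx', ← hy']; rfl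
  have e3 : N.w y = x' := by
    have : N.pi (N.w y) = N.pi x' := by
      rw [← hx', h4]
      unfold pi
      rw [Perm.mul_apply, pinv_self, h2]
    exact N.pi.injective this
  have hx'E : x' ∈ N.E := by rw [← hx']; exact pi_mem hxE
  have l1 : N.lab x' = N.lab x := by rw [← e2, N.hlab, e1]
  have hyy : y ≠ y' := by
    rintro rfl
    exact h3 (by rw [hx', ← e3, e1])
  have p1 := hP.plate x hxE
  rw [cyc_two hxE (pi_mem hxE) h4, sum_pair h3.symm, card_pair h3.symm, hx', hy',
    show N.w⁻¹ x' = y by rw [← e3, pinv_self]] at p1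
  have p2 := hP.white x hxE
  have hxy : x ≠ y := fun h => hne (by rw [h])
  rw [cyc_two hxE (by rw [h1]; exact hyE) (by rw [h1, h2]), h1, sum_pair hxy, if_neg] at p2
  swap
  · rw [mem_insert, mem_singleton, not_or]
    exact ⟨fun h => x1 h.symm, fun h => y1 h.symm⟩
  push_cast at p1
  refine idx_ret₂ (P := fun a => a ∈ N.E ∧ a ≠ x ∧ a ≠ y) ⟨N.ho, fun h => x1 h.symm, fun h => y1 h.symm⟩
    ⟨N.hi, fun h => x2 h.symm, fun h => y2 h.symm⟩ ?_
  rintro a ⟨haE, hax, hay⟩
  -- the steps at `x` and `y`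
  have sx : ∀ U : Finset V, N.lab y ∈ U → N.step U x = y ∧ N.cost U x = N.cb x := by
    intro U hU
    have := step_b (N := N) (x := x) (S := U) (by rw [h1]; exact hU)
    rwa [h1] at this
  have sy : N.step (insert (N.lab x) S) y = x := by
    have := (step_b (N := N) (x := y) (S := insert (N.lab x) S) (by rw [h2]; exact mem_insert_self _ _)).1
    rwa [h2] at this
  have vi : N.lab y ∈ insert (N.lab x) S := mem_insert_of_mem hv
  have ve : N.lab y ∈ S.erase (N.lab x) := mem_erase.2 ⟨hne.symm, hv⟩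
  by_cases h5 : N.w a ∈ N.T ∧ N.lab (N.w a) = N.lab x
  · have h6 := hP.sep x hx _ h5.1 h5.2.symm
    rw [sameCycle_two h4] at h6
    have h7 : a = y' := by
      rcases h6 with h6 | h6
      · rw [← hy', ← h6, pinv_self]
      · exfalso
        apply hay
        rw [hx', ← e3] at h6
        exact N.w.injective h6
    subst h7
    refine ⟨x', N.cb a, ?_, ?_⟩
    · have := step_b (N := N) (x := a) (S := insert (N.lab x) S)
        (by rw [e2, l1]; exact mem_insert_self _ _)
      rw [e2] at this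
      exact retAt_one this.1 ⟨hx'E, by rw [← hx']; exact h3, fun h => hne (by rw [← l1, h])⟩ this.2
    · have t1 := step_w (N := N) (x := a) (S := S.erase (N.lab x)) (by rw [e1]; simp)
      rw [e1] at t1
      have t2 := sx _ ve
      have t3 := step_w (N := N) (x := y) (S := S.erase (N.lab x)) (by rw [e3, l1]; simp)
      rw [e3] at t3
      exact retAt_three t1.1 t2.1 t3.1 (fun h => h.2.1 rfl) (fun h => h.2.2 rfl)
        ⟨hx'E, by rw [← hx']; exact h3, fun h => hne (by rw [← l1, h])⟩
        (by rw [t1.2, t2.2, t3.2]; linarith)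
  · have h6 := same_of (u := N.lab x) haE (ins_er (N.lab x) S) fun h7 h8 => h5 ⟨h7, h8⟩
    have hb : N.step (insert (N.lab x) S) a ∈ N.E ∧ N.step (insert (N.lab x) S) a ≠ x ∧
        N.step (insert (N.lab x) S) a ≠ y := by
      refine ⟨step_mem haE, fun h => hay ?_, fun h => hax ?_⟩
      · exact step_inj (h.trans sy.symm)
      · exact step_inj (h.trans (sx _ vi).1.symm)
    exact ⟨_, _, retAt_one rfl hb rfl, retAt_one h6.1.symm hb h6.2.symm⟩

/-- **R3**, black digon: the tile is irrelevant if the other plate is white. -/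
theorem irr_black (hP : N.Pl) (hx : x ∈ N.T) (hy : y ∈ N.T) (h1 : N.w x = y) (h2 : N.w y = x)
    (h3 : N.pi x ≠ x) (h4 : N.pi (N.pi x) = x) (hne : N.lab x ≠ N.lab y) :
    N.Irr (N.lab x) (N.lab y) false := by
  intro S hS
  have hv : N.lab y ∉ S := fun h => absurd (hS.1 h) (by simp)
  obtain ⟨x1, x2, hxE⟩ := mem_T.1 hx
  obtain ⟨y1, y2, hyE⟩ := mem_T.1 hy
  obtain ⟨x', hx'⟩ : ∃ x', N.pi x = x' := ⟨_, rfl⟩
  obtain ⟨y', hy'⟩ : ∃ y', N.w⁻¹ x' = y' := ⟨_, rfl⟩
  have e1 : N.w y' = x' := by rw [← hy', self_pinv]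
  have e2 : N.b y' = x := by
    have : N.pi x' = x := by rw [← hx', h4]
    rw [← this, ← hy']; rfl
  have e3 : N.b y = x' := by
    rw [← hx', ← h2]
    unfold pi
    rw [Perm.mul_apply, pinv_self]
  have hx'E : x' ∈ N.E := by rw [← hx']; exact pi_mem hxE
  have l1 : N.lab x' = N.lab x := by rw [← e3, N.hlab, h2]
  have hyy : y ≠ y' := by
    rintro rfl
    exact h3 (by rw [hx', ← e1, h2])
  have p1 := hP.plate x hxE
  rw [cyc_two hxE (pi_mem hxE) h4, sum_pair h3.symm, card_pair h3.symm, hx', hy',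
    show N.w⁻¹ x = y by rw [← h2, pinv_self]] at p1
  have p2 := hP.black x hxE
  have hxy : x ≠ y := fun h => hne (by rw [h])
  rw [cyc_two hxE (by rw [h1]; exact hyE) (by rw [h1, h2]), h1, sum_pair hxy] at p2
  push_cast at p1
  refine Eq.symm ?_
  refine idx_ret₂ (P := fun a => a ∈ N.E ∧ a ≠ x ∧ a ≠ y) ⟨N.ho, fun h => x1 h.symm, fun h => y1 h.symm⟩
    ⟨N.hi, fun h => x2 h.symm, fun h => y2 h.symm⟩ ?_
  rintro a ⟨haE, hax, hay⟩
  have sx : ∀ U : Finset V, N.lab y ∉ U → N.step U x = y ∧ N.cost U x = N.cw x := by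
    intro U hU
    have := step_w (N := N) (x := x) (S := U) (by rw [h1]; exact hU)
    rwa [h1] at this
  have sy : N.step (S.erase (N.lab x)) y = x := by
    have := (step_w (N := N) (x := y) (S := S.erase (N.lab x)) (by rw [h2]; simp)).1
    rwa [h2] at this
  have vi : N.lab y ∉ insert (N.lab x) S := by
    rw [mem_insert, not_or]; exact ⟨hne.symm, hv⟩
  have ve : N.lab y ∉ S.erase (N.lab x) := fun h => hv (mem_of_mem_erase h)
  by_cases h5 : N.w a ∈ N.T ∧ N.lab (N.w a) = N.lab x
  · have h6 := hP.sep x hx _ h5.1 h5.2.symm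
    rw [sameCycle_two h4] at h6
    have h7 : a = y' := by
      rcases h6 with h6 | h6
      · exfalso
        apply hay
        rw [← h2] at h6
        exact N.w.injective h6
      · rw [← hy', ← hx', ← h6, pinv_self]
    subst h7
    refine ⟨x', N.cw a, ?_, ?_⟩
    · have := step_w (N := N) (x := a) (S := S.erase (N.lab x)) (by rw [e1, l1]; simp)
      rw [e1] at this
      exact retAt_one this.1 ⟨hx'E, by rw [← hx']; exact h3, fun h => hne (by rw [← l1, h])⟩ this.2
    · have t1 := step_b (N := N) (x := a) (S := insert (N.lab x) S)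
        (by rw [e2]; exact mem_insert_self _ _)
      rw [e2] at t1
      have t2 := sx _ vi
      have t3 := step_b (N := N) (x := y) (S := insert (N.lab x) S)
        (by rw [e3, l1]; exact mem_insert_self _ _)
      rw [e3] at t3
      exact retAt_three t1.1 t2.1 t3.1 (fun h => h.2.1 rfl) (fun h => h.2.2 rfl)
        ⟨hx'E, by rw [← hx']; exact h3, fun h => hne (by rw [← l1, h])⟩
        (by rw [t1.2, t2.2, t3.2]; linarith)
  · have h6 := same_of (u := N.lab x) haE (ins_er (N.lab x) S) fun h7 h8 => h5 ⟨h7, h8⟩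
    have hb : N.step (S.erase (N.lab x)) a ∈ N.E ∧ N.step (S.erase (N.lab x)) a ≠ x ∧
        N.step (S.erase (N.lab x)) a ≠ y := by
      refine ⟨step_mem haE, fun h => hay ?_, fun h => hax ?_⟩
      · exact step_inj (h.trans sy.symm)
      · exact step_inj (h.trans (sx _ ve).1.symm)
    exact ⟨_, _, retAt_one rfl hb rfl, retAt_one h6.1 hb h6.2⟩

end Net

end Pool.Agent.ZF
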