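import Mathlib
import Pool.Agent.ZF.GB
import Pool.Agent.ZF.Red

set_option autoImplicit false
set_option linter.unusedSectionVars false
open Finset Equiv

/-! # Counting, part one: faces and plates

`Irred` : the irreducibility conditions which hold at a first contact (two-colouring of the plates,
no special face of length two, no trivial plate, no digon at a tile, no three parallel strands) and no
star. `face_le`, `Irred.plate_le` : the local inequalities. -/

namespace Pool.Agent.ZF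
namespace Net

variable {α V : Type*} [DecidableEq α] [DecidableEq V]

/-- the face of `σ` at the tail `x` is a digon without marks -/
def Dg (N : Net α V) (σ : Perm α) (x : α) : Prop := x ∈ N.T ∧ σ x ∈ N.T ∧ σ (σ x) = x

open Classical in
/-- indicator of a digon -/
noncomputable def dg (N : Net α V) (σ : Perm α) (x : α) : ℤ := if N.Dg σ x then 1 else 0

/-- indicator of a mark -/
def mrk (N : Net α V) (x : α) : ℤ := if x = N.i ∨ x = N.o then 1 else 0

/-- **Irreducible networks without star.** -/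
structure Irred (N : Net α V) : Prop where
  pl : N.Pl
  col : ∃ s : V → Bool, ∀ x ∈ N.T, N.b x ∈ N.T → s (N.lab x) ≠ s (N.lab (N.b x))
  ibb : N.b (N.b N.i) ≠ N.i
  iww : N.w (N.w N.i) ≠ N.i
  obb : N.b (N.b N.o) ≠ N.o
  oww : N.w (N.w N.o) ≠ N.o
  r1 : ∀ x ∈ N.T, N.pi x ≠ x
  r3b : ∀ x, N.Dg N.b x → N.pi (N.pi x) ≠ x
  r3w : ∀ x, N.Dg N.w x → N.pi (N.pi x) ≠ x
  r4 : ∀ x, N.Dg N.b x → ¬ N.Dg N.w x
  starb : ∀ x, N.Dg N.b x → N.Dg N.b (N.pi x) → N.Dg N.b (N.pi (N.pi x)) → N.pi (N.pi (N.pi x)) ≠ x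
  starw : ∀ x, N.Dg N.w x → N.Dg N.w (N.pi x) → N.Dg N.w (N.pi (N.pi x)) → N.pi (N.pi (N.pi x)) ≠ x

variable {N : Net α V}

lemma card3 {x y z : α} (h1 : x ≠ y) (h2 : x ≠ z) (h3 : y ≠ z) : ({x, y, z} : Finset α).card = 3 := by
  rw [card_insert_of_notMem (by rw [mem_insert, mem_singleton, not_or]; exact ⟨h1, h2⟩), card_pair h3]

lemma dg_nonneg (σ : Perm α) (x : α) : 0 ≤ N.dg σ x := by unfold dg; split_ifs <;> norm_num

lemma dg_le (σ : Perm α) (x : α) : N.dg σ x ≤ 1 := by unfold dg; split_ifs <;> norm_num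

lemma dg_one {σ : Perm α} {x : α} (h : N.Dg σ x) : N.dg σ x = 1 := by unfold dg; rw [if_pos h]

lemma dg_zero {σ : Perm α} {x : α} (h : ¬ N.Dg σ x) : N.dg σ x = 0 := by unfold dg; rw [if_neg h]

lemma mrk_nonneg (x : α) : 0 ≤ N.mrk x := by unfold mrk; split_ifs <;> norm_num

lemma mrk_i : N.mrk N.i = 1 := by unfold mrk; rw [if_pos (Or.inl rfl)]

lemma mrk_o : N.mrk N.o = 1 := by unfold mrk; rw [if_pos (Or.inr rfl)]

lemma mrk_T {x : α} (h : x ∈ N.T) : N.mrk x = 0 := by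
  unfold mrk; rw [if_neg]
  rintro (h1 | h1)
  · exact (mem_T.1 h).2.1 h1
  · exact (mem_T.1 h).1 h1

/-! ### Cycles -/

section cycles

variable {σ : Perm α} {c : Finset α} {x : α}

lemma sub_of_cycs (hc : c ∈ cycs N.E σ) (hx : x ∈ c) : x ∈ N.E := by
  rw [eq_cyc_of_mem hc hx] at hx; exact (mem_cyc.1 hx).1

lemma app_of_cycs (hE : ∀ x ∈ N.E, σ x ∈ N.E) (hc : c ∈ cycs N.E σ) (hx : x ∈ c) : σ x ∈ c := by
  have h1 := sub_of_cycs hc hx
  rw [eq_cyc_of_mem hc hx]
  exact mem_cyc.2 ⟨hE _ h1, ⟨1, by simp⟩⟩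

lemma pos_of_cycs (hc : c ∈ cycs N.E σ) : 0 < c.card := by
  obtain ⟨x, hx, rfl⟩ := mem_cycs.1 hc
  exact card_pos.2 ⟨x, self_mem_cyc hx⟩

lemma three_le (hE : ∀ x ∈ N.E, σ x ∈ N.E) (hc : c ∈ cycs N.E σ) (hx : x ∈ c) (h1 : σ x ≠ x)
    (h2 : σ (σ x) ≠ x) : 3 ≤ c.card := by
  have e1 := app_of_cycs hE hc hx
  have e2 := app_of_cycs hE hc e1
  have h3 : ({x, σ x, σ (σ x)} : Finset α) ⊆ c := by
    intro z hz
    rw [mem_insert, mem_insert, mem_singleton] at hz
    rcases hz with rfl | rfl | rfl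
    · exact hx
    · exact e1
    · exact e2
  have h4 : ({x, σ x, σ (σ x)} : Finset α).card = 3 :=
    card3 (Ne.symm h1) (Ne.symm h2) fun h => h1 (σ.injective h.symm)
  rw [← h4]; exact card_le_card h3

/-- a cycle whose points are two-coloured alternately has even length -/
lemma even_of (s : α → Bool) (hE : ∀ x ∈ c, σ x ∈ c) (hs : ∀ x ∈ c, s x ≠ s (σ x)) : Even c.card := by
  have h1 : ∀ e : Bool, (c.filter fun x => s x = e).card ≤ (c.filter fun x => s x = !e).card := by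
    intro e
    refine card_le_card_of_injOn σ ?_ (σ.injective.injOn)
    intro x hx
    rw [mem_coe, mem_filter] at hx ⊢
    refine ⟨hE x hx.1, ?_⟩
    have h2 := hs x hx.1
    rw [hx.2] at h2
    cases e <;> cases h3 : s (σ x) <;> simp_all
  have h2 := h1 true
  have h3 := h1 false
  simp only [Bool.not_true, Bool.not_false] at h2 h3
  have h4 : c.card = (c.filter fun x => s x = true).card + (c.filter fun x => s x = false).card := by
    rw [← card_filter_add_card_filter_not (s := c) (fun x => s x = true)]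
    congr 2
    ext x
    simp
  rw [h4, le_antisymm h2 h3]
  exact ⟨_, rfl⟩

/-- **Faces.** -/
lemma face_le (s : V → Bool) (hE : ∀ x ∈ N.E, σ x ∈ N.E)
    (hs : ∀ x ∈ N.T, σ x ∈ N.T → s (N.lab x) ≠ s (N.lab (σ x)))
    (hi : σ N.i ≠ N.i) (hii : σ (σ N.i) ≠ N.i) (ho : σ N.o ≠ N.o) (hoo : σ (σ N.o) ≠ N.o)
    (hc : c ∈ cycs N.E σ) : (4 : ℤ) - c.card ≤ ∑ x ∈ c, (N.dg σ x + N.mrk x) := by
  have hnn : ∀ x ∈ c, 0 ≤ N.dg σ x + N.mrk x := fun x _ => add_nonneg (dg_nonneg _ _) (mrk_nonneg _)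
  by_cases h1 : N.i ∈ c
  · have h2 := three_le hE hc h1 hi hii
    have h3 := single_le_sum hnn h1
    rw [mrk_i] at h3
    have h4 := dg_nonneg (N := N) σ N.i
    omega
  by_cases h2 : N.o ∈ c
  · have h3 := three_le hE hc h2 ho hoo
    have h4 := single_le_sum hnn h2
    rw [mrk_o] at h4
    have h5 := dg_nonneg (N := N) σ N.o
    omega
  have hT : ∀ x ∈ c, x ∈ N.T := fun x hx =>
    mem_T.2 ⟨fun h => h2 (h ▸ hx), fun h => h1 (h ▸ hx), sub_of_cycs hc hx⟩
  have hap := fun x hx => app_of_cycs hE hc (x := x) hx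
  obtain ⟨k, hk⟩ := even_of (c := c) (fun x => s (N.lab x)) hap
    fun x hx => hs x (hT x hx) (hT _ (hap x hx))
  have hpos := pos_of_cycs hc
  rcases Nat.lt_or_ge k 2 with h3 | h3
  · have h4 : c.card = 2 := by omega
    have h5 : ∀ x ∈ c, (1 : ℤ) ≤ N.dg σ x + N.mrk x := by
      intro x hx
      have e1 := hap x hx
      have e2 := hap _ e1
      have e3 : σ x ≠ x := fun h => hs x (hT x hx) (hT _ e1) (by rw [h])
      have e4 : N.Dg σ x := by
        refine ⟨hT x hx, hT _ e1, ?_⟩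
        by_contra h6
        have := three_le hE hc hx e3 h6
        omega
      rw [dg_one e4]
      have := mrk_nonneg (N := N) x
      omega
    have h6 := sum_le_sum h5
    rw [sum_const, h4] at h6
    rw [h4]
    simpa using h6
  · have h4 := sum_nonneg hnn
    omega

end cycles

/-! ### Plates -/

section plates

lemma pi_apply (x : α) : N.pi x = N.b (N.w⁻¹ x) := rfl

lemma pi_w (x : α) : N.pi (N.w x) = N.b x := by rw [pi_apply, pinv_self]

lemma pi_i : N.pi N.i = N.i := by rw [pi_apply, ← N.mi, self_pinv]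

lemma pi_o : N.pi N.o = N.o := by rw [pi_apply, ← N.mo, self_pinv]

lemma pi_T {x : α} (h : x ∈ N.T) : N.pi x ∈ N.T := by
  obtain ⟨h1, h2, h3⟩ := mem_T.1 h
  refine mem_T.2 ⟨fun h4 => h1 ?_, fun h4 => h2 ?_, pi_mem h3⟩
  · exact N.pi.injective (h4.trans pi_o.symm)
  · exact N.pi.injective (h4.trans pi_i.symm)

/-- the two digons at a head are not both digons -/
lemma adj (r4 : ∀ x, N.Dg N.b x → ¬ N.Dg N.w x) {y : α} (h1 : N.Dg N.b (N.pi y)) : ¬ N.Dg N.w y := by
  rintro ⟨h2, h3, h4⟩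
  obtain ⟨h5, h6, h7⟩ := h1
  have e1 : N.w⁻¹ y = N.w y := by rw [Perm.inv_eq_iff_eq, h4]
  rw [pi_apply, e1] at h5 h6 h7
  have e2 : N.b (N.b (N.w y)) = N.w y := N.b.injective h7
  exact r4 (N.w y) ⟨h3, h5, e2⟩ ⟨h3, by rw [h4]; exact h2, by rw [h4]⟩

lemma Dg.next {σ : Perm α} {x : α} (h : N.Dg σ x) : N.Dg σ (σ x) := by
  obtain ⟨h1, h2, h3⟩ := h
  exact ⟨h2, by rw [h3]; exact h1, by rw [h3]⟩

lemma Dg.prev {σ : Perm α} {x : α} (hx : x ∈ N.T) (h : N.Dg σ (σ x)) : N.Dg σ x := by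
  obtain ⟨h1, h2, h3⟩ := h
  exact ⟨hx, h1, σ.injective h3⟩

lemma sum_pi (g : α → ℤ) {c : Finset α} (hc : c ∈ cycs N.E N.pi) :
    ∑ x ∈ c, g (N.pi x) = ∑ x ∈ c, g x := by
  refine sum_bij (fun x _ => N.pi x) (fun x hx => app_of_cycs (fun _ h => pi_mem h) hc hx)
    (fun x _ y _ h => N.pi.injective h) (fun y hy => ?_) fun _ _ => rfl
  have hyE := sub_of_cycs hc hy
  refine ⟨N.pi⁻¹ y, ?_, self_pinv _ _⟩
  rw [eq_cyc_of_mem hc hy]
  refine mem_cyc.2 ⟨?_, ⟨-1, by simp⟩⟩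
  have : N.pi⁻¹ y = N.w (N.b⁻¹ y) := by
    rw [Perm.inv_eq_iff_eq, pi_w, self_pinv]
  rw [this]
  exact w_mem (b_inv_mem hyE)

variable (h : N.Irred) {c : Finset α}

include h

lemma Irred.two (x : α) : N.dg N.b x + N.dg N.w x ≤ 1 := by
  by_cases h1 : N.Dg N.b x
  · rw [dg_zero (h.r4 x h1)]; have := dg_le (N := N) N.b x; omega
  · rw [dg_zero h1]; have := dg_le (N := N) N.w x; omega

lemma Irred.two' (x : α) : N.dg N.b (N.pi x) + N.dg N.w x ≤ 1 := by
  by_cases h1 : N.Dg N.b (N.pi x)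
  · rw [dg_zero (adj h.r4 h1)]; have := dg_le (N := N) N.b (N.pi x); omega
  · rw [dg_zero h1]; have := dg_le (N := N) N.w x; omega

lemma Irred.card_two_le (hc : c ∈ cycs N.E N.pi) {x : α} (hx : x ∈ c) (hxT : x ∈ N.T) :
    2 ≤ c.card := by
  have h1 := app_of_cycs (fun _ h => pi_mem h) hc hx
  have h2 : ({x, N.pi x} : Finset α).card = 2 := card_pair fun h3 => h.r1 x hxT h3.symm
  rw [← h2]
  refine card_le_card fun z hz => ?_
  rw [mem_insert, mem_singleton] at hz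
  rcases hz with rfl | rfl
  · exact hx
  · exact h1

lemma Irred.no_three (hc : c ∈ cycs N.E N.pi) (hT : ∀ x ∈ c, x ∈ N.T) (h3 : c.card = 3) :
    ∑ x ∈ c, (N.dg N.b x + N.dg N.w x) ≤ 2 := by
  by_contra hcon
  have hge : ∀ x ∈ c, N.dg N.b x + N.dg N.w x = 1 := by
    have e1 : ∑ x ∈ c, (N.dg N.b x + N.dg N.w x) ≤ ∑ x ∈ c, (1 : ℤ) := sum_le_sum fun x _ => h.two x
    have e2 : ∑ x ∈ c, (1 : ℤ) = 3 := by rw [sum_const, h3]; norm_num
    exact (sum_eq_sum_iff_of_le fun x _ => h.two x).1 (by omega)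
  have hap := fun x hx => app_of_cycs (fun _ h => pi_mem h) hc (x := x) hx
  obtain ⟨x, hx⟩ : c.Nonempty := card_pos.1 (by omega)
  have hx1 := hap _ hx
  have hx2 := hap _ hx1
  have hp3 : N.pi (N.pi (N.pi x)) = x := by
    by_contra h4
    have h5 : N.pi (N.pi x) ≠ x := by
      intro h6
      have h7 := eq_cyc_of_mem hc hx
      rw [cyc_two (mem_T.1 (hT x hx)).2.2 (mem_T.1 (hT _ hx1)).2.2 h6] at h7
      have := card_le_two (a := x) (b := N.pi x)
      rw [← h7] at this; omega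
    have h6 : ({x, N.pi x, N.pi (N.pi x)} : Finset α) = c := by
      refine eq_of_subset_of_card_le ?_ ?_
      · intro z hz
        rw [mem_insert, mem_insert, mem_singleton] at hz
        rcases hz with rfl | rfl | rfl
        · exact hx
        · exact hx1
        · exact hx2
      · rw [h3, card3 (Ne.symm (h.r1 x (hT x hx))) (Ne.symm h5)
          (fun h6 => h.r1 x (hT x hx) (N.pi.injective h6).symm)]
    have h7 := hap _ hx2
    rw [← h6, mem_insert, mem_insert, mem_singleton] at h7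
    rcases h7 with h7 | h7 | h7
    · exact h4 h7
    · exact h5 (N.pi.injective h7)
    · exact h.r1 x (hT x hx) (N.pi.injective (N.pi.injective h7))
  by_cases hb : N.Dg N.b x
  · -- all in b
    have k2 : N.Dg N.b (N.pi (N.pi x)) := by
      by_contra h4
      have e1 := hge _ hx2
      rw [dg_zero h4] at e1
      have e2 : N.Dg N.w (N.pi (N.pi x)) := by
        by_contra h5; rw [dg_zero h5] at e1; omega
      exact adj h.r4 (y := N.pi (N.pi x)) (by rw [hp3]; exact hb) e2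
    have k1 : N.Dg N.b (N.pi x) := by
      by_contra h4
      have e1 := hge _ hx1
      rw [dg_zero h4] at e1
      have e2 : N.Dg N.w (N.pi x) := by
        by_contra h5; rw [dg_zero h5] at e1; omega
      exact adj h.r4 (y := N.pi x) k2 e2
    exact h.starb x hb k1 k2 hp3
  · have hw : ∀ y ∈ c, N.Dg N.w y → N.Dg N.w (N.pi y) := by
      intro y hy h4
      have e1 := hge _ (hap _ hy)
      have e3 : ¬ N.Dg N.b (N.pi y) := fun h5 => adj h.r4 h5 h4
      rw [dg_zero e3] at e1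
      by_contra h5; rw [dg_zero h5] at e1; omega
    have k0 : N.Dg N.w x := by
      have e1 := hge _ hx
      rw [dg_zero hb] at e1
      by_contra h5; rw [dg_zero h5] at e1; omega
    exact h.starw x k0 (hw _ hx k0) (hw _ hx1 (hw _ hx k0)) hp3

/-- **Plates.** -/
lemma Irred.plate_le (hc : c ∈ cycs N.E N.pi) :
    ∑ x ∈ c, (N.dg N.b x + N.dg N.w x - 2 * N.mrk x) ≤ 2 * (c.card : ℤ) - 4 := by
  have hmark : ∀ z, z ∈ c → N.pi z = z → N.mrk z = 1 → z ∉ N.T →
      ∑ x ∈ c, (N.dg N.b x + N.dg N.w x - 2 * N.mrk x) ≤ 2 * (c.card : ℤ) - 4 := by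
    intro z hz h1 h2 h3
    have h4 := eq_cyc_of_mem hc hz
    rw [cyc_one (sub_of_cycs hc hz) h1] at h4
    rw [h4, sum_singleton, card_singleton, h2, dg_zero (fun h5 => h3 h5.1), dg_zero (fun h5 => h3 h5.1)]
    norm_num
  by_cases h1 : N.i ∈ c
  · exact hmark _ h1 pi_i mrk_i fun h2 => (mem_T.1 h2).2.1 rfl
  by_cases h2 : N.o ∈ c
  · exact hmark _ h2 pi_o mrk_o fun h2 => (mem_T.1 h2).1 rfl
  have hT : ∀ x ∈ c, x ∈ N.T := fun x hx =>
    mem_T.2 ⟨fun h => h2 (h ▸ hx), fun h => h1 (h ▸ hx), sub_of_cycs hc hx⟩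
  have h3 : ∑ x ∈ c, (N.dg N.b x + N.dg N.w x - 2 * N.mrk x) = ∑ x ∈ c, (N.dg N.b x + N.dg N.w x) :=
    sum_congr rfl fun x hx => by rw [mrk_T (hT x hx)]; ring
  rw [h3]
  have hle : ∑ x ∈ c, (N.dg N.b x + N.dg N.w x) ≤ c.card := by
    have := sum_le_sum fun x (_ : x ∈ c) => h.two x
    rwa [sum_const, nsmul_eq_mul, mul_one] at this
  obtain ⟨x, hx⟩ : c.Nonempty := card_pos.1 (pos_of_cycs hc)
  have h4 := h.card_two_le hc hx (hT x hx)
  rcases (show c.card = 2 ∨ c.card = 3 ∨ 4 ≤ c.card by omega) with h5 | h5 | h5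
  · have h6 : ∀ y ∈ c, N.dg N.b y + N.dg N.w y = 0 := by
      intro y hy
      have e1 : N.pi (N.pi y) = y := by
        by_contra h7
        have := three_le (fun _ h => pi_mem h) hc hy (h.r1 y (hT y hy)) h7
        omega
      rw [dg_zero (fun h7 => h.r3b y h7 e1), dg_zero (fun h7 => h.r3w y h7 e1)]
      norm_num
    rw [sum_eq_zero h6, h5]; norm_num
  · have := h.no_three hc hT h5
    rw [h5]; push_cast; linarith
  · omega

end plates

end Net
end Pool.Agent.ZF
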