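import Mathlib
import Pool.Agent.ZF.CountA

set_option autoImplicit false
set_option linter.unusedSectionVars false
open Finset Equiv

/-! # Counting, part two

`Irred.flat` : in an irreducible network without star everything is flat. `Irred.count` : the two faces at
the mark `i` have length three and one of four flat configurations occurs there. -/

namespace Pool.Agent.ZF
namespace Net

variable {α V : Type*} [DecidableEq α] [DecidableEq V] {N : Net α V}

/-! ### The double counting -/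

lemma sum_card (σ : Perm α) : ∑ c ∈ cycs N.E σ, (c.card : ℤ) = N.E.card := by
  have h1 := sum_cycs (E := N.E) (σ := σ) (fun _ => (1 : ℤ))
  simpa using h1

lemma sum_mrk : ∑ x ∈ N.E, N.mrk x = 2 := by
  have h1 : ∑ x ∈ N.E, N.mrk x = ∑ x ∈ ({N.i, N.o} : Finset α), N.mrk x := by
    symm
    refine sum_subset ?_ ?_
    · intro z hz
      rw [mem_insert, mem_singleton] at hz
      rcases hz with rfl | rfl
      · exact N.hi
      · exact N.ho
    · intro z _ hz
      rw [mem_insert, mem_singleton] at hz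
      unfold mrk; rw [if_neg hz]
  rw [h1, sum_pair N.hio, mrk_i, mrk_o]; norm_num

variable (h : N.Irred)

include h

lemma Irred.ib : N.b N.i ≠ N.i := fun h1 => h.ibb (by rw [h1, h1])

lemma Irred.iw : N.w N.i ≠ N.i := fun h1 => h.iww (by rw [h1, h1])

lemma Irred.ob : N.b N.o ≠ N.o := fun h1 => h.obb (by rw [h1, h1])

lemma Irred.ow : N.w N.o ≠ N.o := fun h1 => h.oww (by rw [h1, h1])

/-- in an irreducible network without star everything is flat -/
theorem Irred.flat :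
    (∀ c ∈ cycs N.E N.b, (4 : ℤ) - c.card = ∑ x ∈ c, (N.dg N.b x + N.mrk x)) ∧
    (∀ c ∈ cycs N.E N.w, (4 : ℤ) - c.card = ∑ x ∈ c, (N.dg N.w x + N.mrk x)) ∧
    (∀ c ∈ cycs N.E N.pi, ∑ x ∈ c, (N.dg N.b x + N.dg N.w x - 2 * N.mrk x) =
      2 * (c.card : ℤ) - 4) := by
  obtain ⟨s, hs⟩ := h.col
  have hwT : ∀ x, N.w x ∈ N.T → N.b x ∈ N.T := by
    intro x hx
    obtain ⟨h1, h2, h3⟩ := mem_T.1 hx
    refine mem_T.2 ⟨fun h4 => h1 (head_o' h4), fun h4 => h2 (head_i' h4), ?_⟩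
    exact N.b_mem_iff.2 (N.w_mem_iff.1 h3)
  have kb : ∀ c ∈ cycs N.E N.b, (4 : ℤ) - c.card ≤ ∑ x ∈ c, (N.dg N.b x + N.mrk x) := fun c hc =>
    face_le s (fun _ hx => b_mem hx) hs h.ib h.ibb h.ob h.obb hc
  have kw : ∀ c ∈ cycs N.E N.w, (4 : ℤ) - c.card ≤ ∑ x ∈ c, (N.dg N.w x + N.mrk x) := fun c hc =>
    face_le s (fun _ hx => w_mem hx) (fun x hx hx' => by
      rw [← N.hlab]; exact hs x hx (hwT x hx')) h.iw h.iww h.ow h.oww hc
  have kp : ∀ c ∈ cycs N.E N.pi, ∑ x ∈ c, (N.dg N.b x + N.dg N.w x - 2 * N.mrk x) ≤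
      2 * (c.card : ℤ) - 4 := fun c hc => h.plate_le hc
  have sb := sum_le_sum kb
  have sw := sum_le_sum kw
  have sp := sum_le_sum kp
  have e := h.pl.euler
  have t1 : ∑ c ∈ cycs N.E N.b, ((4 : ℤ) - c.card) = 4 * (cycs N.E N.b).card - N.E.card := by
    rw [sum_sub_distrib, sum_card, sum_const, nsmul_eq_mul]; ring
  have t2 : ∑ c ∈ cycs N.E N.w, ((4 : ℤ) - c.card) = 4 * (cycs N.E N.w).card - N.E.card := by
    rw [sum_sub_distrib, sum_card, sum_const, nsmul_eq_mul]; ring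
  have t3 : ∑ c ∈ cycs N.E N.pi, (2 * (c.card : ℤ) - 4) = 2 * N.E.card - 4 * (cycs N.E N.pi).card := by
    rw [sum_sub_distrib, ← mul_sum, sum_card, sum_const, nsmul_eq_mul]; ring
  have u1 : ∑ c ∈ cycs N.E N.b, ∑ x ∈ c, (N.dg N.b x + N.mrk x) = ∑ x ∈ N.E, N.dg N.b x + 2 := by
    rw [sum_cycs, sum_add_distrib, sum_mrk]
  have u2 : ∑ c ∈ cycs N.E N.w, ∑ x ∈ c, (N.dg N.w x + N.mrk x) = ∑ x ∈ N.E, N.dg N.w x + 2 := by
    rw [sum_cycs, sum_add_distrib, sum_mrk]
  have u3 : ∑ c ∈ cycs N.E N.pi, ∑ x ∈ c, (N.dg N.b x + N.dg N.w x - 2 * N.mrk x) =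
      ∑ x ∈ N.E, N.dg N.b x + ∑ x ∈ N.E, N.dg N.w x - 4 := by
    rw [sum_cycs, sum_sub_distrib, sum_add_distrib, ← mul_sum, sum_mrk]; norm_num
  have e' : ((cycs N.E N.b).card : ℤ) + (cycs N.E N.w).card + (cycs N.E N.pi).card = N.E.card + 2 := by
    exact_mod_cast e
  rw [t1, u1] at sb
  rw [t2, u2] at sw
  rw [t3, u3] at sp
  refine ⟨(sum_eq_sum_iff_of_le kb).1 ?_, (sum_eq_sum_iff_of_le kw).1 ?_,
    (sum_eq_sum_iff_of_le kp).1 ?_⟩
  · rw [t1, u1]; linarith
  · rw [t2, u2]; linarith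
  · rw [t3, u3]; linarith

/-- the face at the mark `i` has length three -/
lemma Irred.face3 {σ : Perm α} (hE : ∀ x ∈ N.E, σ x ∈ N.E) (h1 : σ N.i ≠ N.i)
    (h2 : σ (σ N.i) ≠ N.i)
    (hf : ∀ c ∈ cycs N.E σ, (4 : ℤ) - c.card = ∑ x ∈ c, (N.dg σ x + N.mrk x)) :
    σ N.i ∈ N.T ∧ σ (σ N.i) ∈ N.T ∧ σ (σ (σ N.i)) = N.i := by
  have hc : cyc N.E σ N.i ∈ cycs N.E σ := cyc_mem_cycs N.hi
  have hm : N.i ∈ cyc N.E σ N.i := self_mem_cyc N.hi
  have k1 := three_le hE hc hm h1 h2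
  have k2 := hf _ hc
  have hnn : ∀ x ∈ cyc N.E σ N.i, 0 ≤ N.dg σ x + N.mrk x := fun x _ =>
    add_nonneg (dg_nonneg _ _) (mrk_nonneg _)
  have e1 := app_of_cycs hE hc hm
  have e2 := app_of_cycs hE hc e1
  have e3 := app_of_cycs hE hc e2
  have ho : N.o ∉ cyc N.E σ N.i := by
    intro ho
    have k3 : ∑ x ∈ ({N.i, N.o} : Finset α), (N.dg σ x + N.mrk x) ≤
        ∑ x ∈ cyc N.E σ N.i, (N.dg σ x + N.mrk x) := by
      refine sum_le_sum_of_subset_of_nonneg ?_ fun x hx _ => hnn x hx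
      intro z hz
      rw [mem_insert, mem_singleton] at hz
      rcases hz with rfl | rfl
      · exact hm
      · exact ho
    rw [sum_pair N.hio, mrk_i, mrk_o] at k3
    have := dg_nonneg (N := N) σ N.i
    have := dg_nonneg (N := N) σ N.o
    omega
  have k3 := single_le_sum hnn hm
  rw [mrk_i] at k3
  have := dg_nonneg (N := N) σ N.i
  have k4 : (cyc N.E σ N.i).card = 3 := by omega
  have k5 : ({N.i, σ N.i, σ (σ N.i)} : Finset α) = cyc N.E σ N.i := by
    refine eq_of_subset_of_card_le ?_ ?_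
    · intro z hz
      rw [mem_insert, mem_insert, mem_singleton] at hz
      rcases hz with rfl | rfl | rfl
      · exact hm
      · exact e1
      · exact e2
    · rw [k4, card3 (Ne.symm h1) (Ne.symm h2) fun h6 => h1 (σ.injective h6).symm]
  refine ⟨mem_T.2 ⟨fun h6 => ho (h6 ▸ e1), h1, (mem_cyc.1 e1).1⟩,
    mem_T.2 ⟨fun h6 => ho (h6 ▸ e2), h2, (mem_cyc.1 e2).1⟩, ?_⟩
  rw [← k5, mem_insert, mem_insert, mem_singleton] at e3
  rcases e3 with e3 | e3 | e3
  · exact e3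
  · exact absurd (σ.injective e3) h2
  · exact absurd (σ.injective (σ.injective e3)) h1

/-- a plate with less digons than tails has size two or three -/
lemma Irred.plate_of (hf : ∀ c ∈ cycs N.E N.pi, ∑ x ∈ c, (N.dg N.b x + N.dg N.w x - 2 * N.mrk x) =
      2 * (c.card : ℤ) - 4) {z : α} (hz : z ∈ N.T)
    (hb : ∑ x ∈ cyc N.E N.pi z, (N.dg N.b x + N.dg N.w x) + 1 ≤ (cyc N.E N.pi z).card) :
    N.pi (N.pi z) = z ∨ (N.pi (N.pi (N.pi z)) = z ∧ N.pi (N.pi z) ≠ z ∧
      N.dg N.b z + N.dg N.w z + (N.dg N.b (N.pi z) + N.dg N.w (N.pi z) +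
        (N.dg N.b (N.pi (N.pi z)) + N.dg N.w (N.pi (N.pi z)))) = 2) := by
  have hzE := (mem_T.1 hz).2.2
  have hc : cyc N.E N.pi z ∈ cycs N.E N.pi := cyc_mem_cycs hzE
  have hm : z ∈ cyc N.E N.pi z := self_mem_cyc hzE
  have hap := fun x hx => app_of_cycs (fun _ h => pi_mem h) hc (x := x) hx
  have hT : ∀ x ∈ cyc N.E N.pi z, x ∈ N.T := by
    intro x hx
    have h4 : N.pi.SameCycle x z := (mem_cyc.1 hx).2.symm
    refine mem_T.2 ⟨fun h5 => ?_, fun h5 => ?_, (mem_cyc.1 hx).1⟩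
    · rw [h5, sameCycle_one pi_o] at h4
      exact (mem_T.1 hz).1 h4
    · rw [h5, sameCycle_one pi_i] at h4
      exact (mem_T.1 hz).2.1 h4
  have k1 := hf _ hc
  have k2 : ∑ x ∈ cyc N.E N.pi z, (N.dg N.b x + N.dg N.w x - 2 * N.mrk x) =
      ∑ x ∈ cyc N.E N.pi z, (N.dg N.b x + N.dg N.w x) :=
    sum_congr rfl fun x hx => by rw [mrk_T (hT x hx)]; ring
  rw [k2] at k1
  have k5 := h.card_two_le hc hm hz
  rcases (show (cyc N.E N.pi z).card = 2 ∨ (cyc N.E N.pi z).card = 3 by omega) with k6 | k6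
  · left
    by_contra h7
    have := three_le (fun _ h => pi_mem h) hc hm (h.r1 z hz) h7
    omega
  · right
    have k7 : N.pi (N.pi z) ≠ z := by
      intro h7
      have h8 := cyc_two hzE (mem_T.1 (hT _ (hap _ hm))).2.2 h7
      have := card_le_two (a := z) (b := N.pi z)
      rw [← h8] at this; omega
    have k8 : ({z, N.pi z, N.pi (N.pi z)} : Finset α) = cyc N.E N.pi z := by
      refine eq_of_subset_of_card_le ?_ ?_
      · intro t ht
        rw [mem_insert, mem_insert, mem_singleton] at ht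
        rcases ht with rfl | rfl | rfl
        · exact hm
        · exact hap _ hm
        · exact hap _ (hap _ hm)
      · rw [k6, card3 (Ne.symm (h.r1 z hz)) (Ne.symm k7)
          (fun h6 => h.r1 z hz (N.pi.injective h6).symm)]
    have k9 : N.pi (N.pi (N.pi z)) = z := by
      have h7 := hap _ (hap _ (hap _ hm))
      rw [← k8, mem_insert, mem_insert, mem_singleton] at h7
      rcases h7 with h7 | h7 | h7
      · exact h7
      · exact absurd (N.pi.injective h7) k7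
      · exact absurd (N.pi.injective (N.pi.injective h7)) (h.r1 z hz)
    refine ⟨k9, k7, ?_⟩
    rw [← k8, sum_insert, sum_pair (fun h6 => h.r1 z hz (N.pi.injective h6).symm),
      card3 (Ne.symm (h.r1 z hz)) (Ne.symm k7)
      (fun h6 => h.r1 z hz (N.pi.injective h6).symm)] at k1
    · push_cast at k1; linarith
    · rw [mem_insert, mem_singleton, not_or]
      exact ⟨Ne.symm (h.r1 z hz), Ne.symm k7⟩

/-- the plate of a tail `z` at which neither `z` (black) nor `pi z` (white) is a digon -/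
lemma Irred.plate_small (hf : ∀ c ∈ cycs N.E N.pi, ∑ x ∈ c, (N.dg N.b x + N.dg N.w x - 2 * N.mrk x) =
      2 * (c.card : ℤ) - 4) {z : α} (hz : z ∈ N.T) (h1 : ¬ N.Dg N.w z) (h2 : ¬ N.Dg N.b (N.pi z)) :
    (N.pi (N.pi z) = z ∧ N.dg N.b z = 0) ∨ (N.pi (N.pi (N.pi z)) = z ∧ N.pi (N.pi z) ≠ z ∧
      N.dg N.b z + N.dg N.w (N.pi z) + N.dg N.b (N.pi (N.pi z)) + N.dg N.w (N.pi (N.pi z)) = 2) := by
  have hzE := (mem_T.1 hz).2.2
  have hc : cyc N.E N.pi z ∈ cycs N.E N.pi := cyc_mem_cycs hzE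
  have hm : z ∈ cyc N.E N.pi z := self_mem_cyc hzE
  rcases h.plate_of hf hz (by
    rw [sum_add_distrib, ← sum_pi (N.dg N.b) hc, ← sum_add_distrib, ← add_sum_erase _ _ hm, dg_zero h1,
      dg_zero h2]
    have k4 := sum_le_sum fun x (_ : x ∈ (cyc N.E N.pi z).erase z) => h.two' x
    rw [sum_const, card_erase_of_mem hm, nsmul_eq_mul, mul_one] at k4
    have := pos_of_cycs hc
    omega) with k | ⟨k1, k2, k3⟩
  · exact Or.inl ⟨k, dg_zero fun h8 => h.r3b z h8 k⟩
  · refine Or.inr ⟨k1, k2, ?_⟩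
    rw [dg_zero h1, dg_zero h2] at k3
    linarith

/-- the plate of a tail `z` which is in no digon -/
lemma Irred.plate_tail (hf : ∀ c ∈ cycs N.E N.pi, ∑ x ∈ c, (N.dg N.b x + N.dg N.w x - 2 * N.mrk x) =
      2 * (c.card : ℤ) - 4) {z : α} (hz : z ∈ N.T) (h1 : ¬ N.Dg N.w z) (h2 : ¬ N.Dg N.b z) :
    N.pi (N.pi z) = z ∨ (N.pi (N.pi (N.pi z)) = z ∧ N.pi (N.pi z) ≠ z ∧
      N.dg N.b (N.pi z) + N.dg N.w (N.pi z) + N.dg N.b (N.pi (N.pi z)) +
        N.dg N.w (N.pi (N.pi z)) = 2) := by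
  have hzE := (mem_T.1 hz).2.2
  have hc : cyc N.E N.pi z ∈ cycs N.E N.pi := cyc_mem_cycs hzE
  have hm : z ∈ cyc N.E N.pi z := self_mem_cyc hzE
  rcases h.plate_of hf hz (by
    rw [← add_sum_erase _ _ hm, dg_zero h1, dg_zero h2]
    have k4 := sum_le_sum fun x (_ : x ∈ (cyc N.E N.pi z).erase z) => h.two x
    rw [sum_const, card_erase_of_mem hm, nsmul_eq_mul, mul_one] at k4
    have := pos_of_cycs hc
    omega) with k | ⟨k1, k2, k3⟩
  · exact Or.inl k
  · refine Or.inr ⟨k1, k2, ?_⟩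
    rw [dg_zero h1, dg_zero h2] at k3
    linarith

omit h in
/-- The two faces at the mark `i` have length three: `i, a, d` (white) and `i, c, d` (black). -/
structure Ring (N : Net α V) (a c d : α) : Prop where
  bi : N.b N.i = a
  ba : N.b a = d
  bd : N.b d = N.i
  wi : N.w N.i = c
  wc : N.w c = d
  wd : N.w d = N.i
  aT : a ∈ N.T
  cT : c ∈ N.T
  dT : d ∈ N.T
  ac : a ≠ c
  had : N.lab a ≠ N.lab d
  lc : N.lab c = N.lab a

omit h in
/-- both plates at `i` are tiles -/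
def FlatA (N : Net α V) (a c : α) : Prop := ∃ g e, N.w g = a ∧ N.b g = c ∧ N.w a = e ∧ N.b c = e

omit h in
/-- both plates at `i` have size three, with a white and a black common digon -/
def FlatB (N : Net α V) (a c d : α) : Prop := ∃ g1 g2 f f', g1 ∈ N.T ∧ g2 ∈ N.T ∧
  N.b c = g1 ∧ N.b g1 = c ∧ N.w a = g2 ∧ N.w g2 = a ∧ N.w g1 = f ∧ N.b g2 = f ∧ N.w f' = g1 ∧
  N.b f' = g2 ∧ g1 ≠ g2 ∧ g1 ≠ d ∧ g2 ≠ d

omit h in
/-- the plate at the head of `i` has size three and two black digons -/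
def FlatC (N : Net α V) (a c d : α) : Prop := ∃ g1 g2 f, g1 ∈ N.T ∧ g2 ∈ N.T ∧ f ∈ N.T ∧
  N.w a = g2 ∧ N.w g2 = a ∧ N.b g2 = f ∧ N.w f = g1 ∧ N.w g1 = f ∧ N.b g1 = c ∧
  N.lab g2 = N.lab d ∧ N.lab f = N.lab a ∧ N.lab g1 ≠ N.lab a

omit h in
/-- the plate at the head of `i` has size three and two white digons -/
def FlatD (N : Net α V) (a c d : α) : Prop := ∃ g1 g2 f, g1 ∈ N.T ∧ g2 ∈ N.T ∧ f ∈ N.T ∧
  N.b c = g1 ∧ N.b g1 = c ∧ N.w g1 = f ∧ N.b f = g2 ∧ N.b g2 = f ∧ N.w g2 = a ∧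
  N.lab g1 = N.lab d ∧ N.lab f = N.lab a ∧ N.lab g2 ≠ N.lab a

/-- **Counting.** -/
theorem Irred.count : ∃ a c d, N.Ring a c d ∧
    (N.FlatA a c ∨ N.FlatB a c d ∨ N.FlatC a c d ∨ N.FlatD a c d) := by
  obtain ⟨kb, kw, kp⟩ := h.flat
  obtain ⟨b1, b2, b3⟩ := h.face3 (fun _ hx => b_mem hx) h.ib h.ibb kb
  obtain ⟨w1, w2, w3⟩ := h.face3 (fun _ hx => w_mem hx) h.iw h.iww kw
  obtain ⟨a, ha⟩ : ∃ a, N.b N.i = a := ⟨_, rfl⟩
  obtain ⟨d, hd⟩ : ∃ d, N.b a = d := ⟨_, rfl⟩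
  obtain ⟨c, hc⟩ : ∃ c, N.w N.i = c := ⟨_, rfl⟩
  rw [ha] at b1 b2 b3
  rw [hd] at b2 b3
  rw [hc] at w1 w2 w3
  have hwd : N.w d = N.i := by
    have e1 : N.b⁻¹ N.i = d := by rw [← b3, pinv_self]
    have e2 := N.mi
    rw [e1] at e2
    rw [e2, self_pinv]
  have hwc : N.w c = d := N.w.injective (w3.trans hwd.symm)
  obtain ⟨s, hs⟩ := h.col
  have had : N.lab a ≠ N.lab d := by
    have := hs a b1 (by rw [hd]; exact b2)
    rw [hd] at this
    exact fun h1 => this (by rw [h1])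
  have lc : N.lab c = N.lab a := by rw [← hc, ← N.hlab, ha]
  have pca : N.pi c = a := by rw [← hc, pi_w, ha]
  have hac : a ≠ c := fun h1 => h.r1 c w1 (by rw [pca, h1])
  have hcd : c ≠ d := fun h1 => had (by rw [← lc, h1])
  have hadn : a ≠ d := fun h1 => had (by rw [h1])
  have hR : N.Ring a c d := ⟨ha, hd, b3, hc, hwc, hwd, b1, w1, b2, hac, had, lc⟩
  refine ⟨a, c, d, hR, ?_⟩
  -- no digons at the special faces
  have na : ¬ N.Dg N.b a := fun h1 => (mem_T.1 b1).2.1 (by rw [← h1.2.2, hd, b3])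
  have nc : ¬ N.Dg N.w c := fun h1 => (mem_T.1 w1).2.1 (by rw [← h1.2.2, hwc, hwd])
  have ndb : ¬ N.Dg N.b d := fun h1 => hadn (by rw [← h1.2.2, b3, ha])
  have ndw : ¬ N.Dg N.w d := fun h1 => hcd (by rw [← h1.2.2, hwd, hc])
  have pu := h.plate_small kp w1 nc (by rw [pca]; exact na)
  rw [pca] at pu
  -- the plate `v`, tails `d`, `b c`, `w a`
  have pd : N.pi d = N.b c := by rw [← hwc, pi_w]
  have pwa : N.pi (N.w a) = d := by rw [pi_w, hd]
  have dgc : ∀ {x}, x ∈ N.T → N.dg N.b (N.b x) ≤ N.dg N.b x := by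
    intro x hx
    by_cases h1 : N.Dg N.b (N.b x)
    · rw [dg_one h1, dg_one (h1.prev hx)]
    · rw [dg_zero h1]; exact dg_nonneg _ _
  have dgw : ∀ {x}, x ∈ N.T → N.dg N.w (N.w x) ≤ N.dg N.w x := by
    intro x hx
    by_cases h1 : N.Dg N.w (N.w x)
    · rw [dg_one h1, dg_one (h1.prev hx)]
    · rw [dg_zero h1]; exact dg_nonneg _ _
  have dg01 : ∀ (σ : Perm α) x, N.dg σ x = 0 ∨ N.dg σ x = 1 := by
    intro σ x; unfold dg; split_ifs
    · exact Or.inr rfl
    · exact Or.inl rfl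
  have ofone : ∀ {σ : Perm α} {x}, N.dg σ x = 1 → N.Dg σ x := by
    intro σ x h1; by_contra h2; rw [dg_zero h2] at h1; omega
  rcases pu with ⟨q1, q2⟩ | ⟨q1, q2, q3⟩
  · -- `u` is a tile
    left
    have hpa : N.pi a = c := q1
    have nwa : N.dg N.w a = 0 := by
      rcases dg01 N.w a with h1 | h1
      · exact h1
      · exact absurd (show N.pi (N.pi a) = a by rw [hpa, pca]) (h.r3w a (ofone h1))
    obtain ⟨g, hg⟩ : ∃ g, N.w⁻¹ a = g := ⟨_, rfl⟩
    have g1 : N.w g = a := by rw [← hg, self_pinv]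
    have g2 : N.b g = c := by rw [← hpa, pi_apply, hg]
    -- `v` is a tile
    have hv : N.pi (N.pi d) = d := by
      by_contra hne
      have hdE := (mem_T.1 b2).2.2
      -- apply `plate_small` at `w a`
      have hwaT : N.w a ∈ N.T := by
        have h3 := pi_T (N := N) b1
        by_contra h4
        have h5 := mark_head (mem_T.1 b1).2.2 h4
        rw [hd] at h5
        exact h4 (h5.1 ▸ b2)
      have n1 : ¬ N.Dg N.w (N.w a) := by
        intro h3
        have := dgw b1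
        rw [dg_one h3, nwa] at this; omega
      rcases h.plate_small kp hwaT n1 (by rw [pwa]; exact ndb) with ⟨h3, -⟩ | ⟨h3, h4, h5⟩
      · rw [pwa] at h3; exact hne (by rw [h3, pwa])
      · rw [pwa, pd] at h3 h5
        have h6 : N.dg N.b (N.b c) = 0 := by
          have e1 := dgc w1
          rw [q2] at e1
          have := dg_nonneg (N := N) N.b (N.b c); omega
        have h7 : N.dg N.w d = 0 := dg_zero ndw
        have h8 := h.two' (N.b c)
        rw [h3] at h8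
        omega
    refine ⟨g, N.w a, g1, g2, rfl, ?_⟩
    rw [← pd]
    exact N.pi.injective (hv.trans pwa.symm)
  · right
    obtain ⟨f, hf⟩ : ∃ f, N.pi a = f := ⟨_, rfl⟩
    rw [hf] at q1 q2 q3
    have hfT : f ∈ N.T := by rw [← hf]; exact pi_T b1
    obtain ⟨g1, hg1⟩ : ∃ g, N.b⁻¹ c = g := ⟨_, rfl⟩
    obtain ⟨g2, hg2⟩ : ∃ g, N.b⁻¹ f = g := ⟨_, rfl⟩
    have e1 : N.b g1 = c := by rw [← hg1, self_pinv]
    have e2 : N.b g2 = f := by rw [← hg2, self_pinv]
    have e3 : N.w g1 = f := by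
      refine N.pi.injective ?_
      rw [pi_w, e1, q1]
    have e4 : N.w g2 = a := by
      refine N.pi.injective ?_
      rw [pi_w, e2, hf]
    have t1 := h.two f
    have t2 := h.two' a
    have t3 := h.two' f
    rw [hf] at t2
    rw [q1] at t3
    have lf : N.lab f = N.lab a := by rw [← e2, N.hlab, e4]
    have lwa : N.lab (N.w a) = N.lab d := by rw [← N.hlab, hd]
    have lbc : N.lab (N.b c) = N.lab d := by rw [N.hlab, hwc]
    rcases dg01 N.b c with hbc | hbc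
    · -- case C
      right; left
      have hwa : N.dg N.w a = 1 := by
        rcases dg01 N.w a with h1 | h1 <;> rcases dg01 N.b f with h2 | h2 <;>
          rcases dg01 N.w f with h3 | h3 <;> omega
      have hwf : N.dg N.w f = 1 := by
        rcases dg01 N.b f with h2 | h2 <;> rcases dg01 N.w f with h3 | h3 <;> omega
      obtain ⟨-, D2, D3⟩ := ofone hwa
      obtain ⟨-, D5, D6⟩ := ofone hwf
      have e5 : N.w a = g2 := N.w.injective (D3.trans e4.symm)
      have e6 : N.w f = g1 := N.w.injective (D6.trans e3.symm)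
      refine ⟨g1, g2, f, e6 ▸ D5, e5 ▸ D2, hfT, e5, e4, e2, e6, e3, e1, e5 ▸ lwa, lf, ?_⟩
      have := hs g1 (e6 ▸ D5) (by rw [e1]; exact w1)
      rw [e1, lc] at this
      exact fun h1 => this (by rw [h1])
    · rcases dg01 N.w a with hwa | hwa
      · -- case D
        right; right
        have hbf : N.dg N.b f = 1 := by
          rcases dg01 N.b f with h2 | h2 <;> rcases dg01 N.w f with h3 | h3 <;> omega
        obtain ⟨-, D2, D3⟩ := ofone hbc
        obtain ⟨-, D5, D6⟩ := ofone hbf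
        have e5 : N.b c = g1 := N.b.injective (D3.trans e1.symm)
        have e6 : N.b f = g2 := N.b.injective (D6.trans e2.symm)
        refine ⟨g1, g2, f, e5 ▸ D2, e6 ▸ D5, hfT, e5, e1, e3, e6, e2, e4, e5 ▸ lbc, lf, ?_⟩
        have := hs g2 (e6 ▸ D5) (by rw [e2]; exact hfT)
        rw [e2, lf] at this
        exact fun h1 => this (by rw [h1])
      · -- case B
        left
        have Dc := ofone hbc
        have Da := ofone hwa
        have e5 : N.b c = g1 := N.b.injective (Dc.2.2.trans e1.symm)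
        have e6 : N.w a = g2 := N.w.injective (Da.2.2.trans e4.symm)
        have hg1T : g1 ∈ N.T := e5 ▸ Dc.2.1
        have hg2T : g2 ∈ N.T := e6 ▸ Da.2.1
        have Dg1 : N.Dg N.b g1 := e5 ▸ Dc.next
        have pg2 : N.pi g2 = d := by rw [← e6, pwa]
        have pd1 : N.pi d = g1 := by rw [pd, e5]
        have hd2 : N.pi g1 = g2 := by
          rcases h.plate_tail kp b2 ndw ndb with h3 | ⟨h3, -, -⟩
          · rw [pd1] at h3
            exact absurd (show N.pi (N.pi g1) = g1 by rw [h3, pd1]) (h.r3b g1 Dg1)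
          · rw [pd1] at h3
            exact N.pi.injective (h3.trans pg2.symm)
        have n1d : g1 ≠ d := by
          intro h3; rw [h3] at Dg1; exact ndb Dg1
        have n2d : g2 ≠ d := by
          intro h3
          have Dg2 : N.Dg N.w g2 := e6 ▸ Da.next
          rw [h3] at Dg2; exact ndw Dg2
        have n12 : g1 ≠ g2 := by
          intro h3; rw [← h3] at hd2; exact h.r1 g1 hg1T hd2
        obtain ⟨f', hf'⟩ : ∃ g, N.w⁻¹ g1 = g := ⟨_, rfl⟩
        have e7 : N.w f' = g1 := by rw [← hf', self_pinv]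
        have e8 : N.b f' = g2 := by rw [← hd2, pi_apply, hf']
        exact ⟨g1, g2, f, f', hg1T, hg2T, e5, e1, e6, e4, e3, e2, e7, e8, n12, n1d, n2d⟩

end Net
end Pool.Agent.ZF
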