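import Mathlib
import Pool.Agent.ZF.GB

set_option autoImplicit false
set_option linter.unusedSectionVars false
open Finset Equiv

/-! # Duality

Exchange of the two colours. `N.dual` has `b` and `w` exchanged and the signs of the indices changed (and
`8` added at `o`, so that the face of `o` keeps its index). Planarity is preserved, the index of a state
becomes `8 - K` of the complementary state, and `Good` is preserved (`y` becomes `1 / y`). -/

namespace Pool.Agent.ZF

variable {α V : Type*}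

namespace Net

variable [DecidableEq α] [DecidableEq V] (N : Net α V)

/-- the dual network -/
def dual : Net α V where
  E := N.E
  b := N.w
  w := N.b
  cb := fun x => -N.cw x + if x = N.o then 8 else 0
  cw := fun x => -N.cb x + if x = N.o then 8 else 0
  lab := N.lab
  i := N.i
  o := N.o
  hb := N.hw
  hw := N.hb
  hlab := fun x => (N.hlab x).symm
  hi := N.hi
  ho := N.ho
  hio := N.hio
  mi := N.mi.symm
  mo := N.mo.symm
  ci := by
    have h := N.ci
    rw [← N.mi] at h
    rw [h]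
  co := by
    have h := N.co
    rw [← N.mo] at h
    rw [h]

lemma dual_dual : N.dual.dual = N := by
  have h1 : N.dual.dual.cb = N.cb := by
    funext x
    change -(-N.cb x + if x = N.o then 8 else 0) + (if x = N.o then 8 else 0) = _
    ring
  have h2 : N.dual.dual.cw = N.cw := by
    funext x
    change -(-N.cw x + if x = N.o then 8 else 0) + (if x = N.o then 8 else 0) = _
    ring
  cases N
  simp only [dual] at h1 h2 ⊢
  congr

@[simp] lemma dual_E : N.dual.E = N.E := rfl
@[simp] lemma dual_b : N.dual.b = N.w := rfl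
@[simp] lemma dual_w : N.dual.w = N.b := rfl
@[simp] lemma dual_o : N.dual.o = N.o := rfl
@[simp] lemma dual_i : N.dual.i = N.i := rfl
@[simp] lemma dual_lab : N.dual.lab = N.lab := rfl
@[simp] lemma dual_T : N.dual.T = N.T := rfl
@[simp] lemma dual_L : N.dual.L = N.L := rfl
lemma dual_cb (x : α) : N.dual.cb x = -N.cw x + if x = N.o then 8 else 0 := rfl
lemma dual_cw (x : α) : N.dual.cw x = -N.cb x + if x = N.o then 8 else 0 := rfl

lemma dual_pi : N.dual.pi = N.pi⁻¹ := by
  unfold pi
  rw [mul_inv_rev, inv_inv]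
  rfl

lemma cyc_inv (E : Finset α) (σ : Perm α) (x : α) : cyc E σ⁻¹ x = cyc E σ x := by
  ext y
  rw [mem_cyc, mem_cyc, Perm.sameCycle_inv]

lemma cycs_inv (E : Finset α) (σ : Perm α) : cycs E σ⁻¹ = cycs E σ := by
  unfold cycs
  congr 1
  funext x
  exact cyc_inv E σ x

theorem Pl.dual {N : Net α V} (h : N.Pl) : N.dual.Pl where
  sep := fun x hx y hy hxy => by
    rw [dual_pi, Perm.sameCycle_inv]
    exact h.sep x hx y hy hxy
  conn := fun X hX hne hX' => h.conn X hX hne fun x hx => (hX' x hx).symm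
  euler := by
    rw [dual_pi, dual_E, dual_b, dual_w, cycs_inv, ← h.euler, Nat.add_comm (cycs N.E N.w).card]
  plate := fun x hx => by
    rw [dual_pi, dual_E, cyc_inv, ← h.plate x hx]
    refine sum_nbij' (fun y => N.pi⁻¹ y) (fun y => N.pi y) ?_ ?_ ?_ ?_ ?_
    · intro y hy
      rw [mem_cyc] at hy ⊢
      refine ⟨?_, hy.2.trans ⟨-1, by rw [zpow_neg_one]⟩⟩
      unfold pi
      rw [mul_inv_rev, inv_inv, Perm.mul_apply]
      exact N.w_mem_iff.2 (N.binv_mem_iff.2 hy.1)
    · intro y hy
      rw [mem_cyc] at hy ⊢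
      refine ⟨?_, hy.2.trans ⟨1, by rw [zpow_one]⟩⟩
      unfold pi
      rw [Perm.mul_apply]
      exact N.b_mem_iff.2 (N.winv_mem_iff.2 hy.1)
    · intro y _; exact N.pi.apply_symm_apply y
    · intro y _; exact N.pi.symm_apply_apply y
    · intro y _
      have h1 : N.w⁻¹ (N.pi⁻¹ y) = N.b⁻¹ y := by
        unfold pi
        rw [mul_inv_rev, inv_inv, Perm.mul_apply]
        exact N.w.symm_apply_apply _
      rw [h1, dual_w, dual_cb, dual_cw]
      ring
  black := fun x hx => by
    rw [dual_E, dual_w]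
    simp only [dual_cw, sum_add_distrib, sum_neg_distrib]
    rw [h.white x hx, sum_ite_eq']
    split_ifs <;> norm_num
  white := fun x hx => by
    rw [dual_E, dual_b]
    simp only [dual_cb, sum_add_distrib, sum_neg_distrib, dual_o]
    rw [h.black x hx, sum_ite_eq']
    change -4 + (if N.o ∈ cyc N.E N.w x then (8 : ℤ) else 0) = if N.o ∈ cyc N.E N.w x then 4 else -4
    split_ifs <;> norm_num

/-! ### The index -/

variable {N}

lemma isIdx_dual {f g : α → α} {c d : α → ℤ} {o i : α} {P : α → Prop} (ho : P o)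
    (hP : ∀ a, P a → P (f a)) (hf : ∀ a, P a → g a = f a)
    (hc : ∀ a, P a → d a = -c a + if a = o then 8 else 0) {k : ℤ} (h : IsIdx f c o i k) :
    IsIdx g d o i (8 - k) := by
  obtain ⟨n, ⟨hn, h1, h2⟩, h3⟩ := h
  have hPj : ∀ j, P (f^[j] o) := by
    intro j
    induction j with
    | zero => exact ho
    | succ j ih => rw [Function.iterate_succ_apply']; exact hP _ ih
  have hg : ∀ j, g^[j] o = f^[j] o := by
    intro j
    induction j with
    | zero => rfl
    | succ j ih => rw [Function.iterate_succ_apply', Function.iterate_succ_apply', ih, hf _ (hPj j)]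
  refine ⟨n, ⟨hn, by rw [hg, h1], fun k hk hk' => by rw [hg]; exact h2 k hk hk'⟩, ?_⟩
  have h4 : ∀ j ∈ range n, d (g^[j] o) = -c (f^[j] o) + if j = 0 then 8 else 0 := by
    intro j hj
    rw [hg, hc _ (hPj j)]
    congr 1
    by_cases hj0 : j = 0
    · subst hj0; simp
    · rw [if_neg hj0, if_neg]
      exact (h2 j (Nat.pos_of_ne_zero hj0) (mem_range.1 hj)).1
  rw [sum_congr rfl h4, sum_add_distrib, sum_neg_distrib, h3, sum_ite_eq', if_pos (mem_range.2 hn)]
  ring

/-- complementary states -/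
def Compl (N : Net α V) (S S' : Finset V) : Prop := ∀ l ∈ N.L, (l ∈ S' ↔ l ∉ S)

lemma Compl.symm {S S' : Finset V} (h : N.Compl S S') : N.dual.Compl S' S := fun l hl => by
  have := h l hl
  tauto

lemma mark_of_notMem {a : α} (ha : a ∈ N.E) (h : N.w a ∉ N.T) : N.b a = N.w a ∧ N.cb a = N.cw a := by
  have h1 : N.w a = N.o ∨ N.w a = N.i := by
    by_contra h2
    rw [not_or] at h2
    exact h (mem_erase.2 ⟨h2.1, mem_erase.2 ⟨h2.2, N.w_mem_iff.2 ha⟩⟩)
  rcases h1 with h1 | h1
  · have h2 : N.w⁻¹ N.o = a := by rw [← h1]; exact N.w.symm_apply_apply _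
    have h3 := N.mo
    have h4 := N.co
    rw [h2] at h3 h4
    exact ⟨by rw [h1, ← h3]; exact N.b.apply_symm_apply _, h4⟩
  · have h2 : N.w⁻¹ N.i = a := by rw [← h1]; exact N.w.symm_apply_apply _
    have h3 := N.mi
    have h4 := N.ci
    rw [h2] at h3 h4
    exact ⟨by rw [h1, ← h3]; exact N.b.apply_symm_apply _, h4⟩

lemma dual_step {S S' : Finset V} (h : N.Compl S S') {a : α} (ha : a ∈ N.E) :
    N.dual.step S' a = N.step S a ∧
      N.dual.cost S' a = -N.cost S a + if a = N.o then 8 else 0 := by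
  unfold step cost
  rw [dual_lab, dual_w, dual_b, dual_cb, dual_cw, N.hlab]
  by_cases h1 : N.w a ∈ N.T
  · have h2 := h (N.lab (N.w a)) (mem_image_of_mem _ h1)
    by_cases h3 : N.lab (N.w a) ∈ S
    · rw [if_pos h3, if_pos h3, if_neg (fun h4 => h2.1 h4 h3), if_neg (fun h4 => h2.1 h4 h3)]
      exact ⟨rfl, rfl⟩
    · rw [if_neg h3, if_neg h3, if_pos (h2.2 h3), if_pos (h2.2 h3)]
      exact ⟨rfl, rfl⟩
  · obtain ⟨h2, h3⟩ := mark_of_notMem ha h1
    rw [h2, h3]
    simp only [ite_self, and_self]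

lemma step_mem' {S : Finset V} {a : α} (ha : a ∈ N.E) : N.step S a ∈ N.E := by
  unfold step
  split_ifs
  · exact N.b_mem_iff.2 ha
  · exact N.w_mem_iff.2 ha

lemma K_dual_of_some {S S' : Finset V} (h : N.Compl S S') {k : ℤ} (hk : N.K S = some k) :
    N.dual.K S' = some (8 - k) :=
  idx_eq_some.2 (isIdx_dual (P := fun a => a ∈ N.E) N.ho (fun _ ha => step_mem' ha)
    (fun _ ha => (dual_step h ha).1) (fun _ ha => (dual_step h ha).2) (idx_eq_some.1 hk))

/-- **Duality for the index.** -/
theorem K_dual {S S' : Finset V} (h : N.Compl S S') :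
    N.dual.K S' = (N.K S).map (fun k => 8 - k) := by
  rcases h1 : N.K S with _ | k
  · rcases h2 : N.dual.K S' with _ | l
    · rfl
    · have h3 := K_dual_of_some h.symm h2
      rw [dual_dual, h1] at h3
      exact absurd h3 (by simp)
  · rw [K_dual_of_some h h1]; rfl

lemma compl_sdiff (S : Finset V) : N.Compl S (N.L \ S) := fun l hl => by
  rw [mem_sdiff]; tauto

/-- **Duality for the partition function.** -/
theorem Z_dual (t : V → ℝ) (ht : ∀ v, 0 < t v) {y : ℂ} (hy : y ≠ 0) :
    N.dual.Z t y = (∏ v ∈ N.L, (t v : ℂ)) * y ^ 8 * N.Z (fun v => (t v)⁻¹) y⁻¹ := by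
  unfold Z
  rw [dual_L, mul_sum]
  refine sum_nbij' (fun S => N.L \ S) (fun S => N.L \ S) ?_ ?_ ?_ ?_ ?_
  · intro S _; rw [mem_powerset]; exact sdiff_subset
  · intro S _; rw [mem_powerset]; exact sdiff_subset
  · intro S hS; rw [mem_powerset] at hS; exact Finset.sdiff_sdiff_eq_self hS
  · intro S hS; rw [mem_powerset] at hS; exact Finset.sdiff_sdiff_eq_self hS
  · intro S hS
    rw [mem_powerset] at hS
    have h1 : N.Compl (N.L \ S) S := fun l hl => by rw [mem_sdiff]; tauto
    rw [K_dual h1]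
    have h2 : ∏ v ∈ N.L, (t v : ℂ) = (∏ v ∈ N.L \ S, (t v : ℂ)) * ∏ v ∈ S, (t v : ℂ) :=
      (prod_sdiff hS).symm
    have h3 : (∏ v ∈ N.L \ S, (t v : ℂ)) * (∏ v ∈ N.L \ S, (((t v)⁻¹ : ℝ) : ℂ)) = 1 := by
      rw [← prod_mul_distrib]
      refine prod_eq_one fun v _ => ?_
      rw [Complex.ofReal_inv]
      exact mul_inv_cancel₀ (Complex.ofReal_ne_zero.2 (ht v).ne')
    rcases N.K (N.L \ S) with _ | k
    · simp
    · have h4 : y ^ (8 - k) = y ^ 8 * y⁻¹ ^ k := by
        rw [inv_zpow', zpow_sub₀ hy, zpow_neg, div_eq_mul_inv]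
        norm_cast
      change (∏ v ∈ S, (t v : ℂ)) * y ^ (8 - k) = _
      rw [h2, h4]
      linear_combination (-(∏ v ∈ S, (t v : ℂ)) * y ^ 8 * y⁻¹ ^ k) * h3

lemma Dead.dual (h : N.Dead) : N.dual.Dead := by
  intro S hS
  have h1 : N.Compl (N.L \ S) S := fun l hl => by rw [mem_sdiff]; tauto
  rw [K_dual h1, h _ sdiff_subset]
  rfl

theorem Good.dual (h : N.Good) : N.dual.Good := by
  rcases h with h | h
  · exact Or.inl h.dual
  · refine Or.inr fun t ht y hy ha => ?_
    rw [Z_dual t ht hy]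
    refine mul_ne_zero (mul_ne_zero ?_ (pow_ne_zero _ hy)) (h _ (fun v => inv_pos.2 (ht v)) _
      (inv_ne_zero hy) ?_)
    · exact prod_ne_zero_iff.2 fun v _ => Complex.ofReal_ne_zero.2 (ht v).ne'
    · have hpi := Real.pi_pos
      rw [Complex.arg_inv, if_neg, abs_neg]
      · exact ha
      · intro h1
        rw [h1, abs_of_pos hpi] at ha
        linarith

/-- **Duality.** -/
theorem good_dual_iff : N.dual.Good ↔ N.Good :=
  ⟨fun h => by have := h.dual; rwa [dual_dual] at this, fun h => h.dual⟩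

end Net

end Pool.Agent.ZF
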