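import Mathlib
import Pool.Agent.ZF.Red

set_option autoImplicit false
open Finset Equiv

/-! # The flat case: both faces at the mark `i` have length three

`idx_shift` : comparison of two maps with the same first return map up to a shift of the costs of the
steps to `i`. `dead_BB`, `dead_WW` : the two plates at `i` have different colours. `ring_tiles`,
`ring_digons` : the two mixed states differ by a power of `y`. `kill_copy` : the plate of the black digon
copies `u`. -/

namespace Pool.Agent.ZF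

section paths

variable {α : Type*} {f g : α → α} {c d : α → ℤ} {o i : α} {P : α → Prop}

lemma iter_congr {f' : α → α} {a : α} {n : ℕ} (h : ∀ j, j < n → f (f^[j] a) = f' (f^[j] a)) :
    ∀ j, j ≤ n → f'^[j] a = f^[j] a := by
  intro j
  induction j with
  | zero => intro _; rfl
  | succ j ih =>
    intro hj
    rw [Function.iterate_succ_apply', Function.iterate_succ_apply', ih (by omega), h j (by omega)]

lemma isIdx_off {f' : α → α} {c' : α → ℤ} (hio : i ≠ o) (h : ∀ a, a ≠ i → f a = f' a ∧ c a = c' a)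
    {k : ℤ} (hk : IsIdx f c o i k) : IsIdx f' c' o i k := by
  obtain ⟨n, ⟨h1, h2, h3⟩, rfl⟩ := hk
  have h4 : ∀ j, j < n → f^[j] o ≠ i := by
    intro j hj
    rcases Nat.eq_zero_or_pos j with rfl | h5
    · exact fun h => hio h.symm
    · exact (h3 j h5 hj).2
  have h5 := iter_congr (f := f) (f' := f') (a := o) (n := n) fun j hj => (h _ (h4 j hj)).1
  refine ⟨n, ⟨h1, by rw [h5 n le_rfl, h2], fun k k1 k2 => by rw [h5 k k2.le]; exact h3 k k1 k2⟩, ?_⟩
  refine sum_congr rfl fun j hj => ?_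
  have hj := mem_range.1 hj
  rw [h5 j hj.le, (h _ (h4 j hj)).2]

/-- the values at `i` do not matter -/
theorem idx_off {f' : α → α} {c' : α → ℤ} (hio : i ≠ o) (h : ∀ a, a ≠ i → f a = f' a ∧ c a = c' a) :
    idx f c o i = idx f' c' o i :=
  idx_congr fun _ => ⟨isIdx_off hio h, isIdx_off hio fun a ha => ⟨(h a ha).1.symm, (h a ha).2.symm⟩⟩

/-- a shift of the cost of the steps to `i` -/
theorem idx_add [DecidableEq α] (s : ℤ) :
    idx g (fun a => d a + if g a = i then s else 0) o i = (idx g d o i).map (· + s) := by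
  have key : ∀ n, Hits g o i n →
      ∑ j ∈ range n, (d (g^[j] o) + if g (g^[j] o) = i then s else 0) =
        ∑ j ∈ range n, d (g^[j] o) + s := by
    rintro n ⟨h1, h2, h3⟩
    rw [sum_add_distrib]
    congr 1
    rw [sum_eq_single (n - 1)]
    · rw [if_pos]
      rw [← Function.iterate_succ_apply' g, show (n - 1).succ = n by omega, h2]
    · intro j hj hne
      have hj := mem_range.1 hj
      rw [if_neg]
      rw [← Function.iterate_succ_apply' g]
      exact (h3 (j + 1) (by omega) (by omega)).2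
    · intro h
      exact absurd (mem_range.2 (by omega)) h
  rcases h : idx g d o i with _ | k
  · rcases h' : idx g (fun a => d a + if g a = i then s else 0) o i with _ | l
    · rfl
    · obtain ⟨n, hn, -⟩ := idx_eq_some.1 h'
      have : idx g d o i = some _ := idx_eq_some.2 ⟨n, hn, rfl⟩
      rw [h] at this
      exact absurd this (by simp)
  · obtain ⟨n, hn, rfl⟩ := idx_eq_some.1 h
    rw [Option.map_some]
    exact idx_eq_some.2 ⟨n, hn, key n hn⟩

lemma RetAt.off {f' : α → α} {c' : α → ℤ} (hi : P i) (h : ∀ a, a ≠ i → f a = f' a ∧ c a = c' a)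
    {a b : α} {k : ℤ} (ha : a ≠ i) (hr : RetAt f c P a b k) : RetAt f' c' P a b k := by
  obtain ⟨n, h0, h1, h2, h3, rfl⟩ := hr
  have h4 : ∀ j, j < n → f^[j] a ≠ i := by
    intro j hj
    rcases Nat.eq_zero_or_pos j with rfl | h5
    · exact ha
    · exact fun h6 => h3 j h5 hj (by rw [h6]; exact hi)
  have h5 := iter_congr (f := f) (f' := f') (a := a) (n := n) fun j hj => (h _ (h4 j hj)).1
  refine ⟨n, h0, by rw [h5 n le_rfl, h1], h2, fun k k1 k2 => by rw [h5 k k2.le]; exact h3 k k1 k2, ?_⟩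
  refine sum_congr rfl fun j hj => ?_
  have hj := mem_range.1 hj
  rw [h5 j hj.le, (h _ (h4 j hj)).2]

open Classical in
/-- **Comparison of two maps whose first return maps agree away from `i`**, up to a shift of the costs of
the steps to `i`. -/
theorem idx_shift {f' : α → α} {c' : α → ℤ} (ho : P o) (hi : P i) (hio : i ≠ o) (s : ℤ)
    (h : ∀ a, P a → a ≠ i → ∃ b k, RetAt f c P a b k ∧
      RetAt f' c' P a b (k + if b = i then s else 0)) :
    idx f' c' o i = (idx f c o i).map (· + s) := by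
  have e1 : ∀ (φ : α → α) (γ : α → ℤ), ∀ a, a ≠ i →
      φ a = (fun a => if a = i then o else φ a) a ∧ γ a = (fun a => if a = i then 0 else γ a) a := by
    intro φ γ a ha
    simp only
    rw [if_neg ha, if_neg ha]
    exact ⟨rfl, rfl⟩
  have h' : ∀ a, ∃ b k, P a → a ≠ i → RetAt f c P a b k ∧
      RetAt f' c' P a b (k + if b = i then s else 0) := by
    intro a
    by_cases ha : P a ∧ a ≠ i
    · obtain ⟨b, k, hb⟩ := h a ha.1 ha.2
      exact ⟨b, k, fun _ _ => hb⟩
    · exact ⟨a, 0, fun h1 h2 => absurd ⟨h1, h2⟩ ha⟩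
  choose g d hgd using h'
  rw [idx_off hio (e1 f c), idx_off hio (e1 f' c')]
  have r1 : idx (fun a => if a = i then o else f a) (fun a => if a = i then 0 else c a) o i =
      idx (fun a => if a = i then o else g a) (fun a => if a = i then 0 else d a) o i := by
    refine idx_ret ho hi fun a ha => ?_
    by_cases hai : a = i
    · subst hai
      exact retAt_one (by simp) (by simpa using ho) (by simp)
    · simp only [if_neg hai]
      exact (hgd a ha hai).1.off hi (e1 f c) hai
  have r2 : idx (fun a => if a = i then o else f' a) (fun a => if a = i then 0 else c' a) o i =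
      idx (fun a => if a = i then o else g a) (fun a => (if a = i then 0 else d a) +
        if (if a = i then o else g a) = i then s else 0) o i := by
    refine idx_ret ho hi fun a ha => ?_
    by_cases hai : a = i
    · subst hai
      exact retAt_one (by simp) (by simpa using ho) (by simp [hio.symm])
    · simp only [if_neg hai]
      exact (hgd a ha hai).2.off hi (e1 f' c') hai
  rw [r1, r2]
  exact idx_add s

end paths

namespace Net

variable {α V : Type*} [DecidableEq α] [DecidableEq V] {N : Net α V} {a c d e f g g1 g2 f' : α}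
  {S : Finset V}

/-- the steps of a state at a strand with black head -/
lemma go_b {x y : α} (h : N.b x = y) (hS : N.lab y ∈ S) : N.step S x = y ∧ N.cost S x = N.cb x := by
  rw [← h] at hS ⊢
  exact step_b hS

lemma go_w {x y : α} (h : N.w x = y) (hS : N.lab y ∉ S) : N.step S x = y ∧ N.cost S x = N.cw x := by
  rw [← h] at hS ⊢
  exact step_w hS

/-- a loop of three strands through `i` -/
lemma none_i3 (h1 : N.step S N.i = a) (h2 : N.step S a = d) (h3 : N.w d = N.i) (ha : a ≠ N.o)
    (hd : d ≠ N.o) : N.K S = none := by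
  refine idx_none' (Q := fun z => z = N.i ∨ z = a ∨ z = d) step_inj (Or.inl rfl) ?_ ?_
  · rintro (h | h | h)
    · exact N.hio h.symm
    · exact ha h.symm
    · exact hd h.symm
  · rintro z (rfl | rfl | rfl)
    · exact ⟨d, Or.inr (Or.inr rfl), step_i h3⟩
    · exact ⟨N.i, Or.inl rfl, h1⟩
    · exact ⟨a, Or.inr (Or.inl rfl), h2⟩

/-- **The white face at `i` has length three**: the two plates are not both black. -/
theorem dead_BB (h1 : N.b N.i = a) (h2 : N.b a = d) (h3 : N.b d = N.i) (ha : a ≠ N.o) (hd : d ≠ N.o)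
    (hu : N.lab a ∈ S) (hv : N.lab d ∈ S) : N.K S = none :=
  none_i3 (go_b h1 hu).1 (go_b h2 hv).1 (head_i' h3) ha hd

/-- **The black face at `i` has length three**: the two plates are not both white. -/
theorem dead_WW (h1 : N.w N.i = c) (h2 : N.w c = d) (h3 : N.w d = N.i) (hc : c ≠ N.o) (hd : d ≠ N.o)
    (hu : N.lab c ∉ S) (hv : N.lab d ∉ S) : N.K S = none :=
  none_i3 (go_w h1 hu).1 (go_w h2 hv).1 h3 hc hd

/-- states which agree at the head of `a` have the same step at `a` -/
lemma same_at {S' : Finset V} (ha : a ∈ N.E)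
    (h : N.w a ∈ N.T → (N.lab (N.w a) ∈ S ↔ N.lab (N.w a) ∈ S')) :
    N.step S a = N.step S' a ∧ N.cost S a = N.cost S' a := by
  by_cases h1 : N.w a ∈ N.T
  · have h2 := h h1
    unfold step cost
    by_cases h3 : N.lab (N.w a) ∈ S
    · rw [if_pos h3, if_pos (h2.1 h3), if_pos h3, if_pos (h2.1 h3)]
      exact ⟨rfl, rfl⟩
    · rw [if_neg h3, if_neg (fun h4 => h3 (h2.2 h4)), if_neg h3, if_neg (fun h4 => h3 (h2.2 h4))]
      exact ⟨rfl, rfl⟩
  · obtain ⟨h2, h3⟩ := mark_head ha h1
    unfold step cost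
    rw [h2, h3]
    simp only [ite_self, and_self]

omit [DecidableEq α] in
lemma sameCycle_three {σ : Perm α} {x y z t : α} (h1 : σ x = y) (h2 : σ y = z) (h3 : σ z = x) :
    σ.SameCycle x t ↔ t = x ∨ t = y ∨ t = z := by
  have i1 : σ⁻¹ y = x := by rw [← h1, pinv_self]
  have i2 : σ⁻¹ z = y := by rw [← h2, pinv_self]
  have i3 : σ⁻¹ x = z := by rw [← h3, pinv_self]
  constructor
  · rintro ⟨n, rfl⟩
    induction n using Int.induction_on with
    | zero => left; simp
    | succ n ih =>
      rw [add_comm, zpow_add, zpow_one, Perm.mul_apply]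
      rcases ih with ih | ih | ih <;> rw [ih]
      · exact Or.inr (Or.inl h1)
      · exact Or.inr (Or.inr h2)
      · exact Or.inl h3
    | pred n ih =>
      rw [sub_eq_neg_add, zpow_add, zpow_neg_one, Perm.mul_apply]
      rcases ih with ih | ih | ih <;> rw [ih]
      · exact Or.inr (Or.inr i3)
      · exact Or.inl i1
      · exact Or.inr (Or.inl i2)
  · rintro (rfl | rfl | rfl)
    · exact Perm.SameCycle.refl _ _
    · exact ⟨1, by simpa using h1⟩
    · exact ⟨2, by rw [zpow_two, Perm.mul_apply, h1, h2]⟩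

omit [DecidableEq V] in
lemma cyc_three {σ : Perm α} {x y z : α} (hx : x ∈ N.E) (hy : y ∈ N.E) (hz : z ∈ N.E)
    (h1 : σ x = y) (h2 : σ y = z) (h3 : σ z = x) : cyc N.E σ x = {x, y, z} := by
  classical
  ext t
  unfold cyc
  rw [mem_filter, sameCycle_three h1 h2 h3, mem_insert, mem_insert, mem_singleton]
  constructor
  · exact fun h => h.2
  · rintro (rfl | rfl | rfl)
    · exact ⟨hx, Or.inl rfl⟩
    · exact ⟨hy, Or.inr (Or.inl rfl)⟩
    · exact ⟨hz, Or.inr (Or.inr rfl)⟩

lemma sum_three {M : Type*} [AddCommMonoid M] {x y z : α} (φ : α → M) (h1 : x ≠ y) (h2 : x ≠ z)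
    (h3 : y ≠ z) : ∑ t ∈ ({x, y, z} : Finset α), φ t = φ x + (φ y + φ z) := by
  rw [sum_insert (by rw [mem_insert, mem_singleton, not_or]; exact ⟨h1, h2⟩), sum_pair h3]

lemma card_three {x y z : α} (h1 : x ≠ y) (h2 : x ≠ z) (h3 : y ≠ z) :
    ({x, y, z} : Finset α).card = 3 := by
  rw [card_insert_of_notMem (by rw [mem_insert, mem_singleton, not_or]; exact ⟨h1, h2⟩), card_pair h3]

/-- the costs of the two faces at `i` -/
lemma cost_faces (hP : N.Pl) (hbi : N.b N.i = a) (hba : N.b a = d) (hwi : N.w N.i = c)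
    (hwc : N.w c = d) (hd : N.w d = N.i) (ha : a ∈ N.T) (hc : c ∈ N.T) (hdT : d ∈ N.T)
    (had : N.lab a ≠ N.lab d) : N.cb N.i + N.cb a + N.cb d = -4 ∧ N.cw N.i + N.cw c + N.cw d = 4 ∧
      N.cb d = N.cw d := by
  obtain ⟨a1, a2, a3⟩ := mem_T.1 ha
  obtain ⟨c1, c2, c3⟩ := mem_T.1 hc
  obtain ⟨d1, d2, d3⟩ := mem_T.1 hdT
  have hcd : N.lab c ≠ N.lab d := by
    rw [← hwi, ← N.hlab, hbi]; exact had
  have e1 := hP.white N.i N.hi
  have e2 := hP.black N.i N.hi
  rw [cyc_three N.hi a3 d3 hbi hba (head_i hd), if_neg, sum_three _ (Ne.symm a2) (Ne.symm d2)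
    (fun h => had (by rw [h]))] at e1
  swap
  · rw [mem_insert, mem_insert, mem_singleton]
    rintro (h | h | h)
    · exact N.hio h.symm
    · exact a1 h.symm
    · exact d1 h.symm
  rw [cyc_three N.hi c3 d3 hwi hwc hd, sum_three _ (Ne.symm c2) (Ne.symm d2)
    (fun h => hcd (by rw [h]))] at e2
  have e3 := (mark_head d3 (fun h => (mem_T.1 h).2.1 hd)).2
  exact ⟨by linarith, by linarith, e3⟩

/-- **Two tiles at `i`**: the two mixed states have the same paths up to the power `4`. -/
theorem ring_tiles (hP : N.Pl) (hbi : N.b N.i = a) (hba : N.b a = d) (hwi : N.w N.i = c)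
    (hwc : N.w c = d) (hd : N.w d = N.i) (ha : a ∈ N.T) (hc : c ∈ N.T) (hdT : d ∈ N.T)
    (had : N.lab a ≠ N.lab d) (hwg : N.w g = a) (hbg : N.b g = c)
    (hwa : N.w a = e) (hbc : N.b c = e) (hac : a ≠ c) (S : Finset V) :
    N.K (insert (N.lab a) (S.erase (N.lab d))) =
      (N.K (insert (N.lab d) (S.erase (N.lab a)))).map (· + 4) := by
  obtain ⟨a1, a2, a3⟩ := mem_T.1 ha
  obtain ⟨c1, c2, c3⟩ := mem_T.1 hc
  obtain ⟨d1, d2, d3⟩ := mem_T.1 hdT
  obtain ⟨f1, f2, f3⟩ := cost_faces hP hbi hba hwi hwc hd ha hc hdT had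
  have lc : N.lab c = N.lab a := by rw [← hwi, ← N.hlab, hbi]
  have le : N.lab e = N.lab d := by rw [← hwa, ← N.hlab, hba]
  have hcd : N.lab c ≠ N.lab d := by rw [lc]; exact had
  -- the plates
  have pa : N.pi a = c := by
    unfold pi; rw [Perm.mul_apply, ← hwg, pinv_self]; exact hbg
  have pc : N.pi c = a := by
    unfold pi; rw [Perm.mul_apply, ← hwi, pinv_self]; exact hbi
  have pd : N.pi d = e := by
    unfold pi; rw [Perm.mul_apply, ← hwc, pinv_self]; exact hbc
  have pe : N.pi e = d := by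
    unfold pi; rw [Perm.mul_apply, ← hwa, pinv_self]; exact hba
  have hg : g ∈ N.E := by
    have := w_inv_mem (N := N) a3
    rwa [← hwg, pinv_self] at this
  have gi : g ≠ N.i := fun h => hac (by rw [← hwg, h, hwi])
  have p1 := hP.plate a a3
  rw [cyc_two a3 (by rw [pa]; exact c3) (by rw [pa, pc]), pa, sum_pair hac, card_pair hac] at p1
  rw [show N.w⁻¹ a = g by rw [← hwg, pinv_self], show N.w⁻¹ c = N.i by rw [← hwi, pinv_self]] at p1
  push_cast at p1
  have hu1 : N.lab a ∈ insert (N.lab a) (S.erase (N.lab d)) := mem_insert_self _ _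
  have hv1 : N.lab d ∉ insert (N.lab a) (S.erase (N.lab d)) := by
    rw [mem_insert, not_or]
    exact ⟨had.symm, fun h => (mem_erase.1 h).1 rfl⟩
  have hu2 : N.lab a ∉ insert (N.lab d) (S.erase (N.lab a)) := by
    rw [mem_insert, not_or]
    exact ⟨had, fun h => (mem_erase.1 h).1 rfl⟩
  have hv2 : N.lab d ∈ insert (N.lab d) (S.erase (N.lab a)) := mem_insert_self _ _
  set S1 := insert (N.lab a) (S.erase (N.lab d)) with hS1
  set S2 := insert (N.lab d) (S.erase (N.lab a)) with hS2
  have hS : ∀ l, l ≠ N.lab a → l ≠ N.lab d → (l ∈ S1 ↔ l ∈ S2) := by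
    intro l h1 h2
    rw [hS1, hS2, mem_insert, mem_insert, mem_erase, mem_erase]
    simp [h1, h2]
  refine idx_shift (P := fun z => z ∈ N.E ∧ z ≠ a ∧ z ≠ c ∧ z ≠ d) ⟨N.ho, a1.symm, c1.symm, d1.symm⟩
    ⟨N.hi, a2.symm, c2.symm, d2.symm⟩ N.hio 4 ?_
  rintro z ⟨zE, za, zc, zd⟩ zi
  have s1 := go_b (S := S1) hbg (by rw [lc]; exact hu1)
  have s2 := go_w (S := S1) hwc hv1
  have t1 := go_w (S := S2) hwg hu2
  have t2 := go_b (S := S2) hba hv2
  have hdi : ∀ U : Finset V, N.step U d = N.i := fun U => step_i hd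
  have hci : ∀ U : Finset V, N.cost U d = N.cw d := by
    intro U
    unfold cost
    split_ifs
    · exact f3
    · rfl
  by_cases hz : z = g
  · subst hz
    refine ⟨N.i, N.cw z + N.cb a + N.cw d, retAt_three t1.1 t2.1 (hdi _) (fun h => h.2.1 rfl)
      (fun h => h.2.2.2 rfl) ⟨N.hi, a2.symm, c2.symm, d2.symm⟩ (by rw [t1.2, t2.2, hci]),
      retAt_three s1.1 s2.1 (hdi _) (fun h => h.2.2.1 rfl)
      (fun h => h.2.2.2 rfl) ⟨N.hi, a2.symm, c2.symm, d2.symm⟩ ?_⟩
    rw [s1.2, s2.2, hci, if_pos rfl]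
    linarith
  · have h1 := same_at (S := S2) (S' := S1) zE fun hT => (hS _ (fun h => ?_) (fun h => ?_)).symm
    · have hb : N.step S1 z ∈ N.E ∧ N.step S1 z ≠ a ∧ N.step S1 z ≠ c ∧ N.step S1 z ≠ d := by
        refine ⟨step_mem zE, fun h => zi ?_, fun h => hz ?_, fun h => zc ?_⟩
        · exact step_inj (h.trans (go_b (S := S1) hbi hu1).1.symm)
        · exact step_inj (h.trans s1.1.symm)
        · exact step_inj (h.trans s2.1.symm)
      have hni : N.step S1 z ≠ N.i := fun h => zd (step_inj (h.trans (hdi _).symm))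
      exact ⟨_, _, retAt_one h1.1 hb h1.2, retAt_one rfl hb (by rw [if_neg hni, add_zero])⟩
    · have h2 := hP.sep a ha _ hT h.symm
      rw [sameCycle_two (by rw [pa, pc]), pa] at h2
      rcases h2 with h2 | h2
      · exact hz (N.w.injective (h2.trans hwg.symm))
      · exact zi (N.w.injective (h2.trans hwi.symm))
    · have h2 := hP.sep d hdT _ hT h.symm
      rw [sameCycle_two (by rw [pd, pe]), pd] at h2
      rcases h2 with h2 | h2
      · exact zc (N.w.injective (h2.trans hwc.symm))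
      · exact za (N.w.injective (h2.trans hwa.symm))

/-- **Two plates of size three at `i` with two common digons**: the two mixed states have the same paths. -/
theorem ring_digons (hP : N.Pl) (hbi : N.b N.i = a) (hba : N.b a = d) (hwi : N.w N.i = c)
    (hwc : N.w c = d) (hd : N.w d = N.i) (ha : a ∈ N.T) (hc : c ∈ N.T) (hdT : d ∈ N.T)
    (h1T : g1 ∈ N.T) (h2T : g2 ∈ N.T) (had : N.lab a ≠ N.lab d)
    (hbc : N.b c = g1) (hbg : N.b g1 = c) (hwa : N.w a = g2) (hwg : N.w g2 = a)
    (hw1 : N.w g1 = f) (hb2 : N.b g2 = f) (hw3 : N.w f' = g1) (hb3 : N.b f' = g2)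
    (h12 : g1 ≠ g2) (h1d : g1 ≠ d) (h2d : g2 ≠ d) (S : Finset V) :
    N.K (insert (N.lab a) (S.erase (N.lab d))) = N.K (insert (N.lab d) (S.erase (N.lab a))) := by
  obtain ⟨a1, a2, a3⟩ := mem_T.1 ha
  obtain ⟨c1, c2, c3⟩ := mem_T.1 hc
  obtain ⟨d1, d2, d3⟩ := mem_T.1 hdT
  obtain ⟨k1, k2, k3⟩ := mem_T.1 h1T
  obtain ⟨m1, m2, m3⟩ := mem_T.1 h2T
  obtain ⟨f1, f2, f3⟩ := cost_faces hP hbi hba hwi hwc hd ha hc hdT had
  have lc : N.lab c = N.lab a := by rw [← hwi, ← N.hlab, hbi]
  have l1 : N.lab g1 = N.lab d := by rw [← hbc, N.hlab, hwc]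
  have l2 : N.lab g2 = N.lab d := by rw [← hwa, ← N.hlab, hba]
  have lf : N.lab f = N.lab a := by rw [← hw1, ← N.hlab, hbg, lc]
  have hcd : N.lab c ≠ N.lab d := by rw [lc]; exact had
  have hc1 : c ≠ g1 := fun h => hcd (by rw [h, l1])
  have ha2 : a ≠ g2 := fun h => had (by rw [h, l2])
  -- the plates
  have pa : N.pi a = f := by
    unfold pi; rw [Perm.mul_apply, ← hwg, pinv_self]; exact hb2
  have pc : N.pi c = a := by
    unfold pi; rw [Perm.mul_apply, ← hwi, pinv_self]; exact hbi
  have pf : N.pi f = c := by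
    unfold pi; rw [Perm.mul_apply, ← hw1, pinv_self]; exact hbg
  have pd : N.pi d = g1 := by
    unfold pi; rw [Perm.mul_apply, ← hwc, pinv_self]; exact hbc
  have p1 : N.pi g1 = g2 := by
    unfold pi; rw [Perm.mul_apply, ← hw3, pinv_self]; exact hb3
  have p2 : N.pi g2 = d := by
    unfold pi; rw [Perm.mul_apply, ← hwa, pinv_self]; exact hba
  have q1 := hP.plate d d3
  rw [cyc_three d3 k3 m3 pd p1 p2, sum_three _ h1d.symm h2d.symm h12,
    card_three h1d.symm h2d.symm h12, show N.w⁻¹ d = c by rw [← hwc, pinv_self],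
    show N.w⁻¹ g1 = f' by rw [← hw3, pinv_self], show N.w⁻¹ g2 = a by rw [← hwa, pinv_self]] at q1
  push_cast at q1
  have q2 := hP.white c c3
  rw [cyc_two c3 (by rw [hbc]; exact k3) (by rw [hbc, hbg]), hbc, sum_pair hc1, if_neg] at q2
  swap
  · rw [mem_insert, mem_singleton, not_or]
    exact ⟨fun h => c1 h.symm, fun h => k1 h.symm⟩
  have q3 := hP.black a a3
  rw [cyc_two a3 (by rw [hwa]; exact m3) (by rw [hwa, hwg]), hwa, sum_pair ha2] at q3
  have hu1 : N.lab a ∈ insert (N.lab a) (S.erase (N.lab d)) := mem_insert_self _ _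
  have hv1 : N.lab d ∉ insert (N.lab a) (S.erase (N.lab d)) := by
    rw [mem_insert, not_or]
    exact ⟨had.symm, fun h => (mem_erase.1 h).1 rfl⟩
  have hu2 : N.lab a ∉ insert (N.lab d) (S.erase (N.lab a)) := by
    rw [mem_insert, not_or]
    exact ⟨had, fun h => (mem_erase.1 h).1 rfl⟩
  have hv2 : N.lab d ∈ insert (N.lab d) (S.erase (N.lab a)) := mem_insert_self _ _
  set S1 := insert (N.lab a) (S.erase (N.lab d)) with hS1
  set S2 := insert (N.lab d) (S.erase (N.lab a)) with hS2
  have hS : ∀ l, l ≠ N.lab a → l ≠ N.lab d → (l ∈ S1 ↔ l ∈ S2) := by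
    intro l h1 h2
    rw [hS1, hS2, mem_insert, mem_insert, mem_erase, mem_erase]
    simp [h1, h2]
  have hPi : N.i ∈ N.E ∧ N.i ≠ a ∧ N.i ≠ c ∧ N.i ≠ d ∧ N.i ≠ g1 ∧ N.i ≠ g2 :=
    ⟨N.hi, a2.symm, c2.symm, d2.symm, k2.symm, m2.symm⟩
  have key := idx_shift (f := N.step S2) (c := N.cost S2) (f' := N.step S1) (c' := N.cost S1)
    (P := fun z => z ∈ N.E ∧ z ≠ a ∧ z ≠ c ∧ z ≠ d ∧ z ≠ g1 ∧ z ≠ g2)
    ⟨N.ho, a1.symm, c1.symm, d1.symm, k1.symm, m1.symm⟩ hPi N.hio 0 ?_
  · unfold K
    rw [key]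
    simp
  rintro z ⟨zE, za, zc, zd, z1, z2⟩ zi
  have s0 := go_w (S := S1) hw3 (by rw [l1]; exact hv1)
  have s1 := go_b (S := S1) hbg (by rw [lc]; exact hu1)
  have s2 := go_w (S := S1) hwc hv1
  have t0 := go_b (S := S2) hb3 (by rw [l2]; exact hv2)
  have t1 := go_w (S := S2) hwg hu2
  have t2 := go_b (S := S2) hba hv2
  have hdi : ∀ U : Finset V, N.step U d = N.i := fun U => step_i hd
  have hci : ∀ U : Finset V, N.cost U d = N.cw d := by
    intro U
    unfold cost
    split_ifs
    · exact f3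
    · rfl
  by_cases hz : z = f'
  · subst hz
    refine ⟨N.i, N.cb z + N.cw g2 + N.cb a + N.cw d, ⟨4, by omega, ?_, hPi, ?_, ?_⟩,
      ⟨4, by omega, ?_, hPi, ?_, ?_⟩⟩
    · change N.step S2 (N.step S2 (N.step S2 (N.step S2 z))) = N.i
      rw [t0.1, t1.1, t2.1, hdi]
    · intro j h1 h2 h3
      obtain rfl | rfl | rfl : j = 1 ∨ j = 2 ∨ j = 3 := by omega
      · change _ ∧ N.step S2 z ≠ a ∧ _ at h3
        exact h3.2.2.2.2.2 t0.1
      · have e : (N.step S2)^[2] z = a := by
          change N.step S2 (N.step S2 z) = a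
          rw [t0.1, t1.1]
        exact h3.2.1 e
      · have e : (N.step S2)^[3] z = d := by
          change N.step S2 (N.step S2 (N.step S2 z)) = d
          rw [t0.1, t1.1, t2.1]
        exact h3.2.2.2.1 e
    · rw [sum_range_succ, sum_range_succ, sum_range_succ, sum_range_one]
      change N.cost S2 z + N.cost S2 (N.step S2 z) + N.cost S2 (N.step S2 (N.step S2 z)) +
        N.cost S2 (N.step S2 (N.step S2 (N.step S2 z))) = _
      rw [t0.1, t1.1, t2.1, t0.2, t1.2, t2.2, hci]
    · change N.step S1 (N.step S1 (N.step S1 (N.step S1 z))) = N.i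
      rw [s0.1, s1.1, s2.1, hdi]
    · intro j h1 h2 h3
      obtain rfl | rfl | rfl : j = 1 ∨ j = 2 ∨ j = 3 := by omega
      · exact h3.2.2.2.2.1 s0.1
      · have e : (N.step S1)^[2] z = c := by
          change N.step S1 (N.step S1 z) = c
          rw [s0.1, s1.1]
        exact h3.2.2.1 e
      · have e : (N.step S1)^[3] z = d := by
          change N.step S1 (N.step S1 (N.step S1 z)) = d
          rw [s0.1, s1.1, s2.1]
        exact h3.2.2.2.1 e
    · rw [sum_range_succ, sum_range_succ, sum_range_succ, sum_range_one, if_pos rfl]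
      change N.cost S1 z + N.cost S1 (N.step S1 z) + N.cost S1 (N.step S1 (N.step S1 z)) +
        N.cost S1 (N.step S1 (N.step S1 (N.step S1 z))) = _
      rw [s0.1, s1.1, s2.1, s0.2, s1.2, s2.2, hci]
      linarith
  · have h1 := same_at (S := S2) (S' := S1) zE fun hT => (hS _ (fun h => ?_) (fun h => ?_)).symm
    · have s3 := go_w (S := S1) hwa (by rw [l2]; exact hv1)
      have hb : N.step S1 z ∈ N.E ∧ N.step S1 z ≠ a ∧ N.step S1 z ≠ c ∧ N.step S1 z ≠ d ∧
          N.step S1 z ≠ g1 ∧ N.step S1 z ≠ g2 := by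
        refine ⟨step_mem zE, fun h => zi ?_, fun h => z1 ?_, fun h => zc ?_, fun h => hz ?_,
          fun h => za ?_⟩
        · exact step_inj (h.trans (go_b (S := S1) hbi hu1).1.symm)
        · exact step_inj (h.trans s1.1.symm)
        · exact step_inj (h.trans s2.1.symm)
        · exact step_inj (h.trans s0.1.symm)
        · exact step_inj (h.trans s3.1.symm)
      exact ⟨_, _, retAt_one h1.1 hb h1.2, retAt_one rfl hb (by rw [ite_self, add_zero])⟩
    · have h2 := hP.sep a ha _ hT h.symm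
      rw [sameCycle_three pa pf pc] at h2
      rcases h2 with h2 | h2 | h2
      · exact z2 (N.w.injective (h2.trans hwg.symm))
      · exact z1 (N.w.injective (h2.trans hw1.symm))
      · exact zi (N.w.injective (h2.trans hwi.symm))
    · have h2 := hP.sep d hdT _ hT h.symm
      rw [sameCycle_three pd p1 p2] at h2
      rcases h2 with h2 | h2 | h2
      · exact zc (N.w.injective (h2.trans hwc.symm))
      · exact hz (N.w.injective (h2.trans hw3.symm))
      · exact za (N.w.injective (h2.trans hwa.symm))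

/-- **The plate of the black digon copies the plate at the head of `i`**: if `u` is black then the other
plate of its black digon is black. -/
theorem kill_copy (hbi : N.b N.i = a) (hba : N.b a = d) (hwc : N.w c = d) (hd : N.w d = N.i)
    (hwa : N.w a = g2) (hb2 : N.b g2 = f) (hwf : N.w f = g1) (hb1 : N.b g1 = c)
    (ha : a ≠ N.o) (hc : c ≠ N.o) (hdo : d ≠ N.o) (h1 : g1 ≠ N.o) (h2 : g2 ≠ N.o) (hf : f ≠ N.o)
    (lc : N.lab c = N.lab a) (l2 : N.lab g2 = N.lab d) (lf : N.lab f = N.lab a)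
    (hu : N.lab a ∈ S) (hx : N.lab g1 ∉ S) : N.K S = none := by
  by_cases hv : N.lab d ∈ S
  · exact dead_BB hbi hba (head_i hd) ha hdo hu hv
  have s0 := (go_b (S := S) hbi hu).1
  have s1 := (go_w (S := S) hwa (by rw [l2]; exact hv)).1
  have s2 := (go_b (S := S) hb2 (by rw [lf]; exact hu)).1
  have s3 := (go_w (S := S) hwf hx).1
  have s4 := (go_b (S := S) hb1 (by rw [lc]; exact hu)).1
  have s5 := (go_w (S := S) hwc hv).1
  have s6 : N.step S d = N.i := step_i hd
  refine idx_none' (Q := fun z => z = N.i ∨ z = a ∨ z = g2 ∨ z = f ∨ z = g1 ∨ z = c ∨ z = d)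
    step_inj (Or.inl rfl) ?_ ?_
  · rintro (h | h | h | h | h | h | h)
    · exact N.hio h.symm
    · exact ha h.symm
    · exact h2 h.symm
    · exact hf h.symm
    · exact h1 h.symm
    · exact hc h.symm
    · exact hdo h.symm
  · rintro z (rfl | rfl | rfl | rfl | rfl | rfl | rfl)
    · exact ⟨d, by simp, s6⟩
    · exact ⟨N.i, by simp, s0⟩
    · exact ⟨a, by simp, s1⟩
    · exact ⟨g2, by simp, s2⟩
    · exact ⟨f, by simp, s3⟩
    · exact ⟨g1, by simp, s4⟩
    · exact ⟨c, by simp, s5⟩

end Net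

end Pool.Agent.ZF
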