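import Mathlib
import Pool.Agent.ZF.Cnt

set_option autoImplicit false
open Finset Equiv

/-! # Genus

Orbits of pairs of permutations, the genus
`gen E b w = |E| + 2 (number of orbits) - c(b) - c(w) - c(b w⁻¹)` of a pair, its monotonicity (`gen_split`,
`gen_del`, `gen_sub`), additivity (`gen_add`), nonnegativity (`gen_nonneg`) and Ree's inequality
(`ree`). -/

namespace Pool.Agent.ZF
namespace Net

variable {α : Type*} [DecidableEq α]

/-! ### Orbits of a pair -/

/-- the orbits of the group generated by `b` and `w` -/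
def R2 (b w : Perm α) : α → α → Prop := Relation.EqvGen (fun u v => v = b u ∨ v = w u)

omit [DecidableEq α] in
lemma R2_equiv (b w : Perm α) : Equivalence (R2 b w) := Relation.EqvGen.is_equivalence _

omit [DecidableEq α] in
lemma R2_b (b w : Perm α) (u : α) : R2 b w u (b u) := Relation.EqvGen.rel _ _ (Or.inl rfl)

omit [DecidableEq α] in
lemma R2_w (b w : Perm α) (u : α) : R2 b w u (w u) := Relation.EqvGen.rel _ _ (Or.inr rfl)

omit [DecidableEq α] in
lemma R2_le {b w : Perm α} {s : α → α → Prop} (hs : Equivalence s) (hb : ∀ u, s u (b u))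
    (hw : ∀ u, s u (w u)) {u v : α} (h : R2 b w u v) : s u v := by
  induction h with
  | rel u v h => rcases h with rfl | rfl
                 · exact hb u
                 · exact hw u
  | refl u => exact hs.refl u
  | symm u v _ ih => exact hs.symm ih
  | trans u v z _ _ ih1 ih2 => exact hs.trans ih1 ih2

omit [DecidableEq α] in
lemma R2_of_w {b w : Perm α} {u v : α} (h : w.SameCycle u v) : R2 b w u v :=
  same_le (R2_equiv b w) (R2_w b w) h

omit [DecidableEq α] in
lemma R2_of_b {b w : Perm α} {u v : α} (h : b.SameCycle u v) : R2 b w u v :=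
  same_le (R2_equiv b w) (R2_b b w) h

omit [DecidableEq α] in
lemma R2_of_pi {b w : Perm α} {u v : α} (h : (b * w⁻¹).SameCycle u v) : R2 b w u v := by
  refine same_le (R2_equiv b w) (fun u => ?_) h
  have h1 := R2_w b w (w⁻¹ u)
  have h2 : w (w⁻¹ u) = u := w.apply_symm_apply u
  rw [h2] at h1
  exact (R2_equiv b w).trans ((R2_equiv b w).symm h1) (R2_b b w (w⁻¹ u))

omit [DecidableEq α] in
lemma R2_comm (b w : Perm α) : R2 b w = R2 w b := by
  funext u v
  exact propext ⟨fun h => R2_le (R2_equiv w b) (R2_w w b) (R2_b w b) h,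
    fun h => R2_le (R2_equiv b w) (R2_w b w) (R2_b b w) h⟩

lemma R2_jn (b w : Perm α) (x y : α) :
    Jn (R2 b w) x y = Jn (R2 b (w * swap x y)) x y := by
  have key : ∀ (w : Perm α) (u v : α), R2 b (w * swap x y) u v → Jn (R2 b w) x y u v := by
    intro w u v h
    have hr := R2_equiv b w
    refine R2_le (Jn.equiv hr x y) (fun u => Or.inl (R2_b b w u)) (fun u => ?_) h
    rw [Perm.mul_apply]
    by_cases hx : u = x
    · rw [hx, swap_apply_left]
      exact Or.inr (Or.inl ⟨hr.refl x, R2_w b w y⟩)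
    by_cases hy : u = y
    · rw [hy, swap_apply_right]
      exact Or.inr (Or.inr ⟨hr.refl y, R2_w b w x⟩)
    rw [swap_apply_of_ne_of_ne hx hy]
    exact Or.inl (R2_w b w u)
  refine Jn.eq (R2_equiv _ _) (R2_equiv _ _) (fun u v h => key (w * swap x y) u v ?_) (key w)
  rw [mul_assoc, swap_mul_self, mul_one]
  exact h

/-- **The genus** (twice the usual one). -/
noncomputable def gen (E : Finset α) (b w : Perm α) : ℤ :=
  E.card + 2 * ncl E (R2 b w) - nc E b - nc E w - nc E (b * w⁻¹)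

lemma nc_inv (E : Finset α) (σ : Perm α) : nc E σ⁻¹ = nc E σ := by
  unfold nc
  congr 1
  funext u v
  exact propext Perm.sameCycle_inv

lemma gen_comm (E : Finset α) (b w : Perm α) : gen E b w = gen E w b := by
  unfold gen
  rw [R2_comm, ← nc_inv E (b * w⁻¹), mul_inv_rev, inv_inv]
  ring

lemma pi_swap (b w : Perm α) (x y : α) :
    b * (w * swap x y)⁻¹ = b * w⁻¹ * swap (w x) (w y) := by
  rw [swap_apply_apply, mul_inv_rev, swap_inv]
  group

lemma inv_mem {E : Finset α} {σ : Perm α} (h : ∀ z ∈ E, σ z ∈ E) {z : α} (hz : z ∈ E) :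
    σ⁻¹ z ∈ E := by
  have h1 : E.image σ = E :=
    eq_of_subset_of_card_le (fun y hy => by
      obtain ⟨z, hz, rfl⟩ := mem_image.1 hy
      exact h z hz) (by rw [card_image_of_injective _ σ.injective])
  have h2 := hz
  rw [← h1, mem_image] at h2
  obtain ⟨u, hu, rfl⟩ := h2
  rw [show σ⁻¹ (σ u) = u from σ.symm_apply_apply u]
  exact hu

/-- **A transposition inside a white cycle does not increase the genus.** -/
lemma gen_split {E : Finset α} {b w : Perm α} (hb : ∀ z ∈ E, b z ∈ E) (hw : ∀ z ∈ E, w z ∈ E)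
    {x y : α} (hx : x ∈ E) (hy : y ∈ E) (hxy : x ≠ y) (h : w.SameCycle x y) :
    gen E b (w * swap x y) ≤ gen E b w := by
  have hpi : ∀ z ∈ E, (b * w⁻¹) z ∈ E := fun z hz => hb _ (inv_mem hw hz)
  have e1 := nc_split hw hx hy hxy h
  have hne : w x ≠ w y := fun h => hxy (w.injective h)
  have hR : R2 b w x y := R2_of_w h
  by_cases hR' : R2 b (w * swap x y) x y
  · have e2 : ncl E (R2 b (w * swap x y)) = ncl E (R2 b w) := by
      rw [← Jn.of_rel (R2_equiv _ _) hR, ← Jn.of_rel (R2_equiv _ _) hR', ← R2_jn]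
    have e3 : nc E (b * w⁻¹) ≤ nc E (b * (w * swap x y)⁻¹) + 1 := by
      rw [pi_swap]
      by_cases hp : (b * w⁻¹).SameCycle (w x) (w y)
      · rw [nc_split hpi (hw x hx) (hw y hy) hne hp]; omega
      · rw [nc_join hpi (hw x hx) (hw y hy) hne hp]
    unfold gen
    rw [e1, e2]
    push_cast
    omega
  · have e2 : ncl E (R2 b (w * swap x y)) = ncl E (R2 b w) + 1 := by
      rw [ncl_join (R2_equiv _ _) hx hy hR', ← R2_jn, Jn.of_rel (R2_equiv _ _) hR]
    have e3 : nc E (b * (w * swap x y)⁻¹) = nc E (b * w⁻¹) + 1 := by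
      rw [pi_swap]
      refine nc_split hpi (hw x hx) (hw y hy) hne ?_
      rw [dich hpi (hw y hy) hne, ← pi_swap]
      intro hs
      apply hR'
      have hr := R2_equiv b (w * swap x y)
      have k1 := R2_of_pi hs
      have k2 := R2_w b (w * swap x y) x
      have k3 := R2_w b (w * swap x y) y
      rw [Perm.mul_apply, swap_apply_left] at k2
      rw [Perm.mul_apply, swap_apply_right] at k3
      exact hr.trans k2 (hr.trans (hr.symm k1) (hr.symm k3))
    unfold gen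
    rw [e1, e2, e3]
    push_cast
    omega

/-- the same for the black cycles -/
lemma gen_split_b {E : Finset α} {b w : Perm α} (hb : ∀ z ∈ E, b z ∈ E) (hw : ∀ z ∈ E, w z ∈ E)
    {x y : α} (hx : x ∈ E) (hy : y ∈ E) (hxy : x ≠ y) (h : b.SameCycle x y) :
    gen E (b * swap x y) w ≤ gen E b w := by
  rw [gen_comm E (b * swap x y), gen_comm E b]
  exact gen_split hw hb hx hy hxy h

/-! ### Congruence -/

lemma ncl_congr {E : Finset α} {r s : α → α → Prop} (h : ∀ u ∈ E, ∀ v ∈ E, r u v ↔ s u v) :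
    ncl E r = ncl E s := by
  unfold ncl
  congr 1
  refine image_congr fun u hu => ?_
  ext v
  rw [mem_cls, mem_cls]
  exact ⟨fun k => ⟨k.1, (h u hu v k.1).1 k.2⟩, fun k => ⟨k.1, (h u hu v k.1).2 k.2⟩⟩

omit [DecidableEq α] in
lemma mem_pow {E : Finset α} {σ : Perm α} (h : ∀ z ∈ E, σ z ∈ E) {u : α} (hu : u ∈ E) (k : ℕ) :
    (σ ^ k) u ∈ E := by
  induction k with
  | zero => exact hu
  | succ n ih => rw [pow_succ', Perm.mul_apply]; exact h _ ih

omit [DecidableEq α] in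
lemma same_mem {E : Finset α} {σ : Perm α} (h : ∀ z ∈ E, σ z ∈ E) {u v : α} (hu : u ∈ E)
    (k : σ.SameCycle u v) : v ∈ E := by
  obtain ⟨n, hn, hn'⟩ := per h hu
  obtain ⟨m, -, rfl⟩ := lt_of_same hn hn' k
  exact mem_pow h hu m

omit [DecidableEq α] in
lemma same_congr {E : Finset α} {σ τ : Perm α} (h : ∀ z ∈ E, σ z ∈ E) (e : ∀ z ∈ E, σ z = τ z)
    {u v : α} (hu : u ∈ E) (k : σ.SameCycle u v) : τ.SameCycle u v := by
  obtain ⟨n, hn, hn'⟩ := per h hu
  obtain ⟨m, -, rfl⟩ := lt_of_same hn hn' k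
  refine ⟨(m : ℤ), ?_⟩
  rw [zpow_natCast]
  clear k
  induction m with
  | zero => rfl
  | succ m ih => rw [pow_succ', pow_succ', Perm.mul_apply, Perm.mul_apply, ih, e _ (mem_pow h hu m)]

lemma nc_congr {E : Finset α} {σ τ : Perm α} (h : ∀ z ∈ E, σ z ∈ E) (e : ∀ z ∈ E, σ z = τ z) :
    nc E σ = nc E τ :=
  ncl_congr fun _ hu _ _ => ⟨same_congr h e hu,
    same_congr (fun z hz => by rw [← e z hz]; exact h z hz) (fun z hz => (e z hz).symm) hu⟩

/-- the relation of the orbits inside a closed set -/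
lemma R2_congr {E : Finset α} {b w b' w' : Perm α} (hb : ∀ z ∈ E, b z ∈ E) (hw : ∀ z ∈ E, w z ∈ E)
    (eb : ∀ z ∈ E, b z = b' z) (ew : ∀ z ∈ E, w z = w' z) {u v : α} (hu : u ∈ E)
    (h : R2 b w u v) : v ∈ E ∧ R2 b' w' u v := by
  have hr := R2_equiv b' w'
  have hs : Equivalence (fun u v => (u ∈ E ↔ v ∈ E) ∧ (u ∈ E → R2 b' w' u v)) :=
    ⟨fun u => ⟨Iff.rfl, fun _ => hr.refl u⟩,
      fun h => ⟨h.1.symm, fun hv => hr.symm (h.2 (h.1.2 hv))⟩,
      fun h k => ⟨h.1.trans k.1, fun hv => hr.trans (h.2 hv) (k.2 (h.1.1 hv))⟩⟩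
  have hm : ∀ {σ : Perm α}, (∀ z ∈ E, σ z ∈ E) → ∀ u, u ∈ E ↔ σ u ∈ E := by
    intro σ h u
    refine ⟨h u, fun hu => ?_⟩
    have := inv_mem h hu
    rwa [show σ⁻¹ (σ u) = u from σ.symm_apply_apply u] at this
  have h1 := R2_le hs (fun u => ⟨hm hb u, fun hu => by rw [eb u hu]; exact R2_b b' w' u⟩)
    (fun u => ⟨hm hw u, fun hu => by rw [ew u hu]; exact R2_w b' w' u⟩) h
  exact ⟨h1.1.1 hu, h1.2 hu⟩

lemma gen_congr {E : Finset α} {b w b' w' : Perm α} (hb : ∀ z ∈ E, b z ∈ E) (hw : ∀ z ∈ E, w z ∈ E)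
    (eb : ∀ z ∈ E, b z = b' z) (ew : ∀ z ∈ E, w z = w' z) : gen E b w = gen E b' w' := by
  have hb' : ∀ z ∈ E, b' z ∈ E := fun z hz => by rw [← eb z hz]; exact hb z hz
  have hw' : ∀ z ∈ E, w' z ∈ E := fun z hz => by rw [← ew z hz]; exact hw z hz
  have e1 : ncl E (R2 b w) = ncl E (R2 b' w') := ncl_congr fun u hu v _ =>
    ⟨fun h => (R2_congr hb hw eb ew hu h).2, fun h => (R2_congr hb' hw' (fun z hz => (eb z hz).symm)
      (fun z hz => (ew z hz).symm) hu h).2⟩
  have e2 : ∀ z ∈ E, (b * w⁻¹) z = (b' * w'⁻¹) z := by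
    intro z hz
    have h1 : w⁻¹ z = w'⁻¹ z := by
      rw [Perm.inv_eq_iff_eq, ew _ (inv_mem hw' hz)]
      exact (w'.apply_symm_apply z).symm
    rw [Perm.mul_apply, Perm.mul_apply, ← h1, eb _ (inv_mem hw hz)]
  unfold gen
  rw [e1, nc_congr hb eb, nc_congr hw ew, nc_congr (σ := b * w⁻¹) (fun z hz => hb _ (inv_mem hw hz)) e2]

lemma gen_one (E : Finset α) (b : Perm α) : gen E b 1 = 0 := by
  have e1 : R2 b 1 = b.SameCycle := by
    funext u v
    refine propext ⟨fun h => R2_le (same_equiv b) (fun u => (Perm.SameCycle.refl b u).apply_right)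
      (fun u => Perm.SameCycle.refl b u) h, R2_of_b⟩
  have e2 : nc E (1 : Perm α) = E.card := by
    unfold nc ncl
    refine card_image_of_injOn fun u _ v hv h => ?_
    obtain ⟨m, hm⟩ := (cls_eq (same_equiv _) hv).1 h
    rw [one_zpow] at hm
    exact hm
  unfold gen
  rw [e1, e2, inv_one, mul_one]
  unfold nc
  ring

lemma del_eq (x : α) (σ : Perm α) : del x σ = σ * swap (σ⁻¹ x) x := by
  unfold del
  have h1 := swap_apply_apply σ (σ⁻¹ x) x
  rw [show σ (σ⁻¹ x) = x from σ.apply_symm_apply x] at h1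
  rw [h1]; group

lemma del_maps {E : Finset α} {σ : Perm α} (h : ∀ z ∈ E, σ z ∈ E) {x : α} (hx : x ∈ E) :
    ∀ z ∈ E, del x σ z ∈ E := by
  intro z hz
  unfold del
  rw [Perm.mul_apply, swap_apply_def]
  split_ifs
  · exact h x hx
  · exact hx
  · exact h z hz

lemma gen_del_w {E : Finset α} {b w : Perm α} (hb : ∀ z ∈ E, b z ∈ E) (hw : ∀ z ∈ E, w z ∈ E)
    {x : α} (hx : x ∈ E) : gen E b (del x w) ≤ gen E b w := by
  rw [del_eq]
  by_cases h : w⁻¹ x = x
  · rw [h, swap_self]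
    exact le_of_eq (congrArg _ (mul_one w))
  · refine gen_split hb hw (inv_mem hw hx) hx h ⟨1, ?_⟩
    rw [zpow_one]
    exact w.apply_symm_apply x

/-- **The genus is nonnegative.** -/
theorem gen_nonneg {E : Finset α} {b w : Perm α} (hb : ∀ z ∈ E, b z ∈ E) (hw : ∀ z ∈ E, w z ∈ E) :
    0 ≤ gen E b w := by
  classical
  induction hn : (E.filter (fun z => w z ≠ z)).card using Nat.strong_induction_on generalizing w with
  | _ n ih =>
    by_cases h : ∀ z ∈ E, w z = z
    · rw [gen_congr hb hw (fun _ _ => rfl) (w' := 1) (fun z hz => by rw [h z hz]; rfl), gen_one]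
    · push Not at h
      obtain ⟨x, hx, hx'⟩ := h
      refine le_trans (ih _ ?_ (del_maps hw hx) rfl) (gen_del_w hb hw hx)
      rw [← hn]
      refine card_lt_card ?_
      rw [Finset.ssubset_iff_of_subset]
      · exact ⟨x, mem_filter.2 ⟨hx, hx'⟩, fun h => (mem_filter.1 h).2 (del_self x w)⟩
      · intro z hz
        rw [mem_filter] at hz ⊢
        refine ⟨hz.1, fun h => hz.2 ?_⟩
        by_cases hzx : z = x
        · rw [hzx]; exact del_self x w
        · rw [del_of_ne (by rw [h]; exact hzx) hzx, h]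

/-! ### Additivity -/

lemma ncl_add {E X : Finset α} (hX : X ⊆ E) {r : α → α → Prop} (hr : Equivalence r)
    (h : ∀ u ∈ X, ∀ v, r u v → v ∈ X) : ncl E r = ncl X r + ncl (E \ X) r := by
  have e1 : ∀ u ∈ X, cls E r u = cls X r u := by
    intro u hu
    ext v
    rw [mem_cls, mem_cls]
    exact ⟨fun k => ⟨h u hu v k.2, k.2⟩, fun k => ⟨hX k.1, k.2⟩⟩
  have e2 : ∀ u ∈ E \ X, cls E r u = cls (E \ X) r u := by
    intro u hu
    ext v
    rw [mem_cls, mem_cls, mem_sdiff]
    exact ⟨fun k => ⟨⟨k.1, fun hv => (mem_sdiff.1 hu).2 (h v hv u (hr.symm k.2))⟩, k.2⟩,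
      fun k => ⟨k.1.1, k.2⟩⟩
  unfold ncl
  rw [← image_congr (f := cls E r) (g := cls X r) (fun u hu => e1 u hu),
    ← image_congr (f := cls E r) (g := cls (E \ X) r) (fun u hu => e2 u hu),
    ← card_union_of_disjoint, ← image_union, union_sdiff_of_subset hX]
  rw [disjoint_left]
  intro c hc hc'
  obtain ⟨u, hu, rfl⟩ := mem_image.1 hc
  obtain ⟨v, hv, e⟩ := mem_image.1 hc'
  rw [cls_eq hr (hX hu)] at e
  exact (mem_sdiff.1 hv).2 (h u hu v (hr.symm e))

/-- **The genus is additive.** -/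
lemma gen_add {E X : Finset α} (hX : X ⊆ E) {b w : Perm α} (hb : ∀ z ∈ X, b z ∈ X)
    (hw : ∀ z ∈ X, w z ∈ X) : gen E b w = gen X b w + gen (E \ X) b w := by
  have e1 := ncl_add hX (R2_equiv b w) (fun u hu v h =>
    (R2_congr hb hw (fun _ _ => rfl) (fun _ _ => rfl) hu h).1)
  have e2 : ∀ {σ : Perm α}, (∀ z ∈ X, σ z ∈ X) → nc E σ = nc X σ + nc (E \ X) σ :=
    fun {σ} h => ncl_add hX (same_equiv σ) (fun u hu v k => same_mem h hu k)
  have e3 := card_sdiff_add_card_eq_card hX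
  unfold gen
  rw [e1, e2 hb, e2 hw, e2 (σ := b * w⁻¹) (fun z hz => hb _ (inv_mem hw hz)), ← e3]
  push_cast
  ring

lemma gen_sdiff_maps {E X : Finset α} {σ : Perm α} (hE : ∀ z ∈ E, σ z ∈ E)
    (h : ∀ z ∈ X, σ z ∈ X) : ∀ z ∈ E \ X, σ z ∈ E \ X := by
  intro z hz
  rw [mem_sdiff] at hz ⊢
  refine ⟨hE z hz.1, fun hx => hz.2 ?_⟩
  have := inv_mem h hx
  rwa [show σ⁻¹ (σ z) = z from σ.symm_apply_apply z] at this

/-- an invariant subset of a set of genus `0` -/
lemma gen_sub {E X : Finset α} (hX : X ⊆ E) {b w : Perm α} (hb : ∀ z ∈ E, b z ∈ E)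
    (hw : ∀ z ∈ E, w z ∈ E) (hb' : ∀ z ∈ X, b z ∈ X) (hw' : ∀ z ∈ X, w z ∈ X) :
    gen X b w ≤ gen E b w := by
  have h1 := gen_add hX hb' hw'
  have h2 := gen_nonneg (gen_sdiff_maps hb hb') (gen_sdiff_maps hw hw')
  omega

lemma gen_erase {E : Finset α} {b w : Perm α} {x : α} (hx : x ∈ E) (hb : b x = x) (hw : w x = x) :
    gen (E.erase x) b w = gen E b w := by
  have h1 : gen {x} b w = 0 := by
    rw [gen_congr (b' := b) (w' := 1) (fun z hz => ?_) (fun z hz => ?_) (fun _ _ => rfl)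
      (fun z hz => ?_), gen_one]
    · rw [mem_singleton.1 hz, hb]; exact mem_singleton_self x
    · rw [mem_singleton.1 hz, hw]; exact mem_singleton_self x
    · rw [mem_singleton.1 hz, hw]; rfl
  have h2 := gen_add (E := E) (X := {x}) (b := b) (w := w) (singleton_subset_iff.2 hx)
    (fun z hz => by rw [mem_singleton.1 hz, hb]; exact mem_singleton_self x)
    (fun z hz => by rw [mem_singleton.1 hz, hw]; exact mem_singleton_self x)
  rw [h1, zero_add, sdiff_singleton_eq_erase] at h2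
  exact h2.symm

/-- **Deletion of a point does not increase the genus.** -/
theorem gen_del {E : Finset α} {b w : Perm α} (hb : ∀ z ∈ E, b z ∈ E) (hw : ∀ z ∈ E, w z ∈ E)
    {x : α} (hx : x ∈ E) : gen (E.erase x) (del x b) (del x w) ≤ gen E b w := by
  rw [gen_erase hx (del_self x b) (del_self x w)]
  refine le_trans (gen_del_w (del_maps hb hx) hw hx) ?_
  rw [gen_comm E (del x b), gen_comm E b]
  exact gen_del_w hw hb hx

/-! ### Networks -/

variable {V : Type*} (N : Net α V)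

/-- the genus of the network -/
noncomputable def ge : ℤ := gen N.E N.b N.w

variable {N} in
lemma Conn.ncl_eq (h : N.Conn) : ncl N.E (R2 N.b N.w) = 1 := by
  unfold ncl
  have h1 : ∀ x ∈ N.E, cls N.E (R2 N.b N.w) x = N.E := by
    intro x hx
    refine h _ (fun y hy => (mem_cls.1 hy).1) ⟨x, mem_cls.2 ⟨hx, (R2_equiv _ _).refl x⟩⟩ ?_
    intro y hy
    obtain ⟨hy, hr⟩ := mem_cls.1 hy
    exact ⟨mem_cls.2 ⟨N.b_mem_iff.2 hy, (R2_equiv _ _).trans hr (R2_b _ _ y)⟩,
      mem_cls.2 ⟨N.w_mem_iff.2 hy, (R2_equiv _ _).trans hr (R2_w _ _ y)⟩⟩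
  rw [image_congr (g := fun _ => N.E) (fun x hx => h1 x hx), image_const ⟨N.i, N.hi⟩, card_singleton]

variable {N} in
lemma Conn.ge_eq (h : N.Conn) : N.ge = N.E.card + 2 - (cycs N.E N.b).card - (cycs N.E N.w).card -
    (cycs N.E N.pi).card := by
  unfold ge gen
  rw [h.ncl_eq]
  rfl

lemma ge_nonneg : 0 ≤ N.ge :=
  gen_nonneg (fun _ hz => N.b_mem_iff.2 hz) (fun _ hz => N.w_mem_iff.2 hz)

/-- **Ree's inequality.** -/
theorem ree (h : N.Conn) :
    (cycs N.E N.b).card + (cycs N.E N.w).card + (cycs N.E N.pi).card ≤ N.E.card + 2 := by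
  have h1 := N.ge_nonneg
  rw [h.ge_eq] at h1
  omega

variable {N} in
lemma Conn.euler_iff (h : N.Conn) :
    (cycs N.E N.b).card + (cycs N.E N.w).card + (cycs N.E N.pi).card = N.E.card + 2 ↔ N.ge = 0 := by
  rw [h.ge_eq]
  omega

end Net
end Pool.Agent.ZF
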