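import Mathlib
import Pool.Agent.ZF.Ret

set_option autoImplicit false
open Finset Equiv

/-! # Operations on networks

`contr N x q` : contraction of the strand `x` (the plates at its ends are merged, `q` maps the labels; a loop
strand with `q = id`). `deltriv N x` : deletion of the trivial plate `{x}`. `splitB N x v`, `splitW N x v` :
the tail `x` is cut off its plate and becomes a trivial plate with the label `v`, if the plate is black
(white). `restr N X` : restriction to a set which is closed under `b` and `w`. -/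

namespace Pool.Agent.ZF

variable {α V : Type*}

lemma ais (σ : Perm α) (x : α) : σ (σ⁻¹ x) = x := σ.apply_symm_apply x

section del

variable [DecidableEq α] {x y z : α} {σ : Perm α}

/-- the deleted permutation -/
lemma del_apply (hy : y ≠ x) : del x σ y = if σ y = x then σ x else σ y := by
  split_ifs with h
  · exact del_of_eq h
  · exact del_of_ne h hy

lemma del_ne (hy : y ≠ x) : del x σ y ≠ x := by
  rw [del_apply hy]
  split_ifs with h
  · intro h1
    exact hy (σ.injective (h.trans h1.symm))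
  · exact h

lemma del_inv_of (h : σ y = z) (hy : y ≠ x) (hz : z ≠ x) : (del x σ)⁻¹ z = y := by
  rw [Perm.inv_eq_iff_eq, del_of_ne (by rw [h]; exact hz) hy, h]

lemma del_fix {E : Finset α} (hσ : ∀ y, y ∉ E → σ y = y) (_ : x ∈ E) (hy : y ∉ E.erase x) :
    del x σ y = y := by
  by_cases h : y = x
  · rw [h, del_self]
  · have h1 : y ∉ E := fun h2 => hy (mem_erase.2 ⟨h, h2⟩)
    rw [del_of_ne (by rw [hσ y h1]; exact h) h, hσ y h1]

end del

namespace Net

section basic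

variable (N : Net α V)

lemma wm {x : α} (hx : x ∈ N.E) : N.w x ∈ N.E := by
  by_contra h
  exact h (by rw [N.w.injective (N.hw _ h)]; exact hx)

lemma bm {x : α} (hx : x ∈ N.E) : N.b x ∈ N.E := by
  by_contra h
  exact h (by rw [N.b.injective (N.hb _ h)]; exact hx)

lemma wim {x : α} (hx : x ∈ N.E) : N.w⁻¹ x ∈ N.E := by
  by_contra h
  have h1 := N.hw _ h
  rw [ais] at h1
  rw [← h1] at h; exact h hx

lemma bim {x : α} (hx : x ∈ N.E) : N.b⁻¹ x ∈ N.E := by
  by_contra h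
  have h1 := N.hb _ h
  rw [ais] at h1
  rw [← h1] at h; exact h hx

lemma w_eq_i {x : α} : N.w x = N.i ↔ N.b x = N.i := by
  rw [← Perm.eq_inv_iff_eq, ← Perm.eq_inv_iff_eq, N.mi]

lemma w_eq_o {x : α} : N.w x = N.o ↔ N.b x = N.o := by
  rw [← Perm.eq_inv_iff_eq, ← Perm.eq_inv_iff_eq, N.mo]

variable [DecidableEq V]

lemma step_of_mem {S : Finset V} {x : α} (h : N.lab (N.w x) ∈ S) : N.step S x = N.b x := if_pos h
lemma step_of_not {S : Finset V} {x : α} (h : N.lab (N.w x) ∉ S) : N.step S x = N.w x := if_neg h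
lemma cost_of_mem {S : Finset V} {x : α} (h : N.lab (N.w x) ∈ S) : N.cost S x = N.cb x := if_pos h
lemma cost_of_not {S : Finset V} {x : α} (h : N.lab (N.w x) ∉ S) : N.cost S x = N.cw x := if_neg h

lemma stp_mem {S : Finset V} {x : α} (hx : x ∈ N.E) : N.step S x ∈ N.E := by
  unfold step
  split_ifs
  · exact N.bm hx
  · exact N.wm hx

end basic

variable [DecidableEq α] (N : Net α V)

/-! ### Contraction -/

/-- The strand `x` can be contracted if the labels are mapped by `q`. -/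
structure Contr (x : α) (q : V → V) : Prop where
  hx : x ∈ N.E
  hi : x ≠ N.i
  ho : x ≠ N.o
  wi : N.w x ≠ N.i
  wo : N.w x ≠ N.o
  hq : q (N.lab x) = q (N.lab (N.w x))

variable {N} in
/-- **Contraction of the strand `x`.** -/
def contr {x : α} {q : V → V} (h : N.Contr x q) : Net α V where
  E := N.E.erase x
  b := del x N.b
  w := del x N.w
  cb := fun y => if N.b y = x then N.cb y + N.cb x else N.cb y
  cw := fun y => if N.w y = x then N.cw y + N.cw x else N.cw y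
  lab := fun y => q (N.lab y)
  i := N.i
  o := N.o
  hb := fun _ hy => del_fix N.hb h.hx hy
  hw := fun _ hy => del_fix N.hw h.hx hy
  hlab := fun y => by
    by_cases hy : y = x
    · rw [hy, del_self, del_self]
    rw [del_apply hy, del_apply hy]
    have h1 := N.hlab y
    have h2 := N.hlab x
    have h3 := h.hq
    split_ifs with hb hw hw
    · rw [h2]
    · rw [h2, ← h3, ← h1, hb]
    · rw [h1, hw, h3]
    · rw [h1]
  hi := mem_erase.2 ⟨h.hi.symm, N.hi⟩
  ho := mem_erase.2 ⟨h.ho.symm, N.ho⟩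
  hio := N.hio
  mi := by
    have h1 : N.w (N.w⁻¹ N.i) = N.i := ais _ _
    have h2 : N.w⁻¹ N.i ≠ x := fun h3 => h.wi (by rw [← h3]; exact h1)
    rw [del_inv_of (N.w_eq_i.1 h1) h2 h.hi.symm, del_inv_of h1 h2 h.hi.symm]
  mo := by
    have h1 : N.w (N.w⁻¹ N.o) = N.o := ais _ _
    have h2 : N.w⁻¹ N.o ≠ x := fun h3 => h.wo (by rw [← h3]; exact h1)
    rw [del_inv_of (N.w_eq_o.1 h1) h2 h.ho.symm, del_inv_of h1 h2 h.ho.symm]
  ci := by
    have h1 : N.w (N.w⁻¹ N.i) = N.i := ais _ _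
    have h2 : N.w⁻¹ N.i ≠ x := fun h3 => h.wi (by rw [← h3]; exact h1)
    rw [del_inv_of h1 h2 h.hi.symm, h1, N.w_eq_i.1 h1, if_neg h.hi.symm, if_neg h.hi.symm]
    exact N.ci
  co := by
    have h1 : N.w (N.w⁻¹ N.o) = N.o := ais _ _
    have h2 : N.w⁻¹ N.o ≠ x := fun h3 => h.wo (by rw [← h3]; exact h1)
    rw [del_inv_of h1 h2 h.ho.symm, h1, N.w_eq_o.1 h1, if_neg h.ho.symm, if_neg h.ho.symm]
    exact N.co

/-! ### Trivial plates -/

/-- `{x}` is a trivial plate. -/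
structure Triv (x : α) : Prop where
  hx : x ∈ N.E
  hi : x ≠ N.i
  ho : x ≠ N.o
  ht : N.b⁻¹ x = N.w⁻¹ x
  hc : N.cb (N.w⁻¹ x) = N.cw (N.w⁻¹ x)

omit [DecidableEq α] in
variable {N} in
lemma Triv.iff {x y : α} (h : N.Triv x) : N.b y = x ↔ N.w y = x := by
  rw [← Perm.eq_inv_iff_eq, ← Perm.eq_inv_iff_eq, h.ht]

omit [DecidableEq α] in
variable {N} in
lemma Triv.cost {x y : α} (h : N.Triv x) (hy : N.w y = x) : N.cb y = N.cw y := by
  have h1 : y = N.w⁻¹ x := Perm.eq_inv_iff_eq.2 hy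
  rw [h1]; exact h.hc

variable {N} in
/-- **Deletion of the trivial plate `{x}`.** -/
def deltriv {x : α} (h : N.Triv x) : Net α V where
  E := N.E.erase x
  b := del x N.b
  w := del x N.w
  cb := fun y => if N.b y = x then N.cb y + N.cb x else N.cb y
  cw := fun y => if N.w y = x then N.cw y + N.cw x else N.cw y
  lab := N.lab
  i := N.i
  o := N.o
  hb := fun _ hy => del_fix N.hb h.hx hy
  hw := fun _ hy => del_fix N.hw h.hx hy
  hlab := fun y => by
    by_cases hy : y = x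
    · rw [hy, del_self, del_self]
    rw [del_apply hy, del_apply hy]
    by_cases hw : N.w y = x
    · rw [if_pos hw, if_pos (h.iff.2 hw), N.hlab]
    · rw [if_neg hw, if_neg (fun hb => hw (h.iff.1 hb)), N.hlab]
  hi := mem_erase.2 ⟨h.hi.symm, N.hi⟩
  ho := mem_erase.2 ⟨h.ho.symm, N.ho⟩
  hio := N.hio
  mi := by
    have h1 : N.w (N.w⁻¹ N.i) = N.i := ais _ _
    by_cases h2 : N.w⁻¹ N.i = x
    · rw [h2] at h1
      have h3 : N.w (N.w⁻¹ x) = x := ais _ _
      have h4 : N.w⁻¹ x ≠ x := fun h5 => by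
        rw [h5, h1] at h3; exact h.hi h3.symm
      have e1 : (del x N.b)⁻¹ N.i = N.w⁻¹ x := by
        rw [Perm.inv_eq_iff_eq, del_of_eq (h.iff.2 h3), N.w_eq_i.1 h1]
      have e2 : (del x N.w)⁻¹ N.i = N.w⁻¹ x := by
        rw [Perm.inv_eq_iff_eq, del_of_eq h3, h1]
      rw [e1, e2]
    · rw [del_inv_of (N.w_eq_i.1 h1) h2 h.hi.symm, del_inv_of h1 h2 h.hi.symm]
  mo := by
    have h1 : N.w (N.w⁻¹ N.o) = N.o := ais _ _
    by_cases h2 : N.w⁻¹ N.o = x
    · rw [h2] at h1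
      have h3 : N.w (N.w⁻¹ x) = x := ais _ _
      have e1 : (del x N.b)⁻¹ N.o = N.w⁻¹ x := by
        rw [Perm.inv_eq_iff_eq, del_of_eq (h.iff.2 h3), N.w_eq_o.1 h1]
      have e2 : (del x N.w)⁻¹ N.o = N.w⁻¹ x := by
        rw [Perm.inv_eq_iff_eq, del_of_eq h3, h1]
      rw [e1, e2]
    · rw [del_inv_of (N.w_eq_o.1 h1) h2 h.ho.symm, del_inv_of h1 h2 h.ho.symm]
  ci := by
    have h1 : N.w (N.w⁻¹ N.i) = N.i := ais _ _
    by_cases h2 : N.w⁻¹ N.i = x
    · rw [h2] at h1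
      have h3 : N.w (N.w⁻¹ x) = x := ais _ _
      have e2 : (del x N.w)⁻¹ N.i = N.w⁻¹ x := by
        rw [Perm.inv_eq_iff_eq, del_of_eq h3, h1]
      have e3 := N.ci
      rw [h2] at e3
      rw [e2, if_pos h3, if_pos (h.iff.2 h3), h.hc, e3]
    · rw [del_inv_of h1 h2 h.hi.symm, h1, N.w_eq_i.1 h1, if_neg h.hi.symm, if_neg h.hi.symm]
      exact N.ci
  co := by
    have h1 : N.w (N.w⁻¹ N.o) = N.o := ais _ _
    by_cases h2 : N.w⁻¹ N.o = x
    · rw [h2] at h1
      have h3 : N.w (N.w⁻¹ x) = x := ais _ _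
      have e2 : (del x N.w)⁻¹ N.o = N.w⁻¹ x := by
        rw [Perm.inv_eq_iff_eq, del_of_eq h3, h1]
      have e3 := N.co
      rw [h2] at e3
      rw [e2, if_pos h3, if_pos (h.iff.2 h3), h.hc, e3]
    · rw [del_inv_of h1 h2 h.ho.symm, h1, N.w_eq_o.1 h1, if_neg h.ho.symm, if_neg h.ho.symm]
      exact N.co

/-! ### Cutting off a tail -/

/-- The tail `x` can be cut off its plate. -/
structure Spl (x : α) : Prop where
  hx : x ∈ N.E
  hi : x ≠ N.i
  ho : x ≠ N.o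
  hn : N.b⁻¹ x ≠ N.w⁻¹ x

variable {N} in
/-- **The tail `x` is cut off its plate, black plate.** -/
def splitB {x : α} (h : N.Spl x) (v : V) : Net α V where
  E := N.E
  b := N.b
  w := N.w * swap (N.b⁻¹ x) (N.w⁻¹ x)
  cb := N.cb
  cw := fun y => if y = N.b⁻¹ x then N.cb y else if y = N.w⁻¹ x then
    N.cw y + N.cw (N.b⁻¹ x) - N.cb (N.b⁻¹ x) - 4 else N.cw y
  lab := Function.update N.lab x v
  i := N.i
  o := N.o
  hb := N.hb
  hw := fun y hy => by
    rw [Perm.mul_apply, swap_apply_of_ne_of_ne, N.hw y hy]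
    · rintro rfl; exact hy (N.bim h.hx)
    · rintro rfl; exact hy (N.wim h.hx)
  hlab := fun y => by
    rw [Perm.mul_apply]
    by_cases h1 : y = N.b⁻¹ x
    · rw [h1, swap_apply_left, ais, ais]
    have h3 : N.b y ≠ x := fun h4 => h1 (Perm.eq_inv_iff_eq.2 h4)
    by_cases h2 : y = N.w⁻¹ x
    · have h5 : N.w (N.b⁻¹ x) ≠ x := fun h4 => h.hn (Perm.eq_inv_iff_eq.2 h4)
      rw [h2] at h3
      rw [h2, swap_apply_right, Function.update_of_ne h3, Function.update_of_ne h5, ← N.hlab (N.b⁻¹ x),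
        N.hlab (N.w⁻¹ x), ais, ais]
    · have h4 : N.w y ≠ x := fun h4 => h2 (Perm.eq_inv_iff_eq.2 h4)
      rw [swap_apply_of_ne_of_ne h1 h2, Function.update_of_ne h3, Function.update_of_ne h4, N.hlab]
  hi := N.hi
  ho := N.ho
  hio := N.hio
  mi := by
    have h1 : N.w (N.w⁻¹ N.i) = N.i := ais _ _
    have h2 : N.w⁻¹ N.i ≠ N.b⁻¹ x := fun h3 => by
      rw [← N.mi] at h3; exact h.hi (N.b⁻¹.injective h3).symm
    have h4 : N.w⁻¹ N.i ≠ N.w⁻¹ x := fun h3 => h.hi (N.w⁻¹.injective h3).symm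
    rw [N.mi]
    symm
    rw [Perm.inv_eq_iff_eq, Perm.mul_apply, swap_apply_of_ne_of_ne h2 h4, h1]
  mo := by
    have h1 : N.w (N.w⁻¹ N.o) = N.o := ais _ _
    have h2 : N.w⁻¹ N.o ≠ N.b⁻¹ x := fun h3 => by
      rw [← N.mo] at h3; exact h.ho (N.b⁻¹.injective h3).symm
    have h4 : N.w⁻¹ N.o ≠ N.w⁻¹ x := fun h3 => h.ho (N.w⁻¹.injective h3).symm
    rw [N.mo]
    symm
    rw [Perm.inv_eq_iff_eq, Perm.mul_apply, swap_apply_of_ne_of_ne h2 h4, h1]
  ci := by
    have h1 : N.w (N.w⁻¹ N.i) = N.i := ais _ _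
    have h2 : N.w⁻¹ N.i ≠ N.b⁻¹ x := fun h3 => by
      rw [← N.mi] at h3; exact h.hi (N.b⁻¹.injective h3).symm
    have h4 : N.w⁻¹ N.i ≠ N.w⁻¹ x := fun h3 => h.hi (N.w⁻¹.injective h3).symm
    have h5 : (N.w * swap (N.b⁻¹ x) (N.w⁻¹ x))⁻¹ N.i = N.w⁻¹ N.i := by
      rw [Perm.inv_eq_iff_eq, Perm.mul_apply, swap_apply_of_ne_of_ne h2 h4, h1]
    rw [h5, if_neg h2, if_neg h4]
    exact N.ci
  co := by
    have h1 : N.w (N.w⁻¹ N.o) = N.o := ais _ _
    have h2 : N.w⁻¹ N.o ≠ N.b⁻¹ x := fun h3 => by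
      rw [← N.mo] at h3; exact h.ho (N.b⁻¹.injective h3).symm
    have h4 : N.w⁻¹ N.o ≠ N.w⁻¹ x := fun h3 => h.ho (N.w⁻¹.injective h3).symm
    have h5 : (N.w * swap (N.b⁻¹ x) (N.w⁻¹ x))⁻¹ N.o = N.w⁻¹ N.o := by
      rw [Perm.inv_eq_iff_eq, Perm.mul_apply, swap_apply_of_ne_of_ne h2 h4, h1]
    rw [h5, if_neg h2, if_neg h4]
    exact N.co

variable {N} in
/-- **The tail `x` is cut off its plate, white plate.** -/
def splitW {x : α} (h : N.Spl x) (v : V) : Net α V where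
  E := N.E
  b := N.b * swap (N.w⁻¹ x) (N.b⁻¹ x)
  w := N.w
  cb := fun y => if y = N.w⁻¹ x then N.cw y else if y = N.b⁻¹ x then
    N.cb y + N.cb (N.w⁻¹ x) - N.cw (N.w⁻¹ x) + 4 else N.cb y
  cw := N.cw
  lab := Function.update N.lab x v
  i := N.i
  o := N.o
  hb := fun y hy => by
    rw [Perm.mul_apply, swap_apply_of_ne_of_ne, N.hb y hy]
    · rintro rfl; exact hy (N.wim h.hx)
    · rintro rfl; exact hy (N.bim h.hx)
  hw := N.hw
  hlab := fun y => by
    rw [Perm.mul_apply]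
    by_cases h1 : y = N.w⁻¹ x
    · rw [h1, swap_apply_left, ais, ais]
    have h3 : N.w y ≠ x := fun h4 => h1 (Perm.eq_inv_iff_eq.2 h4)
    by_cases h2 : y = N.b⁻¹ x
    · have h5 : N.b (N.w⁻¹ x) ≠ x := fun h4 => h.hn (Perm.eq_inv_iff_eq.2 h4).symm
      rw [h2] at h3
      rw [h2, swap_apply_right, Function.update_of_ne h3, Function.update_of_ne h5, N.hlab (N.w⁻¹ x),
        ← N.hlab (N.b⁻¹ x), ais, ais]
    · have h4 : N.b y ≠ x := fun h4 => h2 (Perm.eq_inv_iff_eq.2 h4)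
      rw [swap_apply_of_ne_of_ne h1 h2, Function.update_of_ne h3, Function.update_of_ne h4, N.hlab]
  hi := N.hi
  ho := N.ho
  hio := N.hio
  mi := by
    have h1 : N.b (N.w⁻¹ N.i) = N.i := N.w_eq_i.1 (ais _ _)
    have h2 : N.w⁻¹ N.i ≠ N.b⁻¹ x := fun h3 => by
      rw [← N.mi] at h3; exact h.hi (N.b⁻¹.injective h3).symm
    have h4 : N.w⁻¹ N.i ≠ N.w⁻¹ x := fun h3 => h.hi (N.w⁻¹.injective h3).symm
    rw [Perm.inv_eq_iff_eq, Perm.mul_apply, swap_apply_of_ne_of_ne h4 h2, h1]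
  mo := by
    have h1 : N.b (N.w⁻¹ N.o) = N.o := N.w_eq_o.1 (ais _ _)
    have h2 : N.w⁻¹ N.o ≠ N.b⁻¹ x := fun h3 => by
      rw [← N.mo] at h3; exact h.ho (N.b⁻¹.injective h3).symm
    have h4 : N.w⁻¹ N.o ≠ N.w⁻¹ x := fun h3 => h.ho (N.w⁻¹.injective h3).symm
    rw [Perm.inv_eq_iff_eq, Perm.mul_apply, swap_apply_of_ne_of_ne h4 h2, h1]
  ci := by
    have h2 : N.w⁻¹ N.i ≠ N.b⁻¹ x := fun h3 => by
      rw [← N.mi] at h3; exact h.hi (N.b⁻¹.injective h3).symm
    have h4 : N.w⁻¹ N.i ≠ N.w⁻¹ x := fun h3 => h.hi (N.w⁻¹.injective h3).symm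
    rw [if_neg h4, if_neg h2]
    exact N.ci
  co := by
    have h2 : N.w⁻¹ N.o ≠ N.b⁻¹ x := fun h3 => by
      rw [← N.mo] at h3; exact h.ho (N.b⁻¹.injective h3).symm
    have h4 : N.w⁻¹ N.o ≠ N.w⁻¹ x := fun h3 => h.ho (N.w⁻¹.injective h3).symm
    rw [if_neg h4, if_neg h2]
    exact N.co

/-! ### Restriction -/

/-- `X` is closed under the two permutations and contains the marks. -/
structure Cld (X : Finset α) : Prop where
  sub : X ⊆ N.E
  b : ∀ x, N.b x ∈ X ↔ x ∈ X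
  w : ∀ x, N.w x ∈ X ↔ x ∈ X
  hi : N.i ∈ X
  ho : N.o ∈ X

omit [DecidableEq α] in
/-- a finite set which is mapped into itself by a permutation -/
lemma mem_iff_of_maps {σ : Perm α} {X : Finset α} (h : ∀ x ∈ X, σ x ∈ X) (x : α) : σ x ∈ X ↔ x ∈ X := by
  classical
  refine ⟨fun hx => ?_, h x⟩
  have h1 : X.image σ = X :=
    eq_of_subset_of_card_le (fun y hy => by
      obtain ⟨z, hz, rfl⟩ := mem_image.1 hy
      exact h z hz) (by rw [card_image_of_injective _ σ.injective])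
  rw [← h1, mem_image] at hx
  obtain ⟨z, hz, e⟩ := hx
  rw [← σ.injective e]; exact hz

/-- the permutation on `X`, the identity outside -/
def res (σ : Perm α) (X : Finset α) (h : ∀ x, σ x ∈ X ↔ x ∈ X) : Perm α :=
  (σ.subtypePerm (p := (· ∈ X)) h).ofSubtype

lemma res_mem {σ : Perm α} {X : Finset α} (h : ∀ x, σ x ∈ X ↔ x ∈ X) {x : α} (hx : x ∈ X) :
    res σ X h x = σ x := by
  unfold res
  rw [Perm.ofSubtype_apply_of_mem _ hx]
  rfl

lemma res_not {σ : Perm α} {X : Finset α} (h : ∀ x, σ x ∈ X ↔ x ∈ X) {x : α} (hx : x ∉ X) :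
    res σ X h x = x := by
  unfold res
  rw [Perm.ofSubtype_apply_of_not_mem _ hx]

lemma res_inv {σ : Perm α} {X : Finset α} (h : ∀ x, σ x ∈ X ↔ x ∈ X) {x : α} (hx : x ∈ X) :
    (res σ X h)⁻¹ x = σ⁻¹ x := by
  have h1 : σ (σ⁻¹ x) = x := ais _ _
  rw [Perm.inv_eq_iff_eq, res_mem h ((h _).1 (by rw [h1]; exact hx)), h1]

variable {N} in
/-- **Restriction to a closed set.** -/
def restr {X : Finset α} (h : N.Cld X) : Net α V where
  E := X
  b := res N.b X h.b
  w := res N.w X h.w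
  cb := N.cb
  cw := N.cw
  lab := N.lab
  i := N.i
  o := N.o
  hb := fun _ hy => res_not h.b hy
  hw := fun _ hy => res_not h.w hy
  hlab := fun y => by
    by_cases hy : y ∈ X
    · rw [res_mem h.b hy, res_mem h.w hy, N.hlab]
    · rw [res_not h.b hy, res_not h.w hy]
  hi := h.hi
  ho := h.ho
  hio := N.hio
  mi := by rw [res_inv h.b h.hi, res_inv h.w h.hi, N.mi]
  mo := by rw [res_inv h.b h.ho, res_inv h.w h.ho, N.mo]
  ci := by rw [res_inv h.w h.hi]; exact N.ci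
  co := by rw [res_inv h.w h.ho]; exact N.co

end Net

end Pool.Agent.ZF
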