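import Mathlib
import Pool.Agent.ZF.Genus
import Pool.Agent.ZF.Ops

set_option autoImplicit false
open Finset Equiv

/-! # The genus of a network under the operations, the component of `o` -/

namespace Pool.Agent.ZF
namespace Net

variable {α : Type*} [DecidableEq α]

/-! ### Conjugation -/

lemma nc_conj {E : Finset α} {g σ : Perm α} (hg : ∀ z ∈ E, g z ∈ E) :
    nc E (g * σ * g⁻¹) = nc E σ := by
  have e1 : ∀ u v, (g * σ * g⁻¹).SameCycle u v ↔ σ.SameCycle (g⁻¹ u) (g⁻¹ v) :=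
    fun u v => Perm.sameCycle_conj
  have e2 : E.image (cls E (g * σ * g⁻¹).SameCycle) =
      (E.image (cls E σ.SameCycle)).image (fun c => c.image g) := by
    have e3 : ∀ u ∈ E, cls E (g * σ * g⁻¹).SameCycle (g u) = (cls E σ.SameCycle u).image g := by
      intro u hu
      ext v
      rw [mem_cls, mem_image, e1, show g⁻¹ (g u) = u from g.symm_apply_apply u]
      constructor
      · rintro ⟨hv, h⟩
        exact ⟨g⁻¹ v, mem_cls.2 ⟨inv_mem hg hv, h⟩, g.apply_symm_apply v⟩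
      · rintro ⟨z, hz, rfl⟩
        obtain ⟨hz, h⟩ := mem_cls.1 hz
        refine ⟨hg z hz, ?_⟩
        rw [show g⁻¹ (g z) = z from g.symm_apply_apply z]
        exact h
    ext c
    rw [mem_image, mem_image]
    constructor
    · rintro ⟨u, hu, rfl⟩
      refine ⟨cls E σ.SameCycle (g⁻¹ u), mem_image_of_mem _ (inv_mem hg hu), ?_⟩
      show (cls E σ.SameCycle (g⁻¹ u)).image g = _
      rw [← e3 _ (inv_mem hg hu), show g (g⁻¹ u) = u from g.apply_symm_apply u]
    · rintro ⟨c, hc, rfl⟩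
      obtain ⟨u, hu, rfl⟩ := mem_image.1 hc
      exact ⟨g u, hg u hu, e3 u hu⟩
  unfold nc ncl
  rw [e2]
  exact card_image_of_injective _ (Finset.image_injective g.injective)

/-- `b` and `π` instead of `b` and `w` -/
lemma gen_pi {E : Finset α} {b w : Perm α} (hb : ∀ z ∈ E, b z ∈ E) :
    gen E b (b * w⁻¹) = gen E b w := by
  have e1 : R2 b (b * w⁻¹) = R2 b w := by
    funext u v
    refine propext ⟨fun h => R2_le (R2_equiv b w) (R2_b b w)
      (fun u => R2_of_pi (Perm.SameCycle.refl _ u).apply_right) h,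
      fun h => R2_le (R2_equiv _ _) (R2_b _ _) (fun u => ?_) h⟩
    have hr := R2_equiv b (b * w⁻¹)
    have h1 := R2_w b (b * w⁻¹) (w u)
    rw [Perm.mul_apply, show w⁻¹ (w u) = u from w.symm_apply_apply u] at h1
    exact hr.trans (R2_b _ _ u) (hr.symm h1)
  have e2 : b * (b * w⁻¹)⁻¹ = b * w * b⁻¹ := by group
  unfold gen
  rw [e1, e2, nc_conj hb]
  ring

/-- a tail is cut off its plate -/
lemma gen_cut {E : Finset α} {b w : Perm α} (hb : ∀ z ∈ E, b z ∈ E) (hw : ∀ z ∈ E, w z ∈ E)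
    {x : α} (hx : x ∈ E) (hn : b⁻¹ x ≠ w⁻¹ x) :
    gen E b (w * swap (b⁻¹ x) (w⁻¹ x)) ≤ gen E b w := by
  have hpi : ∀ z ∈ E, (b * w⁻¹) z ∈ E := fun z hz => hb _ (inv_mem hw hz)
  rw [← gen_pi hb, ← gen_pi (w := w) hb, pi_swap]
  have h1 : w (w⁻¹ x) = x := w.apply_symm_apply x
  have h2 : (b * w⁻¹) (w (b⁻¹ x)) = x := by
    rw [Perm.mul_apply, show w⁻¹ (w (b⁻¹ x)) = b⁻¹ x from w.symm_apply_apply _]
    exact b.apply_symm_apply x
  rw [h1]
  refine gen_split hb hpi (hw _ (inv_mem hb hx)) hx (fun h => hn ?_) ⟨1, ?_⟩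
  · rw [Perm.eq_inv_iff_eq]; exact h
  · rw [zpow_one]; exact h2

variable {V : Type*} {N : Net α V}

lemma ge_contr {x : α} {q : V → V} (h : N.Contr x q) : (contr h).ge ≤ N.ge :=
  gen_del (fun _ hz => N.b_mem_iff.2 hz) (fun _ hz => N.w_mem_iff.2 hz) h.hx

lemma ge_deltriv {x : α} (h : N.Triv x) : (deltriv h).ge ≤ N.ge :=
  gen_del (fun _ hz => N.b_mem_iff.2 hz) (fun _ hz => N.w_mem_iff.2 hz) h.hx

lemma ge_splitB {x : α} (h : N.Spl x) (v : V) [DecidableEq V] : (splitB h v).ge ≤ N.ge :=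
  gen_cut (fun _ hz => N.b_mem_iff.2 hz) (fun _ hz => N.w_mem_iff.2 hz) h.hx h.hn

lemma ge_splitW {x : α} (h : N.Spl x) (v : V) [DecidableEq V] : (splitW h v).ge ≤ N.ge := by
  show gen N.E (N.b * swap (N.w⁻¹ x) (N.b⁻¹ x)) N.w ≤ gen N.E N.b N.w
  rw [gen_comm, gen_comm N.E N.b]
  exact gen_cut (fun _ hz => N.w_mem_iff.2 hz) (fun _ hz => N.b_mem_iff.2 hz) h.hx h.hn.symm

lemma ge_restr_eq {X : Finset α} (h : N.Cld X) : (restr h).ge = gen X N.b N.w :=
  (gen_congr (fun z hz => (h.b z).2 hz) (fun z hz => (h.w z).2 hz)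
    (fun _ hz => (res_mem h.b hz).symm) (fun _ hz => (res_mem h.w hz).symm)).symm

lemma ge_restr {X : Finset α} (h : N.Cld X) : (restr h).ge ≤ N.ge := by
  rw [ge_restr_eq h]
  exact gen_sub h.sub (fun _ hz => N.b_mem_iff.2 hz) (fun _ hz => N.w_mem_iff.2 hz)
    (fun z hz => (h.b z).2 hz) (fun z hz => (h.w z).2 hz)

/-! ### The component of `o` -/

variable (N)

/-- the component of `o` -/
noncomputable def comp : Finset α := cls N.E (R2 N.b N.w) N.o

lemma R2_mem {x y : α} (hx : x ∈ N.E) (h : R2 N.b N.w x y) : y ∈ N.E :=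
  (R2_congr (fun _ hz => N.b_mem_iff.2 hz) (fun _ hz => N.w_mem_iff.2 hz) (fun _ _ => rfl)
    (fun _ _ => rfl) hx h).1

lemma mem_comp {x : α} : x ∈ N.comp ↔ R2 N.b N.w N.o x := by
  unfold comp
  rw [mem_cls]
  exact ⟨fun h => h.2, fun h => ⟨N.R2_mem N.ho h, h⟩⟩

omit [DecidableEq α] in
lemma comp_sub : N.comp ⊆ N.E := fun _ hx => (mem_cls.1 hx).1

lemma o_mem_comp : N.o ∈ N.comp := N.mem_comp.2 ((R2_equiv _ _).refl _)

lemma comp_b (x : α) : N.b x ∈ N.comp ↔ x ∈ N.comp := by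
  have hr := R2_equiv N.b N.w
  rw [mem_comp, mem_comp]
  exact ⟨fun h => hr.trans h (hr.symm (R2_b _ _ x)), fun h => hr.trans h (R2_b _ _ x)⟩

lemma comp_w (x : α) : N.w x ∈ N.comp ↔ x ∈ N.comp := by
  have hr := R2_equiv N.b N.w
  rw [mem_comp, mem_comp]
  exact ⟨fun h => hr.trans h (hr.symm (R2_w _ _ x)), fun h => hr.trans h (R2_w _ _ x)⟩

/-- the component of `o` is the smallest closed set which contains `o` -/
lemma comp_min {X : Finset α} (ho : N.o ∈ X) (h : ∀ x ∈ X, N.b x ∈ X ∧ N.w x ∈ X) : N.comp ⊆ X := by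
  intro x hx
  exact (R2_congr (fun z hz => (h z hz).1) (fun z hz => (h z hz).2) (fun _ _ => rfl)
    (fun _ _ => rfl) ho (N.mem_comp.1 hx)).1

variable {N}

lemma cld_comp (h : N.i ∈ N.comp) : N.Cld N.comp :=
  ⟨N.comp_sub, N.comp_b, N.comp_w, h, N.o_mem_comp⟩

lemma comp_conn (h : N.Cld N.comp) : (restr h).Conn := by
  intro X hX ⟨x, hx⟩ hcl
  refine subset_antisymm hX fun y hy => ?_
  have hr := R2_equiv N.b N.w
  have hxy : R2 N.b N.w x y :=
    hr.trans (hr.symm (N.mem_comp.1 (hX hx))) (N.mem_comp.1 hy)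
  refine (R2_congr (E := X) (b' := N.b) (w' := N.w) (fun z hz => ?_) (fun z hz => ?_)
    (fun _ _ => rfl) (fun _ _ => rfl) hx hxy).1
  · have := (hcl z hz).1
    rwa [show (restr h).b z = N.b z from res_mem h.b (hX hz)] at this
  · have := (hcl z hz).2
    rwa [show (restr h).w z = N.w z from res_mem h.w (hX hz)] at this

lemma Conn.comp_eq (h : N.Conn) : N.comp = N.E :=
  h _ N.comp_sub ⟨_, N.o_mem_comp⟩ fun x hx => ⟨(N.comp_b x).2 hx, (N.comp_w x).2 hx⟩

/-- the Euler equality of the component of `o` -/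
lemma comp_euler (h : N.Cld N.comp) (hg : N.ge = 0) :
    (cycs (restr h).E (restr h).b).card + (cycs (restr h).E (restr h).w).card +
      (cycs (restr h).E (restr h).pi).card = (restr h).E.card + 2 := by
  rw [(comp_conn h).euler_iff]
  exact le_antisymm (by rw [← hg]; exact ge_restr h) (ge_nonneg _)

lemma Pl.ge_eq (h : N.Pl) : N.ge = 0 := h.conn.euler_iff.1 h.euler

end Net
end Pool.Agent.ZF
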