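import Pool.Agent.ZF.Contact

set_option autoImplicit false
set_option linter.unusedSectionVars false
open Finset Complex Set Filter Topology

/-! # Irrelevance (ZFLEAN, layer 1) -/

namespace Pool.Agent.ZF

variable {V : Type*} [Fintype V] [DecidableEq V]
variable {k : (V → Bool) → ℤ} {A : Set (V → Bool)} {Φ : ℝ}

/-- change the colour of `v` -/
def flip (v : V) (s : V → Bool) : V → Bool := Function.update s v (!(s v))

lemma flip_self (v : V) (s : V → Bool) : flip v s v = !(s v) := by simp [flip]

lemma flip_ne {v w : V} (h : w ≠ v) (s : V → Bool) : flip v s w = s w := by simp [flip, h]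

lemma flip_flip (v : V) (s : V → Bool) : flip v (flip v s) = s := by
  ext w
  by_cases h : w = v
  · subst h; rw [flip_self, flip_self, Bool.not_not]
  · rw [flip_ne h, flip_ne h]

/-- `flip v` as a permutation of the states -/
def flipE (v : V) : (V → Bool) ≃ (V → Bool) := ⟨flip v, flip v, flip_flip v, flip_flip v⟩

/-- `v` is irrelevant on `C`: flipping `v` changes neither alive nor the index -/
def IrrOn (k : (V → Bool) → ℤ) (v : V) (C : Set (V → Bool)) : Prop :=
  ∀ s ∈ C, flip v s ∈ C ∧ k (flip v s) = k s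

lemma wt_flip {C : Set (V → Bool)} {v : V} (h : IrrOn k v C) (θ : Par V) (b : Bool)
    (s : V → Bool) :
    θ.2 v (!b) * wt k (sl C v b) θ s = θ.2 v b * wt k (sl C v (!b)) θ (flip v s) := by
  by_cases hs : s ∈ sl C v b
  · have h1 := h s hs.1
    have h2 : flip v s ∈ sl C v (!b) := ⟨h1.1, by rw [flip_self, hs.2]⟩
    unfold wt
    rw [if_pos hs, if_pos h2, h1.2]
    have h3 : ∀ t : V → Bool, ∏ w, θ.2 w (t w) = θ.2 v (t v) * ∏ w ∈ univ.erase v, θ.2 w (t w) :=
      fun t => (mul_prod_erase univ _ (mem_univ v)).symm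
    rw [h3 s, h3 (flip v s), flip_self, hs.2]
    have h4 : ∏ w ∈ univ.erase v, θ.2 w (flip v s w) = ∏ w ∈ univ.erase v, θ.2 w (s w) := by
      refine prod_congr rfl fun w hw => ?_
      rw [flip_ne (ne_of_mem_erase hw)]
    rw [h4]
    ring
  · have h2 : flip v s ∉ sl C v (!b) := by
      intro h2
      apply hs
      have h3 := (h _ h2.1).1
      rw [flip_flip] at h3
      refine ⟨h3, ?_⟩
      have := h2.2
      rw [flip_self] at this
      exact Bool.not_inj this
    rw [wt_off hs, wt_off h2]
    ring

lemma nw_flip {C : Set (V → Bool)} {v : V} (h : IrrOn k v C) {θ : Par V} (hθ : θ.Pos) (b : Bool)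
    (s : V → Bool) : nw k (sl C v b) θ s = nw k (sl C v (!b)) θ (flip v s) := by
  have h1 : ∀ b, 0 < θ.2 v b := hθ v
  have h2 : θ.2 v (!b) * tot k (sl C v b) θ = θ.2 v b * tot k (sl C v (!b)) θ := by
    unfold tot
    rw [mul_sum, mul_sum, ← Equiv.sum_comp (flipE v) fun s => θ.2 v b * wt k (sl C v (!b)) θ s]
    exact sum_congr rfl fun s _ => wt_flip h θ b s
  have h3 := wt_flip h θ b s
  have h4 : tot k (sl C v b) θ = θ.2 v b / θ.2 v (!b) * tot k (sl C v (!b)) θ := by
    have := (h1 (!b)).ne'
    field_simp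
    linarith
  have h5 : wt k (sl C v b) θ s = θ.2 v b / θ.2 v (!b) * wt k (sl C v (!b)) θ (flip v s) := by
    have := (h1 (!b)).ne'
    field_simp
    linarith
  simp only [nw, Pi.smul_apply, smul_eq_mul]
  rw [h4, h5, mul_inv]
  have h6 := (h1 (!b)).ne'
  have h7 := (h1 b).ne'
  field_simp

lemma lw_flip {U : Ultrafilter (Par V)} (hU : UPos U) {C : Set (V → Bool)} {v : V}
    (h : IrrOn k v C) (b : Bool) (s : V → Bool) :
    lw U k (sl C v b) s = lw U k (sl C v (!b)) (flip v s) := by
  have h1 := (tendsto_pi_nhds.1 (tendsto_lw (k := k) (A := sl C v b) hU)) s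
  have h2 := (tendsto_pi_nhds.1 (tendsto_lw (k := k) (A := sl C v (!b)) hU)) (flip v s)
  exact tendsto_nhds_unique h1 (h2.congr' (hU.mono fun θ hθ => (nw_flip h hθ b s).symm))

lemma Th_flip {U : Ultrafilter (Par V)} (hU : UPos U) {C : Set (V → Bool)} {v : V}
    (h : IrrOn k v C) (b : Bool) (φ : ℝ) : Th U k φ (sl C v b) = Th U k φ (sl C v (!b)) := by
  have key : ∀ (F : ℤ → ℂ), ∑ s, (lw U k (sl C v b) s : ℂ) * F (k s) =
      ∑ s, (lw U k (sl C v (!b)) s : ℂ) * F (k s) := by
    intro F
    rw [← Equiv.sum_comp (flipE v) fun s => (lw U k (sl C v (!b)) s : ℂ) * F (k s)]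
    refine sum_congr rfl fun s _ => ?_
    change _ = (lw U k (sl C v (!b)) (flip v s) : ℂ) * F (k (flip v s))
    rw [← lw_flip hU h b s]
    by_cases hs : s ∈ sl C v b
    · rw [(h s hs.1).2]
    · rw [lw_off hU hs]; simp
  unfold Th th
  congr 1
  ext t
  congr 1
  unfold Df Zf
  rw [key fun n => n * exp (t * I * n), key fun n => exp (t * I * n)]

lemma irr_nonempty {C : Set (V → Bool)} {v : V} (h : IrrOn k v C) (b : Bool)
    (hn : (sl C v b).Nonempty) : (sl C v (!b)).Nonempty := by
  obtain ⟨s, hs⟩ := hn
  exact ⟨flip v s, (h s hs.1).1, by rw [flip_self, hs.2]⟩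

namespace Contact

variable (c : Contact k Φ A) (hmin : ∀ v b, Good k Φ (sl A v b))
include c hmin

/-- **Irrelevance.** In a contact no site `v` is irrelevant given one colour of another site. -/
theorem irrelevance {u v : V} (a : Bool) (h : IrrOn k v (sl A u a)) : False := by
  have h1 : ∀ b, Th c.U k c.φ (sl (sl A u a) v b) = Th c.U k c.φ (sl (sl A u a) v (!b)) :=
    fun b => Th_flip c.hU h b c.φ
  rcases Bool.eq_or_eq_not a (c.up u) with rfl | rfl
  · have n1 := c.uu_ne hmin u v
    have n2 := irr_nonempty h _ n1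
    have h2 := (c.uu hmin u v).1
    have h3 := (c.ud hmin u v n2).2
    rw [h1] at h2
    linarith
  · have n1 := c.dd_ne hmin u v
    have n2 := irr_nonempty h _ n1
    rw [Bool.not_not] at n2
    have h2 := (c.dd hmin u v).2
    rw [sl_comm] at n2
    have h3 := (c.ud hmin v u n2).1
    rw [sl_comm, h1] at h3
    linarith

end Contact

/-! ### Simple sufficient conditions -/

/-- if a colour of `v` kills everything, `A` is as good as the other restriction -/
lemma good_of_kill {v : V} {b : Bool} (h : ¬ (sl A v b).Nonempty) (hg : Good k Φ (sl A v (!b))) :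
    Good k Φ A := by
  have := sl_eq_of_empty (C := A) (v := v) (b := !b) (by rwa [Bool.not_not])
  rwa [this] at hg

lemma Pr_off {c : (V → Bool) → ℝ} (hc : c ∈ closure (Pr k A)) {s : V → Bool} (hs : s ∉ A) :
    c s = 0 := by
  have h1 : IsClosed {c : (V → Bool) → ℝ | c s = 0} :=
    isClosed_eq (continuous_apply s) continuous_const
  refine closure_minimal ?_ h1 hc
  rintro _ ⟨l, θ, -, -, rfl⟩
  change (l • wt k A θ) s = 0
  rw [Pi.smul_apply]
  rw [wt_off hs, smul_zero]

/-- constant index (for instance at most one alive state) -/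
lemma good_of_const {n : ℤ} (h : ∀ s ∈ A, k s = n) : Good k Φ A := by
  intro c hc h0 ζ _
  have h1 : Zf k c ζ = ((∑ s, c s : ℝ) : ℂ) * exp (ζ * n) := by
    unfold Zf
    push_cast
    rw [sum_mul]
    refine sum_congr rfl fun s _ => ?_
    by_cases hs : s ∈ A
    · rw [h s hs]
    · rw [Pr_off hc hs]; simp
  rw [h1]
  exact mul_ne_zero (by exact_mod_cast (sum_pos_of (Pr_nonneg hc) h0).ne') (exp_ne_zero _)

open Classical in
/-- a globally irrelevant site -/
lemma good_of_irr {v : V} (h : IrrOn k v A) {b : Bool} (hg : Good k Φ (sl A v b)) : Good k Φ A := by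
  intro c hc h0 ζ hζ
  set G : ((V → Bool) → ℝ) → ((V → Bool) → ℝ) :=
    fun c s => if s v = b then c s + c (flip v s) else 0 with hG
  have hGc : Continuous G := by
    rw [hG]
    refine continuous_pi fun s => ?_
    split_ifs
    · fun_prop
    · exact continuous_const
  have hmem : G c ∈ closure (Pr k (sl A v b)) := by
    refine map_mem_closure hGc hc ?_
    rintro _ ⟨l, θ, hl, hθ, rfl⟩
    have h1 : ∀ b, 0 < θ.2 v b := hθ v
    refine ⟨l * (1 + θ.2 v (!b) / θ.2 v b), θ, mul_pos hl ?_, hθ, ?_⟩
    · have := div_pos (h1 (!b)) (h1 b); linarith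
    · ext s
      simp only [hG, Pi.smul_apply, smul_eq_mul]
      by_cases hs : s v = b
      · rw [if_pos hs]
        have h2 := wt_flip h θ b s
        by_cases hA : s ∈ A
        · have h3 : s ∈ sl A v b := ⟨hA, hs⟩
          have h4 : flip v s ∈ sl A v (!b) := ⟨(h s hA).1, by rw [flip_self, hs]⟩
          rw [wt_sub (A := A) (B := sl A v b) h3 hA, wt_sub (A := A) (B := sl A v (!b)) h4 h4.1]
          have h5 : wt k (sl A v (!b)) θ (flip v s) = θ.2 v (!b) / θ.2 v b * wt k (sl A v b) θ s := by
            have := (h1 b).ne'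
            field_simp
            linarith
          rw [h5]
          ring
        · have h4 : flip v s ∉ A := fun h4 => hA (by have := (h _ h4).1; rwa [flip_flip] at this)
          rw [wt_off hA, wt_off h4, wt_off (A := sl A v b) fun h => hA h.1]
          ring
      · rw [if_neg hs, wt_off (A := sl A v b) fun h => hs h.2, mul_zero]
  have hG0 : G c ≠ 0 := by
    obtain ⟨s, hs⟩ := Function.ne_iff.1 h0
    have hp := Pr_nonneg hc
    have hs1 : 0 < c s := lt_of_le_of_ne (hp s) (Ne.symm hs)
    intro h1
    by_cases hb : s v = b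
    · have h2 := congrFun h1 s
      simp only [hG, if_pos hb, Pi.zero_apply] at h2
      have := hp (flip v s)
      simp only [Pi.zero_apply] at this
      linarith
    · have h2 := congrFun h1 (flip v s)
      have h3 : flip v s v = b := by
        rw [flip_self]
        cases b <;> cases h : s v <;> simp_all
      simp only [hG, if_pos h3, Pi.zero_apply, flip_flip] at h2
      have := hp (flip v s)
      simp only [Pi.zero_apply] at this
      linarith
  have hZ : Zf k (G c) ζ = Zf k c ζ := by
    have h1 : Zf k c ζ = ∑ s, (if s v = b then (c s : ℂ) * exp (ζ * k s) else 0) +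
        ∑ s, (if s v = b then 0 else (c s : ℂ) * exp (ζ * k s)) := by
      unfold Zf
      rw [← sum_add_distrib]
      refine sum_congr rfl fun s _ => ?_
      split_ifs <;> simp
    rw [h1, ← Equiv.sum_comp (flipE v) fun s => (if s v = b then 0 else (c s : ℂ) * exp (ζ * k s)),
      ← sum_add_distrib]
    unfold Zf
    refine sum_congr rfl fun s _ => ?_
    change _ = _ + (if flip v s v = b then 0 else (c (flip v s) : ℂ) * exp (ζ * k (flip v s)))
    simp only [hG, flip_self]
    by_cases hb : s v = b
    · have h2 : (!(s v)) ≠ b := by rw [hb]; simp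
      rw [if_pos hb, if_pos hb, if_neg h2]
      by_cases hA : s ∈ A
      · rw [(h s hA).2]; push_cast; ring
      · have h4 : flip v s ∉ A := fun h4 => hA (by have := (h _ h4).1; rwa [flip_flip] at this)
        rw [Pr_off hc hA, Pr_off hc h4]; simp
    · have h2 : (!(s v)) = b := by
        cases b <;> cases h : s v <;> simp_all
      rw [if_neg hb, if_neg hb, if_pos h2]
      simp
  rw [← hZ]
  exact hg _ hmem hG0 ζ hζ

/-! ### Transfer to other site sets -/

/-- the states of `V` given by a colouring of `V'`: `v` copies `v'` (`inl v'`) or is fixed (`inr b`) -/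
def ext {V' : Type*} (π : V → V' ⊕ Bool) (s' : V' → Bool) : V → Bool :=
  fun v => Sum.elim s' id (π v)

/-- **Transfer.** Fixing and merging sites: if the network on `V'` is good, so is the network on `V`
restricted to the states `ext π s'`. -/
theorem good_transfer {V' : Type*} [Fintype V'] [DecidableEq V'] (π : V → V' ⊕ Bool)
    (hπ : ∀ v', ∃ v, π v = Sum.inl v') {k' : (V' → Bool) → ℤ} {A' : Set (V' → Bool)} {n : ℤ}
    (hsub : ∀ s ∈ A, ∃ s', ext π s' = s) (hA : ∀ s', s' ∈ A' ↔ ext π s' ∈ A)
    (hk : ∀ s' ∈ A', k (ext π s') = k' s' + n) (hg : Good k' Φ A') : Good k Φ A := by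
  have hinj : Function.Injective (ext (V := V) π) := by
    intro s t h
    ext v'
    obtain ⟨v, hv⟩ := hπ v'
    have := congrFun h v
    simpa [ext, hv] using this
  intro c hc h0 ζ hζ
  have hmem : (fun s' => c (ext π s')) ∈ closure (Pr k' A') := by
    refine map_mem_closure (f := fun (c : (V → Bool) → ℝ) (s' : V' → Bool) => c (ext π s'))
      (by fun_prop) hc ?_
    rintro _ ⟨l, θ, hl, hθ, rfl⟩
    set q : V → ℝ := fun v => Sum.elim (fun _ => 1) (fun b => θ.2 v b) (π v) with hq
    have hq0 : ∀ v, 0 < q v := by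
      intro v
      rw [hq]; dsimp only
      rcases π v with v' | b
      · exact one_pos
      · exact hθ v b
    refine ⟨l * Real.exp (θ.1 * n) * ∏ v, q v,
      (θ.1, fun v' b => ∏ v ∈ univ.filter (fun v => π v = Sum.inl v'), θ.2 v b), ?_, ?_, ?_⟩
    · exact mul_pos (mul_pos hl (Real.exp_pos _)) (prod_pos fun v _ => hq0 v)
    · intro v' b
      exact prod_pos fun v _ => hθ v b
    · ext s'
      simp only [Pi.smul_apply, smul_eq_mul, wt]
      by_cases hs : s' ∈ A'
      · rw [if_pos hs, if_pos ((hA s').1 hs), hk s' hs]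
        have h1 : ∏ v, θ.2 v (ext π s' v) = (∏ v, q v) *
            ∏ v', ∏ v ∈ univ.filter (fun v => π v = Sum.inl v'), θ.2 v (s' v') := by
          have h2 : ∀ v' : V', ∏ v ∈ univ.filter (fun v => π v = Sum.inl v'), θ.2 v (s' v') =
              ∏ v, if π v = Sum.inl v' then θ.2 v (s' v') else 1 := by
            intro v'
            rw [prod_filter]
          rw [prod_congr rfl fun v' _ => h2 v', Finset.prod_comm, ← prod_mul_distrib]
          refine prod_congr rfl fun v _ => ?_
          rw [hq]
          unfold ext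
          rcases hv : π v with v' | b
          · have h3 : ∀ w : V', (if (Sum.inl v' : V' ⊕ Bool) = Sum.inl w then θ.2 v (s' w) else 1) =
                if v' = w then θ.2 v (s' w) else 1 := by
              intro w
              simp only [Sum.inl.injEq]
            simp only [Sum.elim_inl]
            rw [prod_congr rfl fun w _ => h3 w, prod_ite_eq univ v']
            simp [hv]
          · simp [hv]
        rw [h1]
        push_cast
        rw [mul_add, Real.exp_add]
        ring
      · rw [if_neg hs, if_neg fun h => hs ((hA s').2 h)]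
        ring
  have hne : (fun s' => c (ext π s')) ≠ 0 := by
    obtain ⟨s, hs⟩ := Function.ne_iff.1 h0
    have hsA : s ∈ A := by
      by_contra h
      exact hs (Pr_off hc h)
    obtain ⟨s', rfl⟩ := hsub s hsA
    intro h
    exact hs (congrFun h s')
  have hZ : Zf k c ζ = exp (ζ * n) * Zf k' (fun s' => c (ext π s')) ζ := by
    unfold Zf
    rw [mul_sum]
    have h1 : ∑ s', exp (ζ * n) * ((c (ext π s') : ℂ) * exp (ζ * k' s')) =
        ∑ s', (c (ext π s') : ℂ) * exp (ζ * k (ext π s')) := by
      refine sum_congr rfl fun s' _ => ?_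
      by_cases hs : s' ∈ A'
      · rw [hk s' hs]
        push_cast
        rw [mul_add, exp_add]
        ring
      · rw [Pr_off hc fun h => hs ((hA s').2 h)]
        simp
    rw [h1]
    symm
    apply sum_of_injOn (ext π) hinj.injOn
    · intro s _; simp
    · intro s _ hs
      have : s ∉ A := by
        intro h
        obtain ⟨s', h1⟩ := hsub s h
        exact hs ⟨s', by simp, h1⟩
      rw [Pr_off hc this]
      simp
    · intro s _; rfl
  rw [hZ]
  exact mul_ne_zero (exp_ne_zero _) (hg _ hmem hne ζ hζ)

end Pool.Agent.ZF
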