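import Mathlib

set_option autoImplicit false
open Finset Complex Set

/-! # Exponential sums and their lifted arguments (ZFLEAN, layer 1)

`Zf k c ζ = ∑ c s * exp (ζ * k s)`, `th k c B` = the lifted argument of `Zf k c` along the segment from
`0` to `B * I` (it starts at `0`, where the sum is positive). -/

namespace Pool.Agent.ZF

variable {S : Type*} [Fintype S]

/-- exponential sum -/
noncomputable def Zf (k : S → ℤ) (c : S → ℝ) (ζ : ℂ) : ℂ := ∑ s, (c s : ℂ) * exp (ζ * k s)

/-- its derivative -/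
noncomputable def Df (k : S → ℤ) (c : S → ℝ) (ζ : ℂ) : ℂ := ∑ s, (c s : ℂ) * (k s * exp (ζ * k s))

variable (k : S → ℤ)

lemma hasDerivAt_Zf (c : S → ℝ) (ζ : ℂ) : HasDerivAt (Zf k c) (Df k c ζ) ζ := by
  unfold Zf Df
  apply HasDerivAt.fun_sum
  intro s _
  apply HasDerivAt.const_mul
  have h1 : HasDerivAt (fun ζ : ℂ => ζ * (k s : ℂ)) (k s) ζ := by
    simpa using (hasDerivAt_id ζ).mul_const (k s : ℂ)
  have h2 := h1.cexp
  rw [mul_comm] at h2
  exact h2

lemma continuous_Df (c : S → ℝ) : Continuous (Df k c) := by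
  unfold Df
  fun_prop

lemma continuous_Zf (c : S → ℝ) : Continuous (Zf k c) := by
  unfold Zf
  fun_prop

lemma differentiable_Zf (c : S → ℝ) : Differentiable ℂ (Zf k c) :=
  fun ζ => (hasDerivAt_Zf k c ζ).differentiableAt

lemma Zf_add (c c' : S → ℝ) (ζ : ℂ) : Zf k (c + c') ζ = Zf k c ζ + Zf k c' ζ := by
  unfold Zf
  rw [← sum_add_distrib]
  refine sum_congr rfl fun s _ => ?_
  rw [Pi.add_apply]; push_cast; ring

lemma Zf_smul (x : ℝ) (c : S → ℝ) (ζ : ℂ) : Zf k (x • c) ζ = x * Zf k c ζ := by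
  unfold Zf
  rw [mul_sum]
  refine sum_congr rfl fun s _ => ?_
  rw [Pi.smul_apply, smul_eq_mul]; push_cast; ring

lemma Df_smul (x : ℝ) (c : S → ℝ) (ζ : ℂ) : Df k (x • c) ζ = x * Df k c ζ := by
  unfold Df
  rw [mul_sum]
  refine sum_congr rfl fun s _ => ?_
  rw [Pi.smul_apply, smul_eq_mul]; push_cast; ring

lemma Df_add (c c' : S → ℝ) (ζ : ℂ) : Df k (c + c') ζ = Df k c ζ + Df k c' ζ := by
  unfold Df
  rw [← sum_add_distrib]
  refine sum_congr rfl fun s _ => ?_
  rw [Pi.add_apply]; push_cast; ring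

lemma Zf_real (c : S → ℝ) (x : ℝ) : Zf k c x = ((∑ s, c s * Real.exp (x * k s) : ℝ) : ℂ) := by
  unfold Zf
  push_cast
  rfl

lemma sum_pos_of {c : S → ℝ} (h0 : 0 ≤ c) (h1 : c ≠ 0) : 0 < ∑ s, c s := by
  obtain ⟨s, hs⟩ := Function.ne_iff.1 h1
  exact sum_pos' (fun s _ => h0 s) ⟨s, mem_univ s, lt_of_le_of_ne (h0 s) (Ne.symm hs)⟩

lemma Zf_zero_eq (c : S → ℝ) : Zf k c 0 = ((∑ s, c s : ℝ) : ℂ) := by
  unfold Zf
  push_cast
  simp

/-- the sum has no zero on the segment `[0, B * I]` -/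
def NZ (c : S → ℝ) (B : ℝ) : Prop := ∀ t ∈ Icc (0 : ℝ) B, Zf k c (t * I) ≠ 0

lemma NZ.mono {c : S → ℝ} {B B' : ℝ} (h : NZ k c B) (hB : B' ≤ B) : NZ k c B' :=
  fun t ht => h t ⟨ht.1, ht.2.trans hB⟩

/-- lifted argument -/
noncomputable def th (c : S → ℝ) (B : ℝ) : ℝ := ∫ t in (0 : ℝ)..B, (Df k c (t * I) / Zf k c (t * I)).re

lemma th_zero (c : S → ℝ) : th k c 0 = 0 := by simp [th]

lemma th_smul {x : ℝ} (hx : x ≠ 0) (c : S → ℝ) (B : ℝ) : th k (x • c) B = th k c B := by
  unfold th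
  congr 1
  ext t
  rw [Zf_smul, Df_smul, mul_div_mul_left]
  exact_mod_cast hx

variable {k}

lemma th_cont_aux {c : S → ℝ} {B : ℝ} (h : NZ k c B) :
    ContinuousOn (fun t : ℝ => Df k c (t * I) / Zf k c (t * I)) (Icc 0 B) := by
  apply ContinuousOn.div
  · exact ((continuous_Df k c).comp (by fun_prop)).continuousOn
  · exact ((continuous_Zf k c).comp (by fun_prop)).continuousOn
  · exact fun t ht => h t ht

lemma th_intble {c : S → ℝ} {B : ℝ} (h : NZ k c B) {t : ℝ} (ht : t ∈ Icc (0 : ℝ) B) :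
    IntervalIntegrable (fun t : ℝ => Df k c (t * I) / Zf k c (t * I)) MeasureTheory.volume 0 t := by
  apply ContinuousOn.intervalIntegrable
  rw [uIcc_of_le ht.1]
  exact (th_cont_aux h).mono (Icc_subset_Icc le_rfl ht.2)

lemma th_continuousOn {c : S → ℝ} {B : ℝ} (hB : 0 ≤ B) (h : NZ k c B) :
    ContinuousOn (fun t => th k c t) (Icc 0 B) := by
  have h1 : MeasureTheory.IntegrableOn (fun t : ℝ => (Df k c (t * I) / Zf k c (t * I)).re)
      (Icc 0 B) MeasureTheory.volume := by
    apply ContinuousOn.integrableOn_Icc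
    exact continuous_re.comp_continuousOn (th_cont_aux h)
  exact intervalIntegral.continuousOn_primitive_interval (by rwa [uIcc_of_le hB]) |>.mono
    (by rw [uIcc_of_le hB])

/-- the lift, complex form -/
lemma th_exp {c : S → ℝ} {B : ℝ} (hB : 0 ≤ B) (h : NZ k c B) :
    Zf k c (B * I) = Zf k c 0 * exp (I * ∫ u in (0 : ℝ)..B, Df k c (u * I) / Zf k c (u * I)) := by
  set q : ℝ → ℂ := fun t => Df k c (t * I) / Zf k c (t * I) with hq
  have hqc : ContinuousOn q (Icc 0 B) := th_cont_aux h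
  set r : ℝ → ℂ := IccExtend hB ((Icc (0 : ℝ) B).domRestrict q) with hr
  have hrc : Continuous r := (continuousOn_iff_continuous_domRestrict.1 hqc).Icc_extend'
  have hrq : ∀ t ∈ Icc (0 : ℝ) B, r t = q t := by
    intro t ht
    rw [hr, IccExtend_of_mem _ _ ht]; rfl
  set L : ℝ → ℂ := fun t => ∫ u in (0 : ℝ)..t, r u with hL
  have hLd : ∀ t, HasDerivAt L (r t) t := fun t => hrc.integral_hasStrictDerivAt 0 t |>.hasDerivAt
  have hZ : ∀ t : ℝ, HasDerivAt (fun t : ℝ => Zf k c (t * I)) (Df k c (t * I) * I) t := by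
    intro t
    have h1 : HasDerivAt (fun t : ℝ => (t : ℂ) * I) I t := by
      simpa using (hasDerivAt_id t).ofReal_comp.mul_const I
    exact (hasDerivAt_Zf k c (t * I)).comp t h1
  have hG : ∀ t : ℝ, HasDerivAt (fun t : ℝ => Zf k c (t * I) * exp (-(I * L t)))
      (Df k c (t * I) * I * exp (-(I * L t)) + Zf k c (t * I) * (exp (-(I * L t)) * -(I * r t))) t :=
    fun t => (hZ t).mul ((hLd t).const_mul I).neg.cexp
  have hconst : ∀ t ∈ Icc (0 : ℝ) B, Zf k c (t * I) * exp (-(I * L t)) =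
      Zf k c ((0 : ℝ) * I) * exp (-(I * L 0)) := by
    apply constant_of_has_deriv_right_zero
    · exact (continuous_iff_continuousAt.2 fun t => (hG t).continuousAt).continuousOn
    · intro t ht
      have ht' : t ∈ Icc (0 : ℝ) B := ⟨ht.1, ht.2.le⟩
      convert (hG t).hasDerivWithinAt using 1
      have hne := h t ht'
      rw [hrq t ht', hq]
      field_simp
      ring
  have hB1 := hconst B ⟨hB, le_rfl⟩
  have hL0 : L 0 = 0 := by simp [hL]
  have hLB : L B = ∫ u in (0 : ℝ)..B, q u := by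
    rw [hL]
    apply intervalIntegral.integral_congr
    intro u hu
    rw [uIcc_of_le hB] at hu
    exact hrq u hu
  rw [hL0, mul_zero, neg_zero, exp_zero, mul_one] at hB1
  have h0 : ((0 : ℝ) : ℂ) * I = 0 := by simp
  rw [h0] at hB1
  rw [← hLB, ← hB1, mul_assoc, ← exp_add]
  simp

lemma th_spec {c : S → ℝ} {B : ℝ} (hB : 0 ≤ B) (h : NZ k c B) (h0 : 0 ≤ c) :
    Zf k c (B * I) = (‖Zf k c (B * I)‖ : ℂ) * exp (th k c B * I) := by
  have h1 := th_exp hB h
  set Q : ℂ := ∫ u in (0 : ℝ)..B, Df k c (u * I) / Zf k c (u * I) with hQ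
  have hre : Q.re = th k c B := by
    rw [hQ, th]
    exact (intervalIntegral.intervalIntegral_re (th_intble h ⟨hB, le_rfl⟩)).symm
  have hpos : 0 ≤ ∑ s, c s := sum_nonneg fun s _ => h0 s
  have h2 : ‖Zf k c (B * I)‖ = (∑ s, c s) * Real.exp (-Q.im) := by
    rw [h1, norm_mul, Zf_zero_eq, norm_real, Real.norm_of_nonneg hpos, norm_exp]
    simp
  rw [h2, h1, Zf_zero_eq]
  push_cast
  rw [mul_assoc, ← exp_add, ← hre]
  congr 2
  apply Complex.ext <;> simp

lemma NZ.norm_pos {c : S → ℝ} {B : ℝ} (hB : 0 ≤ B) (h : NZ k c B) : 0 < ‖Zf k c (B * I)‖ :=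
  norm_pos_iff.2 (h B ⟨hB, le_rfl⟩)

lemma NZ.smul {c : S → ℝ} {B x : ℝ} (hx : x ≠ 0) (h : NZ k c B) : NZ k (x • c) B := by
  intro t ht
  rw [Zf_smul]
  exact mul_ne_zero (by exact_mod_cast hx) (h t ht)

/-- equality of directions -/
lemma dir_eq {c c' : S → ℝ} {B : ℝ} (hB : 0 ≤ B) (h0 : 0 ≤ c) (h0' : 0 ≤ c') (h : NZ k c B)
    (h' : NZ k c' B) : ∃ x : ℝ, 0 < x ∧
      Zf k c (B * I) = x * exp ((th k c B - th k c' B : ℝ) * I) * Zf k c' (B * I) := by
  refine ⟨‖Zf k c (B * I)‖ / ‖Zf k c' (B * I)‖, div_pos (h.norm_pos hB) (h'.norm_pos hB), ?_⟩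
  have h1 : (‖Zf k c' (B * I)‖ : ℂ) ≠ 0 := by exact_mod_cast (h'.norm_pos hB).ne'
  have e1 := th_spec hB h h0
  have e2 := th_spec hB h' h0'
  set A : ℝ := ‖Zf k c (B * I)‖
  set A' : ℝ := ‖Zf k c' (B * I)‖
  rw [e1, e2]
  push_cast
  rw [sub_mul, sub_eq_add_neg, exp_add, exp_neg]
  have h2 : exp (th k c' B * I) ≠ 0 := exp_ne_zero _
  field_simp

/-- two compatible sums have lifted arguments less than `π` apart -/
lemma compat {c c' : S → ℝ} {B : ℝ} (hB : 0 ≤ B) (h0 : 0 ≤ c) (h0' : 0 ≤ c') (h : NZ k c B)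
    (h' : NZ k c' B) (hx : ∀ x : ℝ, 0 < x → NZ k (c + x • c') B) :
    |th k c B - th k c' B| < Real.pi := by
  by_contra hcon
  push Not at hcon
  have hc : ContinuousOn (fun t => |th k c t - th k c' t|) (Icc 0 B) :=
    ((th_continuousOn hB h).sub (th_continuousOn hB h')).abs
  have h1 : Real.pi ∈ Icc (|th k c 0 - th k c' 0|) (|th k c B - th k c' B|) := by
    rw [th_zero, th_zero, sub_zero, abs_zero]
    exact ⟨Real.pi_pos.le, hcon⟩
  obtain ⟨t, ht, h2⟩ := intermediate_value_Icc hB hc h1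
  simp only at h2
  obtain ⟨x, hx0, e⟩ := dir_eq ht.1 h0 h0' (h.mono k ht.2) (h'.mono k ht.2)
  have h3 : exp ((th k c t - th k c' t : ℝ) * I) = -1 := by
    rcases (abs_eq Real.pi_pos.le).1 h2 with h4 | h4
    · rw [h4, exp_pi_mul_I]
    · rw [h4]; push_cast; rw [neg_mul, exp_neg, exp_pi_mul_I]; norm_num
  rw [h3] at e
  refine hx x hx0 t ht ?_
  rw [Zf_add, Zf_smul, e]
  ring

lemma im_mul_exp (a x : ℝ) : ((a : ℂ) * exp ((x : ℝ) * I)).im = a * Real.sin x := by
  rw [exp_mul_I, ← ofReal_cos, ← ofReal_sin, im_ofReal_mul, add_im, ofReal_im, mul_I_im, ofReal_re,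
    zero_add]

lemma re_mul_exp (a x : ℝ) : ((a : ℂ) * exp ((x : ℝ) * I)).re = a * Real.cos x := by
  rw [exp_mul_I, ← ofReal_cos, ← ofReal_sin, re_ofReal_mul, add_re, ofReal_re, mul_I_re, ofReal_im,
    neg_zero, add_zero]

lemma sin_nonneg_imp {x : ℝ} (h1 : -Real.pi < x) (h : 0 ≤ Real.sin x) : 0 ≤ x := by
  by_contra hn
  push Not at hn
  exact absurd (Real.sin_neg_of_neg_of_neg_pi_lt hn h1) (not_lt.2 h)

/-- the lifted argument of a sum is between the lifted arguments of the summands -/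
lemma between {c c' : S → ℝ} {B : ℝ} (hB : 0 ≤ B) (h0 : 0 ≤ c) (h0' : 0 ≤ c') (h : NZ k c B)
    (h' : NZ k c' B) (hx : ∀ x : ℝ, 0 < x → NZ k (c + x • c') B) :
    th k (c + c') B ∈ uIcc (th k c B) (th k c' B) := by
  have hs : NZ k (c + c') B := by have := hx 1 one_pos; rwa [one_smul] at this
  have hs0 : 0 ≤ c + c' := add_nonneg h0 h0'
  have k1 := compat hB h0 h0' h h' hx
  have k2 : |th k (c + c') B - th k c B| < Real.pi := by
    refine compat hB hs0 h0 hs h fun x hx0 => ?_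
    have : c + c' + x • c = (1 + x) • (c + (1 / (1 + x)) • c') := by
      ext s
      simp only [Pi.add_apply, Pi.smul_apply, smul_eq_mul]
      field_simp
      ring
    rw [this]
    exact (hx _ (by positivity)).smul (by positivity)
  have k3 : |th k (c + c') B - th k c' B| < Real.pi := by
    refine compat hB hs0 h0' hs h' fun x hx0 => ?_
    have : c + c' + x • c' = c + (1 + x) • c' := by
      ext s
      simp only [Pi.add_apply, Pi.smul_apply, smul_eq_mul]
      ring
    rw [this]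
    exact hx _ (by positivity)
  obtain ⟨a, ha, ea⟩ := dir_eq hB h0' h0 h' h
  obtain ⟨b, hb, eb⟩ := dir_eq hB hs0 h0 hs h
  obtain ⟨a', ha', ea'⟩ := dir_eq hB h0 h0' h h'
  obtain ⟨b', hb', eb'⟩ := dir_eq hB hs0 h0' hs h'
  have hz := h B ⟨hB, le_rfl⟩
  have hz' := h' B ⟨hB, le_rfl⟩
  have s1 : b * Real.sin (th k (c + c') B - th k c B) = a * Real.sin (th k c' B - th k c B) := by
    rw [Zf_add, ea] at eb
    have : (1 : ℂ) + a * exp ((th k c' B - th k c B : ℝ) * I) =
        b * exp ((th k (c + c') B - th k c B : ℝ) * I) := by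
      apply mul_right_cancel₀ hz
      rw [← eb]; ring
    have := congrArg Complex.im this
    rw [add_im, one_im, zero_add, im_mul_exp, im_mul_exp] at this
    exact this.symm
  have s2 : b' * Real.sin (th k (c + c') B - th k c' B) = a' * Real.sin (th k c B - th k c' B) := by
    rw [Zf_add, ea'] at eb'
    have : (1 : ℂ) + a' * exp ((th k c B - th k c' B : ℝ) * I) =
        b' * exp ((th k (c + c') B - th k c' B : ℝ) * I) := by
      apply mul_right_cancel₀ hz'
      rw [← eb']; ring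
    have := congrArg Complex.im this
    rw [add_im, one_im, zero_add, im_mul_exp, im_mul_exp] at this
    exact this.symm
  rw [abs_lt] at k1 k2 k3
  have hsin : ∀ x : ℝ, Real.sin (-x) = -Real.sin x := Real.sin_neg
  rcases le_total (th k c B) (th k c' B) with hle | hle
  · rw [uIcc_of_le hle]
    have p1 : 0 ≤ Real.sin (th k c' B - th k c B) :=
      Real.sin_nonneg_of_nonneg_of_le_pi (by linarith) (by linarith)
    constructor
    · have : 0 ≤ Real.sin (th k (c + c') B - th k c B) := by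
        by_contra hn
        push Not at hn
        nlinarith
      linarith [sin_nonneg_imp k2.1 this]
    · have e : Real.sin (th k c B - th k c' B) = -Real.sin (th k c' B - th k c B) := by
        rw [← hsin]; congr 1; ring
      have : 0 ≤ Real.sin (-(th k (c + c') B - th k c' B)) := by
        rw [hsin]
        by_contra hn
        push Not at hn
        rw [e] at s2
        nlinarith
      linarith [sin_nonneg_imp (by linarith) this]
  · rw [uIcc_of_ge hle]
    have p1 : 0 ≤ Real.sin (th k c B - th k c' B) :=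
      Real.sin_nonneg_of_nonneg_of_le_pi (by linarith) (by linarith)
    constructor
    · have : 0 ≤ Real.sin (th k (c + c') B - th k c' B) := by
        by_contra hn
        push Not at hn
        nlinarith
      linarith [sin_nonneg_imp k3.1 this]
    · have e : Real.sin (th k c' B - th k c B) = -Real.sin (th k c B - th k c' B) := by
        rw [← hsin]; congr 1; ring
      have : 0 ≤ Real.sin (-(th k (c + c') B - th k c B)) := by
        rw [hsin]
        by_contra hn
        push Not at hn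
        rw [e] at s1
        nlinarith
      linarith [sin_nonneg_imp (by linarith) this]

end Pool.Agent.ZF
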