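import Pool.Agent.ZF.Lift

set_option autoImplicit false
set_option linter.unusedSectionVars false
open Finset Complex Set Filter Topology

/-! # Product weights and their normalised limits (ZFLEAN, layer 1)

A network on the cube `V → Bool` is an index `k` and an alive set `A`. `Pr k A` is the cone of the product
weights (times `exp (x * k s)`), `Good k Φ A`: no member of the closure of the cone has a zero with
`|Im ζ| < Φ`. For an ultrafilter `U` on the parameters, `lw U k A` is the limit of the normalised weights;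
restrictions of the network are smaller alive sets, each with its own normalisation. -/

namespace Pool.Agent.ZF

variable {V : Type*} [Fintype V] [DecidableEq V]

/-- parameters -/
abbrev Par (V : Type*) := ℝ × (V → Bool → ℝ)

/-- positive parameters -/
def Par.Pos (θ : Par V) : Prop := ∀ v b, 0 < θ.2 v b

open Classical in
/-- product weights -/
noncomputable def wt (k : (V → Bool) → ℤ) (A : Set (V → Bool)) (θ : Par V) : (V → Bool) → ℝ :=
  fun s => if s ∈ A then Real.exp (θ.1 * k s) * ∏ v, θ.2 v (s v) else 0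

/-- the cone of the product weights -/
def Pr (k : (V → Bool) → ℤ) (A : Set (V → Bool)) : Set ((V → Bool) → ℝ) :=
  {c | ∃ (l : ℝ) (θ : Par V), 0 < l ∧ θ.Pos ∧ c = l • wt k A θ}

/-- no zero with `|Im ζ| < Φ`, for all weights and their limits -/
def Good (k : (V → Bool) → ℤ) (Φ : ℝ) (A : Set (V → Bool)) : Prop :=
  ∀ c ∈ closure (Pr k A), c ≠ 0 → ∀ ζ : ℂ, |ζ.im| < Φ → Zf k c ζ ≠ 0

lemma Good.mono {k : (V → Bool) → ℤ} {Φ Φ' : ℝ} {A : Set (V → Bool)} (h : Good k Φ A) (hΦ : Φ' ≤ Φ) :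
    Good k Φ' A := fun c hc h0 ζ hζ => h c hc h0 ζ (hζ.trans_le hΦ)

variable {k : (V → Bool) → ℤ} {A : Set (V → Bool)}

lemma wt_nonneg {θ : Par V} (h : θ.Pos) : 0 ≤ wt k A θ := by
  intro s
  unfold wt
  split_ifs
  · exact mul_nonneg (Real.exp_pos _).le (prod_nonneg fun v _ => (h v _).le)
  · exact le_rfl

lemma wt_pos {θ : Par V} (h : θ.Pos) {s : V → Bool} (hs : s ∈ A) : 0 < wt k A θ s := by
  unfold wt
  rw [if_pos hs]
  exact mul_pos (Real.exp_pos _) (prod_pos fun v _ => h v _)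

lemma wt_off {θ : Par V} {s : V → Bool} (hs : s ∉ A) : wt k A θ s = 0 := by
  unfold wt
  rw [if_neg hs]

lemma wt_sub {B : Set (V → Bool)} {θ : Par V} {s : V → Bool} (hs : s ∈ B) (h : s ∈ A) :
    wt k A θ s = wt k B θ s := by
  unfold wt
  rw [if_pos hs, if_pos h]

/-- total weight -/
noncomputable def tot (k : (V → Bool) → ℤ) (A : Set (V → Bool)) (θ : Par V) : ℝ := ∑ s, wt k A θ s

lemma tot_nonneg {θ : Par V} (h : θ.Pos) : 0 ≤ tot k A θ := sum_nonneg fun s _ => wt_nonneg h s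

lemma tot_pos {θ : Par V} (h : θ.Pos) (hA : A.Nonempty) : 0 < tot k A θ := by
  obtain ⟨s, hs⟩ := hA
  exact sum_pos' (fun s _ => wt_nonneg h s) ⟨s, mem_univ s, wt_pos h hs⟩

/-- normalised weights -/
noncomputable def nw (k : (V → Bool) → ℤ) (A : Set (V → Bool)) (θ : Par V) : (V → Bool) → ℝ :=
  (tot k A θ)⁻¹ • wt k A θ

lemma nw_nonneg {θ : Par V} (h : θ.Pos) : 0 ≤ nw k A θ := by
  intro s
  exact mul_nonneg (inv_nonneg.2 (tot_nonneg h)) (wt_nonneg h s)

lemma nw_sum {θ : Par V} (h : θ.Pos) (hA : A.Nonempty) : ∑ s, nw k A θ s = 1 := by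
  unfold nw
  simp only [Pi.smul_apply, smul_eq_mul]
  rw [← mul_sum]
  exact inv_mul_cancel₀ (tot_pos h hA).ne'

lemma nw_empty {θ : Par V} : nw k (∅ : Set (V → Bool)) θ = 0 := by
  ext s
  simp [nw, wt]

lemma nw_le_one {θ : Par V} (h : θ.Pos) (s : V → Bool) : nw k A θ s ≤ 1 := by
  rcases A.eq_empty_or_nonempty with rfl | hA
  · rw [nw_empty]; exact zero_le_one
  · rw [← nw_sum (k := k) h hA]
    exact single_le_sum (f := nw k A θ) (fun s _ => nw_nonneg h s) (mem_univ s)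

lemma nw_mem {θ : Par V} (h : θ.Pos) (hA : A.Nonempty) : nw k A θ ∈ Pr k A :=
  ⟨_, θ, inv_pos.2 (tot_pos h hA), h, rfl⟩

/-! ### Limits -/

/-- the ultrafilter lives on positive parameters -/
def UPos (U : Ultrafilter (Par V)) : Prop := ∀ᶠ θ in (U : Filter (Par V)), θ.Pos

lemma exists_lim {U : Ultrafilter (Par V)} (hU : UPos U) (k : (V → Bool) → ℤ) (A : Set (V → Bool)) :
    ∃ c, Tendsto (nw k A) U (𝓝 c) := by
  have hK : IsCompact (Set.pi Set.univ fun _ : V → Bool => Icc (0 : ℝ) 1) :=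
    isCompact_univ_pi fun _ => isCompact_Icc
  obtain ⟨c, -, hc⟩ := hK.ultrafilter_le_nhds (U.map (nw k A)) (by
    rw [le_principal_iff]
    exact hU.mono fun θ hθ s _ => ⟨nw_nonneg hθ s, nw_le_one hθ s⟩)
  exact ⟨c, hc⟩

open Classical in
/-- limit of the normalised weights -/
noncomputable def lw (U : Ultrafilter (Par V)) (k : (V → Bool) → ℤ) (A : Set (V → Bool)) :
    (V → Bool) → ℝ :=
  if h : ∃ c, Tendsto (nw k A) U (𝓝 c) then h.choose else 0

variable {U : Ultrafilter (Par V)}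

lemma tendsto_lw (hU : UPos U) : Tendsto (nw k A) U (𝓝 (lw U k A)) := by
  unfold lw
  rw [dif_pos (exists_lim hU k A)]
  exact (exists_lim hU k A).choose_spec

lemma lw_nonneg (hU : UPos U) : 0 ≤ lw U k A :=
  ge_of_tendsto (tendsto_lw hU) (hU.mono fun _ h => nw_nonneg h)

lemma lw_sum (hU : UPos U) (hA : A.Nonempty) : ∑ s, lw U k A s = 1 := by
  have h1 : Tendsto (fun θ => ∑ s, nw k A θ s) U (𝓝 (∑ s, lw U k A s)) :=
    tendsto_finsetSum _ fun s _ => (tendsto_pi_nhds.1 (tendsto_lw hU)) s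
  have h2 : Tendsto (fun θ => ∑ s, nw k A θ s) U (𝓝 1) :=
    tendsto_const_nhds.congr' (hU.mono fun _ h => (nw_sum h hA).symm)
  exact tendsto_nhds_unique h1 h2

lemma lw_ne (hU : UPos U) (hA : A.Nonempty) : lw U k A ≠ 0 := by
  intro h
  have := lw_sum (k := k) hU hA
  rw [h] at this
  simp at this

lemma lw_empty (hU : UPos U) : lw U k (∅ : Set (V → Bool)) = 0 :=
  tendsto_nhds_unique (tendsto_lw hU) (by simp only [funext fun θ => nw_empty (k := k) (θ := θ)]; exact tendsto_const_nhds)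

lemma lw_off (hU : UPos U) {s : V → Bool} (hs : s ∉ A) : lw U k A s = 0 := by
  have h1 := (tendsto_pi_nhds.1 (tendsto_lw (k := k) (A := A) hU)) s
  have h2 : Tendsto (fun θ => nw k A θ s) U (𝓝 0) :=
    tendsto_const_nhds.congr' (Eventually.of_forall fun θ => by
      simp only [nw, Pi.smul_apply]; rw [wt_off hs, smul_zero])
  exact tendsto_nhds_unique h1 h2

lemma lw_mem (hU : UPos U) (hA : A.Nonempty) : lw U k A ∈ closure (Pr k A) :=
  mem_closure_of_tendsto (tendsto_lw hU) (hU.mono fun _ h => nw_mem h hA)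

/-- a disjoint decomposition -/
lemma lw_split (hU : UPos U) {A₁ A₂ : Set (V → Bool)} (hd : Disjoint A₁ A₂) (h1 : A₁.Nonempty)
    (h2 : A₂.Nonempty) : ∃ a b : ℝ, 0 ≤ a ∧ 0 ≤ b ∧ a + b = 1 ∧
      lw U k (A₁ ∪ A₂) = a • lw U k A₁ + b • lw U k A₂ := by
  have hne : (A₁ ∪ A₂).Nonempty := h1.inl
  obtain ⟨a, ha, hta⟩ := (isCompact_Icc (a := (0 : ℝ)) (b := 1)).ultrafilter_le_nhds
    (U.map fun θ => tot k A₁ θ / tot k (A₁ ∪ A₂) θ) (by
      rw [le_principal_iff]
      refine hU.mono fun θ hθ => ⟨div_nonneg (tot_nonneg hθ) (tot_nonneg hθ), ?_⟩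
      apply div_le_one_of_le₀ _ (tot_nonneg hθ)
      apply sum_le_sum
      intro s _
      by_cases hs : s ∈ A₁
      · rw [wt_sub (B := A₁ ∪ A₂) (Or.inl hs) hs]
      · rw [wt_off hs]; exact wt_nonneg hθ s)
  have hsum : ∀ θ : Par V, ∀ s, wt k (A₁ ∪ A₂) θ s = wt k A₁ θ s + wt k A₂ θ s := by
    intro θ s
    by_cases hs1 : s ∈ A₁
    · rw [wt_sub (A := A₁ ∪ A₂) (B := A₁) hs1 (Or.inl hs1), wt_off (disjoint_left.1 hd hs1), add_zero]
    · by_cases hs2 : s ∈ A₂
      · rw [wt_sub (A := A₁ ∪ A₂) (B := A₂) hs2 (Or.inr hs2), wt_off hs1, zero_add]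
      · rw [wt_off hs1, wt_off hs2, wt_off (fun h => h.elim hs1 hs2), add_zero]
  have htot : ∀ θ : Par V, tot k (A₁ ∪ A₂) θ = tot k A₁ θ + tot k A₂ θ := by
    intro θ
    unfold tot
    rw [← sum_add_distrib]
    exact sum_congr rfl fun s _ => hsum θ s
  refine ⟨a, 1 - a, ha.1, by linarith [ha.2], by ring, ?_⟩
  have hta' : Tendsto (fun θ => tot k A₁ θ / tot k (A₁ ∪ A₂) θ) U (𝓝 a) := hta
  refine tendsto_nhds_unique (tendsto_lw hU) ?_
  have h3 : Tendsto (fun θ => (tot k A₁ θ / tot k (A₁ ∪ A₂) θ) • nw k A₁ θ +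
      (1 - tot k A₁ θ / tot k (A₁ ∪ A₂) θ) • nw k A₂ θ) U
      (𝓝 (a • lw U k A₁ + (1 - a) • lw U k A₂)) :=
    (hta'.smul (tendsto_lw hU)).add ((tendsto_const_nhds.sub hta').smul (tendsto_lw hU))
  refine h3.congr' (hU.mono fun θ hθ => ?_)
  have p1 := tot_pos (k := k) hθ h1
  have p2 := tot_pos (k := k) hθ h2
  have p3 := tot_pos (k := k) hθ hne
  ext s
  simp only [Pi.add_apply, Pi.smul_apply, smul_eq_mul, nw]
  rw [hsum, htot]
  rw [htot] at p3
  field_simp
  ring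

/-! ### Twisting -/

/-- change of the weights of one site -/
def Par.tw (θ : Par V) (v : V) (q : Bool → ℝ) : Par V :=
  (θ.1, fun w b => if w = v then θ.2 w b * q b else θ.2 w b)

lemma Par.tw_pos {θ : Par V} (h : θ.Pos) (v : V) {q : Bool → ℝ} (hq : ∀ b, 0 < q b) :
    (θ.tw v q).Pos := by
  intro w b
  unfold Par.tw
  dsimp only
  split_ifs
  · exact mul_pos (h w b) (hq b)
  · exact h w b

lemma wt_tw (θ : Par V) (v : V) (q : Bool → ℝ) (s : V → Bool) :
    wt k A (θ.tw v q) s = q (s v) * wt k A θ s := by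
  unfold wt
  split_ifs with hs
  · have h1 : ∏ w, (θ.tw v q).2 w (s w) = (∏ w, θ.2 w (s w)) * q (s v) := by
      have h2 : ∀ w, (θ.tw v q).2 w (s w) = θ.2 w (s w) * (if w = v then q (s w) else 1) := by
        intro w
        unfold Par.tw
        dsimp only
        split_ifs
        · rfl
        · rw [mul_one]
      rw [prod_congr rfl fun w _ => h2 w, prod_mul_distrib, prod_ite_eq' univ v]
      simp
    rw [h1]
    unfold Par.tw
    ring
  · simp

/-- the states of `A` with colour `b` at `v` -/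
def sl (A : Set (V → Bool)) (v : V) (b : Bool) : Set (V → Bool) := {s | s ∈ A ∧ s v = b}

lemma sl_union (A : Set (V → Bool)) (v : V) : sl A v true ∪ sl A v false = A := by
  ext s
  constructor
  · rintro (h | h) <;> exact h.1
  · intro h
    rcases hb : s v with _ | _
    · exact Or.inr ⟨h, hb⟩
    · exact Or.inl ⟨h, hb⟩

lemma sl_union' (A : Set (V → Bool)) (v : V) (b : Bool) : sl A v b ∪ sl A v (!b) = A := by
  cases b
  · rw [Set.union_comm]; exact sl_union A v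
  · exact sl_union A v

lemma sl_disjoint (A : Set (V → Bool)) (v : V) (b : Bool) : Disjoint (sl A v b) (sl A v (!b)) := by
  rw [Set.disjoint_left]
  intro s h h'
  have := h.2.symm.trans h'.2
  cases b <;> simp at this

open Classical in
lemma comb_mem {θ : Par V} (hθ : θ.Pos) (v : V) {x y : ℝ} (hx : 0 < x) (hy : 0 < y) :
    x • nw k (sl A v true) θ + y • nw k (sl A v false) θ ∈ Pr k A := by
  set q : Bool → ℝ := fun b => if (sl A v b).Nonempty then (if b then x else y) * (tot k (sl A v b) θ)⁻¹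
    else 1 with hq
  have hq0 : ∀ b, 0 < q b := by
    intro b
    rw [hq]
    dsimp only
    split_ifs with h1 h2
    · exact mul_pos hx (inv_pos.2 (tot_pos hθ h1))
    · exact mul_pos hy (inv_pos.2 (tot_pos hθ h1))
    · exact one_pos
  refine ⟨1, θ.tw v q, one_pos, Par.tw_pos hθ v hq0, ?_⟩
  rw [one_smul]
  ext s
  rw [wt_tw]
  simp only [Pi.add_apply, Pi.smul_apply, smul_eq_mul, nw]
  by_cases hs : s ∈ A
  · rcases hb : s v with _ | _
    · have h1 : s ∈ sl A v false := ⟨hs, hb⟩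
      have h2 : s ∉ sl A v true := fun h => by have := h.2; rw [hb] at this; simp at this
      rw [wt_off h2, wt_sub (A := sl A v false) (B := A) hs h1, hq]
      dsimp only
      rw [if_pos ⟨s, h1⟩]
      simp only [Bool.false_eq_true, if_false]
      ring
    · have h1 : s ∈ sl A v true := ⟨hs, hb⟩
      have h2 : s ∉ sl A v false := fun h => by have := h.2; rw [hb] at this; simp at this
      rw [wt_off h2, wt_sub (A := sl A v true) (B := A) hs h1, hq]
      dsimp only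
      rw [if_pos ⟨s, h1⟩]
      simp only [if_true]
      ring
  · rw [wt_off (A := sl A v true) fun h => hs h.1, wt_off (A := sl A v false) fun h => hs h.1,
      wt_off hs]
    ring

lemma comb_lim (hU : UPos U) (v : V) {x y : ℝ} (hx : 0 ≤ x) (hy : 0 ≤ y) :
    x • lw U k (sl A v true) + y • lw U k (sl A v false) ∈ closure (Pr k A) := by
  have h1 : ∀ x y : ℝ, 0 < x → 0 < y →
      x • lw U k (sl A v true) + y • lw U k (sl A v false) ∈ closure (Pr k A) := by
    intro x y hx hy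
    refine mem_closure_of_tendsto (b := (U : Filter (Par V))) (f := fun θ =>
      x • nw k (sl A v true) θ + y • nw k (sl A v false) θ)
      (((tendsto_lw hU).const_smul x).add ((tendsto_lw hU).const_smul y))
      (hU.mono fun θ hθ => comb_mem hθ v hx hy)
  have h2 : Continuous fun z : ℝ × ℝ =>
      z.1 • lw U k (sl A v true) + z.2 • lw U k (sl A v false) := by fun_prop
  have h3 : ((x, y) : ℝ × ℝ) ∈ closure (Ioi (0 : ℝ) ×ˢ Ioi (0 : ℝ)) := by
    rw [closure_prod_eq, closure_Ioi]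
    exact ⟨hx, hy⟩
  have h4 := map_mem_closure h2 h3 (t := closure (Pr k A)) fun z hz => h1 z.1 z.2 hz.1 hz.2
  rwa [closure_closure] at h4

lemma comb_lim' (hU : UPos U) (v : V) (b : Bool) {x y : ℝ} (hx : 0 ≤ x) (hy : 0 ≤ y) :
    x • lw U k (sl A v b) + y • lw U k (sl A v (!b)) ∈ closure (Pr k A) := by
  cases b
  · rw [add_comm]; exact comb_lim hU v hy hx
  · exact comb_lim hU v hx hy

/-! ### Existence of a first contact -/

lemma Pr_nonneg {c : (V → Bool) → ℝ} (hc : c ∈ closure (Pr k A)) : 0 ≤ c := by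
  have h1 : IsClosed {c : (V → Bool) → ℝ | 0 ≤ c} := isClosed_Ici
  refine closure_minimal ?_ h1 hc
  rintro _ ⟨l, θ, hl, hθ, rfl⟩
  exact smul_nonneg hl.le (wt_nonneg hθ)

lemma Pr_smul {c : (V → Bool) → ℝ} (hc : c ∈ closure (Pr k A)) {x : ℝ} (hx : 0 < x) :
    x • c ∈ closure (Pr k A) := by
  refine map_mem_closure (f := fun c : (V → Bool) → ℝ => x • c) (by fun_prop) hc ?_
  rintro _ ⟨l, θ, hl, hθ, rfl⟩
  exact ⟨x * l, θ, mul_pos hx hl, hθ, by dsimp only; rw [smul_smul]⟩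

lemma Pr_exp {c : (V → Bool) → ℝ} (hc : c ∈ closure (Pr k A)) (x : ℝ) :
    (fun s => Real.exp (x * k s) * c s) ∈ closure (Pr k A) := by
  refine map_mem_closure (f := fun c : (V → Bool) → ℝ => fun s => Real.exp (x * k s) * c s)
    (by fun_prop) hc ?_
  rintro _ ⟨l, θ, hl, hθ, rfl⟩
  refine ⟨l, (θ.1 + x, θ.2), hl, hθ, ?_⟩
  ext s
  simp only [Pi.smul_apply, smul_eq_mul, wt]
  split_ifs
  · rw [add_mul, Real.exp_add]; ring
  · simp

lemma Zf_exp (c : (V → Bool) → ℝ) (x : ℝ) (ζ : ℂ) :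
    Zf k (fun s => Real.exp (x * k s) * c s) ζ = Zf k c (x + ζ) := by
  unfold Zf
  refine sum_congr rfl fun s _ => ?_
  push_cast
  rw [add_mul, exp_add]
  ring

lemma Zf_conj (c : (V → Bool) → ℝ) (ζ : ℂ) :
    Zf k c ((starRingEnd ℂ) ζ) = (starRingEnd ℂ) (Zf k c ζ) := by
  unfold Zf
  rw [map_sum]
  refine sum_congr rfl fun s _ => ?_
  rw [map_mul, conj_ofReal, ← exp_conj, map_mul]
  simp

/-- a zero gives a normalised zero on the imaginary axis -/
lemma norm_zero {c : (V → Bool) → ℝ} (hc : c ∈ closure (Pr k A)) (h0 : c ≠ 0) {ζ : ℂ}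
    (hz : Zf k c ζ = 0) : ∃ c' ∈ closure (Pr k A), ∑ s, c' s = 1 ∧ Zf k c' ((|ζ.im| : ℝ) * I) = 0 := by
  set d : (V → Bool) → ℝ := fun s => Real.exp (ζ.re * k s) * c s with hd
  have hd1 : d ∈ closure (Pr k A) := Pr_exp hc ζ.re
  have hd0 : d ≠ 0 := by
    obtain ⟨s, hs⟩ := Function.ne_iff.1 h0
    intro h
    have := congrFun h s
    simp only [hd, Pi.zero_apply, mul_eq_zero, Real.exp_ne_zero, false_or] at this
    exact hs this
  have hp := sum_pos_of (Pr_nonneg hd1) hd0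
  have hz1 : Zf k d (ζ.im * I) = 0 := by
    rw [hd, Zf_exp, re_add_im, hz]
  have hz2 : Zf k d ((|ζ.im| : ℝ) * I) = 0 := by
    rcases abs_choice ζ.im with h | h
    · rw [h, hz1]
    · rw [h]
      have : ((-ζ.im : ℝ) : ℂ) * I = (starRingEnd ℂ) (ζ.im * I) := by
        rw [map_mul, conj_ofReal, conj_I]; push_cast; ring
      rw [this, Zf_conj, hz1, map_zero]
  refine ⟨(∑ s, d s)⁻¹ • d, Pr_smul hd1 (inv_pos.2 hp), ?_, ?_⟩
  · simp only [Pi.smul_apply, smul_eq_mul]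
    rw [← mul_sum]
    exact inv_mul_cancel₀ hp.ne'
  · rw [Zf_smul, hz2, mul_zero]

lemma exists_ultra {c : (V → Bool) → ℝ} (hc : c ∈ closure (Pr k A)) (h1 : ∑ s, c s = 1) :
    ∃ U : Ultrafilter (Par V), UPos U ∧ lw U k A = c := by
  obtain ⟨u, hu1, hu2⟩ := mem_closure_iff_ultrafilter.1 hc
  set F : ℝ × Par V → ((V → Bool) → ℝ) := fun z => z.1 • wt k A z.2 with hF
  set D : Set (ℝ × Par V) := {z | 0 < z.1 ∧ z.2.Pos} with hD
  have him : F '' D ∈ (u : Filter ((V → Bool) → ℝ)) := by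
    refine mem_of_superset hu1 ?_
    rintro _ ⟨l, θ, hl, hθ, rfl⟩
    exact ⟨(l, θ), ⟨hl, hθ⟩, rfl⟩
  have : NeBot (comap F (u : Filter _) ⊓ 𝓟 D) := comap_inf_principal_neBot_of_image_mem u.neBot him
  set W : Ultrafilter (ℝ × Par V) := Ultrafilter.of (comap F (u : Filter _) ⊓ 𝓟 D) with hW
  have hWle : (W : Filter _) ≤ comap F (u : Filter _) ⊓ 𝓟 D := Ultrafilter.of_le _
  have hWD : ∀ᶠ z in (W : Filter _), z ∈ D := hWle.trans inf_le_right (mem_principal_self D)
  have hWF : Tendsto F W (𝓝 c) :=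
    (tendsto_comap.mono_left (hWle.trans inf_le_left)).mono_right hu2
  have hUP : UPos (W.map Prod.snd) := hWD.mono fun z hz => hz.2
  refine ⟨W.map Prod.snd, hUP, ?_⟩
  refine tendsto_nhds_unique (tendsto_lw hUP) ?_
  have h2 : Tendsto (fun z => (∑ s, F z s)⁻¹ • F z) W (𝓝 ((∑ s, c s)⁻¹ • c)) := by
    refine Tendsto.smul (Tendsto.inv₀ ?_ (by rw [h1]; exact one_ne_zero)) hWF
    exact tendsto_finsetSum _ fun s _ => (tendsto_pi_nhds.1 hWF) s
  rw [h1, inv_one, one_smul] at h2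
  change Tendsto (nw k A ∘ Prod.snd) (W : Filter (ℝ × Par V)) (𝓝 c)
  refine h2.congr' (hWD.mono fun z hz => ?_)
  ext s
  simp only [hF, Pi.smul_apply, smul_eq_mul, Function.comp, nw, tot]
  rw [← mul_sum, mul_inv]
  have := hz.1.ne'
  field_simp

/-- **First contact.** -/
theorem exists_contact {Φ : ℝ} (h : ¬ Good k Φ A) : ∃ (U : Ultrafilter (Par V)) (φ : ℝ), UPos U ∧
    A.Nonempty ∧ 0 < φ ∧ φ < Φ ∧ Zf k (lw U k A) (φ * I) = 0 ∧ Good k φ A := by
  unfold Good at h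
  push Not at h
  obtain ⟨c, hc, hc0, ζ, hζ, hz⟩ := h
  obtain ⟨c₁, hc₁, hs₁, hz₁⟩ := norm_zero hc hc0 hz
  set K : Set ((V → Bool) → ℝ) := closure (Pr k A) ∩ {c | ∑ s, c s = 1} with hK
  have hKc : IsCompact K := by
    have h1 : IsCompact (Set.pi Set.univ fun _ : V → Bool => Icc (0 : ℝ) 1) :=
      isCompact_univ_pi fun _ => isCompact_Icc
    refine h1.of_isClosed_subset (isClosed_closure.inter (isClosed_eq (by fun_prop) continuous_const)) ?_
    rintro c ⟨h1, h2⟩ s -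
    have h3 := Pr_nonneg h1
    refine ⟨h3 s, ?_⟩
    rw [← show ∑ s, c s = 1 from h2]
    exact single_le_sum (f := c) (fun s _ => h3 s) (mem_univ s)
  set T : Set (((V → Bool) → ℝ) × ℝ) := (K ×ˢ Icc 0 |ζ.im|) ∩ {z | Zf k z.1 (z.2 * I) = 0} with hT
  have hTc : IsCompact T := by
    refine (hKc.prod isCompact_Icc).inter_right ?_
    apply isClosed_eq _ continuous_const
    unfold Zf
    fun_prop
  have hTn : T.Nonempty := ⟨(c₁, |ζ.im|), ⟨⟨hc₁, hs₁⟩, ⟨abs_nonneg _, le_rfl⟩⟩, hz₁⟩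
  obtain ⟨⟨c₀, φ⟩, ⟨⟨⟨hc₀, hs₀⟩, hφ⟩, hz₀⟩, hmin⟩ := hTc.exists_isMinOn hTn continuous_snd.continuousOn
  simp only at hc₀ hs₀ hφ hz₀
  obtain ⟨U, hU, hUc⟩ := exists_ultra hc₀ hs₀
  have hφ0 : 0 < φ := by
    rcases hφ.1.lt_or_eq with h1 | h1
    · exact h1
    · exfalso
      have h2 : Zf k c₀ (φ * I) = 0 := hz₀
      rw [← h1, ofReal_zero, zero_mul, Zf_zero_eq, show ∑ s, c₀ s = 1 from hs₀] at h2
      norm_num at h2
  refine ⟨U, φ, hU, ?_, hφ0, hφ.2.trans_lt hζ, ?_, ?_⟩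
  · rw [Set.nonempty_iff_ne_empty]
    rintro rfl
    rw [lw_empty hU] at hUc
    rw [← hUc] at hs₀
    simp at hs₀
  · rw [hUc]; exact hz₀
  · intro c hc hc0 ζ' hζ' hz
    obtain ⟨c₂, hc₂, hs₂, hz₂⟩ := norm_zero hc hc0 hz
    have h3 : ((c₂, |ζ'.im|) : ((V → Bool) → ℝ) × ℝ) ∈ T :=
      ⟨⟨⟨hc₂, hs₂⟩, ⟨abs_nonneg _, hζ'.le.trans hφ.2⟩⟩, hz₂⟩
    exact absurd (isMinOn_iff.1 hmin _ h3) (not_le.2 hζ')

end Pool.Agent.ZF
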