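import Mathlib
import Pool.Agent.ZF.Ops

set_option autoImplicit false
open Finset Equiv

/-! # The index of a state under the operations

Every operation of `Ops.lean` keeps the path from `o` to `i` and its index (first return maps, `Ret.lean`). -/

namespace Pool.Agent.ZF.Net

variable {α V : Type*} [DecidableEq α] [DecidableEq V] {N : Net α V}

/-- **Contraction.** -/
theorem K_contr {x : α} {q : V → V} (h : N.Contr x q) {S S' : Finset V}
    (hS : ∀ y ∈ N.E, (N.lab y ∈ S ↔ q (N.lab y) ∈ S')) : (contr h).K S' = N.K S := by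
  symm
  refine idx_ret (P := (· ∈ N.E.erase x)) (contr h).ho (contr h).hi fun a ha => ?_
  obtain ⟨hax, haE⟩ := mem_erase.1 ha
  have hx0 : N.lab x ∈ S ↔ N.lab (N.w x) ∈ S := by
    rw [hS _ h.hx, hS _ (N.wm h.hx), h.hq]
  have hab : N.lab (N.b a) = N.lab (N.w a) := N.hlab a
  -- the colour of the plate at the head of `a`
  have hl : q (N.lab (del x N.w a)) ∈ S' ↔ N.lab (N.w a) ∈ S := by
    rw [del_apply hax]
    split_ifs with h1
    · rw [h1, hx0, hS _ (N.wm h.hx)]
    · rw [hS _ (N.wm haE)]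
  by_cases hc : N.lab (N.w a) ∈ S
  · have e1 : (contr h).step S' a = del x N.b a := if_pos (hl.2 hc)
    have e2 : (contr h).cost S' a = if N.b a = x then N.cb a + N.cb x else N.cb a :=
      if_pos (hl.2 hc)
    rw [e1, e2]
    by_cases hb : N.b a = x
    · have hx1 : N.lab (N.w x) ∈ S := by rw [← hx0, ← hb, hab]; exact hc
      rw [if_pos hb, del_of_eq hb]
      refine retAt_two (x := x) (by rw [step_of_mem N hc, hb]) (step_of_mem N hx1)
        (fun h1 => (mem_erase.1 h1).1 rfl) (mem_erase.2 ⟨?_, N.bm h.hx⟩)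
        (by rw [cost_of_mem N hc, cost_of_mem N hx1])
      intro h1
      exact hax (N.b.injective (hb.trans h1.symm))
    · rw [if_neg hb, del_of_ne hb hax]
      exact retAt_one (step_of_mem N hc) (mem_erase.2 ⟨hb, N.bm haE⟩) (cost_of_mem N hc)
  · have e1 : (contr h).step S' a = del x N.w a := if_neg (fun h1 => hc (hl.1 h1))
    have e2 : (contr h).cost S' a = if N.w a = x then N.cw a + N.cw x else N.cw a :=
      if_neg (fun h1 => hc (hl.1 h1))
    rw [e1, e2]
    by_cases hw : N.w a = x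
    · have hx1 : N.lab (N.w x) ∉ S := by rw [← hx0, ← hw]; exact hc
      rw [if_pos hw, del_of_eq hw]
      refine retAt_two (x := x) (by rw [step_of_not N hc, hw]) (step_of_not N hx1)
        (fun h1 => (mem_erase.1 h1).1 rfl) (mem_erase.2 ⟨?_, N.wm h.hx⟩)
        (by rw [cost_of_not N hc, cost_of_not N hx1])
      intro h1
      exact hax (N.w.injective (hw.trans h1.symm))
    · rw [if_neg hw, del_of_ne hw hax]
      exact retAt_one (step_of_not N hc) (mem_erase.2 ⟨hw, N.wm haE⟩) (cost_of_not N hc)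

/-- **Deletion of a trivial plate** (its colour does not matter). -/
theorem K_deltriv {x : α} (h : N.Triv x) {S S' : Finset V}
    (hS : ∀ y ∈ N.E, y ≠ x → (N.lab y ∈ S ↔ N.lab y ∈ S')) : (deltriv h).K S' = N.K S := by
  symm
  refine idx_ret (P := (· ∈ N.E.erase x)) (deltriv h).ho (deltriv h).hi fun a ha => ?_
  obtain ⟨hax, haE⟩ := mem_erase.1 ha
  by_cases hw : N.w a = x
  · have hb : N.b a = x := h.iff.2 hw
    have hxw : N.w x ≠ x := fun h1 => hax (N.w.injective (hw.trans h1.symm))
    have hxb : N.b x ≠ x := fun h1 => hax (N.b.injective (hb.trans h1.symm))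
    have hc := hS _ (N.wm h.hx) hxw
    have f1 : N.step S a = x := by
      unfold step
      split_ifs
      · exact hb
      · exact hw
    have f2 : N.cost S a = N.cb a := by
      unfold cost
      split_ifs
      · rfl
      · exact (h.cost hw).symm
    have e1 : (deltriv h).step S' a = N.step S x := by
      change (if N.lab (del x N.w a) ∈ S' then del x N.b a else del x N.w a) = _
      rw [del_of_eq hw, del_of_eq hb]
      unfold step
      by_cases h2 : N.lab (N.w x) ∈ S
      · rw [if_pos h2, if_pos (hc.1 h2)]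
      · rw [if_neg h2, if_neg (fun h3 => h2 (hc.2 h3))]
    have e2 : (deltriv h).cost S' a = N.cost S a + N.cost S x := by
      change (if N.lab (del x N.w a) ∈ S' then (if N.b a = x then N.cb a + N.cb x else N.cb a)
        else (if N.w a = x then N.cw a + N.cw x else N.cw a)) = _
      rw [del_of_eq hw, if_pos hb, if_pos hw, f2]
      unfold cost
      by_cases h2 : N.lab (N.w x) ∈ S
      · rw [if_pos h2, if_pos (hc.1 h2)]
      · rw [if_neg h2, if_neg (fun h3 => h2 (hc.2 h3)), h.cost hw]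
    rw [e1, e2]
    refine retAt_two (x := x) f1 rfl (fun h1 => (mem_erase.1 h1).1 rfl)
      (mem_erase.2 ⟨?_, N.stp_mem h.hx⟩) rfl
    unfold step
    split_ifs
    · exact hxb
    · exact hxw
  · have hb : N.b a ≠ x := fun h1 => hw (h.iff.1 h1)
    have hc := hS _ (N.wm haE) hw
    have e1 : (deltriv h).step S' a = N.step S a := by
      change (if N.lab (del x N.w a) ∈ S' then del x N.b a else del x N.w a) = _
      rw [del_of_ne hw hax, del_of_ne hb hax]
      unfold step
      by_cases h2 : N.lab (N.w a) ∈ S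
      · rw [if_pos h2, if_pos (hc.1 h2)]
      · rw [if_neg h2, if_neg (fun h3 => h2 (hc.2 h3))]
    have e2 : (deltriv h).cost S' a = N.cost S a := by
      change (if N.lab (del x N.w a) ∈ S' then (if N.b a = x then N.cb a + N.cb x else N.cb a)
        else (if N.w a = x then N.cw a + N.cw x else N.cw a)) = _
      rw [del_of_ne hw hax, if_neg hb, if_neg hw]
      unfold cost
      by_cases h2 : N.lab (N.w a) ∈ S
      · rw [if_pos h2, if_pos (hc.1 h2)]
      · rw [if_neg h2, if_neg (fun h3 => h2 (hc.2 h3))]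
    rw [e1, e2]
    refine retAt_one rfl (mem_erase.2 ⟨?_, N.stp_mem haE⟩) rfl
    unfold step
    split_ifs
    · exact hb
    · exact hw

/-- **A tail is cut off a black plate** (the colour of the new plate `v` does not matter). -/
theorem K_splitB {x : α} (h : N.Spl x) (v : V) {S S' : Finset V} (hx : N.lab x ∈ S)
    (hS : ∀ y ∈ N.E, y ≠ x → (N.lab y ∈ S ↔ N.lab y ∈ S')) : (splitB h v).K S' = N.K S := by
  symm
  have hbx : N.b (N.b⁻¹ x) = x := ais _ _
  have hwx : N.w (N.w⁻¹ x) = x := ais _ _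
  have key : ∀ a ∈ N.E, N.step S a = (splitB h v).step S' a ∧
      N.cost S a = (splitB h v).cost S' a := by
    intro a ha
    have g1 : (splitB h v).step S' a =
      if Function.update N.lab x v ((N.w * swap (N.b⁻¹ x) (N.w⁻¹ x)) a) ∈ S' then N.b a
        else (N.w * swap (N.b⁻¹ x) (N.w⁻¹ x)) a := rfl
    have g2 : (splitB h v).cost S' a =
      if Function.update N.lab x v ((N.w * swap (N.b⁻¹ x) (N.w⁻¹ x)) a) ∈ S' then N.cb a
        else if a = N.b⁻¹ x then N.cb a else if a = N.w⁻¹ x then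
          N.cw a + N.cw (N.b⁻¹ x) - N.cb (N.b⁻¹ x) - 4 else N.cw a := rfl
    rw [Perm.mul_apply] at g1 g2
    by_cases h1 : a = N.b⁻¹ x
    · have f0 : N.lab (N.w a) ∈ S := by rw [← N.hlab, h1, hbx]; exact hx
      rw [h1, swap_apply_left, hwx, hbx, ite_self] at g1
      rw [h1, swap_apply_left, hwx, if_pos rfl, ite_self] at g2
      rw [step_of_mem N f0, cost_of_mem N f0, h1, hbx]
      exact ⟨g1.symm, g2.symm⟩
    by_cases h2 : a = N.w⁻¹ x
    · have f0 : N.lab (N.w a) ∈ S := by rw [h2, hwx]; exact hx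
      have f1 : N.w (N.b⁻¹ x) ≠ x := fun h4 => h.hn (Perm.eq_inv_iff_eq.2 h4)
      have f2 : N.lab (N.w (N.b⁻¹ x)) ∈ S' := by
        rw [← hS _ (N.wm (N.bim h.hx)) f1, ← N.hlab, hbx]; exact hx
      rw [h2, swap_apply_right, Function.update_of_ne f1, if_pos f2] at g1 g2
      rw [step_of_mem N f0, cost_of_mem N f0, h2]
      exact ⟨g1.symm, g2.symm⟩
    · have f1 : N.w a ≠ x := fun h4 => h2 (Perm.eq_inv_iff_eq.2 h4)
      have f2 := hS _ (N.wm ha) f1
      rw [swap_apply_of_ne_of_ne h1 h2, Function.update_of_ne f1] at g1 g2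
      rw [if_neg h1, if_neg h2] at g2
      rw [g1, g2]
      unfold step cost
      by_cases h3 : N.lab (N.w a) ∈ S
      · rw [if_pos h3, if_pos h3, if_pos (f2.1 h3), if_pos (f2.1 h3)]
        exact ⟨rfl, rfl⟩
      · have h4 : N.lab (N.w a) ∉ S' := fun h5 => h3 (f2.2 h5)
        rw [if_neg h3, if_neg h3, if_neg h4, if_neg h4]
        exact ⟨rfl, rfl⟩
  exact idx_eq_on (P := (· ∈ N.E)) N.ho N.hi (fun a ha => (splitB h v).stp_mem ha)
    (fun a ha => (key a ha).1) (fun a ha => (key a ha).2)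

/-- **A tail is cut off a white plate** (the colour of the new plate `v` does not matter). -/
theorem K_splitW {x : α} (h : N.Spl x) (v : V) {S S' : Finset V} (hx : N.lab x ∉ S)
    (hS : ∀ y ∈ N.E, y ≠ x → (N.lab y ∈ S ↔ N.lab y ∈ S')) : (splitW h v).K S' = N.K S := by
  symm
  have hbx : N.b (N.b⁻¹ x) = x := ais _ _
  have hwx : N.w (N.w⁻¹ x) = x := ais _ _
  have key : ∀ a ∈ N.E, N.step S a = (splitW h v).step S' a ∧
      N.cost S a = (splitW h v).cost S' a := by
    intro a ha
    have g1 : (splitW h v).step S' a =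
      if Function.update N.lab x v (N.w a) ∈ S' then (N.b * swap (N.w⁻¹ x) (N.b⁻¹ x)) a
        else N.w a := rfl
    have g2 : (splitW h v).cost S' a =
      if Function.update N.lab x v (N.w a) ∈ S' then (if a = N.w⁻¹ x then N.cw a
        else if a = N.b⁻¹ x then N.cb a + N.cb (N.w⁻¹ x) - N.cw (N.w⁻¹ x) + 4 else N.cb a)
        else N.cw a := rfl
    rw [Perm.mul_apply] at g1
    by_cases h1 : a = N.w⁻¹ x
    · have f0 : N.lab (N.w a) ∉ S := by rw [h1, hwx]; exact hx
      rw [h1, swap_apply_left, hwx, hbx, ite_self] at g1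
      rw [h1, if_pos rfl, ite_self] at g2
      rw [step_of_not N f0, cost_of_not N f0, h1, hwx]
      exact ⟨g1.symm, g2.symm⟩
    have f1 : N.w a ≠ x := fun h4 => h1 (Perm.eq_inv_iff_eq.2 h4)
    have f2 := hS _ (N.wm ha) f1
    rw [Function.update_of_ne f1] at g1 g2
    by_cases h2 : a = N.b⁻¹ x
    · have f0 : N.lab (N.w a) ∉ S := by rw [← N.hlab, h2, hbx]; exact hx
      have f3 : N.lab (N.w a) ∉ S' := fun h5 => f0 (f2.2 h5)
      rw [if_neg f3] at g1 g2
      rw [step_of_not N f0, cost_of_not N f0]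
      exact ⟨g1.symm, g2.symm⟩
    · rw [swap_apply_of_ne_of_ne h1 h2] at g1
      rw [if_neg h1, if_neg h2] at g2
      rw [g1, g2]
      unfold step cost
      by_cases h3 : N.lab (N.w a) ∈ S
      · rw [if_pos h3, if_pos h3, if_pos (f2.1 h3), if_pos (f2.1 h3)]
        exact ⟨rfl, rfl⟩
      · have h4 : N.lab (N.w a) ∉ S' := fun h5 => h3 (f2.2 h5)
        rw [if_neg h3, if_neg h3, if_neg h4, if_neg h4]
        exact ⟨rfl, rfl⟩
  exact idx_eq_on (P := (· ∈ N.E)) N.ho N.hi (fun a ha => (splitW h v).stp_mem ha)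
    (fun a ha => (key a ha).1) (fun a ha => (key a ha).2)

/-- **Restriction to a closed set.** -/
theorem K_restr {X : Finset α} (h : N.Cld X) {S S' : Finset V}
    (hS : ∀ y ∈ X, (N.lab y ∈ S ↔ N.lab y ∈ S')) : (restr h).K S' = N.K S := by
  symm
  have key : ∀ a ∈ X, N.step S a = (restr h).step S' a ∧ N.cost S a = (restr h).cost S' a := by
    intro a ha
    have g1 : (restr h).step S' a =
      if N.lab (res N.w X h.w a) ∈ S' then res N.b X h.b a else res N.w X h.w a := rfl
    have g2 : (restr h).cost S' a =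
      if N.lab (res N.w X h.w a) ∈ S' then N.cb a else N.cw a := rfl
    have f2 := hS _ ((h.w a).2 ha)
    rw [res_mem h.w ha] at g1 g2
    rw [res_mem h.b ha] at g1
    rw [g1, g2]
    unfold step cost
    by_cases h3 : N.lab (N.w a) ∈ S
    · rw [if_pos h3, if_pos h3, if_pos (f2.1 h3), if_pos (f2.1 h3)]
      exact ⟨rfl, rfl⟩
    · have h4 : N.lab (N.w a) ∉ S' := fun h5 => h3 (f2.2 h5)
      rw [if_neg h3, if_neg h3, if_neg h4, if_neg h4]
      exact ⟨rfl, rfl⟩
  exact idx_eq_on (P := (· ∈ X)) h.ho h.hi (fun a ha => (restr h).stp_mem ha)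
    (fun a ha => (key a ha).1) (fun a ha => (key a ha).2)

omit [DecidableEq α] in
/-- The two marks are in different components: all states are dead. -/
theorem K_none {X : Finset α} (hb : ∀ x ∈ X, N.b x ∈ X) (hw : ∀ x ∈ X, N.w x ∈ X) (ho : N.o ∈ X)
    (hi : N.i ∉ X) (S : Finset V) : N.K S = none := by
  have hs : ∀ a, a ∈ X → N.step S a ∈ X := by
    intro a ha
    unfold step
    split_ifs
    · exact hb a ha
    · exact hw a ha
  exact idx_none (Q := (· ∈ X)) (hs _ ho) hs hi

omit [DecidableEq α] in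
/-- Only the labels of strands matter. -/
theorem K_lab {S S' : Finset V} (hS : ∀ y ∈ N.E, (N.lab y ∈ S ↔ N.lab y ∈ S')) :
    N.K S = N.K S' := by
  have key : ∀ a ∈ N.E, N.step S a = N.step S' a ∧ N.cost S a = N.cost S' a := by
    intro a ha
    have f2 := hS _ (N.wm ha)
    unfold step cost
    by_cases h3 : N.lab (N.w a) ∈ S
    · rw [if_pos h3, if_pos h3, if_pos (f2.1 h3), if_pos (f2.1 h3)]
      exact ⟨rfl, rfl⟩
    · have h4 : N.lab (N.w a) ∉ S' := fun h5 => h3 (f2.2 h5)
      rw [if_neg h3, if_neg h3, if_neg h4, if_neg h4]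
      exact ⟨rfl, rfl⟩
  exact idx_eq_on (P := (· ∈ N.E)) N.ho N.hi (fun a ha => N.stp_mem ha)
    (fun a ha => (key a ha).1) (fun a ha => (key a ha).2)

/-! ### The labels of the new networks -/

omit [DecidableEq V] in
lemma T_contr {x : α} {q : V → V} (h : N.Contr x q) : (contr h).T = N.T.erase x := by
  ext y
  simp only [T, mem_erase, contr]
  tauto

omit [DecidableEq V] in
lemma T_deltriv {x : α} (h : N.Triv x) : (deltriv h).T = N.T.erase x := by
  ext y
  simp only [T, mem_erase, deltriv]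
  tauto

omit [DecidableEq V] in
lemma T_splitB {x : α} (h : N.Spl x) (v : V) : (splitB h v).T = N.T := rfl

omit [DecidableEq V] in
lemma T_splitW {x : α} (h : N.Spl x) (v : V) : (splitW h v).T = N.T := rfl

/-- the labels after a contraction -/
lemma L_contr {x : α} {q : V → V} (h : N.Contr x q) (hx : N.w x ≠ x ∨ N.b x ≠ x) :
    (contr h).L = N.L.image q := by
  have hT := T_contr h
  ext v
  simp only [L, hT, mem_image, mem_erase]
  constructor
  · rintro ⟨y, ⟨-, hy⟩, rfl⟩
    exact ⟨N.lab y, ⟨y, hy, rfl⟩, rfl⟩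
  · rintro ⟨v, ⟨y, hy, rfl⟩, rfl⟩
    by_cases hyx : y = x
    · rcases hx with h1 | h1
      · refine ⟨N.w x, ⟨h1, ?_⟩, ?_⟩
        · simp only [T, mem_erase]
          exact ⟨h.wo, h.wi, N.wm h.hx⟩
        · change q (N.lab (N.w x)) = _
          rw [hyx, h.hq]
      · refine ⟨N.b x, ⟨h1, ?_⟩, ?_⟩
        · simp only [T, mem_erase]
          exact ⟨fun h2 => h.wo (N.w_eq_o.2 h2), fun h2 => h.wi (N.w_eq_i.2 h2), N.bm h.hx⟩
        · change q (N.lab (N.b x)) = _
          rw [hyx, h.hq, N.hlab]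
    · exact ⟨y, ⟨hyx, hy⟩, rfl⟩

end Pool.Agent.ZF.Net
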