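import Mathlib
import Pool.Agent.ZF.Flat
import Pool.Agent.ZF.Path

set_option autoImplicit false
open Finset Equiv

/-! # R4: three parallel strands are one strand

White digon `x, y`, black digon `y, z`. `K_of_par` : the network in which `x`, `y` are deleted and `z` takes the
place of `x` has the same indices. `par` : this network, as cutting `y` off, deleting it and contracting `x`. -/

namespace Pool.Agent.ZF

/-- four steps -/
lemma retAt_four {α : Type*} {f : α → α} {c : α → ℤ} {P : α → Prop} {a x y z b : α} {k : ℤ}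
    (h1 : f a = x) (h2 : f x = y) (h3 : f y = z) (h4 : f z = b) (hx : ¬ P x) (hy : ¬ P y)
    (hz : ¬ P z) (hb : P b) (hk : c a + c x + c y + c z = k) : RetAt f c P a b k := by
  refine ⟨4, by omega, ?_, hb, fun j h5 h6 => ?_, ?_⟩
  · change f (f (f (f a))) = b
    rw [h1, h2, h3, h4]
  · obtain rfl | rfl | rfl : j = 1 ∨ j = 2 ∨ j = 3 := by omega
    · change ¬ P (f a)
      rw [h1]; exact hx
    · change ¬ P (f (f a))
      rw [h1, h2]; exact hy
    · change ¬ P (f (f (f a)))
      rw [h1, h2, h3]; exact hz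
  · rw [sum_range_succ, sum_range_succ, sum_range_succ, sum_range_one]
    change c a + c (f a) + c (f (f a)) + c (f (f (f a))) = k
    rw [h1, h2, h3, hk]

namespace Net

variable {α V : Type*} [DecidableEq α] [DecidableEq V] {N M : Net α V} {x y z : α}

/-- `x`, `y`, `z` are parallel: white digon `x, y`, black digon `y, z`. -/
structure Par (N : Net α V) (x y z : α) : Prop where
  hx : x ∈ N.T
  hy : y ∈ N.T
  hz : z ∈ N.T
  hxz : x ≠ z
  b1 : N.b x = y
  b2 : N.b y = x
  w1 : N.w y = z
  w2 : N.w z = y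
  ne : N.lab x ≠ N.lab y
  cb : N.cb x + N.cb y = -4
  cw : N.cw y + N.cw z = 4

lemma Par.of_pl (hP : N.Pl) (hx : x ∈ N.T) (hy : y ∈ N.T) (hz : z ∈ N.T) (hxz : x ≠ z)
    (b1 : N.b x = y) (b2 : N.b y = x) (w1 : N.w y = z) (w2 : N.w z = y) (ne : N.lab x ≠ N.lab y) :
    N.Par x y z := by
  obtain ⟨x1, x2, x3⟩ := mem_T.1 hx
  obtain ⟨y1, y2, y3⟩ := mem_T.1 hy
  obtain ⟨z1, z2, z3⟩ := mem_T.1 hz
  have hxy : x ≠ y := fun h => ne (by rw [h])
  have hyz : y ≠ z := by
    intro h
    apply ne
    have := N.hlab y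
    rw [b2, w1, ← h] at this
    exact this
  refine ⟨hx, hy, hz, hxz, b1, b2, w1, w2, ne, ?_, ?_⟩
  · have h := hP.white x x3
    rwa [cyc_two x3 (by rw [b1]; exact y3) (by rw [b1, b2]), b1, sum_pair hxy, if_neg] at h
    rw [mem_insert, mem_singleton, not_or]
    exact ⟨fun h => x1 h.symm, fun h => y1 h.symm⟩
  · have h := hP.black y y3
    rwa [cyc_two y3 (by rw [w1]; exact z3) (by rw [w1, w2]), w1, sum_pair hyz] at h

omit [DecidableEq V] in
lemma Par.lz (h : N.Par x y z) : N.lab z = N.lab x := by rw [← h.w1, ← N.hlab, h.b2]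

omit [DecidableEq V] in
lemma Par.xy (h : N.Par x y z) : x ≠ y := fun e => h.ne (by rw [e])

omit [DecidableEq V] in
lemma Par.zy (h : N.Par x y z) : z ≠ y := fun e => h.ne (by rw [← h.lz, e])

/-- **Three parallel strands.** -/
theorem K_of_par (h : N.Par x y z) (hi : M.i = N.i)
    (ho : M.o = N.o) (hl : ∀ a, a ≠ y → M.lab a = N.lab a)
    (hb : ∀ a, a ≠ x → a ≠ y → M.b a = N.b a ∧ M.cb a = N.cb a)
    (hw : ∀ a, a ≠ x → a ≠ y → a ≠ z → N.w a ≠ x → M.w a = N.w a ∧ M.cw a = N.cw a)
    (hr : ∀ a, a ≠ x → a ≠ y → a ≠ z → N.w a = x →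
      M.w a = z ∧ M.cw a = N.cw a + N.cb x + N.cw y)
    (hz : M.w z = N.w x ∧ M.cw z = N.cw z + N.cw x - N.cb x - 4) (S : Finset V) :
    M.K S = N.K S := by
  obtain ⟨x1, x2, x3⟩ := mem_T.1 h.hx
  obtain ⟨y1, y2, y3⟩ := mem_T.1 h.hy
  obtain ⟨z1, z2, z3⟩ := mem_T.1 h.hz
  have hzx := h.hxz.symm
  have hlp : N.lab (N.w x) = N.lab y := by rw [← N.hlab, h.b1]
  have hlq : N.lab (N.b z) = N.lab y := by rw [N.hlab, h.w2]
  have hp : N.w x ∈ N.E ∧ N.w x ≠ x ∧ N.w x ≠ y ∧ N.w x ≠ z := by
    refine ⟨w_mem x3, fun e => h.ne ?_, fun e => hzx (N.w.injective (h.w2.trans e.symm)), fun e => ?_⟩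
    · rw [← hlp, e]
    · exact h.xy (N.w.injective (e.trans h.w1.symm))
  have hq : N.b z ∈ N.E ∧ N.b z ≠ x ∧ N.b z ≠ y ∧ N.b z ≠ z := by
    refine ⟨b_mem z3, fun e => ?_, fun e => h.hxz (N.b.injective (h.b1.trans e.symm)), fun e => ?_⟩
    · exact h.zy (N.b.injective (e.trans h.b2.symm))
    · apply h.ne
      rw [← hlq, e, h.lz]
  have hMl : ∀ a, a ≠ x → a ≠ y → M.lab (M.w a) = N.lab (N.w a) := by
    intro a h1 h2
    rw [← M.hlab, (hb a h1 h2).1, hl _ (fun e => h1 (N.b.injective (e.trans h.b1.symm))), N.hlab]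
  unfold K
  rw [hi, ho]
  refine idx_ret₂ (P := fun a => a ∈ N.E ∧ a ≠ x ∧ a ≠ y ∧ a ≠ z) ⟨N.ho, x1.symm, y1.symm, z1.symm⟩
    ⟨N.hi, x2.symm, y2.symm, z2.symm⟩ ?_
  rintro a ⟨aE, ax, ay, az⟩
  -- steps of `N` at `x`, `y`, `z`
  by_cases hu : N.lab x ∈ S
  · -- black plate at the tail of `x`
    have sy := go_b (N := N) (S := S) h.b2 hu
    by_cases hbz : N.b a = z
    · have sa := go_b (N := N) (S := S) hbz (by rw [h.lz]; exact hu)
      have ma := go_b (N := M) (S := S) (x := a) (y := z) (by rw [(hb a ax ay).1, hbz])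
        (by rw [hl z h.zy, h.lz]; exact hu)
      rw [(hb a ax ay).2] at ma
      by_cases hv : N.lab y ∈ S
      · have sz := go_b (N := N) (S := S) (x := z) rfl (by rw [hlq]; exact hv)
        have mz := go_b (N := M) (S := S) (x := z) (hb z hzx h.zy).1
          (by rw [hl _ hq.2.2.1, hlq]; exact hv)
        rw [(hb z hzx h.zy).2] at mz
        exact ⟨_, _, retAt_two ma.1 mz.1 (fun e => e.2.2.2 rfl) hq rfl,
          retAt_two sa.1 sz.1 (fun e => e.2.2.2 rfl) hq (by rw [sa.2, sz.2, ma.2, mz.2])⟩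
      · have sz := go_w (N := N) (S := S) h.w2 hv
        have sx := go_w (N := N) (S := S) (x := x) rfl (by rw [hlp]; exact hv)
        have mz := go_w (N := M) (S := S) (x := z) hz.1 (by rw [hl _ hp.2.2.1, hlp]; exact hv)
        rw [hz.2] at mz
        refine ⟨_, _, retAt_two ma.1 mz.1 (fun e => e.2.2.2 rfl) hp rfl,
          retAt_four sa.1 sz.1 sy.1 sx.1 (fun e => e.2.2.2 rfl) (fun e => e.2.2.1 rfl)
            (fun e => e.2.1 rfl) hp ?_⟩
        rw [sa.2, sz.2, sy.2, sx.2, ma.2, mz.2]
        have := h.cb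
        linarith
    · -- common step
      have key : M.step S a = N.step S a ∧ M.cost S a = N.cost S a ∧ N.step S a ≠ x ∧
          N.step S a ≠ y ∧ N.step S a ≠ z := by
        by_cases hS : N.lab (N.w a) ∈ S
        · have s1 := go_b (N := N) (S := S) (x := a) rfl (by rw [N.hlab]; exact hS)
          have m1 := go_b (N := M) (S := S) (x := a) rfl (by rw [M.hlab, hMl a ax ay]; exact hS)
          rw [(hb a ax ay).1, (hb a ax ay).2] at m1
          refine ⟨m1.1.trans s1.1.symm, m1.2.trans s1.2.symm, ?_, ?_, ?_⟩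
          · rw [s1.1]; exact fun e => ay (N.b.injective (e.trans h.b2.symm))
          · rw [s1.1]; exact fun e => ax (N.b.injective (e.trans h.b1.symm))
          · rw [s1.1]; exact hbz
        · have hwx : N.w a ≠ x := fun e => hS (by rw [e]; exact hu)
          have s1 := go_w (N := N) (S := S) (x := a) rfl hS
          have m1 := go_w (N := M) (S := S) (x := a) rfl (by rw [hMl a ax ay]; exact hS)
          rw [(hw a ax ay az hwx).1, (hw a ax ay az hwx).2] at m1
          refine ⟨m1.1.trans s1.1.symm, m1.2.trans s1.2.symm, ?_, ?_, ?_⟩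
          · rw [s1.1]; exact hwx
          · rw [s1.1]; exact fun e => az (N.w.injective (e.trans h.w2.symm))
          · rw [s1.1]; exact fun e => ay (N.w.injective (e.trans h.w1.symm))
      exact ⟨_, _, retAt_one key.1 ⟨step_mem aE, key.2.2⟩ key.2.1,
        retAt_one rfl ⟨step_mem aE, key.2.2⟩ rfl⟩
  · -- white plate at the tail of `x`
    have sy := go_w (N := N) (S := S) h.w1 (by rw [h.lz]; exact hu)
    by_cases hwx : N.w a = x
    · have sa := go_w (N := N) (S := S) hwx hu
      obtain ⟨r1, r2⟩ := hr a ax ay az hwx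
      have ma := go_w (N := M) (S := S) r1 (by rw [hl z h.zy, h.lz]; exact hu)
      rw [r2] at ma
      by_cases hv : N.lab y ∈ S
      · have sx := go_b (N := N) (S := S) h.b1 hv
        have sz := go_b (N := N) (S := S) (x := z) rfl (by rw [hlq]; exact hv)
        have mz := go_b (N := M) (S := S) (x := z) (hb z hzx h.zy).1
          (by rw [hl _ hq.2.2.1, hlq]; exact hv)
        rw [(hb z hzx h.zy).2] at mz
        refine ⟨_, _, retAt_two ma.1 mz.1 (fun e => e.2.2.2 rfl) hq rfl,
          retAt_four sa.1 sx.1 sy.1 sz.1 (fun e => e.2.1 rfl) (fun e => e.2.2.1 rfl)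
            (fun e => e.2.2.2 rfl) hq ?_⟩
        rw [sa.2, sx.2, sy.2, sz.2, ma.2, mz.2]
      · have sx := go_w (N := N) (S := S) (x := x) rfl (by rw [hlp]; exact hv)
        have mz := go_w (N := M) (S := S) (x := z) hz.1 (by rw [hl _ hp.2.2.1, hlp]; exact hv)
        rw [hz.2] at mz
        refine ⟨_, _, retAt_two ma.1 mz.1 (fun e => e.2.2.2 rfl) hp rfl,
          retAt_two sa.1 sx.1 (fun e => e.2.1 rfl) hp ?_⟩
        rw [sa.2, sx.2, ma.2, mz.2]
        have := h.cw
        linarith
    · have key : M.step S a = N.step S a ∧ M.cost S a = N.cost S a ∧ N.step S a ≠ x ∧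
          N.step S a ≠ y ∧ N.step S a ≠ z := by
        by_cases hS : N.lab (N.w a) ∈ S
        · have hbz : N.b a ≠ z := fun e => hu (by rw [← h.lz, ← e, N.hlab]; exact hS)
          have s1 := go_b (N := N) (S := S) (x := a) rfl (by rw [N.hlab]; exact hS)
          have m1 := go_b (N := M) (S := S) (x := a) rfl (by rw [M.hlab, hMl a ax ay]; exact hS)
          rw [(hb a ax ay).1, (hb a ax ay).2] at m1
          refine ⟨m1.1.trans s1.1.symm, m1.2.trans s1.2.symm, ?_, ?_, ?_⟩
          · rw [s1.1]; exact fun e => ay (N.b.injective (e.trans h.b2.symm))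
          · rw [s1.1]; exact fun e => ax (N.b.injective (e.trans h.b1.symm))
          · rw [s1.1]; exact hbz
        · have s1 := go_w (N := N) (S := S) (x := a) rfl hS
          have m1 := go_w (N := M) (S := S) (x := a) rfl (by rw [hMl a ax ay]; exact hS)
          rw [(hw a ax ay az hwx).1, (hw a ax ay az hwx).2] at m1
          refine ⟨m1.1.trans s1.1.symm, m1.2.trans s1.2.symm, ?_, ?_, ?_⟩
          · rw [s1.1]; exact hwx
          · rw [s1.1]; exact fun e => az (N.w.injective (e.trans h.w2.symm))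
          · rw [s1.1]; exact fun e => ay (N.w.injective (e.trans h.w1.symm))
      exact ⟨_, _, retAt_one key.1 ⟨step_mem aE, key.2.2⟩ key.2.1,
        retAt_one rfl ⟨step_mem aE, key.2.2⟩ rfl⟩

section par

variable (h : N.Par x y z) (v : V)

include h in
lemma Par.spl : N.Spl y where
  hx := (mem_T.1 h.hy).2.2
  hi := (mem_T.1 h.hy).2.1
  ho := (mem_T.1 h.hy).1
  hn := by
    rw [show N.b⁻¹ y = x by rw [← h.b1, pinv_self], show N.w⁻¹ y = z by rw [← h.w2, pinv_self]]
    exact h.hxz

/-- the strand `y` is cut off its plate -/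
def par1 : Net α V := splitB h.spl v

lemma par1_w (a : α) : (par1 h v).w a = if a = x then y else if a = z then N.w x else N.w a := by
  change (N.w * swap (N.b⁻¹ y) (N.w⁻¹ y)) a = _
  rw [show N.b⁻¹ y = x by rw [← h.b1, pinv_self], show N.w⁻¹ y = z by rw [← h.w2, pinv_self],
    Perm.mul_apply]
  split_ifs with h1 h2
  · rw [h1, swap_apply_left, h.w2]
  · rw [h2, swap_apply_right]
  · rw [swap_apply_of_ne_of_ne h1 h2]

lemma par1_cw (a : α) : (par1 h v).cw a =
    if a = x then N.cb x else if a = z then N.cw z + N.cw x - N.cb x - 4 else N.cw a := by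
  change (if a = N.b⁻¹ y then N.cb a else if a = N.w⁻¹ y then
    N.cw a + N.cw (N.b⁻¹ y) - N.cb (N.b⁻¹ y) - 4 else N.cw a) = _
  rw [show N.b⁻¹ y = x by rw [← h.b1, pinv_self], show N.w⁻¹ y = z by rw [← h.w2, pinv_self]]
  split_ifs with h1 h2
  · rw [h1]
  · rw [h2]
  · rfl

lemma Par.triv : (par1 h v).Triv y where
  hx := (mem_T.1 h.hy).2.2
  hi := (mem_T.1 h.hy).2.1
  ho := (mem_T.1 h.hy).1
  ht := by
    have h1 : (par1 h v).w⁻¹ y = x := by
      rw [Perm.inv_eq_iff_eq, par1_w, if_pos rfl]
    rw [h1]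
    change N.b⁻¹ y = x
    rw [← h.b1, pinv_self]
  hc := by
    have h1 : (par1 h v).w⁻¹ y = x := by
      rw [Perm.inv_eq_iff_eq, par1_w, if_pos rfl]
    rw [h1, par1_cw, if_pos rfl]
    rfl

/-- the trivial plate is deleted -/
def par2 : Net α V := deltriv (h.triv v)

lemma par2_b {a : α} (ha : a ≠ y) : (par2 h v).b a = if a = x then x else N.b a := by
  change del y N.b a = _
  rw [del_apply ha]
  by_cases h1 : a = x
  · rw [if_pos h1, h1, if_pos h.b1, h.b2]
  · rw [if_neg h1, if_neg]
    exact fun e => h1 (N.b.injective (e.trans h.b1.symm))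

lemma par2_w {a : α} (ha : a ≠ y) : (par2 h v).w a =
    if a = x then z else if a = z then N.w x else N.w a := by
  change del y (par1 h v).w a = _
  rw [del_apply ha, par1_w, par1_w, if_neg h.xy.symm, if_neg h.zy.symm, h.w1]
  have hpy : N.w x ≠ y := fun e => h.hxz (N.w.injective (e.trans h.w2.symm))
  by_cases h1 : a = x
  · rw [if_pos h1, if_pos h1, if_pos rfl]
  · rw [if_neg h1, if_neg h1]
    by_cases h2 : a = z
    · simp only [if_pos h2, if_neg hpy]
    · simp only [if_neg h2]
      rw [if_neg]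
      exact fun e => h2 (N.w.injective (e.trans h.w2.symm))

lemma Par.contr : (par2 h v).Contr x id where
  hx := mem_erase.2 ⟨h.xy, (mem_T.1 h.hx).2.2⟩
  hi := (mem_T.1 h.hx).2.1
  ho := (mem_T.1 h.hx).1
  wi := by
    rw [par2_w h v h.xy, if_pos rfl]
    exact (mem_T.1 h.hz).2.1
  wo := by
    rw [par2_w h v h.xy, if_pos rfl]
    exact (mem_T.1 h.hz).1
  hq := by
    rw [par2_w h v h.xy, if_pos rfl]
    change Function.update N.lab y v x = Function.update N.lab y v z
    rw [Function.update_of_ne h.xy, Function.update_of_ne h.zy, h.lz]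

/-- **The network with one strand in the place of three parallel strands.** -/
def par : Net α V := Net.contr (h.contr v)

/-- **R4.** -/
theorem K_par (S : Finset V) : (par h v).K S = N.K S := by
  refine K_of_par (M := par h v) h rfl rfl ?_ ?_ ?_ ?_ ?_ S
  · intro a ha
    exact Function.update_of_ne ha _ _
  · intro a ax ay
    have e1 : (par2 h v).b a = N.b a := by rw [par2_b h v ay, if_neg ax]
    have e2 : N.b a ≠ x := fun e => ay (N.b.injective (e.trans h.b2.symm))
    have e3 : N.b a ≠ y := fun e => ax (N.b.injective (e.trans h.b1.symm))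
    constructor
    · change del x (par2 h v).b a = _
      rw [del_apply ax, e1, if_neg e2]
    · change (if (par2 h v).b a = x then _ else (if N.b a = y then _ else N.cb a)) = _
      rw [e1, if_neg e2, if_neg e3]
  · intro a ax ay az hwa
    have e1 : (par2 h v).w a = N.w a := by rw [par2_w h v ay, if_neg ax, if_neg az]
    have e3 : N.w a ≠ y := fun e => az (N.w.injective (e.trans h.w2.symm))
    constructor
    · change del x (par2 h v).w a = _
      rw [del_apply ax, e1, if_neg hwa]
    · change (if (par2 h v).w a = x then _ else (if (par1 h v).w a = y then _ else (par1 h v).cw a)) = _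
      rw [e1, if_neg hwa, par1_w, if_neg ax, if_neg az, if_neg e3, par1_cw, if_neg ax, if_neg az]
  · intro a ax ay az hwa
    have e1 : (par2 h v).w a = x := by rw [par2_w h v ay, if_neg ax, if_neg az, hwa]
    have e3 : N.w a ≠ y := by rw [hwa]; exact h.xy
    constructor
    · change del x (par2 h v).w a = _
      rw [del_apply ax, e1, if_pos rfl, par2_w h v h.xy, if_pos rfl]
    · change (if (par2 h v).w a = x then (if (par1 h v).w a = y then _ else (par1 h v).cw a) +
        (if (par1 h v).w x = y then (par1 h v).cw x + (par1 h v).cw y else _) else _) = _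
      rw [e1, if_pos rfl, par1_w, if_neg ax, if_neg az, if_neg e3, par1_w, if_pos rfl, if_pos rfl,
        par1_cw, if_neg ax, if_neg az, par1_cw, if_pos rfl, par1_cw, if_neg h.xy.symm,
        if_neg h.zy.symm]
      ring
  · have e1 : (par2 h v).w z = N.w x := by
      rw [par2_w h v h.zy, if_neg h.hxz.symm, if_pos rfl]
    have hpx : N.w x ≠ x := fun e => h.ne (by
      have := N.hlab x
      rw [h.b1, e] at this
      exact this.symm)
    have hpy : N.w x ≠ y := fun e => h.hxz (N.w.injective (e.trans h.w2.symm))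
    constructor
    · change del x (par2 h v).w z = _
      rw [del_apply h.hxz.symm, e1, if_neg hpx]
    · change (if (par2 h v).w z = x then _ else (if (par1 h v).w z = y then _ else (par1 h v).cw z)) = _
      rw [e1, if_neg hpx, par1_w, if_neg h.hxz.symm, if_pos rfl, if_neg hpy, par1_cw,
        if_neg h.hxz.symm, if_pos rfl]

lemma par_E : (par h v).E = (N.E.erase y).erase x := rfl

lemma par_i : (par h v).i = N.i := rfl

lemma par_o : (par h v).o = N.o := rfl

end par

end Net

end Pool.Agent.ZF
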